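import Pool.Agent.Lib.MP_730078_an.Final
import Pool.Agent.Lib.MP_730078_an.Amp

open MeasureTheory Set Filter Topology Complex
open scoped ENNReal Real

namespace Pool.Agent.Lib.MP_730078_an

noncomputable section

theorem block3 (p : ℝ≥0∞) (hp : p ≠ ∞) (H : ℝ) {ε : ℝ} (hε : 0 < ε) :
    ∃ Φ ∈ V S0, eLpNorm (fun x => Φ (x, 0)) p volume ≤ ENNReal.ofReal ε ∧
      ∃ κ : ℝ, 0 < κ ∧ ∃ B : ℝ, ∃ G : Set T3, MeasurableSet G ∧
        ENNReal.ofReal (1 / 32) ≤ volume G ∧
        ∀ x ∈ G, ∃ y ∈ K κ, ‖y‖ ≤ B ∧ H ≤ ‖Φ (x, y)‖ := by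
  obtain ⟨Φ, h1, h2, κ, hκ, B, G, hG, h3, h4⟩ :=
    block2 p hp H (ε := min ε (1 / 2)) (lt_min hε (by norm_num))
  refine ⟨Φ, h1, h2.trans (ENNReal.ofReal_le_ofReal (min_le_left _ _)), κ, hκ, B, Gᶜ, hG.compl,
    ?_, h4⟩
  rw [prob_compl_eq_one_sub hG]
  refine ENNReal.le_sub_of_add_le_right (measure_ne_top _ _) ?_
  refine (add_le_add le_rfl (h3.trans (ENNReal.ofReal_le_ofReal (min_le_right _ _)))).trans ?_
  rw [← ENNReal.ofReal_add (by norm_num) (by norm_num)]
  exact ENNReal.ofReal_le_one.2 (by norm_num)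

/-- A periodic holomorphic function with bounded `L^p` norms which is unbounded as `y → 0` in the
cone over almost every point. -/
theorem series3 (p : ℝ≥0∞) (hp1 : 1 ≤ p) (hp2 : p ≠ ∞) :
    ∃ F : T3 × R3 → ℂ,
      (∀ z : C3, ∀ κ : ℝ, 0 < κ → im3 z ∈ K κ → DifferentiableAt ℂ (lift F) z) ∧
      (∀ κ : ℝ, 0 < κ → ∀ y ∈ K κ, Continuous (fun x => F (x, y)) ∧
        eLpNorm (fun x => F (x, y)) p volume ≤ ENNReal.ofReal 2) ∧
      ∀ᵐ x : T3, ∀ j : ℕ, ∃ κ : ℝ, 0 < κ ∧ ∃ y ∈ K κ, ‖y‖ < 1 / (j + 1) ∧ j < ‖F (x, y)‖ := by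
  have hblock := fun (Kk : ℝ) (k : ℕ) =>
    block3 p hp2 Kk (ε := (1 / 2 : ℝ) ^ k) (by positivity)
  choose Φ' hΦm' hΦp' κ' hκ' B' G' hG' hGv' hG using hblock
  choose A' hA0' hA' f' hf' hf'' using fun Kk k => V_decay (hΦm' Kk k)
  let S : ℕ → ℝ := fun k => Nat.rec 0 (fun k s => s + A' (k + 3 + s) k) k
  let Φ : ℕ → T3 × R3 → ℂ := fun k => Φ' (k + 3 + S k) k
  let A : ℕ → ℝ := fun k => A' (k + 3 + S k) k
  let κ : ℕ → ℝ := fun k => κ' (k + 3 + S k) k
  let B : ℕ → ℝ := fun k => B' (k + 3 + S k) k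
  let G : ℕ → Set T3 := fun k => G' (k + 3 + S k) k
  have hS : ∀ k, S k = ∑ l ∈ Finset.range k, A l := by
    intro k
    induction k with
    | zero => rfl
    | succ k ih => rw [Finset.sum_range_succ, ← ih]
  have hA0 : ∀ l, 0 ≤ A l := fun l => hA0' _ _
  obtain ⟨N, ε, hN, hε1, hε2, hdvd, hNB, hNA⟩ := exists_scales A B κ (fun k => hκ' _ _)
  have hN1 : ∀ l, (1 : ℝ) ≤ N l := fun l => by exact_mod_cast hN l
  let u : ℕ → T3 × R3 → ℂ := fun l => dil (N l) (Φ l)
  have hum : ∀ l, u l ∈ V S0 := fun l => dil_mem (hN l) (hΦm' _ _)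
  have hu1 : ∀ l (c : ℝ), 0 ≤ c → ∀ y ∈ K c, ∀ x, ‖u l (x, y)‖ ≤ A l * Real.exp (-(N l * c)) :=
    fun l c hc y hy x => hA' _ _ (N l * c) (by positivity) _ (smul_mem_K (by positivity) hy) _
  have hsmall : ∀ l (c : ℝ), ε l ≤ c → A l * N l * Real.exp (-(N l * c)) ≤ (1 / 2) ^ l := by
    intro l c hc
    refine le_trans ?_ (hNA l)
    have := hA0 l
    gcongr
  have hexp : ∀ l (c : ℝ), 0 ≤ c → Real.exp (-(N l * c)) ≤ 1 := fun l c hc =>
    Real.exp_le_one_iff.2 (neg_nonpos.2 (by positivity))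
  have hu2 : ∀ l (c : ℝ), 0 ≤ c → ∀ y ∈ K c, ∀ x, ‖u l (x, y)‖ ≤ A l := fun l c hc y hy x =>
    (hu1 l c hc y hy x).trans (mul_le_of_le_one_right (hA0 l) (hexp l c hc))
  have hu3 : ∀ l (c : ℝ), 0 ≤ c → ε l ≤ c → ∀ y ∈ K c, ∀ x, ‖u l (x, y)‖ ≤ (1 / 2) ^ l := by
    intro l c hc hc' y hy x
    refine (hu1 l c hc y hy x).trans (le_trans ?_ (hsmall l c hc'))
    have := hA0 l
    have := hN1 l
    gcongr
    nlinarith
  have hl0 : ∀ c : ℝ, 0 < c → ∃ l₀ : ℕ, ∀ l, ¬ l < l₀ → ε l ≤ c := by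
    intro c hc
    obtain ⟨l₀, hl₀⟩ := exists_nat_one_div_lt hc
    refine ⟨l₀, fun l hl => (hε1 l).trans (le_trans ?_ hl₀.le)⟩
    have : (l₀ : ℝ) ≤ l := by exact_mod_cast not_lt.1 hl
    gcongr
  have hbd : ∀ c : ℝ, 0 < c → ∃ b : ℕ → ℝ, Summable b ∧
      ∀ l, ∀ y ∈ K c, ∀ x, ‖u l (x, y)‖ ≤ b l := by
    intro c hc
    obtain ⟨l₀, hl₀⟩ := hl0 c hc
    refine ⟨_, (hasSum_bnd A l₀).summable, fun l y hy x => ?_⟩
    split_ifs with h
    · exact (hu2 l c hc.le y hy x).trans (le_add_of_nonneg_right (by positivity))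
    · rw [zero_add]; exact hu3 l c hc.le (hl₀ l h) y hy x
  have hsum : ∀ c : ℝ, 0 < c → ∀ y ∈ K c, ∀ x, Summable fun l => u l (x, y) := by
    intro c hc y hy x
    obtain ⟨b, hb, hb'⟩ := hbd c hc
    exact Summable.of_norm_bounded hb (fun l => hb' l y hy x)
  let F : T3 × R3 → ℂ := fun w => ∑' l, u l w
  have hFc : ∀ c : ℝ, 0 < c → ∀ y ∈ K c, Continuous fun x => F (x, y) := by
    intro c hc y hy
    obtain ⟨b, hb, hb'⟩ := hbd c hc
    exact continuous_tsum (fun l => (V_continuous (hum l)).comp (by fun_prop)) hb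
      (fun l x => hb' l y hy x)
  refine ⟨F, ?_, fun c hc y hy => ⟨hFc c hc y hy, ?_⟩, ?_⟩
  · intro z c hc hz
    obtain ⟨l₀, hl₀⟩ := hl0 (c / 2) (by positivity)
    let O : Set C3 := {w | c / 2 < w.1.im ∧ c / 2 < w.2.2.im ∧
      w.2.1.im ^ 2 < (w.1.im - c / 2) * (w.2.2.im - c / 2)}
    have hO : IsOpen O := by
      have c1 : Continuous fun w : C3 => w.1.im := by fun_prop
      have c2 : Continuous fun w : C3 => w.2.2.im := by fun_prop
      have c3 : Continuous fun w : C3 => w.2.1.im ^ 2 := by fun_prop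
      have c4 : Continuous fun w : C3 => (w.1.im - c / 2) * (w.2.2.im - c / 2) := by fun_prop
      exact (isOpen_lt continuous_const c1).inter
        ((isOpen_lt continuous_const c2).inter (isOpen_lt c3 c4))
    have hzO : z ∈ O := by
      obtain ⟨h1, h2, h3⟩ := hz
      simp only [im3] at h1 h2 h3
      refine ⟨by linarith, by linarith, h3.trans_lt ?_⟩
      nlinarith
    obtain ⟨r, hr, hball⟩ := Metric.isOpen_iff.1 hO z hzO
    have hK : ∀ w ∈ Metric.ball z r, im3 w ∈ K (c / 2) := fun w hw =>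
      ⟨(hball hw).1.le, (hball hw).2.1.le, (hball hw).2.2.le⟩
    have key := hasFDerivAt_tsum_of_isPreconnected (f := fun l => lift (u l))
      (f' := fun l w => (N l : ℂ) • f' (l + 3 + S l) l ((N l : ℂ) • w))
      (hasSum_bnd (fun l => A l * N l) l₀).summable Metric.isOpen_ball
      (convex_ball z r).isPreconnected ?_ ?_ (Metric.mem_ball_self hr)
      (hsum c hc _ hz _) (Metric.mem_ball_self hr)
    · exact key.differentiableAt
    · intro l w _
      have e : lift (u l) = lift (Φ l) ∘ fun w => (N l : ℂ) • w := funext (lift_dil _ _)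
      rw [e]
      have := (hf' (l + 3 + S l) l ((N l : ℂ) • w)).comp w
        ((hasFDerivAt_id w).const_smul (N l : ℂ))
      convert this using 1
      ext <;> simp
    · intro l w hw
      have h1 := hf'' (l + 3 + S l) l (N l * (c / 2)) (by positivity) ((N l : ℂ) • w)
        (by rw [im3_smul]; exact smul_mem_K (by positivity) (hK w hw))
      rw [norm_smul, Complex.norm_natCast]
      have h2 : (N l : ℝ) * ‖f' (l + 3 + S l) l ((N l : ℂ) • w)‖ ≤
          A l * N l * Real.exp (-(N l * (c / 2))) := by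
        calc _ ≤ N l * (A l * Real.exp (-(N l * (c / 2)))) := by gcongr
          _ = _ := by ring
      refine h2.trans ?_
      split_ifs with h
      · refine le_trans ?_ (le_add_of_nonneg_right (by positivity))
        exact mul_le_of_le_one_right (mul_nonneg (hA0 l) (by positivity))
          (hexp l _ (by positivity))
      · rw [zero_add]; exact hsmall l _ (hl₀ l h)
  · have hmeas : ∀ l, AEStronglyMeasurable (fun x => u l (x, y)) volume := fun l =>
      ((V_continuous (hum l)).comp (by fun_prop)).aestronglyMeasurable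
    have hul : ∀ l, eLpNorm (fun x => u l (x, y)) p volume ≤ ENNReal.ofReal ((1 / 2) ^ l) := by
      intro l
      refine (V_eLpNorm_le (hum l) p hp1 (K_mono hc.le hy)).trans ?_
      have e : (fun x => u l (x, 0)) = (fun x => Φ l (x, 0)) ∘ fun x : T3 => (N l : ℤ) • x := by
        funext x; simp [u, dil]
      have hc0 : Continuous fun x : T3 => Φ l (x, 0) :=
        (V_continuous (hΦm' _ _)).comp (by fun_prop)
      rw [e, eLpNorm_comp_measurePreserving hc0.aestronglyMeasurable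
        (Measure.measurePreserving_zsmul volume (n := (N l : ℤ)) (by exact_mod_cast (hN l).ne'))]
      exact hΦp' _ _
    refine (Lp.eLpNorm_lim_le_liminf_eLpNorm
      (f := fun n => ∑ l ∈ Finset.range n, fun x => u l (x, y))
      (fun n => Finset.aestronglyMeasurable_sum _ fun l _ => hmeas l) _
      (Eventually.of_forall fun x => ?_)).trans ?_
    · simpa using (hsum c hc y hy x).hasSum.tendsto_sum_nat
    · refine liminf_le_of_frequently_le' (Frequently.of_forall fun n => ?_)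
      refine (eLpNorm_sum_le (fun l _ => hmeas l) hp1).trans ?_
      refine (Finset.sum_le_sum fun l _ => hul l).trans ?_
      rw [← ENNReal.ofReal_sum_of_nonneg (fun _ _ => by positivity)]
      exact ENNReal.ofReal_le_ofReal (sum_le_hasSum _ (fun _ _ => by positivity)
        hasSum_geometric_two)
  · let U : ℕ → Set T3 := fun j =>
      {x | ∃ c : ℝ, 0 < c ∧ ∃ y ∈ K c, ‖y‖ < 1 / (j + 1) ∧ j < ‖F (x, y)‖}
    have hUo : ∀ j, IsOpen (U j) := by
      intro j
      rw [isOpen_iff_mem_nhds]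
      rintro x ⟨c, hc, y, hy, h1, h2⟩
      filter_upwards [(hFc c hc y hy).norm.continuousAt.eventually (lt_mem_nhds h2)] with x' hx'
      exact ⟨c, hc, y, hy, h1, hx'⟩
    have hUa : Antitone U := by
      rintro i j hij x ⟨c, hc, y, hy, h1, h2⟩
      have : (i : ℝ) ≤ j := by exact_mod_cast hij
      refine ⟨c, hc, y, hy, h1.trans_le ?_, this.trans_lt h2⟩
      gcongr
    have hUv : ∀ j, ENNReal.ofReal (1 / 32) ≤ volume (U j) := by
      intro j
      obtain ⟨k, hk1, hk2⟩ : ∃ k : ℕ, j ≤ k ∧ (1 / 2 : ℝ) ^ k < 1 / (j + 1) :=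
        ((eventually_ge_atTop j).and
          ((tendsto_pow_atTop_nhds_zero_of_lt_one (by norm_num) (by norm_num)).eventually
            (eventually_lt_nhds (by positivity)))).exists
      have hmp := Measure.measurePreserving_zsmul (volume : Measure T3)
        (n := (N k : ℤ)) (by exact_mod_cast (hN k).ne')
      refine (hGv' (k + 3 + S k) k).trans ?_
      rw [← hmp.measure_preimage (hG' _ _).nullMeasurableSet]
      apply measure_mono
      intro x hx
      obtain ⟨y, hy, hy1, hy2⟩ := hG _ _ _ hx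
      have hNk : (0 : ℝ) < N k := by linarith [hN1 k]
      have hc : 0 < (N k : ℝ)⁻¹ * κ k := mul_pos (inv_pos.2 hNk) (hκ' _ _)
      have hy' : (N k : ℝ)⁻¹ • y ∈ K ((N k : ℝ)⁻¹ * κ k) := smul_mem_K (by positivity) hy
      refine ⟨_, hc, _, hy', ?_, ?_⟩
      · rw [norm_smul, norm_inv, Real.norm_natCast]
        refine lt_of_le_of_lt ?_ hk2
        rw [inv_mul_le_iff₀ hNk, mul_comm]
        exact hy1.trans (hNB k)
      · have e1 : u k (x, (N k : ℝ)⁻¹ • y) = Φ k ((N k : ℤ) • x, y) := by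
          simp only [u, dil, smul_smul, mul_inv_cancel₀ hNk.ne', one_smul]
        have e2 := (hsum _ hc _ hy' x).tsum_eq_add_tsum_ite k
        have h3 : ‖∑' l, ite (l = k) 0 (u l (x, (N k : ℝ)⁻¹ • y))‖ ≤ S k + 2 := by
          rw [hS]
          refine tsum_of_norm_bounded (hasSum_bnd A k) fun l => ?_
          by_cases h : l = k
          · simp [h]
          · rw [if_neg h]
            split_ifs with h'
            · exact (hu2 l _ hc.le _ hy' x).trans (le_add_of_nonneg_right (by positivity))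
            · rw [zero_add]
              refine hu3 l _ hc.le ?_ _ hy' x
              rw [← div_eq_inv_mul]
              exact hε2 k l (by omega)
        have h4 := norm_sub_norm_le (u k (x, (N k : ℝ)⁻¹ • y))
          (-∑' l, ite (l = k) 0 (u l (x, (N k : ℝ)⁻¹ • y)))
        rw [sub_neg_eq_add, norm_neg, ← e2, e1] at h4
        have h5 : (j : ℝ) ≤ k := by exact_mod_cast hk1
        change (j : ℝ) < ‖∑' l, u l (x, (N k : ℝ)⁻¹ • y)‖
        change (k : ℝ) + 3 + S k ≤ ‖Φ k ((N k : ℤ) • x, y)‖ at hy2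
        linarith
    have hDv : ENNReal.ofReal (1 / 32) ≤ volume (⋂ j, U j) :=
      ge_of_tendsto' (tendsto_measure_iInter_atTop
        (fun j => (hUo j).measurableSet.nullMeasurableSet) hUa ⟨0, measure_ne_top _ _⟩) hUv
    have hinv : ∀ (a : T3) (m : ℕ), 0 < m → (m : ℤ) • a = 0 → ∀ x ∈ ⋂ j, U j, a + x ∈ ⋂ j, U j := by
      intro a m hm ha x hx
      rw [mem_iInter] at hx ⊢
      intro j
      obtain ⟨i, hi⟩ := exists_nat_ge (∑ l ∈ Finset.range m, 2 * A l + 2)
      obtain ⟨c, hc, y, hy, h1, h2⟩ := hx (j + i)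
      refine ⟨c, hc, y, hy, h1.trans_le ?_, ?_⟩
      · push_cast
        have : (0 : ℝ) ≤ i := by positivity
        gcongr
        linarith
      · have h3 : ‖F (x, y) - F (a + x, y)‖ ≤ ∑ l ∈ Finset.range m, 2 * A l + 2 := by
          simp only [F]
          rw [← (hsum c hc y hy x).tsum_sub (hsum c hc y hy (a + x))]
          refine tsum_of_norm_bounded (hasSum_bnd (fun l => 2 * A l) m) fun l => ?_
          split_ifs with h
          · refine le_trans ?_ (le_add_of_nonneg_right (by positivity))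
            refine (norm_sub_le _ _).trans ?_
            linarith [hu2 l c hc.le y hy x, hu2 l c hc.le y hy (a + x)]
          · obtain ⟨d, hd⟩ := hdvd m l hm (not_lt.1 h)
            have : (N l : ℤ) • a = 0 := by
              rw [hd, Nat.cast_mul, mul_comm, mul_smul, ha, smul_zero]
            simp [u, dil, this]
        have h4 := norm_sub_norm_le (F (x, y)) (F (a + x, y))
        push_cast at h2
        linarith
    have hconst : EventuallyConst (⋂ j, U j) (ae (volume : Measure T3)) := by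
      have : Measure.InnerRegular (volume : Measure T3) :=
        instInnerRegularOfIsCompletelyPseudoMetrizableSpace _
      have := ergodic_T3
      refine aeconst_of_dense_setOfPred_preimage_vadd_eq (M := T3)
        (MeasurableSet.iInter fun j => (hUo j).measurableSet).nullMeasurableSet
        (dense_torsion.mono ?_)
      rintro a ⟨m, hm, ha⟩
      ext x
      constructor
      · intro hx
        have := hinv (-a) m hm (by rw [smul_neg, ha, neg_zero]) _ hx
        simpa using this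
      · exact hinv a m hm ha x
    rcases eventuallyConst_set'.1 hconst with h | h
    · rw [measure_congr h, measure_empty] at hDv
      norm_num at hDv
    · filter_upwards [h.mem_iff] with x hx
      exact mem_iInter.1 (hx.2 (mem_univ x))

theorem main3 (m : ℕ) (p : ℝ) (hp0 : 0 < p) :
    ∃ F : (Fin (m + 3) → ℂ) → ℂ, MemHardy (lightCone (m + 3)) p F ∧
      ∀ᵐ x : Fin (m + 3) → ℝ,
        ¬ ∃ L : ℂ, Tendsto (fun y => F (pt x y)) (𝓝[lightCone (m + 3)] 0) (𝓝 L) := by
  obtain ⟨F, hF1, hF2, hF3⟩ := series3 (ENNReal.ofReal (max p 1)) (by simp) ENNReal.ofReal_ne_top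
  obtain ⟨r, hr⟩ := exists_nat_gt ((m + 3) / p)
  rw [div_lt_iff₀ hp0] at hr
  refine ⟨fun z => lift F (LamC z) * (Pd z)⁻¹ ^ r, ⟨?_, ?_⟩, ?_⟩
  · rintro _ ⟨x, y, hy, rfl⟩
    obtain ⟨κ, hκ, hκ'⟩ := LamR_mem hy
    have h1 := hF1 (LamC (pt x y)) κ hκ (by rwa [im3_LamC])
    have h2 : Differentiable ℂ (LamC (m := m)) := by unfold LamC; fun_prop
    have h3 : Differentiable ℂ (Pd (m := m)) := by unfold Pd; fun_prop
    exact ((h1.comp _ (h2 _)).mul (((h3 _).inv (Pd_ne_zero x hy)).pow r)).differentiableWithinAt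
  · let w : (Fin (m + 3) → ℝ) → ℝ≥0∞ := fun x => ENNReal.ofReal ((3 / (1 + ‖x‖)) ^ (r * p))
    let w' : (Fin (m + 3) → ℝ) → ℝ≥0∞ := fun x =>
      ENNReal.ofReal (6 ^ (r * p)) * ENNReal.ofReal ((1 + ‖x‖) ^ (-(r * p)))
    have hw' : Measurable w' := by simp only [w']; fun_prop
    have hrp : 0 ≤ r * p := by positivity
    have hww : ∀ x u, ‖u‖ ≤ 1 → w x ≤ w' (x - u) := by
      intro x u hu
      simp only [w, w']
      rw [← ENNReal.ofReal_mul (by positivity), Real.rpow_neg (by positivity), ← div_eq_mul_inv,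
        ← Real.div_rpow (by norm_num) (by positivity)]
      gcongr ENNReal.ofReal (?_ ^ _)
      rw [div_le_div_iff₀ (by positivity) (by positivity)]
      linarith [norm_sub_le x u, norm_nonneg x]
    have hfin : ∫⁻ v, w' v < ∞ := by
      simp only [w']
      rw [lintegral_const_mul _ (by fun_prop)]
      refine ENNReal.mul_lt_top ENNReal.ofReal_lt_top (finite_integral_one_add_norm ?_)
      simpa using hr
    refine lt_of_le_of_lt (iSup₂_le fun y hy => ?_)
      (ENNReal.mul_lt_top hfin (ENNReal.rpow_lt_top_of_nonneg hp0.le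
        (ENNReal.ofReal_ne_top (r := 2))))
    obtain ⟨κ, hκ, hκ'⟩ := LamR_mem hy
    obtain ⟨hc, hL⟩ := hF2 κ hκ _ hκ'
    have hm : Measurable fun t : T3 => ‖F (t, LamR y)‖ₑ ^ p :=
      hc.measurable.enorm.pow_const p
    refine le_trans (lintegral_mono fun x => ?_) ((averaging hm hw' hww).trans ?_)
    · simp only [w]
      rw [lift_LamC, enorm_mul, ENNReal.mul_rpow_of_nonneg _ _ hp0.le]
      gcongr
      rw [← ofReal_norm, ENNReal.ofReal_rpow_of_nonneg (norm_nonneg _) hp0.le, norm_pow, norm_inv,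
        Real.rpow_natCast_mul (by positivity)]
      gcongr
      have := Pd_lower x hy
      have h0 : 0 < ‖Pd (pt x y)‖ := norm_pos_iff.2 (Pd_ne_zero x hy)
      rw [inv_eq_one_div, div_le_div_iff₀ h0 (by positivity)]
      linarith
    · gcongr
      have h1 : eLpNorm (fun t => F (t, LamR y)) (ENNReal.ofReal p) volume ≤ ENNReal.ofReal 2 :=
        (eLpNorm_le_eLpNorm_of_exponent_le (ENNReal.ofReal_le_ofReal (le_max_left p 1))
          hc.aestronglyMeasurable).trans hL
      rw [eLpNorm_eq_lintegral_rpow_enorm_toReal (by simpa using hp0) ENNReal.ofReal_ne_top,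
        ENNReal.toReal_ofReal hp0.le] at h1
      have h2 := ENNReal.rpow_le_rpow h1 hp0.le
      rwa [← ENNReal.rpow_mul, one_div_mul_cancel hp0.ne', ENNReal.rpow_one] at h2
  · obtain ⟨Z, hZ1, hZ2, hZ3⟩ := exists_measurable_superset_of_null (ae_iff.1 hF3)
    have hnull : volume (prj (m := m) ⁻¹' Z) = 0 := by
      have h := averaging (m := m) (Φ := Z.indicator 1) (measurable_one.indicator hZ2)
        (w := fun _ => 1) (w' := fun _ => 1) measurable_const (fun _ _ _ => le_rfl)
      rw [lintegral_indicator_one hZ2, hZ3, mul_zero] at h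
      rw [← lintegral_indicator_one (continuous_prj.measurable hZ2)]
      refine le_antisymm (le_trans (le_of_eq ?_) h) zero_le
      refine lintegral_congr fun x => ?_
      by_cases hx : prj x ∈ Z
      · simp [indicator_of_mem hx, indicator_of_mem (show x ∈ prj ⁻¹' Z from hx)]
      · simp [indicator_of_notMem hx, indicator_of_notMem (show x ∉ prj ⁻¹' Z from hx)]
    filter_upwards [measure_eq_zero_iff_ae_notMem.1 hnull] with x hx
    have hx' : ∀ j : ℕ, ∃ κ : ℝ, 0 < κ ∧ ∃ y ∈ K κ, ‖y‖ < 1 / (j + 1) ∧ j < ‖F (prj x, y)‖ := by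
      by_contra hh
      exact hx (hZ1 hh)
    rintro ⟨L, hL⟩
    choose κ hκ y hy hy1 hy2 using hx'
    choose y' hy' hy'1 hy'2 using fun j => exists_preimage (m := m) (hκ j) (hy j)
    have ht0 : Tendsto y' atTop (𝓝 0) :=
      squeeze_zero_norm (fun j => (hy'2 j).trans (hy1 j).le)
        tendsto_one_div_add_atTop_nhds_zero_nat
    have ht : Tendsto y' atTop (𝓝[lightCone (m + 3)] 0) :=
      tendsto_nhdsWithin_iff.2 ⟨ht0, Eventually.of_forall hy'⟩
    have hP : Continuous fun y : Fin (m + 3) → ℝ => Pd (pt x y) ^ r := by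
      unfold Pd pt; fun_prop
    have h1 := ((hL.comp ht).mul ((hP.tendsto 0).comp ht0)).norm
    have h2 : ∀ j : ℕ, (j : ℝ) ≤ ‖((fun y => lift F (LamC (pt x y)) * (Pd (pt x y))⁻¹ ^ r) ∘ y') j *
        ((fun y => Pd (pt x y) ^ r) ∘ y') j‖ := by
      intro j
      simp only [Function.comp_apply]
      rw [mul_assoc, ← mul_pow, inv_mul_cancel₀ (Pd_ne_zero x (hy' j)), one_pow, mul_one,
        lift_LamC, hy'1]
      exact (hy2 j).le
    exact not_tendsto_nhds_of_tendsto_atTop
      (tendsto_atTop_mono h2 tendsto_natCast_atTop_atTop) _ h1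

end

end Pool.Agent.Lib.MP_730078_an
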