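import Pool.Agent.Lib.MP_730078_an.Tree2

-- part Pool.Agent.Lib.MP_730078_an.Profile
section

open MeasureTheory Set Filter Topology Complex
open scoped ENNReal Real ComplexConjugate

namespace Pool.Agent.Lib.MP_730078_an

noncomputable section

theorem exists_rep (x : TT) : ∃ v : ℝ, x = (v : TT) ∧ |v| = ‖x‖ ∧ |v| ≤ 1 / 2 := by
  induction x using QuotientAddGroup.induction_on with
  | H a =>
    refine ⟨a - round a, ?_, (UnitAddCircle.norm_eq (x := a)).symm, abs_sub_round a⟩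
    have : ((round a : ℝ) : TT) = 0 := by
      rw [AddCircle.coe_eq_zero_iff]
      exact ⟨round a, by simp⟩
    rw [AddCircle.coe_sub, this, sub_zero]

theorem e1_nat (m : ℕ) (x : TT) : e1 (((m : ℕ) : ℤ) • x) = e1 x ^ m := by
  induction m with
  | zero => simp
  | succ m ih => rw [Nat.cast_succ, add_smul, one_smul, e1_add, ih, pow_succ]

/-- Parseval for a finite sum of characters of the circle. -/
theorem parseval1 {ι : Type*} (s : Finset ι) (R : ι → ℤ) (hR : Set.InjOn R s) (a : ι → ℂ) :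
    ∫⁻ x : TT, ENNReal.ofReal (‖∑ i ∈ s, a i * e1 (R i • x)‖ ^ 2) =
      ENNReal.ofReal (∑ i ∈ s, ‖a i‖ ^ 2) := by
  classical
  have hint : ∀ g : TT → ℂ, Continuous g → Integrable g := fun g hg =>
    hg.integrable_of_hasCompactSupport (HasCompactSupport.of_compactSpace g)
  have hc : ∀ i, Continuous fun x : TT => a i * e1 (R i • x) := fun i => by fun_prop
  have horth : ∀ i ∈ s, ∀ j ∈ s, ∫ x : TT, (a i * e1 (R i • x)) * conj (a j * e1 (R j • x)) =
      if i = j then ((‖a i‖ ^ 2 : ℝ) : ℂ) else 0 := by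
    intro i hi j hj
    have e : ∀ x : TT, (a i * e1 (R i • x)) * conj (a j * e1 (R j • x)) =
        (a i * conj (a j)) * fourier (R i - R j) x := by
      intro x
      rw [sub_eq_add_neg, fourier_add, fourier_neg, map_mul, e1_zsmul, e1_zsmul]
      ring
    simp_rw [e]
    rw [integral_const_mul]
    split_ifs with h
    · subst h
      simp [Complex.mul_conj, Complex.normSq_eq_norm_sq]
    · have hne : R i - R j ≠ 0 := sub_ne_zero.2 fun hh => h (hR hi hj hh)
      rw [integral_eq_zero_of_add_right_eq_neg (fourier_add_half_inv_index hne one_pos), mul_zero]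
  have hcs : Continuous fun x : TT => ‖∑ i ∈ s, a i * e1 (R i • x)‖ ^ 2 := by fun_prop
  rw [← ofReal_integral_eq_lintegral_ofReal
    (hcs.integrable_of_hasCompactSupport (HasCompactSupport.of_compactSpace _))
    (Eventually.of_forall fun x => by positivity)]
  congr 1
  apply Complex.ofReal_injective
  rw [← integral_complex_ofReal]
  have e2 : ∀ x : TT, ((‖∑ i ∈ s, a i * e1 (R i • x)‖ ^ 2 : ℝ) : ℂ) =
      ∑ i ∈ s, ∑ j ∈ s, (a i * e1 (R i • x)) * conj (a j * e1 (R j • x)) := by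
    intro x
    rw [← Finset.sum_mul_sum, ← map_sum, Complex.mul_conj, Complex.normSq_eq_norm_sq]
  simp_rw [e2]
  rw [integral_finsetSum _ (fun i _ => hint _ (by fun_prop))]
  push_cast
  refine Finset.sum_congr rfl fun i hi => ?_
  rw [integral_finsetSum _ (fun j _ => hint _ (by fun_prop)),
    Finset.sum_congr rfl (fun j hj => horth i hi j hj)]
  simp [hi]

/-- Truncated Cauchy kernel. -/
def Wn (q : ℝ) (n : ℕ) (w : ℂ) : ℂ := (1 - q) * ∑ m ∈ Finset.range n, ((q : ℂ) * w) ^ m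

@[fun_prop] theorem continuous_Wn (q : ℝ) (n : ℕ) : Continuous (Wn q n) := by
  unfold Wn; fun_prop

theorem lintegral_Wn {q : ℝ} (h0 : 0 ≤ q) (h1 : q ≤ 1) (n : ℕ) :
    ∫⁻ x : TT, ENNReal.ofReal (‖Wn q n (e1 x)‖ ^ 2) ≤ ENNReal.ofReal (1 - q) := by
  have e : ∀ x : TT, Wn q n (e1 x) =
      ∑ m ∈ Finset.range n, ((1 - q) * q ^ m : ℂ) * e1 (((m : ℕ) : ℤ) • x) := by
    intro x
    rw [Wn, Finset.mul_sum]
    refine Finset.sum_congr rfl fun m _ => ?_
    rw [e1_nat]; ring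
  simp_rw [e]
  rw [parseval1 _ (fun m : ℕ => (m : ℤ)) (fun a _ b _ h => Nat.cast_injective h)]
  apply ENNReal.ofReal_le_ofReal
  have h2 : ∀ m ∈ Finset.range n, ‖((1 - q) * q ^ m : ℂ)‖ ^ 2 ≤ (1 - q) * ((1 - q) * q ^ m) := by
    intro m _
    have : ((1 - q) * q ^ m : ℂ) = (((1 - q) * q ^ m : ℝ) : ℂ) := by push_cast; ring
    rw [this, Complex.norm_real, Real.norm_eq_abs, sq_abs]
    have h3 : q ^ m ≤ 1 := pow_le_one₀ h0 h1
    have h4 : 0 ≤ q ^ m := by positivity
    have h5 : 0 ≤ 1 - q := by linarith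
    nlinarith [mul_nonneg (mul_nonneg h5 h5) h4]
  refine (Finset.sum_le_sum h2).trans ?_
  rw [← Finset.mul_sum, ← Finset.mul_sum, mul_neg_geom_sum]
  have : 0 ≤ q ^ n := by positivity
  nlinarith

theorem norm_Wn_sub {q : ℝ} (h0 : 0 ≤ q) (h1 : q < 1) (n : ℕ) {w : ℂ} (hw : ‖w‖ ≤ 1) :
    ‖((1 - q) / (1 - q * w) : ℂ)‖ ≤ 1 ∧ ‖Wn q n w - (1 - q) / (1 - q * w)‖ ≤ q ^ n := by
  have hqw : ‖(q : ℂ) * w‖ ≤ q := by
    rw [norm_mul, Complex.norm_real, Real.norm_of_nonneg h0]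
    exact mul_le_of_le_one_right h0 hw
  have hden : 1 - q ≤ ‖(1 - q * w : ℂ)‖ := by
    have := norm_sub_norm_le (1 : ℂ) (q * w)
    rw [norm_one] at this
    linarith
  have hpos : 0 < ‖(1 - q * w : ℂ)‖ := by linarith
  have hne : (1 - q * w : ℂ) ≠ 0 := norm_pos_iff.1 hpos
  have hW : ‖((1 - q) / (1 - q * w) : ℂ)‖ ≤ 1 := by
    rw [norm_div, div_le_one hpos]
    have : (1 - q : ℂ) = ((1 - q : ℝ) : ℂ) := by push_cast; ring
    rw [this, Complex.norm_real, Real.norm_of_nonneg (by linarith)]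
    exact hden
  refine ⟨hW, ?_⟩
  have e : Wn q n w - (1 - q) / (1 - q * w) = -((1 - q) / (1 - q * w) * (q * w) ^ n) := by
    have := mul_neg_geom_sum ((q : ℂ) * w) n
    rw [Wn]
    field_simp
    linear_combination (1 - q : ℂ) * this
  rw [e, norm_neg, norm_mul, norm_pow]
  calc _ ≤ 1 * q ^ n := by gcongr
    _ = q ^ n := one_mul _

theorem norm_one_add_Wn_le {q : ℝ} (h0 : 0 ≤ q) (h1 : q < 1) (n : ℕ) {w : ℂ} (hw : ‖w‖ ≤ 1) :
    ‖1 + Wn q n w‖ ≤ 3 := by
  obtain ⟨h2, h3⟩ := norm_Wn_sub h0 h1 n hw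
  have h4 : q ^ n ≤ 1 := pow_le_one₀ h0 h1.le
  have e : 1 + Wn q n w = 1 + (1 - q) / (1 - q * w) + (Wn q n w - (1 - q) / (1 - q * w)) := by ring
  rw [e]
  refine (norm_add₃_le).trans ?_
  rw [norm_one]
  linarith

theorem normSq_one_sub (s θ : ℝ) :
    Complex.normSq (1 - s * cexp (θ * I)) = (1 - s) ^ 2 + 2 * s * (1 - Real.cos θ) := by
  rw [Complex.normSq_apply]
  simp only [sub_re, one_re, mul_re, ofReal_re, exp_ofReal_mul_I_re, ofReal_im,
    exp_ofReal_mul_I_im, zero_mul, sub_zero, sub_im, one_im, mul_im, add_zero, zero_sub]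
  linear_combination s ^ 2 * Real.sin_sq_add_cos_sq θ

theorem re_div_one_sub (η s θ : ℝ) :
    ((η : ℂ) / (1 - s * cexp (θ * I))).re =
      η * (1 - s * Real.cos θ) / ((1 - s) ^ 2 + 2 * s * (1 - Real.cos θ)) := by
  rw [Complex.div_re, normSq_one_sub]
  simp [exp_ofReal_mul_I_re]

theorem e1_coe' (v : ℝ) : e1 (v : TT) = cexp ((2 * π * v : ℝ) * I) := by
  rw [e1_coe]; congr 1; push_cast; ring

theorem Wn_off {M : ℝ} (hM : 100 ≤ M) {n : ℕ} (hn : (1 - 1 / (100 * M)) ^ n ≤ 1 / 100000)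
    {x : TT} (hx : 1 / (2 * M) ≤ ‖x‖) :
    ‖1 + Wn (1 - 1 / (100 * M)) n (e1 x)‖ ≤ 1 + 14 / 100000 := by
  set η := 1 / (100 * M) with hη
  have hM0 : 0 < M := by linarith
  have hη0 : 0 < η := by positivity
  have hη1 : η ≤ 1 / 10000 := by
    rw [hη]; apply one_div_le_one_div_of_le <;> linarith
  set q := 1 - η with hq
  obtain ⟨-, h3⟩ := norm_Wn_sub (q := q) (by linarith) (by linarith) n (norm_e1 x).le
  obtain ⟨v, rfl, hv, hv2⟩ := exists_rep x
  rw [← hv] at hx
  set θ := 2 * π * v with hθ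
  have hcos : 2 / M ^ 2 ≤ 1 - Real.cos θ := by
    have h1 : |θ| ≤ π := by
      rw [hθ, abs_mul, abs_of_pos (by positivity : 0 < 2 * π)]
      nlinarith [Real.pi_pos]
    have h2 := Real.cos_le_one_sub_mul_cos_sq h1
    have h4 : 2 / π ^ 2 * θ ^ 2 = 8 * |v| ^ 2 := by
      rw [hθ, sq_abs]; field_simp; ring
    have h5 : (1 / (2 * M)) ^ 2 ≤ |v| ^ 2 := by gcongr
    have h6 : 2 / M ^ 2 = 8 * (1 / (2 * M)) ^ 2 := by field_simp; ring
    linarith
  rw [e1_coe'] at h3 ⊢
  set W : ℂ := (1 - q) / (1 - q * cexp (θ * I)) with hW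
  set D := (1 - q) ^ 2 + 2 * q * (1 - Real.cos θ) with hD
  have hD1 : 2 / M ^ 2 ≤ D := by
    have : 0 < 2 / M ^ 2 := by positivity
    nlinarith [sq_nonneg (1 - q)]
  have hD0 : 0 < D := lt_of_lt_of_le (by positivity) hD1
  have hW1 : (1 - q : ℂ) = (η : ℂ) := by rw [hq]; push_cast; ring
  have hsq : η ^ 2 / D ≤ 1 / 20000 := by
    rw [div_le_iff₀ hD0]
    have : η ^ 2 = 1 / 20000 * (2 / M ^ 2) := by rw [hη]; field_simp; ring
    rw [this]; linarith
  have hnorm : Complex.normSq W = η ^ 2 / D := by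
    rw [hW, hW1, map_div₀, normSq_one_sub, Complex.normSq_ofReal]; ring
  have hre : W.re ≤ η ^ 2 / D + η / 2 := by
    rw [hW, hW1, re_div_one_sub, ← hD, div_le_iff₀ hD0, add_mul, div_mul_cancel₀ _ hD0.ne']
    have : 1 - q = η := by rw [hq]; ring
    rw [hD, this]
    nlinarith [sq_nonneg η, mul_pos hη0 (mul_pos hη0 hη0)]
  have h1W : ‖1 + W‖ ≤ 1 + 125 / 1000000 := by
    apply le_of_sq_le_sq _ (by positivity)
    rw [← Complex.normSq_eq_norm_sq, Complex.normSq_add, hnorm]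
    simp only [map_one, one_mul, conj_re]
    linarith
  have e : 1 + Wn q n (cexp (θ * I)) = (1 + W) + (Wn q n (cexp (θ * I)) - W) := by ring
  rw [e]
  refine (norm_add_le _ _).trans ?_
  linarith

theorem Wn_inner {M : ℝ} (hM : 100 ≤ M) {n : ℕ} (hn : (1 - 1 / (100 * M)) ^ n ≤ 1 / 100000)
    {r : ℝ} (hr : (1 - 1 / (100 * M)) * r = 1 - 16 / M) {x : TT} (hx : ‖x‖ ≤ 5 / (2 * M)) :
    3 / 10000 ≤ (Wn (1 - 1 / (100 * M)) n (r * e1 x)).re := by
  set η := 1 / (100 * M) with hη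
  have hM0 : 0 < M := by linarith
  have hη0 : 0 < η := by positivity
  have hη1 : η ≤ 1 / 10000 := by
    rw [hη]; apply one_div_le_one_div_of_le <;> linarith
  set q := 1 - η with hq
  have h16 : 16 / M ≤ 16 / 100 := by gcongr
  have h16' : η ≤ 16 / M := by
    rw [hη, div_le_div_iff₀ (by positivity) hM0]; linarith
  have hr0 : 0 ≤ r := by
    by_contra hh
    push Not at hh
    nlinarith
  have hr1 : r ≤ 1 := by
    by_contra hh
    push Not at hh
    nlinarith
  have hw : ‖(r : ℂ) * e1 x‖ ≤ 1 := by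
    rw [norm_mul, norm_e1, Complex.norm_real, Real.norm_of_nonneg hr0]; linarith
  obtain ⟨-, h3⟩ := norm_Wn_sub (q := q) (by linarith) (by linarith) n hw
  obtain ⟨v, rfl, hv, hv2⟩ := exists_rep x
  rw [← hv] at hx
  set θ := 2 * π * v with hθ
  set s := 1 - 16 / M with hs
  have hcos : 2 * (1 - Real.cos θ) ≤ 250 / M ^ 2 := by
    have h2 := Real.one_sub_sq_div_two_le_cos (x := θ)
    have h4 : θ ^ 2 = 4 * π ^ 2 * |v| ^ 2 := by rw [hθ, sq_abs]; ring
    have h5 : |v| ^ 2 ≤ (5 / (2 * M)) ^ 2 := by gcongr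
    have h6 : 250 / M ^ 2 = 4 * 10 * (5 / (2 * M)) ^ 2 := by field_simp; ring
    have h7 : π ^ 2 ≤ 10 := by nlinarith [Real.pi_lt_d2, Real.pi_pos]
    have h8 : 4 * π ^ 2 * |v| ^ 2 ≤ 4 * 10 * (5 / (2 * M)) ^ 2 := by gcongr
    linarith
  rw [e1_coe'] at h3 ⊢
  have hW1 : (1 - q : ℂ) = (η : ℂ) := by rw [hq]; push_cast; ring
  have hW2 : (q : ℂ) * (r * cexp (θ * I)) = s * cexp (θ * I) := by
    rw [← hr]; push_cast; ring
  rw [hW1, hW2] at h3
  set W : ℂ := η / (1 - s * cexp (θ * I)) with hW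
  set D := (1 - s) ^ 2 + 2 * s * (1 - Real.cos θ) with hD
  have hs0 : 0 ≤ s := by linarith
  have hs1 : 1 - s = 16 / M := by rw [hs]; ring
  have hc1 := Real.cos_le_one θ
  have hD0 : 0 < D := by
    have : 0 < (1 - s) ^ 2 := by rw [hs1]; positivity
    have : 0 ≤ 2 * s * (1 - Real.cos θ) := by
      have : 0 ≤ 1 - Real.cos θ := by linarith
      positivity
    linarith
  have hD1 : D ≤ 506 / M ^ 2 := by
    have h1 : (1 - s) ^ 2 = 256 / M ^ 2 := by rw [hs1]; field_simp; ring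
    have h2 : s ≤ 1 := by
      have : 0 < 16 / M := by positivity
      linarith
    have h3 : 506 / M ^ 2 = 256 / M ^ 2 + 250 / M ^ 2 := by ring
    nlinarith
  have hre : 31 / 100000 ≤ W.re := by
    rw [hW, re_div_one_sub, ← hD, le_div_iff₀ hD0]
    have h1 : η * (16 / M) ≤ η * (1 - s * Real.cos θ) := by
      apply mul_le_mul_of_nonneg_left _ hη0.le
      nlinarith
    have h2 : η * (16 / M) = 16 / 100 * (1 / M ^ 2) := by rw [hη]; field_simp
    have h3 : 506 / M ^ 2 = 506 * (1 / M ^ 2) := by ring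
    have h4 : 0 < 1 / M ^ 2 := by positivity
    nlinarith
  have h4 := (Complex.abs_re_le_norm (Wn q n (r * cexp (θ * I)) - W)).trans h3
  rw [sub_re, abs_le] at h4
  linarith [h4.1]

/-- A trigonometric polynomial approximating a bump. -/
theorem exists_bump {w τ : ℝ} (hw : 0 < w) (hτ : 0 < τ) (hτ1 : τ ≤ 1 / 2) :
    ∃ (s : Finset ℤ) (a : ℤ → ℂ), ∀ x : TT,
      ‖∑ n ∈ s, a n * e1 (n • x)‖ ≤ 2 ∧ (w ≤ ‖x‖ → ‖∑ n ∈ s, a n * e1 (n • x)‖ ≤ τ) ∧
      (‖x‖ ≤ w / 4 → 1 / 4 ≤ ‖∑ n ∈ s, a n * e1 (n • x)‖) := by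
  let b : C(TT, ℂ) := ⟨fun x => ((max 0 (1 - ‖x‖ / w) : ℝ) : ℂ), by fun_prop⟩
  have hb : b ∈ (Submodule.span ℂ (range (@fourier 1))).topologicalClosure := by
    rw [span_fourier_closure_eq_top]; trivial
  obtain ⟨φ, hφ, hd⟩ := Metric.mem_closure_iff.1 hb τ hτ
  obtain ⟨c, hc⟩ := (Finsupp.mem_span_range_iff_exists_finsupp).1 hφ
  refine ⟨c.support, c, fun x => ?_⟩
  have e : ∑ n ∈ c.support, c n * e1 (n • x) = φ x := by
    rw [← hc, Finsupp.sum]
    simp [e1]
  rw [e]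
  have h1 : ‖b x - φ x‖ ≤ τ := by
    rw [dist_eq_norm] at hd
    exact ((b - φ).norm_coe_le_norm x).trans hd.le
  have h2 : ‖b x‖ = max 0 (1 - ‖x‖ / w) := by
    simp only [b, ContinuousMap.coe_mk, Complex.norm_real]
    exact Real.norm_of_nonneg (le_max_left _ _)
  have h3 := abs_norm_sub_norm_le (b x) (φ x)
  rw [abs_le] at h3
  have h4 : 0 ≤ ‖x‖ / w := by positivity
  refine ⟨?_, fun hx => ?_, fun hx => ?_⟩
  · have : max 0 (1 - ‖x‖ / w) ≤ 1 := max_le zero_le_one (by linarith)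
    linarith [h3.1]
  · have : max 0 (1 - ‖x‖ / w) = 0 := by
      apply max_eq_left
      have : 1 ≤ ‖x‖ / w := by rwa [le_div_iff₀ hw, one_mul]
      linarith
    linarith [h3.1]
  · have h5 : ‖x‖ / w ≤ 1 / 4 := by rw [div_le_iff₀ hw]; linarith
    have : 3 / 4 ≤ max 0 (1 - ‖x‖ / w) := le_max_of_le_right (by linarith)
    linarith [h3.2]

/-- `δ j = ∑ b * bit_b(j) * 2^b`. -/
def dl (j : ℕ) : ℕ := if h : j = 0 then 0 else 2 * dl (j / 2) + 2 * (j / 2)
  decreasing_by omega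

theorem dl_eq (j : ℕ) : dl j = 2 * dl (j / 2) + 2 * (j / 2) := by
  by_cases h : j = 0
  · subst h
    have : dl 0 = 0 := by rw [dl]; simp
    simp [this]
  · rw [dl, dif_neg h]

theorem dl_zero : dl 0 = 0 := by rw [dl]; simp

theorem dl_mono : Monotone dl := by
  apply monotone_nat_of_le_succ
  intro j
  induction j using Nat.strong_induction_on with
  | _ j ih =>
    rw [dl_eq j, dl_eq (j + 1)]
    rcases Nat.even_or_odd' j with ⟨i, rfl | rfl⟩
    · have : (2 * i + 1) / 2 = 2 * i / 2 := by omega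
      rw [this]
    · have h1 : (2 * i + 1) / 2 = i := by omega
      have h2 : (2 * i + 1 + 1) / 2 = i + 1 := by omega
      rw [h1, h2]
      have := ih i (by omega)
      omega

theorem dl_le (D : ℕ) : ∀ j < 2 ^ D, dl j ≤ D * j := by
  induction D with
  | zero => intro j hj; obtain rfl : j = 0 := by omega
            simp [dl_zero]
  | succ D ih =>
    intro j hj
    rw [dl_eq]
    have h1 := ih (j / 2) (by rw [pow_succ] at hj; omega)
    have h2 : 2 * (j / 2) ≤ j := by omega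
    nlinarith

theorem dl_group (m : ℕ) : ∀ j : ℕ,
    0 ≤ ((dl (2 ^ m * (j / 2 ^ m)) : ℤ) - m * (2 ^ m * (j / 2 ^ m) : ℕ)) - (dl j - m * j) ∧
    ((dl (2 ^ m * (j / 2 ^ m)) : ℤ) - m * (2 ^ m * (j / 2 ^ m) : ℕ)) - (dl j - m * j) ≤
      2 ^ (m + 1) - m - 2 := by
  induction m with
  | zero => intro j; simp
  | succ m ih =>
    intro j
    obtain ⟨h1, h2⟩ := ih (j / 2)
    have e1 : j / 2 ^ (m + 1) = j / 2 / 2 ^ m := by
      rw [Nat.div_div_eq_div_mul, pow_succ']
    set g := j / 2 / 2 ^ m with hg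
    have e2 : 2 ^ (m + 1) * g / 2 = 2 ^ m * g := by
      rw [pow_succ', mul_assoc, Nat.mul_div_cancel_left _ (by norm_num)]
    rw [e1, dl_eq (2 ^ (m + 1) * g), dl_eq j, e2]
    have e3 : j = 2 * (j / 2) + j % 2 := by omega
    have e4 : j % 2 ≤ 1 := by omega
    generalize j / 2 = i at *
    generalize j % 2 = ε at *
    subst e3
    push_cast at *
    simp only [pow_succ] at *
    have e5 : (0 : ℤ) ≤ ε := by positivity
    have e6 : (ε : ℤ) ≤ 1 := by exact_mod_cast e4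
    constructor <;> nlinarith

end

end Pool.Agent.Lib.MP_730078_an
end

-- part Pool.Agent.Lib.MP_730078_an.Kakeya
section

open MeasureTheory Set Filter Topology Complex
open scoped ENNReal Real

namespace Pool.Agent.Lib.MP_730078_an

noncomputable section

theorem norm_coe_le (t : ℝ) : ‖(t : TT)‖ ≤ |t| := QuotientAddGroup.norm_mk_le_norm

theorem le_norm_coe {a t : ℝ} (h1 : a ≤ |t|) (h2 : |t| ≤ 1 - a) : a ≤ ‖(t : TT)‖ := by
  rw [UnitAddCircle.norm_eq]
  by_cases h : round t = 0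
  · simpa [h] using h1
  · have h3 : (1 : ℝ) ≤ |(round t : ℝ)| := by
      have := Int.one_le_abs h
      exact_mod_cast this
    have := abs_sub_abs_le_abs_sub (round t : ℝ) t
    rw [abs_sub_comm] at this
    linarith

/-- A sheared rectangle. -/
def Par (c₁ r₁ : ℝ) (σ : ℤ) (c₂ r₂ : ℝ) : Set T3 :=
  {x | ‖x.1 - (c₁ : TT)‖ ≤ r₁ ∧ ‖x.2.1 - σ • x.1 - (c₂ : TT)‖ ≤ r₂}

theorem isClosed_Par (c₁ r₁ : ℝ) (σ : ℤ) (c₂ r₂ : ℝ) : IsClosed (Par c₁ r₁ σ c₂ r₂) := by
  have h1 : Continuous fun x : T3 => ‖x.1 - (c₁ : TT)‖ := by fun_prop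
  have h2 : Continuous fun x : T3 => ‖x.2.1 - σ • x.1 - (c₂ : TT)‖ := by fun_prop
  exact (isClosed_le h1 continuous_const).inter (isClosed_le h2 continuous_const)

theorem volume_Par (c₁ r₁ : ℝ) (σ : ℤ) (c₂ r₂ : ℝ) :
    volume (Par c₁ r₁ σ c₂ r₂) = ENNReal.ofReal (min 1 (2 * r₁)) * ENNReal.ofReal (min 1 (2 * r₂)) := by
  let sh : T3 →+ TT × TT :=
    { toFun := fun x => (x.1, x.2.1 - σ • x.1)
      map_zero' := by simp
      map_add' := by intro x y; ext <;> simp; abel }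
  have hc : Continuous sh := by
    change Continuous fun x : T3 => (x.1, x.2.1 - σ • x.1)
    fun_prop
  have hs : Function.Surjective sh := by
    rintro ⟨a, b⟩
    exact ⟨(a, b + σ • a, 0), by simp [sh]⟩
  have hm : MeasurePreserving sh (volume : Measure T3) (volume : Measure (TT × TT)) :=
    AddMonoidHom.measurePreserving hc hs (by simp)
  have e : Par c₁ r₁ σ c₂ r₂ =
      sh ⁻¹' (Metric.closedBall (c₁ : TT) r₁ ×ˢ Metric.closedBall (c₂ : TT) r₂) := by
    ext x
    simp [Par, sh, dist_eq_norm]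
  rw [e, hm.measure_preimage
    (measurableSet_closedBall.prod measurableSet_closedBall).nullMeasurableSet,
    Measure.volume_eq_prod, Measure.prod_prod, AddCircle.volume_closedBall,
    AddCircle.volume_closedBall]

theorem volume_Par_le (c₁ : ℝ) {r₁ : ℝ} (h₁ : 0 ≤ r₁) (σ : ℤ) (c₂ r₂ : ℝ) :
    volume (Par c₁ r₁ σ c₂ r₂) ≤ ENNReal.ofReal (4 * r₁ * r₂) := by
  rw [volume_Par]
  calc _ ≤ ENNReal.ofReal (2 * r₁) * ENNReal.ofReal (2 * r₂) := by
        gcongr <;> exact min_le_right _ _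
    _ = _ := by rw [← ENNReal.ofReal_mul (by positivity)]; congr 1; ring

variable (D : ℕ)

/-- The number of directions in one family. -/
def NN : ℕ := 2 ^ D
/-- The time scale. -/
def MM : ℝ := 4 * (NN D : ℝ)
/-- Starting time of the `k`-th family. -/
def tau (k : ℕ) : ℝ := k / (NN D : ℝ)
/-- Slope of a tube. -/
def slope (α : ℕ × ℕ) : ℤ := α.1 * NN D + α.2
/-- Offset of a tube. -/
def off (α : ℕ × ℕ) : ℝ := -(slope D α) * tau D α.1 + (-(α.2 : ℝ) + dl α.2 / D) / MM D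
/-- Index set of the tubes. -/
def Idx : Finset (ℕ × ℕ) := Finset.range (NN D) ×ˢ Finset.range (NN D)

theorem NN_pos : 0 < NN D := by unfold NN; positivity

theorem one_le_NN : (1 : ℝ) ≤ NN D := by exact_mod_cast NN_pos D

theorem MM_pos : 0 < MM D := by have := one_le_NN D; unfold MM; positivity

theorem slope_injOn : Set.InjOn (slope D) (Idx D) := by
  rintro ⟨k, j⟩ h ⟨k', j'⟩ h' e
  simp only [Idx, Finset.coe_product, Finset.coe_range, mem_prod, mem_Iio] at h h'
  have e2 : k * NN D + j = k' * NN D + j' := by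
    simp only [slope] at e
    exact_mod_cast e
  have e3 := congrArg (· / NN D) e2
  have e4 := congrArg (· % NN D) e2
  simp only [mul_comm _ (NN D), Nat.mul_add_div (NN_pos D), Nat.div_eq_of_lt h.2,
    Nat.div_eq_of_lt h'.2, Nat.mul_add_mod, Nat.mod_eq_of_lt h.2, Nat.mod_eq_of_lt h'.2] at e3 e4
  ext <;> simp <;> omega

theorem dev_sub (k j j' : ℕ) (s : ℝ) (x : T3) (hx : x.1 = ((tau D k + s / MM D : ℝ) : TT)) :
    x.2.1 - slope D (k, j') • x.1 - (off D (k, j') : TT) =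
      (x.2.1 - slope D (k, j) • x.1 - (off D (k, j) : TT)) +
        (((((j : ℝ) - j') * (s - 1) + ((dl j : ℝ) - dl j') / D) / MM D : ℝ) : TT) := by
  rw [hx, ← AddCircle.coe_zsmul, ← AddCircle.coe_zsmul, sub_sub, sub_sub, ← AddCircle.coe_add,
    ← AddCircle.coe_add, sub_add, ← AddCircle.coe_sub]
  congr 2
  simp only [off, slope, zsmul_eq_mul]
  push_cast
  ring

/-- The part of a tube where the profile is allowed to be large. -/
def Tube (α : ℕ × ℕ) : Set T3 :=
  Par (tau D α.1 + 1 / (2 * MM D)) (1 / (2 * MM D)) (slope D α) (off D α) (1 / MM D)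

/-- The shifted part of a tube. -/
def Good (α : ℕ × ℕ) : Set T3 :=
  Par (tau D α.1 + 5 / (2 * MM D)) (1 / (2 * MM D)) (slope D α) (off D α) (1 / MM D / 4)

/-- The Kakeya set. -/
def Kak : Set T3 :=
  ⋃ k ∈ Finset.range (NN D), ⋃ m ∈ Finset.range D, ⋃ g ∈ Finset.range (2 ^ (D - (m + 1))),
    Par (tau D k + (1 - (m + 1 / 2) / D) / MM D) (1 / (2 * D * MM D))
      (slope D (k, 2 ^ (m + 1) * g)) (off D (k, 2 ^ (m + 1) * g)) ((2 ^ (m + 2) / D + 1) / MM D)

theorem measurableSet_Kak : MeasurableSet (Kak D) :=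
  Finset.measurableSet_biUnion _ fun _ _ => Finset.measurableSet_biUnion _ fun _ _ =>
    Finset.measurableSet_biUnion _ fun _ _ => (isClosed_Par _ _ _ _ _).measurableSet

theorem volume_Kak (hD : 0 < D) : volume (Kak D) ≤ ENNReal.ofReal (1 / D) := by
  have hM := MM_pos D
  have hD' : (0 : ℝ) < D := by exact_mod_cast hD
  have hN := one_le_NN D
  let c : ℕ → ℝ := fun m => 4 * (1 / (2 * D * MM D)) * ((2 ^ (m + 2) / D + 1) / MM D)
  have hc : ∀ m, 0 ≤ c m := fun m => by positivity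
  calc volume (Kak D) ≤ ∑ k ∈ Finset.range (NN D), ∑ m ∈ Finset.range D,
        ∑ g ∈ Finset.range (2 ^ (D - (m + 1))), ENNReal.ofReal (c m) := by
        refine (measure_biUnion_finset_le _ _).trans (Finset.sum_le_sum fun k _ => ?_)
        refine (measure_biUnion_finset_le _ _).trans (Finset.sum_le_sum fun m _ => ?_)
        refine (measure_biUnion_finset_le _ _).trans (Finset.sum_le_sum fun g _ => ?_)
        exact volume_Par_le _ (by positivity) _ _ _
    _ = ENNReal.ofReal (∑ k ∈ Finset.range (NN D), ∑ m ∈ Finset.range D,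
        ∑ g ∈ Finset.range (2 ^ (D - (m + 1))), c m) := by
        rw [ENNReal.ofReal_sum_of_nonneg (fun _ _ => Finset.sum_nonneg fun m _ =>
          Finset.sum_nonneg fun _ _ => hc m)]
        refine Finset.sum_congr rfl fun k _ => ?_
        rw [ENNReal.ofReal_sum_of_nonneg (fun m _ => Finset.sum_nonneg fun _ _ => hc m)]
        refine Finset.sum_congr rfl fun m _ => ?_
        rw [ENNReal.ofReal_sum_of_nonneg (fun _ _ => hc m)]
    _ ≤ ENNReal.ofReal (1 / D) := by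
        apply ENNReal.ofReal_le_ofReal
        simp only [Finset.sum_const, Finset.card_range, nsmul_eq_mul]
        have h1 : ∀ m ∈ Finset.range D, ((2 ^ (D - (m + 1)) : ℕ) : ℝ) * c m ≤
            2 / (D * MM D ^ 2) * (2 * NN D / D + NN D * (1 / 2) ^ (m + 1)) := by
          intro m hm
          have hm' : m + 1 ≤ D := Finset.mem_range.1 hm
          have e : (NN D : ℝ) = 2 ^ (D - (m + 1)) * 2 ^ (m + 1) := by
            rw [← pow_add, Nat.sub_add_cancel hm', NN]; push_cast; rfl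
          apply le_of_eq
          rw [e]
          simp only [c]
          push_cast
          rw [one_div_pow]
          field_simp
          ring
        have h2 : ∑ m ∈ Finset.range D, (1 / 2 : ℝ) ^ (m + 1) ≤ 1 := by
          have := mul_neg_geom_sum (1 / 2 : ℝ) D
          simp_rw [pow_succ, ← Finset.sum_mul]
          have h3 : 0 ≤ (1 / 2 : ℝ) ^ D := by positivity
          linarith
        calc (NN D : ℝ) * ∑ m ∈ Finset.range D, ((2 ^ (D - (m + 1)) : ℕ) : ℝ) * c m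
            ≤ NN D * ∑ m ∈ Finset.range D,
              2 / (D * MM D ^ 2) * (2 * NN D / D + NN D * (1 / 2) ^ (m + 1)) := by
              exact mul_le_mul_of_nonneg_left (Finset.sum_le_sum h1) (by linarith)
          _ = NN D * (2 / (D * MM D ^ 2) * (2 * NN D +
              NN D * ∑ m ∈ Finset.range D, (1 / 2 : ℝ) ^ (m + 1))) := by
              rw [← Finset.mul_sum, Finset.sum_add_distrib, ← Finset.mul_sum]
              simp only [Finset.sum_const, Finset.card_range, nsmul_eq_mul]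
              congr 3
              field_simp
          _ ≤ NN D * (2 / (D * MM D ^ 2) * (2 * NN D + NN D * 1)) := by gcongr
          _ = 3 / 8 * (1 / D) := by unfold MM; field_simp; ring
          _ ≤ 1 / D := by
              have : (0 : ℝ) < 1 / D := by positivity
              linarith

theorem Tube_subset_Kak (hD : 0 < D) {α : ℕ × ℕ} (hα : α ∈ Idx D) : Tube D α ⊆ Kak D := by
  obtain ⟨k, j⟩ := α
  simp only [Idx, Finset.mem_product, Finset.mem_range] at hα
  rintro x ⟨h1, h2⟩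
  have hM := MM_pos D
  have hD' : (0 : ℝ) < D := by exact_mod_cast hD
  obtain ⟨v, hv, hv1, -⟩ := exists_rep (x.1 - ((tau D k + 1 / (2 * MM D) : ℝ) : TT))
  rw [← hv1] at h1
  set s := 1 / 2 + MM D * v with hs
  have hx : x.1 = ((tau D k + s / MM D : ℝ) : TT) := by
    rw [sub_eq_iff_eq_add] at hv
    rw [hv, ← AddCircle.coe_add]
    congr 1
    rw [hs]; field_simp; ring
  have hsb : |MM D * v| ≤ 1 / 2 := by
    rw [abs_mul, abs_of_pos hM]
    calc MM D * |v| ≤ MM D * (1 / (2 * MM D)) := by gcongr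
      _ = 1 / 2 := by field_simp
  rw [abs_le] at hsb
  obtain ⟨m, hm, hm1, hm2⟩ : ∃ m : ℕ, m < D ∧ (m : ℝ) ≤ (1 - s) * D ∧ (1 - s) * D ≤ m + 1 := by
    have hu0 : 0 ≤ (1 - s) * D := mul_nonneg (by linarith) hD'.le
    have hu1 : (1 - s) * D ≤ D := by nlinarith
    by_cases h : ⌊(1 - s) * D⌋₊ < D
    · exact ⟨_, h, Nat.floor_le hu0, (Nat.lt_floor_add_one _).le⟩
    · refine ⟨D - 1, by omega, ?_, ?_⟩
      · have h3 : (D : ℝ) ≤ ⌊(1 - s) * D⌋₊ := by exact_mod_cast not_lt.1 h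
        have h4 := Nat.floor_le hu0
        have h5 : ((D - 1 : ℕ) : ℝ) ≤ D := by exact_mod_cast Nat.sub_le D 1
        linarith
      · rw [Nat.cast_sub hD]; push_cast; linarith
  simp only [Kak, mem_iUnion, Finset.mem_range]
  refine ⟨k, hα.1, m, hm, j / 2 ^ (m + 1), ?_, ?_, ?_⟩
  · rw [Nat.div_lt_iff_lt_mul (by positivity), ← pow_add, Nat.sub_add_cancel hm]
    exact hα.2
  · rw [hx, ← AddCircle.coe_sub]
    refine (norm_coe_le _).trans ?_
    have e : tau D k + s / MM D - (tau D k + (1 - (m + 1 / 2) / D) / MM D) =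
        ((m + 1 / 2) - (1 - s) * D) / (D * MM D) := by field_simp; ring
    rw [e, abs_div, abs_of_pos (by positivity : 0 < D * MM D), div_le_div_iff₀ (by positivity)
      (by positivity)]
    have : |(m + 1 / 2) - (1 - s) * D| ≤ 1 / 2 := by rw [abs_le]; constructor <;> linarith
    have h3 : 0 < D * MM D := by positivity
    nlinarith
  · rw [dev_sub D k j _ s x hx]
    refine (norm_add_le _ _).trans ?_
    rw [add_div (2 ^ (m + 2) / (D : ℝ)), add_comm]
    refine add_le_add ((norm_coe_le _).trans ?_) h2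
    rw [abs_div, abs_of_pos hM]
    gcongr
    obtain ⟨g1, g2⟩ := dl_group (m + 1) j
    set j0 := 2 ^ (m + 1) * (j / 2 ^ (m + 1)) with hj0
    have g3 : j0 ≤ j := Nat.mul_div_le _ _
    have g4 : j < j0 + 2 ^ (m + 1) := by
      rw [hj0]
      have := Nat.div_add_mod j (2 ^ (m + 1))
      have := Nat.mod_lt j (show 0 < 2 ^ (m + 1) by positivity)
      omega
    have g1' : (0 : ℝ) ≤ ((dl j0 : ℝ) - (m + 1) * j0) - (dl j - (m + 1) * j) := by
      exact_mod_cast g1
    have g2' : ((dl j0 : ℝ) - (m + 1) * j0) - (dl j - (m + 1) * j) ≤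
        2 ^ (m + 1 + 1) - (m + 1) - 2 := by
      exact_mod_cast g2
    have g3' : (0 : ℝ) ≤ (j : ℝ) - j0 := by
      have : (j0 : ℝ) ≤ j := by exact_mod_cast g3
      linarith
    have g4' : (j : ℝ) - j0 ≤ 2 ^ (m + 1) := by
      have : (j : ℝ) < j0 + 2 ^ (m + 1) := by exact_mod_cast g4
      linarith
    have e : ((j : ℝ) - j0) * (s - 1) + ((dl j : ℝ) - dl j0) / D =
        (((j : ℝ) - j0) * ((m + 1) - (1 - s) * D) -
          (((dl j0 : ℝ) - (m + 1) * j0) - (dl j - (m + 1) * j))) / D := by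
      field_simp; ring
    rw [e, abs_div, abs_of_pos hD']
    gcongr
    have p1 : 0 ≤ ((j : ℝ) - j0) * ((m + 1) - (1 - s) * D) := mul_nonneg g3' (by linarith)
    have p2 : ((j : ℝ) - j0) * ((m + 1) - (1 - s) * D) ≤ 2 ^ (m + 1) * 1 :=
      mul_le_mul g4' (by linarith) (by linarith) (by positivity)
    have p3 : (2 : ℝ) ^ (m + 2) = 2 * 2 ^ (m + 1) := by ring
    have p4 : (0 : ℝ) ≤ m := by positivity
    have p5 : (0 : ℝ) < 2 ^ (m + 1) := by positivity
    rw [abs_le]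
    constructor <;> linarith

theorem Good_disjoint (hD : 0 < D) : Set.PairwiseDisjoint (Idx D : Set (ℕ × ℕ)) (Good D) := by
  have hM := MM_pos D
  have hD' : (0 : ℝ) < D := by exact_mod_cast hD
  have hN := one_le_NN D
  have key : ∀ k j j' : ℕ, j < j' → j' < NN D → ∀ x, x ∈ Good D (k, j) → x ∈ Good D (k, j') →
      False := by
    rintro k j j' hj hj' x ⟨h1, h2⟩ ⟨-, h3⟩
    obtain ⟨v, hv, hv1, -⟩ := exists_rep (x.1 - ((tau D k + 5 / (2 * MM D) : ℝ) : TT))
    rw [← hv1] at h1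
    set s := 5 / 2 + MM D * v with hs
    have hx : x.1 = ((tau D k + s / MM D : ℝ) : TT) := by
      rw [sub_eq_iff_eq_add] at hv
      rw [hv, ← AddCircle.coe_add]
      congr 1
      rw [hs]; field_simp; ring
    have hsb : |MM D * v| ≤ 1 / 2 := by
      rw [abs_mul, abs_of_pos hM]
      calc MM D * |v| ≤ MM D * (1 / (2 * MM D)) := by gcongr
        _ = 1 / 2 := by field_simp
    rw [abs_le] at hsb
    have e := dev_sub D k j' j s x hx
    set t : ℝ := (((j' : ℝ) - j) * (s - 1) + ((dl j' : ℝ) - dl j) / D) / MM D with ht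
    have h4 : ‖(t : TT)‖ ≤ 1 / MM D / 4 + 1 / MM D / 4 := by
      rw [← sub_eq_iff_eq_add'] at e
      rw [← e]
      exact (norm_sub_le _ _).trans (add_le_add h2 h3)
    have a1 : (1 : ℝ) ≤ (j' : ℝ) - j := by
      have : (j : ℝ) + 1 ≤ j' := by exact_mod_cast hj
      linarith
    have a2 : (dl j : ℝ) ≤ dl j' := by exact_mod_cast dl_mono hj.le
    have a3 : (dl j' : ℝ) ≤ D * j' := by exact_mod_cast dl_le D j' hj'
    have a4 : (j' : ℝ) ≤ NN D := by exact_mod_cast hj'.le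
    have a5 : (0 : ℝ) ≤ j := by positivity
    have a6 : (0 : ℝ) ≤ dl j := by positivity
    have a7 : 0 ≤ ((dl j' : ℝ) - dl j) / D := div_nonneg (by linarith) hD'.le
    have a8 : ((dl j' : ℝ) - dl j) / D ≤ j' := by rw [div_le_iff₀ hD']; linarith
    have b1 : 1 / MM D ≤ t := by
      rw [ht]; gcongr; nlinarith
    have b2 : t ≤ 3 * NN D / MM D := by
      rw [ht]; gcongr; nlinarith
    have b3 : 3 * NN D / MM D = 3 / 4 := by unfold MM; field_simp
    have b4 : 1 / MM D ≤ 1 / 4 := by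
      apply one_div_le_one_div_of_le (by norm_num); unfold MM; linarith
    have b5 : 0 < 1 / MM D := by positivity
    have := le_norm_coe (a := 1 / MM D) (t := t) (by rw [abs_of_pos (by linarith)]; exact b1)
      (by rw [abs_of_pos (by linarith)]; linarith)
    linarith
  rintro ⟨k, j⟩ h ⟨k', j'⟩ h' hne
  simp only [Idx, Finset.coe_product, Finset.coe_range, mem_prod, mem_Iio] at h h'
  rw [Function.onFun, Set.disjoint_left]
  intro x hx hx'
  by_cases hk : k = k'
  · subst hk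
    rcases lt_trichotomy j j' with hj | hj | hj
    · exact key k j j' hj h'.2 x hx hx'
    · exact hne (by rw [hj])
    · exact key k j' j hj h.2 x hx' hx
  · have h1 := hx.1
    have h2 := hx'.1
    set t : ℝ := ((k : ℝ) - k') / NN D with ht
    have h3 : ‖(t : TT)‖ ≤ 1 / (2 * MM D) + 1 / (2 * MM D) := by
      have e : (t : TT) = (x.1 - ((tau D k' + 5 / (2 * MM D) : ℝ) : TT)) -
          (x.1 - ((tau D k + 5 / (2 * MM D) : ℝ) : TT)) := by
        rw [sub_sub_sub_cancel_left, ← AddCircle.coe_sub]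
        congr 1
        simp only [ht, tau]; ring
      rw [e]
      exact (norm_sub_le _ _).trans (add_le_add h2 h1)
    have a1 : (1 : ℝ) ≤ |(k : ℝ) - k'| := by
      have : (k : ℤ) - k' ≠ 0 := by omega
      exact_mod_cast Int.one_le_abs this
    have a2 : |(k : ℝ) - k'| ≤ NN D - 1 := by
      have c1 : (k : ℝ) + 1 ≤ NN D := by exact_mod_cast h.1
      have c2 : (k' : ℝ) + 1 ≤ NN D := by exact_mod_cast h'.1
      have c3 : (0 : ℝ) ≤ k := by positivity
      have c4 : (0 : ℝ) ≤ k' := by positivity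
      rw [abs_le]; constructor <;> linarith
    have hN0 : (0 : ℝ) < NN D := by linarith
    have := le_norm_coe (a := 1 / NN D) (t := t)
      (by rw [ht, abs_div, abs_of_pos hN0]; gcongr)
      (by rw [ht, abs_div, abs_of_pos hN0, div_le_iff₀ hN0, sub_mul, one_mul,
            one_div_mul_cancel hN0.ne']; exact a2)
    have b : 1 / (2 * MM D) + 1 / (2 * MM D) = 1 / 4 * (1 / NN D) := by unfold MM; field_simp; ring
    have : (0 : ℝ) < 1 / NN D := by positivity
    linarith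

theorem volume_Good (hD : 0 < D) : volume (⋃ α ∈ Idx D, Good D α) = ENNReal.ofReal (1 / 32) := by
  have hM := MM_pos D
  have hN := one_le_NN D
  rw [measure_biUnion_finset (Good_disjoint D hD)
    (fun α _ => (isClosed_Par _ _ _ _ _).measurableSet)]
  have b4 : 1 / MM D ≤ 1 / 4 := by
    apply one_div_le_one_div_of_le (by norm_num); unfold MM; linarith
  have e1 : 2 * (1 / (2 * MM D)) = 1 / MM D := by field_simp
  have h : ∀ α, volume (Good D α) = ENNReal.ofReal (1 / MM D * (2 * (1 / MM D / 4))) := by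
    intro α
    rw [Good, volume_Par, e1, min_eq_right (by linarith), min_eq_right (by linarith),
      ← ENNReal.ofReal_mul (by positivity)]
  simp only [h, Finset.sum_const, Idx, Finset.card_product, Finset.card_range, nsmul_eq_mul]
  rw [← ENNReal.ofReal_natCast, ← ENNReal.ofReal_mul (by positivity)]
  congr 1
  unfold MM
  push_cast
  field_simp
  ring

end

end Pool.Agent.Lib.MP_730078_an
end

-- part Pool.Agent.Lib.MP_730078_an.Block
section

open MeasureTheory Set Filter Topology Complex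
open scoped ENNReal Real

namespace Pool.Agent.Lib.MP_730078_an

noncomputable section

/-- The longitudinal profile of a wave packet. -/
def prof (q : ℝ) (n ν : ℕ) (w : ℂ) : ℂ := w * Wn q n w * (1 + Wn q n w) ^ ν

@[fun_prop] theorem continuous_prof (q : ℝ) (n ν : ℕ) : Continuous (prof q n ν) := by
  unfold prof; fun_prop

def P0 : Set Z3 := {t | 0 ≤ t.1 ∧ t.2 = 0}
def P1 : Set Z3 := {t | 1 ≤ t.1 ∧ t.2 = 0}

theorem prof_mem (q : ℝ) (n ν : ℕ) {u : T3 × R3 → ℂ} (hu : u ∈ V P1) :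
    (fun w => prof q n ν (u w)) ∈ V P1 := by
  have h00 : ∀ s ∈ P0, ∀ t ∈ P0, s + t ∈ P0 := fun s hs t ht =>
    ⟨add_nonneg hs.1 ht.1, by simp [hs.2, ht.2]⟩
  have h10 : ∀ s ∈ P1, ∀ t ∈ P0, s + t ∈ P1 := fun s hs t ht =>
    ⟨le_add_of_le_of_nonneg hs.1 ht.1, by simp [hs.2, ht.2]⟩
  have hone : (1 : T3 × R3 → ℂ) ∈ V P0 := by
    rw [← ex_zero]; exact ex_mem_V ⟨le_rfl, rfl⟩
  have hpow : ∀ {f : T3 × R3 → ℂ}, f ∈ V P0 → ∀ m : ℕ, f ^ m ∈ V P0 := by
    intro f hf m
    induction m with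
    | zero => simpa using hone
    | succ m ih => rw [pow_succ]; exact V_mul h00 ih hf
  have hu0 : u ∈ V P0 := V_mono (S := P1) (S' := P0) (fun t ht => ⟨zero_le_one.trans ht.1, ht.2⟩) hu
  have hW : (fun w => Wn q n (u w)) ∈ V P0 := by
    have e : (fun w => Wn q n (u w)) =
        (1 - q : ℂ) • ∑ m ∈ Finset.range n, ((q : ℂ) • u) ^ m := by
      funext w; simp [Wn]
    rw [e]
    exact Submodule.smul_mem _ _ (Submodule.sum_mem _ fun m _ =>
      hpow (Submodule.smul_mem _ _ hu0) m)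
  have e : (fun w => prof q n ν (u w)) =
      u * (fun w => Wn q n (u w)) * (1 + fun w => Wn q n (u w)) ^ ν := by
    funext w; simp [prof]
  rw [e]
  exact V_mul h10 (V_mul h10 hu hW) (hpow (Submodule.add_mem _ hone hW) ν)

section packet

variable (D n ν : ℕ) (s : Finset ℤ) (a : ℤ → ℂ) (R : ℕ)

def qq : ℝ := 1 - 1 / (100 * MM D)
def ctr (α : ℕ × ℕ) : ℝ := tau D α.1 + 1 / (2 * MM D)
def dev (α : ℕ × ℕ) (x : T3) : TT := x.2.1 - slope D α • x.1 - (off D α : TT)
def psi0 (x : TT) : ℂ := ∑ m ∈ s, a m * e1 (m • x)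
def wf (α : ℕ × ℕ) : T3 × R3 → ℂ := e1 (-(ctr D α : TT)) • ex (1, 0, 0)
def psi (α : ℕ × ℕ) : T3 × R3 → ℂ :=
  ∑ m ∈ s, (a m * e1 (-(m • (off D α : TT)))) • ex (-(slope D α * m), m, 0)
def gg (α : ℕ × ℕ) : T3 × R3 → ℂ := (fun w => prof (qq D) n ν (wf D α w)) * psi D s a α
def car (α : ℕ × ℕ) : Z3 :=
  ((R + slope D α) * slope D α ^ 2, (R + slope D α) * (-2 * slope D α), R + slope D α)
def Phi : T3 × R3 → ℂ := ∑ α ∈ Idx D, gg D n ν s a α * ex (car D R α)
def dir (ρ : ℝ) (α : ℕ × ℕ) : R3 := (ρ, ρ * slope D α, ρ * slope D α ^ 2)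

@[fun_prop] theorem continuous_psi0 : Continuous (psi0 s a) := by unfold psi0; fun_prop

@[fun_prop] theorem continuous_dev (α : ℕ × ℕ) : Continuous (dev D α) := by unfold dev; fun_prop

theorem slope_nonneg (α : ℕ × ℕ) : 0 ≤ slope D α := by unfold slope; positivity

theorem wf_apply (α : ℕ × ℕ) (x : T3) (y : R3) :
    wf D α (x, y) = (Real.exp (-(2 * π * y.1)) : ℝ) * e1 (x.1 - (ctr D α : TT)) := by
  simp only [wf, ex, pair, dot, Pi.smul_apply, smul_eq_mul, sub_eq_add_neg, e1_add]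
  simp
  ring

theorem psi_apply (α : ℕ × ℕ) (x : T3) (y : R3) (hy : y.2.1 = y.1 * slope D α) :
    psi D s a α (x, y) = psi0 s a (dev D α x) := by
  simp only [psi, psi0, Finset.sum_apply, Pi.smul_apply, smul_eq_mul]
  refine Finset.sum_congr rfl fun m _ => ?_
  have h1 : dot (-(slope D α * m), m, 0) y = 0 := by
    simp only [dot, hy]; push_cast; ring
  have h2 : m • dev D α x = -(m • (off D α : TT)) + pair (-(slope D α * m), m, 0) x := by
    simp only [dev, pair, smul_sub, smul_smul, neg_smul, zero_smul, mul_comm m]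
    abel
  rw [h2, e1_add, ex, h1]
  simp [mul_assoc]

theorem gg_mem (α : ℕ × ℕ) :
    gg D n ν s a α ∈ V {t | ∃ m : ℤ, 1 ≤ m ∧ ∃ l ∈ s, t = (m - slope D α * l, l, 0)} := by
  refine V_mul (S := P1) (S' := {t | ∃ l ∈ s, t = (-(slope D α * l), l, 0)}) ?_
    (prof_mem _ _ _ (Submodule.smul_mem _ _ (ex_mem_V ⟨le_rfl, rfl⟩)))
    (Submodule.sum_mem _ fun m hm => Submodule.smul_mem _ _ (ex_mem_V ⟨m, hm, rfl⟩))
  rintro ⟨m, t⟩ ⟨h1, h2⟩ _ ⟨l, hl, rfl⟩
  simp only at h1 h2
  subst h2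
  exact ⟨m, h1, l, hl, by simp [sub_eq_add_neg]⟩

theorem Phi_mem (hR : ∀ l ∈ s, l ^ 2 < 4 * (R : ℤ)) (hR0 : 0 < R) : Phi D n ν s a R ∈ V S0 := by
  refine Submodule.sum_mem _ fun α _ => V_mul (S' := {car D R α}) ?_ (gg_mem D n ν s a α)
    (ex_mem_V rfl)
  rintro _ ⟨m, hm, l, hl, rfl⟩ _ rfl
  have h1 := hR l hl
  have h2 := slope_nonneg D α
  have h3 : (0 : ℤ) < R := by exact_mod_cast hR0
  set σ := slope D α
  have h4 : l ^ 2 < 4 * (R + σ) * m := by nlinarith
  simp only [S0, car, mem_ofPred_eq, Prod.mk_add_mk, zero_add]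
  constructor
  · have : 0 < 4 * (R + σ) * (m - σ * l + (R + σ) * σ ^ 2) := by
      nlinarith [sq_nonneg (l + (R + σ) * (-2 * σ))]
    exact pos_of_mul_pos_right this (by linarith) |> fun h => by linarith
  · nlinarith

theorem Phi_zero (x : T3) : Phi D n ν s a R (x, 0) =
    ∑ α ∈ Idx D, (prof (qq D) n ν (e1 (x.1 - (ctr D α : TT))) * psi0 s a (dev D α (x.1, x.2.1, 0)) *
      e1 ((car D R α).1 • x.1 + (car D R α).2.1 • x.2.1)) * e1 ((R + slope D α) • x.2.2) := by
  simp only [Phi, Finset.sum_apply, Pi.mul_apply, gg]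
  refine Finset.sum_congr rfl fun α _ => ?_
  rw [wf_apply, psi_apply _ _ _ _ _ _ (by simp), ex, pair, e1_add]
  simp [dot, dev, car, mul_assoc]

theorem L2_bound (hD : 100 ≤ MM D) {S : Set T3} (hS : MeasurableSet S)
    (hS3 : ∀ x : T3, x ∈ S ↔ (x.1, x.2.1, 0) ∈ S) {C₁ C₂ : ℝ} (h1 : 0 ≤ C₁) (h2 : 0 ≤ C₂)
    (hb : ∀ α ∈ Idx D, ∀ x ∈ S,
      ‖prof (qq D) n ν (e1 (x.1 - (ctr D α : TT)))‖ ^ 2 * ‖psi0 s a (dev D α x)‖ ^ 2 ≤
        ‖Wn (qq D) n (e1 (x.1 - (ctr D α : TT)))‖ ^ 2 *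
          ((if ‖dev D α x‖ ≤ 1 / MM D then C₁ else 0) + C₂)) :
    ∫⁻ x in S, ENNReal.ofReal (‖Phi D n ν s a R (x, 0)‖ ^ 2) ≤
      ENNReal.ofReal (C₁ / 800 + MM D * C₂ / 1600) := by
  have hM := MM_pos D
  have hq0 : 0 ≤ qq D := by
    have : 1 / (100 * MM D) ≤ 1 := by rw [div_le_one (by positivity)]; linarith
    unfold qq; linarith
  have hq1 : qq D ≤ 1 := by
    have : 0 < 1 / (100 * MM D) := by positivity
    unfold qq; linarith
  have hcont : Continuous fun x : T3 => Phi D n ν s a R (x, 0) := by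
    simp_rw [Phi_zero]; fun_prop
  have hmeas : Measurable (S.indicator fun x : T3 =>
      ENNReal.ofReal (‖Phi D n ν s a R (x, 0)‖ ^ 2)) :=
    Measurable.indicator (hcont.norm.pow 2).measurable.ennreal_ofReal hS
  let u : ℕ × ℕ → TT → ℝ≥0∞ := fun α x₁ =>
    ENNReal.ofReal (‖Wn (qq D) n (e1 (x₁ - (ctr D α : TT)))‖ ^ 2)
  let v : TT → ℝ≥0∞ := fun z =>
    (Metric.closedBall (0 : TT) (1 / MM D)).indicator (fun _ => ENNReal.ofReal C₁) z +
      ENNReal.ofReal C₂
  have hu : ∀ α, Measurable (u α) := fun α => by simp only [u]; fun_prop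
  have hv : Measurable v :=
    (Measurable.indicator measurable_const measurableSet_closedBall).add measurable_const
  have hvi : ∫⁻ z, v z ≤ ENNReal.ofReal (C₁ * (2 * (1 / MM D)) + C₂) := by
    simp only [v]
    rw [lintegral_add_right _ measurable_const, lintegral_indicator measurableSet_closedBall,
      setLIntegral_const, lintegral_const, AddCircle.volume_closedBall, measure_univ, mul_one,
      ENNReal.ofReal_add (by positivity) h2, ENNReal.ofReal_mul h1]
    gcongr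
    exact min_le_right _ _
  have hui : ∀ α, ∫⁻ x₁, u α x₁ ≤ ENNReal.ofReal (1 / (100 * MM D)) := by
    intro α
    have := lintegral_Wn hq0 hq1 n
    rw [← lintegral_sub_right_eq_self _ (ctr D α : TT)] at this
    refine this.trans (le_of_eq ?_)
    unfold qq; congr 1; ring
  have step : ∀ x₁ x₂ : TT, ∫⁻ x₃ : TT, S.indicator (fun x : T3 =>
      ENNReal.ofReal (‖Phi D n ν s a R (x, 0)‖ ^ 2)) (x₁, x₂, x₃) ≤
      ∑ α ∈ Idx D, u α x₁ * v (x₂ - (slope D α • x₁ + (off D α : TT))) := by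
    intro x₁ x₂
    by_cases hx : (x₁, x₂, (0 : TT)) ∈ S
    · have hx' : ∀ x₃ : TT, (x₁, x₂, x₃) ∈ S := fun x₃ => (hS3 _).2 hx
      simp only [indicator_of_mem (hx' _), Phi_zero]
      rw [parseval1 (Idx D) (fun α => R + slope D α)
        (fun α hα β hβ h => slope_injOn D hα hβ (add_left_cancel h)),
        ENNReal.ofReal_sum_of_nonneg (fun _ _ => by positivity)]
      refine Finset.sum_le_sum fun α hα => ?_
      have := hb α hα _ hx
      rw [norm_mul, norm_mul, norm_e1, mul_one, mul_pow]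
      refine (ENNReal.ofReal_le_ofReal this).trans (le_of_eq ?_)
      rw [ENNReal.ofReal_mul (by positivity)]
      simp only [u, v]
      congr 1
      have e : x₂ - (slope D α • x₁ + (off D α : TT)) = dev D α (x₁, x₂, 0) := by
        simp only [dev]; abel
      rw [e]
      by_cases hc : ‖dev D α (x₁, x₂, 0)‖ ≤ 1 / MM D
      · rw [if_pos hc, indicator_of_mem (by simpa using hc), ENNReal.ofReal_add h1 h2]
      · rw [if_neg hc, indicator_of_notMem (by simpa using hc), zero_add, zero_add]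
    · have hx' : ∀ x₃ : TT, (x₁, x₂, x₃) ∉ S := fun x₃ h => hx ((hS3 _).1 h)
      simp [indicator_of_notMem (hx' _)]
  rw [← lintegral_indicator hS, Measure.volume_eq_prod, lintegral_prod _ hmeas.aemeasurable]
  calc _ ≤ ∫⁻ x₁ : TT, ∑ α ∈ Idx D, u α x₁ * ENNReal.ofReal (C₁ * (2 * (1 / MM D)) + C₂) := by
        refine lintegral_mono fun x₁ => ?_
        have hm1 : Measurable fun y : TT × TT => S.indicator (fun x : T3 =>
            ENNReal.ofReal (‖Phi D n ν s a R (x, 0)‖ ^ 2)) (x₁, y) :=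
          hmeas.comp measurable_prodMk_left
        rw [Measure.volume_eq_prod, lintegral_prod _ hm1.aemeasurable]
        refine (lintegral_mono fun x₂ => step x₁ x₂).trans ?_
        rw [lintegral_finsetSum _ (fun α _ => by fun_prop)]
        refine Finset.sum_le_sum fun α _ => ?_
        rw [lintegral_const_mul _ (by fun_prop), lintegral_sub_right_eq_self v]
        gcongr
    _ ≤ ∑ α ∈ Idx D, ENNReal.ofReal (1 / (100 * MM D)) *
          ENNReal.ofReal (C₁ * (2 * (1 / MM D)) + C₂) := by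
        rw [lintegral_finsetSum _ (fun α _ => by fun_prop)]
        refine Finset.sum_le_sum fun α _ => ?_
        rw [lintegral_mul_const _ (hu α)]
        gcongr
        exact hui α
    _ = _ := by
        simp only [Finset.sum_const, Idx, Finset.card_product, Finset.card_range, nsmul_eq_mul]
        rw [← ENNReal.ofReal_natCast, ← ENNReal.ofReal_mul (by positivity),
          ← ENNReal.ofReal_mul (by positivity)]
        congr 1
        have := one_le_NN D
        unfold MM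
        push_cast
        field_simp
        ring

end packet

theorem eLpNorm_two_le {μ : Measure T3} {f : T3 → ℂ} {c : ℝ} (hc : 0 ≤ c)
    (h : ∫⁻ x, ENNReal.ofReal (‖f x‖ ^ 2) ∂μ ≤ ENNReal.ofReal (c ^ 2)) :
    eLpNorm f 2 μ ≤ ENNReal.ofReal c := by
  rw [eLpNorm_eq_lintegral_rpow_enorm_toReal (by norm_num) (by norm_num)]
  simp only [ENNReal.toReal_ofNat]
  have e : ∀ x, ‖f x‖ₑ ^ (2 : ℝ) = ENNReal.ofReal (‖f x‖ ^ 2) := by
    intro x
    rw [← ofReal_norm, ENNReal.ofReal_rpow_of_nonneg (norm_nonneg _) (by norm_num)]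
    norm_cast
  simp_rw [e]
  calc _ ≤ (ENNReal.ofReal (c ^ 2)) ^ (1 / 2 : ℝ) := by gcongr
    _ = _ := by
      rw [ENNReal.ofReal_rpow_of_nonneg (by positivity) (by norm_num), ← Real.sqrt_eq_rpow,
        Real.sqrt_sq hc]

end

end Pool.Agent.Lib.MP_730078_an
end

-- part Pool.Agent.Lib.MP_730078_an.Block2
section

open MeasureTheory Set Filter Topology Complex
open scoped ENNReal Real

namespace Pool.Agent.Lib.MP_730078_an

noncomputable section

theorem Kak_inv (D : ℕ) (x : T3) : x ∈ Kak D ↔ (x.1, x.2.1, 0) ∈ Kak D := by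
  simp only [Kak, mem_iUnion, Par, mem_ofPred_eq]

theorem norm_prof_le {q : ℝ} {n ν : ℕ} {w : ℂ} (hw : ‖w‖ ≤ 1) {b : ℝ}
    (hb : ‖1 + Wn q n w‖ ≤ b) : ‖prof q n ν w‖ ^ 2 ≤ ‖Wn q n w‖ ^ 2 * (b ^ ν) ^ 2 := by
  rw [← mul_pow]
  gcongr
  rw [prof, norm_mul, norm_mul, norm_pow]
  calc _ ≤ 1 * ‖Wn q n w‖ * b ^ ν := by gcongr
    _ = _ := by rw [one_mul]

/-- The `L^p` norm of the boundary values of the sum of wave packets. -/
theorem Phi_eLpNorm (D n ν : ℕ) (s : Finset ℤ) (a : ℤ → ℂ) (R : ℕ) (hD0 : 0 < D)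
    (hD : 100 ≤ MM D) (hn : qq D ^ n ≤ 1 / 100000)
    (hψ1 : ∀ x, ‖psi0 s a x‖ ≤ 2)
    (hψ2 : ∀ x, 1 / MM D ≤ ‖x‖ → ‖psi0 s a x‖ ≤ 1 / (MM D * 3 ^ ν))
    (p : ℝ≥0∞) (hp1 : 1 ≤ p) (hp2 : p ≤ 2)
    (hDp : (3 : ℝ) ^ ν * (1 / D : ℝ) ^ (1 / p.toReal - 1 / 2) ≤ 1) :
    eLpNorm (fun x => Phi D n ν s a R (x, 0)) p volume ≤
      ENNReal.ofReal (2 * (1 + 14 / 100000) ^ ν) := by
  have hM := MM_pos D
  have hq0 : 0 ≤ qq D := by
    have : 1 / (100 * MM D) ≤ 1 := by rw [div_le_one (by positivity)]; linarith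
    unfold qq; linarith
  have hq1 : qq D < 1 := by
    have : 0 < 1 / (100 * MM D) := by positivity
    unfold qq; linarith
  set b : ℝ := 1 + 14 / 100000 with hb
  have hb1 : 1 ≤ b ^ ν := one_le_pow₀ (by rw [hb]; norm_num)
  have hb3 : b ^ ν ≤ 3 ^ ν := by gcongr; rw [hb]; norm_num
  have h31 : (1 : ℝ) ≤ 3 ^ ν := hb1.trans hb3
  set f : T3 → ℂ := fun x => Phi D n ν s a R (x, 0) with hf
  have hcont : Continuous f := by
    simp only [hf]; simp_rw [Phi_zero]; fun_prop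
  set C₂ : ℝ := 1 / MM D ^ 2 with hC₂
  have hC₂0 : 0 ≤ C₂ := by positivity
  have hC₂1 : MM D * C₂ / 1600 ≤ 1 / 1600 := by
    have : MM D * C₂ = 1 / MM D := by rw [hC₂]; field_simp
    rw [this]
    gcongr
    rw [div_le_one hM]; linarith
  have hfar : ∀ (α : ℕ × ℕ) (x : T3), ¬ ‖dev D α x‖ ≤ 1 / MM D →
      ‖prof (qq D) n ν (e1 (x.1 - (ctr D α : TT)))‖ ^ 2 * ‖psi0 s a (dev D α x)‖ ^ 2 ≤
        ‖Wn (qq D) n (e1 (x.1 - (ctr D α : TT)))‖ ^ 2 * (0 + C₂) := by
    intro α x hx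
    have h1 := norm_prof_le (ν := ν) (norm_e1 (x.1 - (ctr D α : TT))).le
      (norm_one_add_Wn_le hq0 hq1 n (norm_e1 _).le)
    have h2 := hψ2 _ (not_le.1 hx).le
    calc _ ≤ (‖Wn (qq D) n (e1 (x.1 - (ctr D α : TT)))‖ ^ 2 * (3 ^ ν) ^ 2) *
          (1 / (MM D * 3 ^ ν)) ^ 2 := by gcongr
      _ = _ := by rw [hC₂]; field_simp; ring
  have hnear : ∀ (α : ℕ × ℕ) (x : T3) (c : ℝ), 0 ≤ c →
      ‖1 + Wn (qq D) n (e1 (x.1 - (ctr D α : TT)))‖ ≤ c →
      ‖prof (qq D) n ν (e1 (x.1 - (ctr D α : TT)))‖ ^ 2 * ‖psi0 s a (dev D α x)‖ ^ 2 ≤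
        ‖Wn (qq D) n (e1 (x.1 - (ctr D α : TT)))‖ ^ 2 * (4 * (c ^ ν) ^ 2 + C₂) := by
    intro α x c hc0 hc
    have h1 := norm_prof_le (ν := ν) (norm_e1 (x.1 - (ctr D α : TT))).le hc
    have h2 := hψ1 (dev D α x)
    calc _ ≤ (‖Wn (qq D) n (e1 (x.1 - (ctr D α : TT)))‖ ^ 2 * (c ^ ν) ^ 2) * 2 ^ 2 := by gcongr
      _ = ‖Wn (qq D) n (e1 (x.1 - (ctr D α : TT)))‖ ^ 2 * (4 * (c ^ ν) ^ 2 + 0) := by ring
      _ ≤ _ := by gcongr
  have A1 : eLpNorm f 2 volume ≤ ENNReal.ofReal (3 ^ ν) := by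
    apply eLpNorm_two_le (by positivity)
    have := L2_bound D n ν s a R hD (S := univ) MeasurableSet.univ (by simp)
      (C₁ := 4 * (3 ^ ν) ^ 2) (C₂ := C₂) (by positivity) hC₂0 (by
        intro α _ x _
        split_ifs with h
        · exact hnear α x 3 (by norm_num) (norm_one_add_Wn_le hq0 hq1 n (norm_e1 _).le)
        · exact hfar α x h)
    rw [Measure.restrict_univ] at this
    refine this.trans (ENNReal.ofReal_le_ofReal ?_)
    nlinarith
  have A2 : eLpNorm f 2 (volume.restrict (Kak D)ᶜ) ≤ ENNReal.ofReal (b ^ ν) := by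
    apply eLpNorm_two_le (by positivity)
    have := L2_bound D n ν s a R hD (S := (Kak D)ᶜ) (measurableSet_Kak D).compl
      (fun x => by simp only [mem_compl_iff]; rw [Kak_inv])
      (C₁ := 4 * (b ^ ν) ^ 2) (C₂ := C₂) (by positivity) hC₂0 (by
        intro α hα x hx
        split_ifs with h
        · refine hnear α x b (by positivity) (Wn_off hD hn ?_)
          by_contra hh
          exact hx (Tube_subset_Kak D hD0 hα ⟨(not_le.1 hh).le, h⟩)
        · exact hfar α x h)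
    refine this.trans (ENNReal.ofReal_le_ofReal ?_)
    have h1 : 1 ≤ (b ^ ν) ^ 2 := one_le_pow₀ hb1
    generalize (b ^ ν) ^ 2 = X at h1 ⊢
    generalize MM D * C₂ = Y at hC₂1 ⊢
    linarith only [h1, hC₂1]
  have hθ : 0 ≤ 1 / p.toReal - 1 / 2 := by
    have h1 : p.toReal ≤ 2 := by
      simpa using ENNReal.toReal_mono (by norm_num) hp2
    have h2 : 1 ≤ p.toReal := by
      simpa using ENNReal.toReal_mono (ne_top_of_le_ne_top (by norm_num) hp2) hp1
    have := one_div_le_one_div_of_le (by linarith) h1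
    linarith
  have B1 : eLpNorm f p (volume.restrict (Kak D)) ≤ ENNReal.ofReal 1 := by
    refine (eLpNorm_le_eLpNorm_mul_rpow_measure_univ hp2
      hcont.aestronglyMeasurable).trans ?_
    rw [Measure.restrict_apply_univ, ENNReal.toReal_ofNat]
    calc _ ≤ ENNReal.ofReal (3 ^ ν) * (ENNReal.ofReal (1 / D)) ^ (1 / p.toReal - 1 / 2) := by
          gcongr
          · exact (eLpNorm_mono_measure _ Measure.restrict_le_self).trans A1
          · exact volume_Kak D hD0
      _ ≤ _ := by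
          rw [ENNReal.ofReal_rpow_of_nonneg (by positivity) hθ,
            ← ENNReal.ofReal_mul (by positivity)]
          exact ENNReal.ofReal_le_ofReal hDp
  have B2 : eLpNorm f p (volume.restrict (Kak D)ᶜ) ≤ ENNReal.ofReal (b ^ ν) := by
    refine (eLpNorm_le_eLpNorm_mul_rpow_measure_univ hp2
      hcont.aestronglyMeasurable).trans ?_
    rw [Measure.restrict_apply_univ, ENNReal.toReal_ofNat]
    calc _ ≤ ENNReal.ofReal (b ^ ν) * 1 ^ (1 / p.toReal - 1 / 2) := by
          gcongr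
          exact prob_le_one
      _ = _ := by simp
  have e : f = (Kak D).indicator f + (Kak D)ᶜ.indicator f := by
    rw [Set.indicator_self_add_compl]
  rw [e]
  refine (eLpNorm_add_le (hcont.aestronglyMeasurable.indicator (measurableSet_Kak D))
    (hcont.aestronglyMeasurable.indicator (measurableSet_Kak D).compl) hp1).trans ?_
  rw [eLpNorm_indicator_eq_eLpNorm_restrict (measurableSet_Kak D),
    eLpNorm_indicator_eq_eLpNorm_restrict (measurableSet_Kak D).compl]
  refine (add_le_add B1 B2).trans ?_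
  rw [← ENNReal.ofReal_add (by norm_num) (by positivity)]
  apply ENNReal.ofReal_le_ofReal
  linarith

theorem dot_car_dir (D R : ℕ) (ρ : ℝ) (α β : ℕ × ℕ) :
    dot (car D R β) (dir D ρ α) = (R + slope D β) * ρ * ((slope D β : ℝ) - slope D α) ^ 2 := by
  simp only [dot, car, dir]; push_cast; ring

/-- The main wave packet is large on the shifted tube. -/
theorem gg_lower (D n ν : ℕ) (s : Finset ℤ) (a : ℤ → ℂ) (hD : 100 ≤ MM D)
    (hn : qq D ^ n ≤ 1 / 100000) (hψ3 : ∀ x, ‖x‖ ≤ 1 / MM D / 4 → 1 / 4 ≤ ‖psi0 s a x‖)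
    {ρ : ℝ} (hρ : qq D * Real.exp (-(2 * π * ρ)) = 1 - 16 / MM D) (α : ℕ × ℕ) {x : T3}
    (hx : x ∈ Good D α) :
    3 / 80000 * (1 + 3 / 10000) ^ ν ≤ ‖gg D n ν s a α (x, dir D ρ α)‖ := by
  have hM := MM_pos D
  set r := Real.exp (-(2 * π * ρ)) with hr
  have hr0 : 0 < r := Real.exp_pos _
  have hq1 : qq D ≤ 1 := by
    have : 0 < 1 / (100 * MM D) := by positivity
    unfold qq; linarith
  have hr1 : 1 / 2 ≤ r := by
    have : 16 / MM D ≤ 16 / 100 := by gcongr
    nlinarith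
  have h1 : ‖x.1 - (ctr D α : TT)‖ ≤ 5 / (2 * MM D) := by
    have e : x.1 - (ctr D α : TT) = (x.1 - ((tau D α.1 + 5 / (2 * MM D) : ℝ) : TT)) +
        ((2 / MM D : ℝ) : TT) := by
      rw [sub_add, ← AddCircle.coe_sub]
      congr 2
      simp only [ctr]; field_simp; ring
    rw [e]
    refine (norm_add_le _ _).trans ((add_le_add hx.1 (norm_coe_le _)).trans (le_of_eq ?_))
    rw [abs_of_pos (by positivity)]; field_simp; ring
  have h2 := Wn_inner hD hn hρ h1
  have h3 := hψ3 _ hx.2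
  simp only [gg, Pi.mul_apply]
  rw [wf_apply, psi_apply _ _ _ _ _ _ (by simp [dir]), norm_mul, prof, norm_mul, norm_mul,
    norm_pow, norm_mul, norm_e1, Complex.norm_real, Real.norm_of_nonneg (Real.exp_pos _).le]
  change _ ≤ r * 1 * ‖Wn (qq D) n (r * _)‖ * ‖1 + Wn (qq D) n (r * _)‖ ^ ν * _
  set W := Wn (qq D) n (r * e1 (x.1 - (ctr D α : TT))) with hW
  have h4 : 3 / 10000 ≤ ‖W‖ := h2.trans (Complex.re_le_norm _)
  have h5 : 1 + 3 / 10000 ≤ ‖1 + W‖ := by
    refine le_trans ?_ (Complex.re_le_norm _)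
    rw [add_re, one_re]
    exact add_le_add le_rfl h2
  calc _ = 1 / 2 * 1 * (3 / 10000) * (1 + 3 / 10000) ^ ν * (1 / 4 : ℝ) := by ring
    _ ≤ _ := by gcongr; exact h3

/-- The basic building block of the counterexample. -/
theorem block (p : ℝ≥0∞) (hp1 : 1 ≤ p) (hp2 : p < 2) (Kk : ℝ) {ε : ℝ} (hε : 0 < ε) :
    ∃ Φ ∈ V S0, eLpNorm (fun x => Φ (x, 0)) p volume ≤ ENNReal.ofReal ε ∧
      ∃ κ : ℝ, 0 < κ ∧ ∃ B : ℝ, ∃ G : Set T3, MeasurableSet G ∧
        ENNReal.ofReal (1 / 32) ≤ volume G ∧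
        ∀ x ∈ G, ∃ y ∈ K κ, ‖y‖ ≤ B ∧ Kk ≤ ‖Φ (x, y)‖ := by
  set b : ℝ := 1 + 14 / 100000 with hb
  set B : ℝ := 1 + 3 / 10000 with hB
  have hb0 : 1 ≤ b := by rw [hb]; norm_num
  -- choice of the power
  obtain ⟨ν, hν⟩ : ∃ ν : ℕ, Kk ≤ ε * (3 / 160000 * (B / b) ^ ν - 1) := by
    have h1 : Tendsto (fun ν : ℕ => (B / b) ^ ν) atTop atTop :=
      tendsto_pow_atTop_atTop_of_one_lt (by rw [hB, hb]; norm_num)
    have h2 : Tendsto (fun ν : ℕ => ε * (3 / 160000 * (B / b) ^ ν - 1)) atTop atTop :=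
      (tendsto_atTop_add_const_right _ (-1) (h1.const_mul_atTop (by norm_num))).const_mul_atTop hε
    exact (h2.eventually_ge_atTop Kk).exists
  -- choice of the number of scales
  obtain ⟨D, hD5, hDp⟩ : ∃ D : ℕ, 5 ≤ D ∧
      (3 : ℝ) ^ ν * (1 / D : ℝ) ^ (1 / p.toReal - 1 / 2) ≤ 1 := by
    have hθ : 0 < 1 / p.toReal - 1 / 2 := by
      have h1 : p.toReal < 2 := by
        simpa using ENNReal.toReal_strict_mono (by norm_num) hp2
      have h2 : 1 ≤ p.toReal := by
        simpa using ENNReal.toReal_mono (ne_top_of_lt hp2) hp1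
      have := one_div_lt_one_div_of_lt (by linarith) h1
      linarith
    have h1 : Tendsto (fun D : ℕ => (3 : ℝ) ^ ν * (1 / D : ℝ) ^ (1 / p.toReal - 1 / 2)) atTop
        (𝓝 ((3 : ℝ) ^ ν * 0 ^ (1 / p.toReal - 1 / 2))) :=
      (tendsto_one_div_atTop_nhds_zero_nat.rpow_const (Or.inr hθ.le)).const_mul _
    rw [Real.zero_rpow hθ.ne', mul_zero] at h1
    exact ((eventually_ge_atTop 5).and (h1.eventually (eventually_le_nhds one_pos))).exists
  have hD0 : 0 < D := by omega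
  have hD : 100 ≤ MM D := by
    have : (2 : ℝ) ^ 5 ≤ 2 ^ D := pow_le_pow_right₀ (by norm_num) hD5
    unfold MM NN; push_cast; linarith
  have hM := MM_pos D
  have hη : 0 < 1 / (100 * MM D) := by positivity
  have hη1 : 1 / (100 * MM D) ≤ 1 / 10000 := by apply one_div_le_one_div_of_le <;> linarith
  have hq0 : 0 < qq D := by unfold qq; linarith
  have hq1 : qq D < 1 := by unfold qq; linarith
  obtain ⟨n, hn⟩ : ∃ n : ℕ, qq D ^ n ≤ 1 / 100000 :=
    ((tendsto_pow_atTop_nhds_zero_of_lt_one hq0.le hq1).eventually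
      (eventually_le_nhds (by norm_num))).exists
  have h3 : (1 : ℝ) ≤ 3 ^ ν := one_le_pow₀ (by norm_num)
  obtain ⟨s, a, hψ⟩ := exists_bump (w := 1 / MM D) (τ := 1 / (MM D * 3 ^ ν)) (by positivity)
    (by positivity) (by apply one_div_le_one_div_of_le (by norm_num); nlinarith)
  -- the height
  obtain ⟨ρ, hρ0, hρ⟩ : ∃ ρ : ℝ, 0 < ρ ∧ qq D * Real.exp (-(2 * π * ρ)) = 1 - 16 / MM D := by
    have h1 : 16 / MM D ≤ 16 / 100 := by gcongr
    have h2 : 1 / (100 * MM D) < 16 / MM D := by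
      rw [div_lt_div_iff₀ (by positivity) hM]; linarith
    have h4 : 0 < (1 - 16 / MM D) / qq D := div_pos (by linarith) hq0
    have h5 : (1 - 16 / MM D) / qq D < 1 := by rw [div_lt_one hq0]; unfold qq; linarith
    refine ⟨-Real.log ((1 - 16 / MM D) / qq D) / (2 * π), ?_, ?_⟩
    · exact div_pos (neg_pos.2 (Real.log_neg h4 h5)) (by positivity)
    · rw [mul_div_cancel₀ _ (by positivity), neg_neg, Real.exp_log h4]
      field_simp
  have hgc : ∀ α, Continuous (gg D n ν s a α) := fun α => V_continuous (gg_mem D n ν s a α)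
  -- the carrier frequency
  have hR1 : ∀ᶠ R : ℕ in atTop, ∀ α ∈ Idx D, ∀ β ∈ Idx D, ∀ x : T3,
      ‖gg D n ν s a β (x, dir D ρ α)‖ * Real.exp (-(2 * π * (R * ρ))) ≤ 1 / (Idx D).card := by
    rw [eventually_all_finset]
    intro α hα
    rw [eventually_all_finset]
    intro β _
    obtain ⟨C, hC⟩ := isCompact_univ.exists_bound_of_continuousOn
      (f := fun x : T3 => gg D n ν s a β (x, dir D ρ α)) (by fun_prop)
    have h1 : Tendsto (fun R : ℕ => C * Real.exp (-(2 * π * (R * ρ)))) atTop (𝓝 (C * 0)) := by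
      refine (Real.tendsto_exp_neg_atTop_nhds_zero.comp ?_).const_mul C
      exact (tendsto_natCast_atTop_atTop.atTop_mul_const hρ0).const_mul_atTop (by positivity)
    have hpos : (0 : ℝ) < 1 / (Idx D).card := by
      have : 0 < (Idx D).card := Finset.card_pos.2 ⟨α, hα⟩
      positivity
    rw [mul_zero] at h1
    filter_upwards [h1.eventually (eventually_le_nhds hpos)] with R hR x
    exact (mul_le_mul_of_nonneg_right (hC x (mem_univ x)) (Real.exp_pos _).le).trans hR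
  have hR2 : ∀ᶠ R : ℕ in atTop, ∀ l ∈ s, l ^ 2 < 4 * (R : ℤ) := by
    rw [eventually_all_finset]
    intro l _
    filter_upwards [eventually_gt_atTop (l ^ 2).toNat] with R hR
    have : l ^ 2 < R := by
      have h1 : ((l ^ 2).toNat : ℤ) < R := by exact_mod_cast hR
      have h2 := Int.self_le_toNat (l ^ 2)
      linarith
    nlinarith [sq_nonneg l]
  obtain ⟨R, hR1, hR2, hR0⟩ := (hR1.and (hR2.and (eventually_gt_atTop 0))).exists
  set Φ := Phi D n ν s a R with hΦ
  have hΦm : Φ ∈ V S0 := Phi_mem D n ν s a R hR2 hR0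
  have hlow : ∀ α ∈ Idx D, ∀ x ∈ Good D α, 3 / 80000 * B ^ ν - 1 ≤ ‖Φ (x, dir D ρ α)‖ := by
    intro α hα x hx
    have h1 := gg_lower D n ν s a hD hn (fun x => (hψ x).2.2) hρ α hx
    simp only [hΦ, Phi, Finset.sum_apply, Pi.mul_apply]
    rw [← Finset.add_sum_erase _ _ hα]
    have h2 : ‖gg D n ν s a α (x, dir D ρ α) * ex (car D R α) (x, dir D ρ α)‖ =
        ‖gg D n ν s a α (x, dir D ρ α)‖ := by
      rw [norm_mul, norm_ex, dot_car_dir]; simp
    have h4 : ‖∑ β ∈ (Idx D).erase α,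
        gg D n ν s a β (x, dir D ρ α) * ex (car D R β) (x, dir D ρ α)‖ ≤ 1 := by
      have hpos : (0 : ℝ) < (Idx D).card := by
        exact_mod_cast Finset.card_pos.2 ⟨α, hα⟩
      refine (norm_sum_le _ _).trans ?_
      calc _ ≤ ∑ β ∈ (Idx D).erase α, (1 / (Idx D).card : ℝ) := by
            refine Finset.sum_le_sum fun β hβ => ?_
            obtain ⟨hβ1, hβ2⟩ := Finset.mem_erase.1 hβ
            refine le_trans ?_ (hR1 α hα β hβ2 x)
            rw [norm_mul, norm_ex, dot_car_dir]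
            have c1 : slope D β - slope D α ≠ 0 :=
              sub_ne_zero.2 fun h => hβ1 (slope_injOn D hβ2 hα h)
            have c2 : (1 : ℝ) ≤ ((slope D β : ℝ) - slope D α) ^ 2 := by
              have : 1 ≤ (slope D β - slope D α) ^ 2 := by
                nlinarith [Int.one_le_abs c1, sq_abs (slope D β - slope D α)]
              exact_mod_cast this
            have c3 : (0 : ℝ) ≤ slope D β := by exact_mod_cast slope_nonneg D β
            have c4 : (R : ℝ) * ρ ≤ (R + slope D β) * ρ * ((slope D β : ℝ) - slope D α) ^ 2 := by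
              calc (R : ℝ) * ρ = R * ρ * 1 := by ring
                _ ≤ _ := by gcongr; linarith
            gcongr
        _ ≤ ∑ β ∈ Idx D, (1 / (Idx D).card : ℝ) :=
            Finset.sum_le_sum_of_subset_of_nonneg (Finset.erase_subset _ _)
              (fun _ _ _ => by positivity)
        _ = 1 := by simp only [Finset.sum_const, nsmul_eq_mul]; field_simp
    have h5 := norm_sub_norm_le (gg D n ν s a α (x, dir D ρ α) * ex (car D R α) (x, dir D ρ α))
      (-∑ β ∈ (Idx D).erase α, gg D n ν s a β (x, dir D ρ α) * ex (car D R β) (x, dir D ρ α))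
    rw [sub_neg_eq_add, norm_neg, h2] at h5
    linarith
  -- moving into the open cone
  have hκ : ∀ᶠ κ : ℝ in 𝓝 0, ∀ α ∈ Idx D, ∀ x : T3,
      ‖Φ (x, dir D ρ α + (κ, 0, κ)) - Φ (x, dir D ρ α)‖ < 1 := by
    rw [eventually_all_finset]
    intro α _
    have h1 := unif_near (V_continuous hΦm) (dir D ρ α) one_pos
    have h2 : Tendsto (fun κ : ℝ => dir D ρ α + (κ, 0, κ)) (𝓝 0) (𝓝 (dir D ρ α)) := by
      have : Continuous fun κ : ℝ => dir D ρ α + (κ, 0, κ) := by fun_prop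
      exact this.tendsto' 0 _ (by simp [Prod.mk_zero_zero])
    exact h2.eventually h1
  obtain ⟨κ, hκ, hκ0⟩ := ((hκ.filter_mono (nhdsWithin_le_nhds (s := Ioi (0 : ℝ)))).and
    self_mem_nhdsWithin).exists
  have hbν : 1 ≤ b ^ ν := one_le_pow₀ hb0
  have hc : 0 < ε / (2 * b ^ ν) := by positivity
  refine ⟨((ε / (2 * b ^ ν) : ℝ) : ℂ) • Φ, Submodule.smul_mem _ _ hΦm, ?_, κ, hκ0,
    ∑ α ∈ Idx D, ‖dir D ρ α + (κ, 0, κ)‖, ⋃ α ∈ Idx D, Good D α,
    Finset.measurableSet_biUnion _ fun α _ => (isClosed_Par _ _ _ _ _).measurableSet,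
    (volume_Good D hD0).ge, ?_⟩
  · have h1 := Phi_eLpNorm D n ν s a R hD0 hD hn (fun x => (hψ x).1) (fun x => (hψ x).2.1) p hp1
      hp2.le hDp
    have e : (fun x => (((ε / (2 * b ^ ν) : ℝ) : ℂ) • Φ) (x, 0)) =
        ((ε / (2 * b ^ ν) : ℝ) : ℂ) • fun x => Φ (x, 0) := rfl
    rw [e, eLpNorm_const_smul, ← ofReal_norm, Complex.norm_real, Real.norm_of_nonneg hc.le]
    calc _ ≤ ENNReal.ofReal (ε / (2 * b ^ ν)) * ENNReal.ofReal (2 * b ^ ν) := by gcongr
      _ = _ := by rw [← ENNReal.ofReal_mul hc.le]; congr 1; field_simp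
  · intro x hx
    simp only [mem_iUnion] at hx
    obtain ⟨α, hα, hx⟩ := hx
    refine ⟨dir D ρ α + (κ, 0, κ), ?_, ?_, ?_⟩
    · refine ⟨?_, ?_, ?_⟩
      · simp [dir, hρ0.le]
      · simp only [dir, Prod.mk_add_mk, le_add_iff_nonneg_left]; positivity
      · simp only [dir, Prod.mk_add_mk, add_zero, add_sub_cancel_right]
        apply le_of_eq; ring
    · exact Finset.single_le_sum (f := fun α => ‖dir D ρ α + (κ, 0, κ)‖)
        (fun _ _ => norm_nonneg _) hα
    · rw [Pi.smul_apply, norm_smul, Complex.norm_real, Real.norm_of_nonneg hc.le]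
      have h1 := hlow α hα x hx
      have h2 := hκ α hα x
      have h4 := norm_sub_norm_le (Φ (x, dir D ρ α)) (Φ (x, dir D ρ α + (κ, 0, κ)))
      rw [norm_sub_rev] at h4
      have h5 : 3 / 80000 * B ^ ν - 2 ≤ ‖Φ (x, dir D ρ α + (κ, 0, κ))‖ := by linarith
      refine hν.trans (le_trans ?_ (mul_le_mul_of_nonneg_left h5 hc.le))
      have e : ε / (2 * b ^ ν) * (3 / 80000 * B ^ ν - 2) =
          ε * (3 / 160000 * (B / b) ^ ν - 1 / b ^ ν) := by
        rw [div_pow]; field_simp; ring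
      rw [e]
      gcongr
      rw [div_le_one (by positivity)]; exact hbν

end

end Pool.Agent.Lib.MP_730078_an
end
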