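import Mathlib

open MeasureTheory
open scoped ENNReal

namespace Pool.Agent.Lib.MP_730078_an

/-- The forward light cone in `ℝⁿ`. -/
def lightCone (n : ℕ) [NeZero n] : Set (Fin n → ℝ) :=
  {y | 0 < y 0 ∧ 0 < y 0 ^ 2 - ∑ j ∈ Finset.univ.erase 0, y j ^ 2}

/-- The point `x + i y` of `ℂⁿ`. -/
def pt {n : ℕ} (x y : Fin n → ℝ) : Fin n → ℂ := fun j => (x j : ℂ) + (y j : ℂ) * Complex.I

/-- The tube over `Γ`. -/
def tube {n : ℕ} (Γ : Set (Fin n → ℝ)) : Set (Fin n → ℂ) := {z | ∃ x, ∃ y ∈ Γ, z = pt x y}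

/-- Membership in the Hardy space `H^p` of the tube over `Γ`, `0 < p < ∞`. -/
def MemHardy {n : ℕ} (Γ : Set (Fin n → ℝ)) (p : ℝ) (F : (Fin n → ℂ) → ℂ) : Prop :=
  DifferentiableOn ℂ F (tube Γ) ∧ ⨆ y ∈ Γ, ∫⁻ x : Fin n → ℝ, ‖F (pt x y)‖ₑ ^ p < ∞

end Pool.Agent.Lib.MP_730078_an
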