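import Pool.Agent.Lib.MP_730078_an.Defs

namespace Pool.Agent.Lib.MP_730078_an

/-- A regular cone: open, convex, invariant under positive scalars, containing no line. -/
def Regular {n : ℕ} (Γ : Set (Fin n → ℝ)) : Prop :=
  IsOpen Γ ∧ Convex ℝ Γ ∧ (∀ s : ℝ, 0 < s → ∀ y ∈ Γ, s • y ∈ Γ) ∧
    ∀ y v : Fin n → ℝ, v ≠ 0 → ∃ t : ℝ, y + t • v ∉ Γ

/-- The unit vectors spanning an exposed ray of the closed cone. -/
def exposedRays {n : ℕ} (Γ : Set (Fin n → ℝ)) : Set (Fin n → ℝ) :=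
  {ω | ‖ω‖ = 1 ∧ IsExposed ℝ (closure Γ) {y | ∃ t : ℝ, 0 ≤ t ∧ y = t • ω}}

/-- The `k`-th Cantor–Bendixson derivative of `A`: isolated points are removed `k` times. -/
def cbDeriv {n : ℕ} (A : Set (Fin n → ℝ)) (k : ℕ) : Set (Fin n → ℝ) :=
  (fun B => B ∩ derivedSet B)^[k] A

/-- `Γ'` is exhausted by linear images of `Γ`. -/
def Exhausts {n m : ℕ} (Γ : Set (Fin n → ℝ)) (Γ' : Set (Fin m → ℝ)) : Prop :=
  ∀ C, IsCompact C → C ⊆ Γ' → ∃ Λ : (Fin n → ℝ) →ₗ[ℝ] (Fin m → ℝ), C ⊆ Λ '' Γ ∧ Λ '' Γ ⊆ Γ'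

end Pool.Agent.Lib.MP_730078_an
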