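import Pool.Agent.Lib.MP_730078_an.Tree2

-- part Pool.Agent.Lib.MP_730078_an.Tree3
section

open MeasureTheory Set Filter Topology Complex ComplexConjugate
open scoped ENNReal Real

namespace Pool.Agent.Lib.MP_730078_an

noncomputable section

/-- The invariant of the branching construction: `Z` counts the living branches over a point and
`Y` counts them with the number of their left turns. -/
structure Inv (l : ℝ) (n : ℝ) (Φ : T3 × R3 → ℂ) (Y Z : T3 → ℝ) : Prop where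
  mem : Φ ∈ V S0
  cY : Continuous Y
  cZ : Continuous Z
  Y0 : ∀ x, 0 ≤ Y x
  Z0 : ∀ x, 0 ≤ Z x
  YZ : ∀ x, Y x ≤ n * Z x
  iZ : ∀ T, |fi Z T - 1| ≤ 2 * n * l ^ 2
  iY : ∀ T, n / 4 ≤ fi Y T
  iZ2 : ∀ T, fi (fun x => Z x ^ 2) T ≤ 1 + n * (5 * ‖T‖ + 2 * l)
  ex : ∀ (c : DD) T, fi (fun x => Real.exp (l * ((c : ℂ) * Φ (x, 0)).re)) T ≤ 1 + 10 * n * l ^ 2
  ht : ∀ j x, 0 < Y x - j * Z x → ∃ σ, |σ| ≤ 2 ∧
      ww / 2 * j - 2 * ww ^ 2 * n ≤ (conj (e1 x.1) * Φ (x, om σ)).re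

theorem inv_zero (l : ℝ) : Inv l 0 0 (fun _ => 0) (fun _ => 1) where
  mem := Submodule.zero_mem _
  cY := continuous_const
  cZ := continuous_const
  Y0 := by simp
  Z0 := by simp
  YZ := by simp
  iZ := by simp [fi]
  iY := by simp [fi]
  iZ2 := by simp [fi]
  ex := by simp [fi]
  ht j x h := ⟨0, by simp, by have := ww_pos; simp at h ⊢; nlinarith⟩

theorem re_cut_le (c : DD) {χ P : ℂ} {b η R : ℝ} (h1 : ‖χ - b‖ ≤ η) (h2 : ‖P‖ ≤ R) :
    ((c : ℂ) * (χ * P)).re ≤ b * ((c : ℂ) * P).re + η * R := by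
  have e : (c : ℂ) * (χ * P) = b * (c * P) + c * ((χ - b) * P) := by ring
  have h3 : ((c : ℂ) * ((χ - b) * P)).re ≤ η * R := by
    refine (Complex.re_le_norm _).trans ?_
    rw [norm_mul, norm_mul]
    refine (mul_le_of_le_one_left (by positivity) (mem_closedBall_zero_iff.1 c.2)).trans ?_
    exact mul_le_mul h1 h2 (norm_nonneg _) ((norm_nonneg _).trans h1)
  rw [e, add_re, re_ofReal_mul]
  linarith

theorem inv_step {l n : ℝ} (hl0 : 0 < l) (hn0 : 0 ≤ n) (hn : (n + 1) * l ≤ 1 / 20)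
    {Φ : T3 × R3 → ℂ} {Y Z : T3 → ℝ} (h : Inv l n Φ Y Z) :
    ∃ Φ' Y' Z', Inv l (n + 1) Φ' Y' Z' := by
  have hl : l ≤ 1 / 20 := by nlinarith
  have hnl : n * l ≤ 1 / 20 := by nlinarith
  have hnl2 : n * l ^ 2 ≤ l / 20 := by nlinarith
  have hw := ww_pos
  obtain ⟨a, bp, bm, hC⟩ := exists_Cut (δ := l / 6) (by positivity) (by linarith)
  have cΦ := V_continuous h.mem
  obtain ⟨R, hR0, hR1, hR2⟩ := bdd_om cΦ
  have hη : 0 < min (ww ^ 2 / 4) (l / 2) / R := by positivity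
  have hη1 : min (ww ^ 2 / 4) (l / 2) / R * R ≤ ww ^ 2 / 4 := by
    rw [div_mul_cancel₀ _ hR0.ne']; exact min_le_left _ _
  have hη2 : min (ww ^ 2 / 4) (l / 2) / R * R ≤ l / 2 := by
    rw [div_mul_cancel₀ _ hR0.ne']; exact min_le_right _ _
  generalize min (ww ^ 2 / 4) (l / 2) / R = η at hη hη1 hη2
  obtain ⟨χp, hp1, hp2⟩ := exists_cut 0 hC.cp hη
  obtain ⟨χm, hm1, hm2⟩ := exists_cut 1 hC.cm hη
  simp only [mul_zero, zero_smul, sub_zero, Int.cast_zero] at hp2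
  simp only [mul_one, one_smul, Int.cast_one] at hm2
  have ca := hC.ca
  have cp := hC.cp
  have cm := hC.cm
  have cY := h.cY
  have cZ := h.cZ
  have cχp := V_continuous hp1
  have cχm := V_continuous hm1
  have hl2 : 0 < l ^ 2 := by positivity
  have hz : ∀ T, fi Z T ≤ 201 / 200 := fun T => by linarith [(abs_le.1 (h.iZ T)).2]
  have hz' : ∀ T, 199 / 200 ≤ fi Z T := fun T => by linarith [(abs_le.1 (h.iZ T)).1]
  obtain ⟨N, hN1, hN2, hN3, hN4, hN5, hN6, hN7⟩ := ((ev_mul_sh_mem 0 hp1 h.mem).and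
    ((two_lin ca cZ cZ hl2).and ((two_lin ca (G := fun x => Y x + Z x) (by fun_prop) cY hl2).and
    ((two_lin ca (G := fun x => Z x ^ 2) (H := fun x => Z x ^ 2) (by fun_prop) (by fun_prop)
      hl2).and ((cross hC cZ h.Z0 hz hl2).and
    ((exp_step hl0 hl hC (f := fun x => Φ (x, 0)) (by fun_prop) (u := 10 * n * l ^ 2)
      (by positivity) (by linarith) h.ex).and
    (ht_step hC h.mem cχp cχm hR0 hR2 hη1 (fun x => by rw [(hp2 x).2]; exact (hp2 x).1)
      (fun x => by rw [(hm2 x).2]; exact (hm2 x).1) h.ht))))))).exists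
  obtain ⟨M, hM1, hM2, hM3, hM4, hM5, hM6, hM7⟩ := ((ev_mul_sh_mem 1 hm1 h.mem).and
    (hN2.and (hN3.and (hN4.and (hN5.and (hN6.and hN7)))))).exists
  have hmem : nP χp χm Φ N M ∈ V S0 :=
    Submodule.add_mem _ (Submodule.add_mem _ (ex_mem_V ⟨by norm_num, by norm_num⟩) hN1) hM1
  have ha' : ∀ u, 0 ≤ 1 - a u := fun u => sub_nonneg.2 (hC.a1 u)
  have hα := hC.ia
  refine ⟨nP χp χm Φ N M, nZ a (fun x => Y x + Z x) Y N M, nZ a Z Z N M, hmem,
    by unfold nZ; fun_prop, by unfold nZ; fun_prop, fun x => ?_, fun x => ?_, fun x => ?_,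
    fun T => ?_, fun T => ?_, fun T => ?_, fun c T => ?_, hM7⟩
  · exact add_nonneg (mul_nonneg (hC.a0 _) (add_nonneg (h.Y0 _) (h.Z0 _)))
      (mul_nonneg (ha' _) (h.Y0 _))
  · exact add_nonneg (mul_nonneg (hC.a0 _) (h.Z0 _)) (mul_nonneg (ha' _) (h.Z0 _))
  · have h1 := mul_le_mul_of_nonneg_left (h.YZ (At 0 N x)) (hC.a0 x.2.2)
    have h2 := mul_le_mul_of_nonneg_left (h.YZ (At 1 M x)) (ha' (x.2.2 - x.1))
    have h3 := mul_nonneg (ha' (x.2.2 - x.1)) (h.Z0 (At 1 M x))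
    simp only [nZ]
    nlinarith
  · have h1 := abs_le.1 (hM2 T)
    have h2 := abs_le.1 (h.iZ T)
    change _ ≤ fi (nZ a Z Z N M) T - _ ∧ fi (nZ a Z Z N M) T - _ ≤ _ at h1
    rw [abs_le]
    constructor <;> nlinarith [h1.1, h1.2, h2.1, h2.2]
  · have h1 := (abs_le.1 (hM3 T)).1
    change _ ≤ fi (nZ a (fun x => Y x + Z x) Y N M) T - _ at h1
    rw [fi_add cY cZ] at h1
    have h2 := mul_le_mul hα (hz' T) (by norm_num) (by linarith)
    have h3 := h.iY T
    nlinarith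
  · have h1 := (abs_le.1 (hM4 T)).2
    have h2 := hM5 T
    have h3 := h.iZ2 T
    have h4 : fi (fun x => nZ a Z Z N M x ^ 2) T ≤
        fi (fun x => (a x.2.2 * Z (At 0 N x) ^ 2 + (1 - a (x.2.2 - x.1)) * Z (At 1 M x) ^ 2) +
          2 * (a x.2.2 * (1 - a (x.2.2 - x.1)) * Z (At 0 N x) * Z (At 1 M x))) T := by
      refine fi_mono (by unfold nZ; fun_prop) (by fun_prop) (fun x => ?_) T
      have k1 := mul_nonneg (mul_nonneg (hC.a0 x.2.2) (ha' x.2.2)) (sq_nonneg (Z (At 0 N x)))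
      have k2 := mul_nonneg (mul_nonneg (hC.a0 (x.2.2 - x.1)) (ha' (x.2.2 - x.1)))
        (sq_nonneg (Z (At 1 M x)))
      simp only [nZ]
      nlinarith
    rw [fi_add (by fun_prop) (by fun_prop), fi_const_mul] at h4
    have h5 := norm_nonneg T
    nlinarith
  · have h1 := hM6 c T
    have h2 : fi (fun x => Real.exp (l * ((c : ℂ) * nP χp χm Φ N M (x, 0)).re)) T ≤
        fi (fun x => (1 + 2 * l ^ 2) * (Real.exp (l * ((c : ℂ) * e1 (x.1 + x.2.2)).re) *
        (1 + bp x.2.2 * (Real.exp (l * ((c : ℂ) * Φ (At 0 N x, 0)).re) - 1)) *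
        (1 + bm (x.2.2 - x.1) * (Real.exp (l * ((c : ℂ) * Φ (At 1 M x, 0)).re) - 1)))) T := by
      have cc : ∀ g : T3 × R3 → ℂ, Continuous g →
        Continuous fun x : T3 => Real.exp (l * ((c : ℂ) * g (x, 0)).re) := fun g hg => by fun_prop
      refine fi_mono (cc _ (V_continuous hmem)) (by fun_prop) (fun x => ?_) T
      have k1 := re_cut_le c (hp2 x).1 (hR1 (At 0 N x))
      have k2 := re_cut_le c (hm2 x).1 (hR1 (At 1 M x))
      have k3 : l * ((c : ℂ) * nP χp χm Φ N M (x, 0)).re ≤ l ^ 2 +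
          (l * ((c : ℂ) * e1 (x.1 + x.2.2)).re + bp x.2.2 * (l * ((c : ℂ) * Φ (At 0 N x, 0)).re) +
            bm (x.2.2 - x.1) * (l * ((c : ℂ) * Φ (At 1 M x, 0)).re)) := by
        simp only [nP, Pi.add_apply, Pi.mul_apply, sh, Ar_zero, root_zero, mul_add, add_re]
        nlinarith [mul_le_mul_of_nonneg_left k1 hl0.le, mul_le_mul_of_nonneg_left k2 hl0.le]
      refine (Real.exp_le_exp.2 k3).trans ?_
      rw [Real.exp_add, Real.exp_add, Real.exp_add]
      have k4 : Real.exp (l ^ 2) ≤ 1 + 2 * l ^ 2 := by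
        have := (abs_le.1 (Real.abs_exp_sub_one_le (x := l ^ 2)
          (by rw [abs_of_pos hl2]; nlinarith))).2
        rw [abs_of_pos hl2] at this
        linarith
      have k5 := one_add_nonneg (a := l * ((c : ℂ) * Φ (At 0 N x, 0)).re) (hC.p0 x.2.2) (hC.p1 _)
      gcongr
      · exact exp_mul_le (hC.p0 _) (hC.p1 _)
      · exact exp_mul_le (hC.m0 _) (hC.m1 _)
    rw [fi_const_mul] at h2
    have h3 := mul_le_mul_of_nonneg_left h1 (show 0 ≤ 1 + 2 * l ^ 2 by positivity)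
    have h4 := mul_le_mul_of_nonneg_left (show n * l ^ 2 ≤ 1 / 400 by linarith) hl2.le
    have h5 := mul_le_mul_of_nonneg_left (show l ^ 2 ≤ 1 / 400 by nlinarith) hl2.le
    nlinarith

theorem exists_inv {l : ℝ} (hl0 : 0 < l) (n : ℕ) (hn : n * l ≤ 1 / 20) :
    ∃ Φ Y Z, Inv l n Φ Y Z := by
  induction n with
  | zero => exact ⟨_, _, _, by simpa using inv_zero l⟩
  | succ n ih =>
    push_cast at hn ⊢
    obtain ⟨Φ, Y, Z, h⟩ := ih (by nlinarith)
    exact inv_step hl0 (Nat.cast_nonneg n) hn h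

end

end Pool.Agent.Lib.MP_730078_an
end

-- part Pool.Agent.Lib.MP_730078_an.Seed
section

open MeasureTheory Set Filter Topology Complex ComplexConjugate
open scoped ENNReal Real

namespace Pool.Agent.Lib.MP_730078_an

noncomputable section

/-- Over the points where `g < 1` the function `Φ` reaches the height `h` in a compact part of
the cone. -/
def Tall (h : ℝ) (Φ : T3 × R3 → ℂ) (g : T3 → ℝ) : Prop :=
  ∃ κ : ℝ, 0 < κ ∧ ∃ B : ℝ, ∀ x, g x < 1 → ∃ y ∈ K κ, ‖y‖ ≤ B ∧ h ≤ ‖Φ (x, y)‖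

theorem int_fi {f : T3 → ℝ} (hf : Continuous f) : ∫ x, f x = ∫ T, fi f T :=
  integral_prod f (intg hf)

theorem int_le_of_fi {f : T3 → ℝ} (hf : Continuous f) {g : TT → ℝ} (hg : Continuous g)
    (h : ∀ T, fi f T ≤ g T) : ∫ x, f x ≤ ∫ T, g T := by
  rw [int_fi hf]
  exact integral_mono (intg hf (μ := (volume : Measure TT).prod volume)).integral_prod_left
    (intg hg) h

theorem log_le_int {n : ℝ} (hn : 0 < n) :
    Real.log (1 + n) / n ≤ ∫ T : TT, (1 + n * ‖T‖)⁻¹ := by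
  rw [← UnitAddCircle.intervalIntegral_preimage 0, zero_add]
  have hpos : ∀ t ∈ uIcc (0 : ℝ) 1, 1 + n * t ≠ 0 := by
    intro t ht
    rw [uIcc_of_le zero_le_one] at ht
    have := ht.1
    positivity
  have hc : ContinuousOn (fun t : ℝ => (1 + n * t)⁻¹) (uIcc 0 1) :=
    ContinuousOn.inv₀ (by fun_prop) hpos
  have h1 : ∫ t in (0 : ℝ)..1, (1 + n * t)⁻¹ =
      Real.log (1 + n * 1) / n - Real.log (1 + n * 0) / n := by
    refine intervalIntegral.integral_eq_sub_of_hasDerivAt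
      (f := fun t => Real.log (1 + n * t) / n) (fun t ht => ?_) hc.intervalIntegrable
    have := ((((hasDerivAt_id t).const_mul n).const_add 1).log (hpos t ht)).div_const n
    refine this.congr_deriv ?_
    simp only [id]
    field_simp
  simp only [mul_one, mul_zero, add_zero, Real.log_one, zero_div, sub_zero] at h1
  rw [← h1]
  have hc' : Continuous fun t : ℝ => (1 + n * ‖(t : TT)‖)⁻¹ := by
    have : Continuous (fun x : ℝ => (x : TT)) := AddCircle.continuous_mk' 1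
    exact Continuous.inv₀ (by fun_prop) fun t => by positivity
  refine intervalIntegral.integral_mono_on zero_le_one hc.intervalIntegrable
    (hc'.intervalIntegrable _ _) fun t ht => ?_
  have h2 : ‖(t : TT)‖ ≤ t := QuotientAddGroup.norm_mk_le_norm.trans (Real.norm_of_nonneg ht.1).le
  gcongr

theorem perturb {f : T3 × R3 → ℂ} (hf : Continuous f) {ε : ℝ} (hε : 0 < ε) :
    ∃ κ : ℝ, 0 < κ ∧ κ < 1 ∧ ∀ x σ, |σ| ≤ 2 →
      ‖f (x, om σ + κ • ((1, 0, 1) : R3)) - f (x, om σ)‖ < ε := by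
  have h : ∀ᶠ κ : ℝ in 𝓝 0, ∀ q ∈ (univ : Set T3) ×ˢ Icc (-2 : ℝ) 2,
      ‖f (q.1, om q.2 + κ • ((1, 0, 1) : R3)) - f (q.1, om q.2)‖ < ε := by
    apply (isCompact_univ.prod isCompact_Icc).eventually_forall_of_forall_eventually
    intro q _
    have hc : Continuous fun z : ℝ × T3 × ℝ =>
        ‖f (z.2.1, om z.2.2 + z.1 • ((1, 0, 1) : R3)) - f (z.2.1, om z.2.2)‖ := by fun_prop
    apply (hc.continuousAt (x := (0, q))).eventually_lt continuousAt_const
    simpa using hε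
  obtain ⟨κ, h1, h2, h3⟩ := ((h.filter_mono nhdsWithin_le_nhds).and
    (Ioo_mem_nhdsGT (show (0 : ℝ) < 1 by norm_num))).exists
  exact ⟨κ, h2, h3, fun x σ hσ => h1 (x, σ) ⟨mem_univ _, abs_le.1 hσ⟩⟩

theorem seed_n (n : ℕ) (hn : 0 < n) : ∃ Φ ∈ V S0, ∃ g : T3 → ℝ, Continuous g ∧ (∀ x, 0 ≤ g x) ∧
    (∀ c : DD, ∫ x, Real.exp ((c : ℂ) * Φ (x, 0)).re ≤ 1 + 1 / (40 * n)) ∧
    ∫ x, g x ≤ 1 - Real.log (1 + n) / (405 * n) ∧ Tall (ww / 1280) Φ g := by
  have hn' : (0 : ℝ) < n := by exact_mod_cast hn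
  have hw := ww_pos
  have hl0 : (0 : ℝ) < 1 / (20 * n) := by positivity
  have hl : n * (1 / (20 * n) : ℝ) = 1 / 20 := by field_simp
  have hn1 : (1 : ℝ) ≤ n := by exact_mod_cast hn
  have hl3 : 10 * n * (1 / (20 * n) : ℝ) ^ 2 = 1 / (40 * n) := by field_simp; norm_num
  obtain ⟨Φ, Y, Z, h⟩ := exists_inv hl0 n hl.le
  generalize (1 / (20 * n) : ℝ) = l at hl0 hl hl3 h
  have hl1 : l ≤ 1 / 20 := by nlinarith
  have cΦ := V_continuous h.mem
  have cY := h.cY
  have cZ := h.cZ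
  let θ : TT → ℝ := fun T => (45 * n : ℝ)⁻¹ * (1 + n * ‖T‖)⁻¹
  have ci : Continuous fun T : TT => (1 + n * ‖T‖)⁻¹ :=
    Continuous.inv₀ (by fun_prop) fun t => by positivity
  have cθ : Continuous θ := continuous_const.mul ci
  have hθ : ∀ T, 0 < θ T := fun T => by positivity
  refine ⟨(l : ℂ) • Φ, Submodule.smul_mem _ _ h.mem,
    fun x => (1 - θ x.1 * (Y x - n / 8 * Z x)) ^ 2, by fun_prop, fun x => sq_nonneg _,
    fun c => ?_, ?_, ?_⟩
  · refine (int_le_of_fi (by fun_prop) continuous_const (g := fun _ => 1 + 1 / (40 * n))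
      fun T => ?_).trans (by simp)
    rw [← hl3]
    refine le_trans (le_of_eq ?_) (h.ex c T)
    congr 1
    funext x
    rw [Pi.smul_apply, smul_eq_mul, mul_left_comm, re_ofReal_mul]
  · refine (int_le_of_fi (by fun_prop) (g := fun T => 1 - 1 / 405 * (1 + n * ‖T‖)⁻¹)
      (by fun_prop) fun T => ?_).trans ?_
    · have h1 : fi (fun x => (1 - θ x.1 * (Y x - n / 8 * Z x)) ^ 2) T ≤
          fi (fun x => 1 + (-(2 * θ T)) * Y x + (θ T * n / 4) * Z x +
            (θ T * n) ^ 2 * Z x ^ 2) T := by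
        refine integral_mono (intg (by fun_prop)) (intg (by fun_prop)) fun v => ?_
        have k1 := h.Y0 (T, v)
        have k2 := h.YZ (T, v)
        have k3 := mul_nonneg hn'.le (h.Z0 (T, v))
        have k4 : (Y (T, v) - n / 8 * Z (T, v)) ^ 2 ≤ (n * Z (T, v)) ^ 2 :=
          sq_le_sq' (by linarith) (by linarith)
        have k5 := mul_le_mul_of_nonneg_left k4 (sq_nonneg (θ T))
        simp only
        nlinarith
      rw [fi_add (by fun_prop) (by fun_prop), fi_add (by fun_prop) (by fun_prop),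
        fi_add (by fun_prop) (by fun_prop), fi_const, fi_const_mul, fi_const_mul,
        fi_const_mul] at h1
      have k1 := mul_le_mul_of_nonneg_left (h.iY T) (hθ T).le
      have k2 : fi Z T ≤ 201 / 200 := by nlinarith [(abs_le.1 (h.iZ T)).2]
      have k3 := mul_le_mul_of_nonneg_left k2 (mul_pos (hθ T) hn').le
      have k4 : fi (fun x => Z x ^ 2) T ≤ 5 * (1 + n * ‖T‖) := by nlinarith [h.iZ2 T]
      have k5 := mul_le_mul_of_nonneg_left k4 (sq_nonneg (θ T * n))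
      have hT : 0 < 1 + n * ‖T‖ := by positivity
      have k6 : θ T * n = 1 / 45 * (1 + n * ‖T‖)⁻¹ := by simp only [θ]; field_simp
      have k7 : (θ T * n) ^ 2 * (5 * (1 + n * ‖T‖)) = 1 / 405 * (1 + n * ‖T‖)⁻¹ := by
        rw [k6]; field_simp; norm_num
      have k8 := inv_pos.2 hT
      nlinarith
    · rw [integral_sub (integrable_const _) (intg (by fun_prop)), integral_const_mul]
      have := log_le_int hn'
      have e : Real.log (1 + n) / (405 * n) = 1 / 405 * (Real.log (1 + n) / n) := by field_simp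
      simp only [integral_const, probReal_univ, smul_eq_mul, mul_one]
      linarith
  · obtain ⟨κ, hκ0, hκ1, hκ⟩ := perturb cΦ (ε := ww * n / 64) (by positivity)
    refine ⟨κ, hκ0, 5, fun x hx => ?_⟩
    have h1 : 0 < Y x - n / 8 * Z x := by
      by_contra hh
      have := mul_nonpos_of_nonneg_of_nonpos (hθ x.1).le (not_lt.1 hh)
      simp only at hx
      nlinarith
    obtain ⟨σ, hσ, h2⟩ := h.ht _ _ h1
    have h3 : (conj (e1 x.1) * Φ (x, om σ)).re ≤ ‖Φ (x, om σ)‖ := by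
      refine (Complex.re_le_norm _).trans (le_of_eq ?_)
      rw [norm_mul, Complex.norm_conj, norm_e1, one_mul]
    have h4 := hκ x σ hσ
    have h5 := norm_sub_norm_le (Φ (x, om σ)) (Φ (x, om σ + κ • ((1, 0, 1) : R3)))
    rw [norm_sub_rev] at h5
    have hσ2 : σ ^ 2 ≤ 4 := by rw [← sq_abs]; nlinarith [abs_nonneg σ]
    refine ⟨om σ + κ • ((1, 0, 1) : R3), ?_, ?_, ?_⟩
    · simp [K, om, sq_nonneg]
    · simp only [om, Prod.smul_mk, smul_eq_mul, mul_one, mul_zero, Prod.mk_add_mk, add_zero,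
        Prod.norm_def, Real.norm_eq_abs]
      refine max_le ?_ (max_le (by linarith) ?_) <;> rw [abs_of_nonneg (by positivity)] <;> linarith
    · rw [Pi.smul_apply, norm_smul, Complex.norm_real, Real.norm_of_nonneg hl0.le]
      have h6 : ww * n / 64 ≤ ‖Φ (x, om σ + κ • ((1, 0, 1) : R3))‖ := by
        have := mul_le_mul_of_nonneg_left ww_le (mul_pos hw hn').le
        nlinarith
      have := mul_le_mul_of_nonneg_left h6 hl0.le
      nlinarith

/-- The logarithmic gain: the probability of success is much larger than the cost. -/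
theorem seed {τ : ℝ} (hτ : 0 < τ) : ∃ u q : ℝ, 0 < u ∧ 0 < q ∧ u ≤ τ * q ∧
    ∃ Φ ∈ V S0, ∃ g : T3 → ℝ, Continuous g ∧ (∀ x, 0 ≤ g x) ∧
    (∀ c : DD, ∫ x, Real.exp ((c : ℂ) * Φ (x, 0)).re ≤ 1 + u) ∧
    ∫ x, g x ≤ 1 - q ∧ Tall (ww / 1280) Φ g := by
  have h1 : Tendsto (fun n : ℕ => Real.log (1 + n)) atTop atTop :=
    Real.tendsto_log_atTop.comp (tendsto_atTop_add_const_left _ _ tendsto_natCast_atTop_atTop)
  obtain ⟨n, hn, h2⟩ := ((eventually_gt_atTop 0).and (h1.eventually_ge_atTop (11 / τ))).exists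
  have hn' : (0 : ℝ) < n := by exact_mod_cast hn
  have h3 : 0 < Real.log (1 + n) := Real.log_pos (by linarith)
  refine ⟨_, _, by positivity, by positivity, ?_, seed_n n hn⟩
  rw [div_le_iff₀ hτ] at h2
  rw [← mul_div_assoc, div_le_div_iff₀ (by positivity) (by positivity)]
  nlinarith

end

end Pool.Agent.Lib.MP_730078_an
end

-- part Pool.Agent.Lib.MP_730078_an.Amp
section

open MeasureTheory Set Filter Topology Complex ComplexConjugate
open scoped ENNReal Real Nat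

namespace Pool.Agent.Lib.MP_730078_an

noncomputable section

theorem Tall.mono {h h' : ℝ} {Φ : T3 × R3 → ℂ} {g : T3 → ℝ} (H : Tall h Φ g) (hh : h' ≤ h) :
    Tall h' Φ g := by
  obtain ⟨κ, hκ, B, H⟩ := H
  exact ⟨κ, hκ, B, fun x hx => (H x hx).imp fun y hy => ⟨hy.1, hy.2.1, hh.trans hy.2.2⟩⟩

theorem tall_step {Ψ Φ : T3 × R3 → ℂ} (hΨ : Continuous Ψ) (hΦ : Φ ∈ V S0) {G g : T3 → ℝ}
    {t h ε : ℝ} (h1 : Tall t Ψ G) (h2 : Tall h Φ g) (ht : t ≤ h / 2) (hε : 0 < ε) :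
    ∀ᶠ N : ℕ in atTop, Tall (t - ε) (Ψ + dil N Φ) (fun x => G x * g ((N : ℤ) • x)) := by
  obtain ⟨κ1, hκ1, B1, h1⟩ := h1
  obtain ⟨κ0, hκ0, B0, h2⟩ := h2
  obtain ⟨r, hr, hr'⟩ := Metric.eventually_nhds_iff.1 (unif_near hΨ 0 (half_pos hε))
  simp only [dist_zero_right] at hr'
  obtain ⟨A, hA, hA', -⟩ := V_decay hΦ
  have hκ : 0 < min κ1 (r / 2) := lt_min hκ1 (half_pos hr)
  have h3 : Tendsto (fun N : ℕ => A * Real.exp (-(N * min κ1 (r / 2)))) atTop (𝓝 (A * 0)) :=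
    (Real.tendsto_exp_neg_atTop_nhds_zero.comp
      (tendsto_natCast_atTop_atTop.atTop_mul_const hκ)).const_mul A
  rw [mul_zero] at h3
  filter_upwards [h3.eventually (eventually_le_nhds (half_pos hε)), ev_div B0 (half_pos hr)]
    with N hN1 hN2
  have hN : (0 : ℝ) < N := by exact_mod_cast hN2.1
  have h4 : ∀ y ∈ K (min κ1 (r / 2)), ∀ x, ‖dil N Φ (x, y)‖ ≤ ε / 2 := fun y hy x =>
    (hA' _ (by positivity) _ (smul_mem_K hN.le hy) _).trans hN1
  have h5 : ∀ a b : ℂ, ‖a‖ - ‖b‖ ≤ ‖a + b‖ := fun a b => by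
    simpa using norm_sub_norm_le a (-b)
  refine ⟨min (min κ1 (r / 2)) ((N : ℝ)⁻¹ * κ0), lt_min hκ (by positivity), max B1 r,
    fun x hx => ?_⟩
  by_cases hG : G x < 1
  · obtain ⟨y, hy1, hy2, hy3⟩ := h1 x hG
    have hy4 := K_mono (min_le_left _ (r / 2)) hy1
    refine ⟨y, K_mono (min_le_left _ _) hy4, le_max_of_le_left hy2, ?_⟩
    rw [Pi.add_apply]
    linarith [h5 (Ψ (x, y)) (dil N Φ (x, y)), h4 y hy4 x]
  have hg : g ((N : ℤ) • x) < 1 := by
    by_contra hg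
    exact hx.not_ge (one_le_mul_of_one_le_of_one_le (not_lt.1 hG) (not_lt.1 hg))
  by_cases h6 : ‖Ψ (x, 0)‖ ≤ h / 2
  · obtain ⟨y, hy1, hy2, hy3⟩ := h2 _ hg
    have hy4 : ‖(N : ℝ)⁻¹ • y‖ < r := by
      rw [norm_smul, norm_inv, Real.norm_natCast, ← div_eq_inv_mul]
      calc ‖y‖ / N ≤ B0 / N := by gcongr
        _ < r := by linarith [hN2.2]
    refine ⟨(N : ℝ)⁻¹ • y, K_mono (min_le_right _ _) (smul_mem_K (by positivity) hy1),
      le_max_of_le_right hy4.le, ?_⟩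
    have e : dil N Φ (x, (N : ℝ)⁻¹ • y) = Φ ((N : ℤ) • x, y) := by
      simp only [dil, smul_smul, mul_inv_cancel₀ hN.ne', one_smul]
    rw [Pi.add_apply, e, add_comm]
    linarith [h5 (Φ ((N : ℤ) • x, y)) (Ψ (x, (N : ℝ)⁻¹ • y)), hr' hy4 x,
      norm_sub_norm_le (Ψ (x, (N : ℝ)⁻¹ • y)) (Ψ (x, 0))]
  · have hy1 : ((r / 2, 0, r / 2) : R3) ∈ K (min κ1 (r / 2)) :=
      K_mono (min_le_right _ _) (by simp [K])
    have hy2 : ‖((r / 2, 0, r / 2) : R3)‖ < r := by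
      simp only [Prod.norm_def, Real.norm_eq_abs, abs_of_pos (half_pos hr), abs_zero]
      exact max_lt (by linarith) (max_lt hr (by linarith))
    refine ⟨_, K_mono (min_le_left _ _) hy1, le_max_of_le_right hy2.le, ?_⟩
    have h7 := hr' hy2 x
    rw [norm_sub_rev] at h7
    rw [Pi.add_apply]
    linarith [h5 (Ψ (x, (r / 2, 0, r / 2))) (dil N Φ (x, (r / 2, 0, r / 2))), h4 _ hy1 x,
      norm_sub_norm_le (Ψ (x, 0)) (Ψ (x, (r / 2, 0, r / 2))), not_le.1 h6]

/-- Sums of asymptotically independent copies. -/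
theorem amp {u q h ε : ℝ} (hu : 0 < u) (hq : 0 < q) (hε : 0 < ε) {Φ : T3 × R3 → ℂ}
    (hΦ : Φ ∈ V S0) {g : T3 → ℝ} (cg : Continuous g) (hg0 : ∀ x, 0 ≤ g x)
    (hE : ∀ c : DD, ∫ x, Real.exp ((c : ℂ) * Φ (x, 0)).re ≤ 1 + u) (hg : ∫ x, g x ≤ 1 - q)
    (hG : Tall h Φ g) (i : ℕ) :
    ∃ Ψ ∈ V S0, ∃ G : T3 → ℝ, Continuous G ∧ (∀ x, 0 ≤ G x) ∧
      (∀ c : DD, ∫ x, Real.exp ((c : ℂ) * Ψ (x, 0)).re ≤ (1 + 2 * u) ^ i) ∧
      ∫ x, G x ≤ (1 - q / 2) ^ i ∧ Tall (h / 2 - i * ε) Ψ G := by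
  induction i with
  | zero => exact ⟨0, Submodule.zero_mem _, fun _ => 1, continuous_const, by simp, by simp, by simp,
      1, one_pos, 0, by simp⟩
  | succ i ih =>
    obtain ⟨Ψ, hΨ, G, cG, hG0, h1, h2, h3⟩ := ih
    have cΨ := V_continuous hΨ
    have cΦ := V_continuous hΦ
    have hg1 : 0 ≤ ∫ x, g x := integral_nonneg hg0
    have hq2 : 0 < 1 - q / 2 := by linarith
    obtain ⟨N, hN0, hN1, hN2, hN3⟩ := ((eventually_gt_atTop 0).and ((mix3 (P := DD)
      (F := fun z => Real.exp ((z.1 : ℂ) * Ψ (z.2, 0)).re)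
      (G := fun z => Real.exp ((z.1 : ℂ) * Φ (z.2, 0)).re) (by fun_prop) (by fun_prop) hu).and
      ((mix3 (P := Unit) (F := fun z => G z.2) (G := fun z => g z.2) (by fun_prop) (by fun_prop)
        (ε := q / 2 * (1 - q / 2) ^ i) (by positivity)).and
      (tall_step cΨ hΦ h3 hG (sub_le_self _ (by positivity)) hε)))).exists
    refine ⟨Ψ + dil N Φ, Submodule.add_mem _ hΨ (dil_mem hN0 hΦ), fun x => G x * g ((N : ℤ) • x),
      by fun_prop, fun x => mul_nonneg (hG0 _) (hg0 _), fun c => ?_, ?_, hN3.mono (le_of_eq ?_)⟩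
    · have k1 := (abs_le.1 (hN1 c)).2
      have k2 := mul_le_mul (h1 c) (hE c) (integral_nonneg fun _ => (Real.exp_pos _).le)
        (by positivity)
      have k3 : 1 ≤ (1 + 2 * u) ^ i := one_le_pow₀ (by linarith)
      simp only [Pi.add_apply, dil, smul_zero, mul_add, add_re, Real.exp_add, pow_succ]
      simp only at k1
      nlinarith
    · have k1 := (abs_le.1 (hN2 ())).2
      have k2 := mul_le_mul h2 hg hg1 (by positivity)
      simp only at k1
      rw [pow_succ]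
      nlinarith
    · push_cast; ring

theorem pow_le_cosh (a : ℝ) {m : ℕ} (hm : 0 < m) :
    a ^ (2 * m) ≤ (2 * m)! * ((Real.exp a + Real.exp (-a)) / 2 - 1) := by
  have := sum_le_hasSum {0, m} (fun n _ => div_nonneg (Even.pow_nonneg ⟨n, two_mul n⟩ a)
    (Nat.cast_nonneg _)) (Real.hasSum_cosh a)
  rw [Finset.sum_pair hm.ne, Real.cosh_eq] at this
  simp only [mul_zero, pow_zero, Nat.factorial_zero, Nat.cast_one, div_one] at this
  rw [← div_le_iff₀' (by positivity)]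
  linarith

theorem moment {f : T3 → ℂ} (hf : Continuous f) {ζ : ℝ}
    (h : ∀ c : DD, ∫ x, Real.exp ((c : ℂ) * f x).re ≤ 1 + ζ) {m : ℕ} (hm : 0 < m) :
    ∫ x, ‖f x‖ ^ (2 * m) ≤ 2 ^ m * (2 * m)! * ζ := by
  have h1 := h ⟨1, by simp⟩
  have h2 := h ⟨-1, by simp⟩
  have h3 := h ⟨-I, by simp⟩
  have h4 := h ⟨I, by simp⟩
  simp only [one_mul, neg_mul, neg_re, I_mul_re, neg_neg] at h1 h2 h3 h4
  have h5 : ∫ x, ‖f x‖ ^ (2 * m) ≤ ∫ x, (2 ^ (m - 1) * (2 * m)! / 2) * (Real.exp (f x).re +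
      Real.exp (-(f x).re) + Real.exp (f x).im + Real.exp (-(f x).im) + (-4)) := by
    refine integral_mono (intg (by fun_prop)) (intg (by fun_prop)) fun x => ?_
    have k1 := pow_le_cosh (f x).re hm
    have k2 := pow_le_cosh (f x).im hm
    have k3 := add_pow_le (sq_nonneg (f x).re) (sq_nonneg (f x).im) m
    rw [← pow_mul, ← pow_mul] at k3
    have k4 := mul_le_mul_of_nonneg_left (add_le_add k1 k2) (show (0 : ℝ) ≤ 2 ^ (m - 1) by positivity)
    simp only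
    rw [pow_mul, Complex.sq_norm, Complex.normSq_apply, ← sq, ← sq]
    linarith
  rw [integral_const_mul, integral_add (intg (by fun_prop)) (integrable_const _),
    integral_add (intg (by fun_prop)) (intg (by fun_prop)),
    integral_add (intg (by fun_prop)) (intg (by fun_prop)),
    integral_add (intg (by fun_prop)) (intg (by fun_prop))] at h5
  simp only [integral_const, probReal_univ, smul_eq_mul, one_mul] at h5
  refine h5.trans ((mul_le_mul_of_nonneg_left (show _ ≤ 4 * ζ by linarith)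
    (by positivity)).trans (le_of_eq ?_))
  obtain ⟨k, rfl⟩ := Nat.exists_eq_succ_of_ne_zero hm.ne'
  simp only [Nat.succ_eq_add_one, add_tsub_cancel_right, pow_succ]
  ring

/-- The building block for every finite exponent. -/
theorem block2 (p : ℝ≥0∞) (hp : p ≠ ∞) (H : ℝ) {ε : ℝ} (hε : 0 < ε) :
    ∃ Φ ∈ V S0, eLpNorm (fun x => Φ (x, 0)) p volume ≤ ENNReal.ofReal ε ∧
      ∃ κ : ℝ, 0 < κ ∧ ∃ B : ℝ, ∃ G : Set T3, MeasurableSet G ∧ volume G ≤ ENNReal.ofReal ε ∧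
        ∀ x ∉ G, ∃ y ∈ K κ, ‖y‖ ≤ B ∧ H ≤ ‖Φ (x, y)‖ := by
  have hw := ww_pos
  obtain ⟨m, hm⟩ := ENNReal.exists_nat_gt hp
  set s : ℝ := (|H| + 1) * 5120 / ww with hs
  have hs0 : 0 < s := by positivity
  set ζ : ℝ := (ε / s) ^ (2 * (m + 1)) / (2 ^ (m + 1) * (2 * (m + 1))!) with hζ
  have hζ0 : 0 < ζ := by positivity
  have hlog := Real.log_pos (show 1 < 1 + ζ by linarith)
  obtain ⟨u, q, hu, hq, huq, Φ, hΦ, g, cg, hg0, hE, hg, hG⟩ :=
    seed (τ := Real.log (1 + ζ) / (2 * (2 / ε + 1))) (by positivity)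
  have hq1 : q ≤ 1 := by linarith [integral_nonneg (μ := volume) (f := g) hg0]
  set L := ⌈2 / ε / q⌉₊ with hL
  obtain ⟨Ψ, hΨ, G, cG, hG0, h1, h2, h3⟩ :=
    amp hu hq (ε := ww / 5120 / (L + 1)) (by positivity) hΦ cg hg0 hE hg hG L
  have cΨ := V_continuous hΨ
  have k1 : (1 + 2 * u) ^ L ≤ 1 + ζ := by
    have a1 : (1 + 2 * u) ^ L ≤ Real.exp (2 * u) ^ L := by
      gcongr; linarith [Real.add_one_le_exp (2 * u)]
    rw [← Real.exp_nat_mul] at a1
    rw [← Real.exp_log (show 0 < 1 + ζ by linarith)]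
    refine a1.trans (Real.exp_le_exp.2 ?_)
    have a2 : (L : ℝ) * q ≤ 2 / ε + 1 := by
      have := mul_le_mul_of_nonneg_right (Nat.ceil_lt_add_one (show 0 ≤ 2 / ε / q by positivity)).le
        hq.le
      rw [add_mul, div_mul_cancel₀ _ hq.ne'] at this
      linarith
    calc L * (2 * u) ≤ L * (2 * (Real.log (1 + ζ) / (2 * (2 / ε + 1)) * q)) := by gcongr
      _ = Real.log (1 + ζ) / (2 / ε + 1) * (L * q) := by field_simp
      _ ≤ Real.log (1 + ζ) / (2 / ε + 1) * (2 / ε + 1) := by gcongr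
      _ = _ := by field_simp
  have k2 : (1 - q / 2) ^ L ≤ ε := by
    have a1 : (1 - q / 2) ^ L ≤ Real.exp (-(q / 2)) ^ L := by
      gcongr
      · linarith
      · linarith [Real.add_one_le_exp (-(q / 2))]
    rw [← Real.exp_nat_mul] at a1
    have a2 : 2 / ε ≤ L * q := (div_le_iff₀ hq).1 (Nat.le_ceil _)
    refine a1.trans ((Real.exp_le_exp.2 (show _ ≤ -ε⁻¹ by
      rw [div_eq_mul_inv] at a2; linarith)).trans ?_)
    rw [Real.exp_neg, inv_le_comm₀ (Real.exp_pos _) hε]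
    linarith [Real.add_one_le_exp ε⁻¹]
  obtain ⟨κ, hκ, B, h3⟩ := h3.mono (h' := ww / 5120) (by
    have : (L : ℝ) * (ww / 5120 / (L + 1)) ≤ ww / 5120 := by
      rw [← mul_div_assoc, div_le_iff₀ (by positivity)]; linarith
    linarith)
  refine ⟨(s : ℂ) • Ψ, Submodule.smul_mem _ _ hΨ, ?_, κ, hκ, B, {x | 1 ≤ G x},
    (isClosed_le continuous_const cG).measurableSet, ?_, fun x hx => ?_⟩
  · have c0 : Continuous fun x : T3 => ((s : ℂ) • Ψ) (x, 0) := by fun_prop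
    refine (eLpNorm_le_eLpNorm_of_exponent_le (q := ((2 * (m + 1) : ℕ) : ℝ≥0∞))
      (hm.le.trans (by exact_mod_cast (by omega))) c0.aestronglyMeasurable).trans ?_
    rw [MemLp.eLpNorm_eq_integral_rpow_norm (by simp) (ENNReal.natCast_ne_top _)
      (c0.memLp_of_hasCompactSupport (HasCompactSupport.of_compactSpace _))]
    apply ENNReal.ofReal_le_ofReal
    simp only [ENNReal.toReal_natCast, Real.rpow_natCast, Pi.smul_apply, norm_smul, mul_pow,
      Complex.norm_real, Real.norm_of_nonneg hs0.le, integral_const_mul]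
    rw [← Real.pow_rpow_inv_natCast hε.le (n := 2 * (m + 1)) (by omega)]
    gcongr
    refine (mul_le_mul_of_nonneg_left (moment (f := fun x => Ψ (x, 0)) (by fun_prop)
      (fun c => (h1 c).trans k1) m.succ_pos) (by positivity)).trans (le_of_eq ?_)
    rw [hζ, div_pow ε s]
    clear_value s
    simp only [Nat.succ_eq_add_one]
    field_simp
  · have := mul_meas_ge_le_integral_of_nonneg (μ := volume) (Eventually.of_forall hG0) (intg cG) 1
    rw [one_mul] at this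
    exact (ENNReal.le_ofReal_iff_toReal_le (measure_ne_top _ _) hε.le).2
      (this.trans (h2.trans k2))
  · obtain ⟨y, hy1, hy2, hy3⟩ := h3 x (not_le.1 hx)
    refine ⟨y, hy1, hy2, ?_⟩
    rw [Pi.smul_apply, norm_smul, Complex.norm_real, Real.norm_of_nonneg hs0.le]
    refine le_trans ?_ (mul_le_mul_of_nonneg_left hy3 hs0.le)
    rw [hs]
    field_simp
    linarith [le_abs_self H]

end

end Pool.Agent.Lib.MP_730078_an
end

-- part Pool.Agent.Lib.MP_730078_an.GBasic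
section

open MeasureTheory Set Filter Topology Complex BoundedContinuousFunction
open scoped ENNReal Real

namespace Pool.Agent.Lib.MP_730078_an.G

noncomputable section

section BU

variable {X : Type*} [PseudoMetricSpace X] {F F' : Type*} [NormedAddCommGroup F]
  [NormedAddCommGroup F']

/-- Bounded and uniformly continuous. -/
def BU (f : X → F) : Prop := UniformContinuous f ∧ ∃ C, ∀ x, ‖f x‖ ≤ C

theorem BU.cont {f : X → F} (h : BU f) : Continuous f := h.1.continuous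

theorem BU.const (c : F) : BU fun _ : X => c := ⟨uniformContinuous_const, ‖c‖, fun _ => le_rfl⟩

theorem BU.pair {f : X → F} {g : X → F'} (hf : BU f) (hg : BU g) : BU fun x => (f x, g x) := by
  obtain ⟨h1, C, hC⟩ := hf
  obtain ⟨h2, D, hD⟩ := hg
  exact ⟨h1.prodMk h2, max C D, fun x => max_le_max (hC x) (hD x)⟩

theorem BU.comp [ProperSpace F] {f : X → F} (hf : BU f) {φ : F → F'} (hφ : Continuous φ) :
    BU fun x => φ (f x) := by
  obtain ⟨h1, C, hC⟩ := hf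
  have hK := isCompact_closedBall (0 : F) C
  have hm : ∀ x, f x ∈ Metric.closedBall (0 : F) C := fun x => mem_closedBall_zero_iff.2 (hC x)
  obtain ⟨D, hD⟩ := hK.exists_bound_of_continuousOn hφ.continuousOn
  refine ⟨?_, D, fun x => hD _ (hm x)⟩
  rw [← uniformContinuousOn_univ] at h1 ⊢
  exact (hK.uniformContinuousOn_of_continuous hφ.continuousOn).comp h1 fun x _ => hm x

theorem BU.comp2 {F'' : Type*} [NormedAddCommGroup F''] [ProperSpace F] [ProperSpace F']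
    {f : X → F} {g : X → F'} (hf : BU f) (hg : BU g) {φ : F × F' → F''} (hφ : Continuous φ) :
    BU fun x => φ (f x, g x) := (hf.pair hg).comp hφ

theorem BU.add {f g : X → ℝ} (hf : BU f) (hg : BU g) : BU fun x => f x + g x :=
  hf.comp2 hg (φ := fun q => q.1 + q.2) (by fun_prop)

theorem BU.mul {f g : X → ℝ} (hf : BU f) (hg : BU g) : BU fun x => f x * g x :=
  hf.comp2 hg (φ := fun q => q.1 * q.2) (by fun_prop)

theorem BU.precomp {Y : Type*} [PseudoMetricSpace Y] {f : X → F} (hf : BU f) {g : Y → X}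
    (hg : UniformContinuous g) : BU fun y => f (g y) :=
  ⟨hf.1.comp hg, hf.2.imp fun _ h _ => h _⟩

theorem BU.of_compact [CompactSpace X] {f : X → F} (hf : Continuous f) : BU f := by
  obtain ⟨D, hD⟩ := isCompact_univ.exists_bound_of_continuousOn hf.continuousOn
  exact ⟨CompactSpace.uniformContinuous_of_continuous hf, D, fun x => hD x (mem_univ x)⟩

end BU

theorem uc_mk : UniformContinuous fun s : ℝ => (s : TT) :=
  uniformContinuous_addMonoidHom_of_continuous (f := QuotientAddGroup.mk' _)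
    (AddCircle.continuous_mk' 1)

@[fun_prop] theorem continuous_mk : Continuous fun s : ℝ => (s : TT) := uc_mk.continuous

variable {E : Type*} [NormedAddCommGroup E] [NormedSpace ℝ E]

/-- The exponential `exp (2 π i t (x + i y))`. -/
def ef (t : E →L[ℝ] ℝ) (w : E × E) : ℂ := e1 (t w.1 : ℝ) * cexp (-(2 * π * t w.2))

theorem ef_add (s t : E →L[ℝ] ℝ) : ef (s + t) = ef s * ef t := by
  funext w
  simp only [ef, Pi.mul_apply, _root_.add_apply, AddCircle.coe_add, e1_add,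
    ofReal_add, mul_add, neg_add, Complex.exp_add]
  ring

theorem norm_ef (t : E →L[ℝ] ℝ) (w : E × E) : ‖ef t w‖ = Real.exp (-(2 * π * t w.2)) := by
  rw [ef, norm_mul, norm_e1, one_mul, Complex.norm_exp]
  congr 1
  simp

/-- Exponential polynomials with spectrum in `S`. -/
def Sp (S : Set (E →L[ℝ] ℝ)) : Submodule ℂ (E × E → ℂ) := Submodule.span ℂ (ef '' S)

theorem ef_mem {S : Set (E →L[ℝ] ℝ)} {t : E →L[ℝ] ℝ} (ht : t ∈ S) : ef t ∈ Sp S :=
  Submodule.subset_span ⟨t, ht, rfl⟩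

theorem Sp_induction {S : Set (E →L[ℝ] ℝ)} {P : (E × E → ℂ) → Prop} (h1 : ∀ t ∈ S, P (ef t))
    (h0 : P 0) (hadd : ∀ f g, P f → P g → P (f + g)) (hsmul : ∀ (c : ℂ) f, P f → P (c • f))
    {f : E × E → ℂ} (hf : f ∈ Sp S) : P f := by
  induction hf using Submodule.span_induction with
  | mem x hx => obtain ⟨t, ht, rfl⟩ := hx; exact h1 t ht
  | zero => exact h0
  | add x y _ _ hx hy => exact hadd x y hx hy
  | smul c x _ hx => exact hsmul c x hx

theorem Sp_mul {S S' S'' : Set (E →L[ℝ] ℝ)} (h : ∀ s ∈ S, ∀ t ∈ S', s + t ∈ S'')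
    {f g : E × E → ℂ} (hf : f ∈ Sp S) (hg : g ∈ Sp S') : f * g ∈ Sp S'' := by
  refine Sp_induction (P := fun f => f * g ∈ Sp S'') ?_ ?_ ?_ ?_ hf
  · intro s hs
    refine Sp_induction (P := fun g => ef s * g ∈ Sp S'') ?_ ?_ ?_ ?_ hg
    · intro t ht
      rw [← ef_add]
      exact ef_mem (h s hs t ht)
    · simp
    · intro a b ha hb
      rw [mul_add]
      exact Submodule.add_mem _ ha hb
    · intro c a ha
      rw [mul_smul_comm]
      exact Submodule.smul_mem _ c ha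
  · simp
  · intro a b ha hb
    rw [add_mul]
    exact Submodule.add_mem _ ha hb
  · intro c a ha
    rw [smul_mul_assoc]
    exact Submodule.smul_mem _ c ha

theorem Sp_mono {S S' : Set (E →L[ℝ] ℝ)} (h : S ⊆ S') : Sp S ≤ Sp S' :=
  Submodule.span_mono (image_mono h)

theorem Sp_BU {S : Set (E →L[ℝ] ℝ)} {f : E × E → ℂ} (hf : f ∈ Sp S) (y : E) :
    BU fun x => f (x, y) := by
  refine Sp_induction (P := fun f => BU fun x => f (x, y)) (fun t _ => ?_) (BU.const 0)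
    (fun f g hf hg => hf.comp2 hg (φ := fun q => q.1 + q.2) (by fun_prop))
    (fun c f hf => hf.comp (φ := fun q => c * q) (by fun_prop)) hf
  exact ((BU.of_compact continuous_e1).precomp (uc_mk.comp t.uniformContinuous)).comp
    (φ := fun q => q * cexp (-(2 * π * t y))) (by fun_prop)

theorem Sp_bdd {S : Set (E →L[ℝ] ℝ)} {f : E × E → ℂ} (hf : f ∈ Sp S) :
    ∃ C : ℝ, 0 < C ∧ f ∈ Sp {t | t ∈ S ∧ ‖t‖ ≤ C} := by
  have m : ∀ {C D : ℝ}, C ≤ D → Sp {t | t ∈ S ∧ ‖t‖ ≤ C} ≤ Sp {t | t ∈ S ∧ ‖t‖ ≤ D} :=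
    fun h => Sp_mono fun t ht => ⟨ht.1, ht.2.trans h⟩
  refine Sp_induction (P := fun f => ∃ C : ℝ, 0 < C ∧ f ∈ Sp {t | t ∈ S ∧ ‖t‖ ≤ C})
    (fun t ht => ⟨‖t‖ + 1, by positivity, ef_mem ⟨ht, by linarith⟩⟩)
    ⟨1, one_pos, Submodule.zero_mem _⟩ ?_ ?_ hf
  · rintro f g ⟨C, hC, h1⟩ ⟨D, -, h2⟩
    exact ⟨max C D, lt_max_of_lt_left hC,
      Submodule.add_mem _ (m (le_max_left _ _) h1) (m (le_max_right _ _) h2)⟩
  · rintro c f ⟨C, hC, h1⟩
    exact ⟨C, hC, Submodule.smul_mem _ c h1⟩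

/-- Uniform continuity in the imaginary part. -/
theorem Sp_near {S : Set (E →L[ℝ] ℝ)} {f : E × E → ℂ} (hf : f ∈ Sp S) {K : Set E}
    (hK : IsCompact K) {ε : ℝ} (hε : 0 < ε) :
    ∀ᶠ z in 𝓝 (0 : E), ∀ y ∈ K, ∀ x, ‖f (x, y + z) - f (x, y)‖ ≤ ε := by
  revert ε
  refine Sp_induction (P := fun f => ∀ {ε : ℝ}, 0 < ε →
    ∀ᶠ z in 𝓝 (0 : E), ∀ y ∈ K, ∀ x, ‖f (x, y + z) - f (x, y)‖ ≤ ε) ?_ ?_ ?_ ?_ hf
  · intro t _ ε hε
    have h : ∀ᶠ z in 𝓝 (0 : E), ∀ y ∈ K,
        ‖cexp (-(2 * π * t (y + z))) - cexp (-(2 * π * t y))‖ < ε := by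
      apply hK.eventually_forall_of_forall_eventually
      intro q _
      have hc : Continuous fun z : E × E =>
        ‖cexp (-(2 * π * t (z.2 + z.1))) - cexp (-(2 * π * t z.2))‖ := by fun_prop
      apply (hc.continuousAt (x := (0, q))).eventually_lt continuousAt_const
      simpa using hε
    filter_upwards [h] with z hz y hy x
    simp only [ef]
    rw [← mul_sub, norm_mul, norm_e1, one_mul]
    exact (hz y hy).le
  · intro ε hε
    simp [hε.le]
  · intro f g hf hg ε hε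
    filter_upwards [hf (half_pos hε), hg (half_pos hε)] with z h1 h2 y hy x
    simp only [Pi.add_apply]
    rw [add_sub_add_comm]
    exact (norm_add_le_of_le (h1 y hy x) (h2 y hy x)).trans (add_halves ε).le
  · intro c f hf ε hε
    filter_upwards [hf (div_pos hε (show 0 < ‖c‖ + 1 by positivity))] with z h1 y hy x
    simp only [Pi.smul_apply]
    rw [← smul_sub, norm_smul]
    refine (mul_le_mul (le_add_of_nonneg_right zero_le_one) (h1 y hy x) (norm_nonneg _)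
      (by positivity)).trans (le_of_eq ?_)
    field_simp

theorem Sp_near' {S : Set (E →L[ℝ] ℝ)} {f : E × E → ℂ} (hf : f ∈ Sp S) (y₀ : E)
    {ε : ℝ} (hε : 0 < ε) :
    ∀ᶠ r in 𝓝[>] (0 : ℝ), ∀ y, ‖y - y₀‖ ≤ r → ∀ x, ‖f (x, y) - f (x, y₀)‖ ≤ ε := by
  obtain ⟨δ, hδ, h⟩ := Metric.eventually_nhds_iff.1 (Sp_near hf (isCompact_singleton (x := y₀)) hε)
  filter_upwards [Ioo_mem_nhdsGT hδ] with r hr y hy x
  simpa using h (y := y - y₀) (by simpa using hy.trans_lt hr.2) y₀ rfl x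

omit [NormedSpace ℝ E] in
theorem BU.bcf {f : E → ℂ} (hf : BU f) (x : E) : ∃ g : E →ᵇ ℂ, ∀ u, g u = f (x + u) := by
  obtain ⟨C, hC⟩ := hf.2
  have := hf.cont
  exact ⟨ofNormedAddCommGroup (fun u => f (x + u)) (by fun_prop) C fun u => hC _, fun _ => rfl⟩

/-- Phragmén–Lindelöf: translation invariant norms decay according to the spectrum. -/
theorem Sp_pl {F : Type*} [NormedAddCommGroup F] [NormedSpace ℂ F] (L : (E →ᵇ ℂ) →L[ℂ] F)
    {S : Set (E →L[ℝ] ℝ)} {f : E × E → ℂ} (hf : f ∈ Sp S) {y : E} {A : ℝ} (hA : ∀ t ∈ S, A ≤ t y)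
    {R : ℝ} (hR : ∀ x (g : E →ᵇ ℂ), (∀ u, g u = f (x + u, 0)) → ‖L g‖ ≤ R) (x : E) (g : E →ᵇ ℂ)
    (hg : ∀ u, g u = f (x + u, y)) : ‖L g‖ ≤ R * Real.exp (-(2 * π * A)) := by
  have hΨ : ∃ Ψ : ℂ → (E →ᵇ ℂ), Differentiable ℂ Ψ ∧ (∃ B, ∀ ζ : ℂ, 0 ≤ ζ.re → ‖Ψ ζ‖ ≤ B) ∧
      ∀ ζ u, Ψ ζ u = cexp (2 * π * A * ζ) * f (x + (-ζ.im) • y + u, ζ.re • y) := by
    refine Sp_induction (P := fun f => ∃ Ψ : ℂ → (E →ᵇ ℂ), Differentiable ℂ Ψ ∧
      (∃ B, ∀ ζ : ℂ, 0 ≤ ζ.re → ‖Ψ ζ‖ ≤ B) ∧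
      ∀ ζ u, Ψ ζ u = cexp (2 * π * A * ζ) * f (x + (-ζ.im) • y + u, ζ.re • y)) ?_ ?_ ?_ ?_ hf
    · intro t ht
      obtain ⟨χ, hχ⟩ := (Sp_BU (ef_mem ht) 0).bcf x
      refine ⟨fun ζ => cexp (-(2 * π * (t y - A : ℝ) * ζ)) • χ, by fun_prop, ⟨‖χ‖, ?_⟩, ?_⟩
      · intro ζ hζ
        rw [norm_smul, Complex.norm_exp]
        have h0 := sub_nonneg.2 (hA t ht)
        have : (-(2 * π * (t y - A : ℝ) * ζ) : ℂ).re ≤ 0 := by
          simp only [neg_re, mul_re, re_ofNat, ofReal_re, im_ofNat, ofReal_im, mul_zero, sub_zero,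
            mul_im, zero_mul, add_zero, Left.neg_nonpos_iff]
          positivity
        exact mul_le_of_le_one_left (norm_nonneg _) (Real.exp_le_one_iff.2 this)
      · intro ζ u
        simp only [BoundedContinuousFunction.smul_apply, hχ, smul_eq_mul, ef, e1_coe,
          ← Complex.exp_add, map_add, map_smul, map_zero]
        congr 1
        conv_lhs => rw [← re_add_im ζ]
        conv_rhs => enter [1]; rw [← re_add_im ζ]
        push_cast
        ring
    · exact ⟨0, differentiable_const _, ⟨0, by simp⟩, by simp⟩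
    · rintro f g ⟨Ψ, h1, ⟨B, h2⟩, h3⟩ ⟨Φ, k1, ⟨C, k2⟩, k3⟩
      exact ⟨Ψ + Φ, h1.add k1, ⟨B + C, fun ζ hζ => norm_add_le_of_le (h2 ζ hζ) (k2 ζ hζ)⟩,
        fun ζ x => by simp [h3, k3, mul_add]⟩
    · rintro c f ⟨Ψ, h1, ⟨B, h2⟩, h3⟩
      refine ⟨c • Ψ, h1.const_smul c, ⟨‖c‖ * B, fun ζ hζ => ?_⟩,
        fun ζ x => by simp [h3, mul_left_comm]⟩
      rw [Pi.smul_apply, norm_smul]
      exact mul_le_mul_of_nonneg_left (h2 ζ hζ) (norm_nonneg _)
  obtain ⟨Ψ, hd, ⟨B, hB⟩, hΨ⟩ := hΨ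
  have hLB : ∀ ζ : ℂ, 0 ≤ ζ.re → ‖L (Ψ ζ)‖ ≤ ‖L‖ * B := fun ζ hζ =>
    (L.le_opNorm _).trans (mul_le_mul_of_nonneg_left (hB ζ hζ) (norm_nonneg _))
  have main : ‖L (Ψ 1)‖ ≤ R := by
    refine PhragmenLindelof.right_half_plane_of_bounded_on_real (f := fun ζ => L (Ψ ζ))
      (L.differentiable.comp hd).diffContOnCl ⟨0, by norm_num, 0, ?_⟩ ?_ ?_ (by simp)
    · refine Asymptotics.IsBigO.of_bound (‖L‖ * B) ?_
      refine (eventually_inf_principal.2 (Eventually.of_forall fun ζ hζ => ?_))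
      simpa using hLB ζ (le_of_lt hζ)
    · refine ⟨‖L‖ * B, eventually_map.2 ?_⟩
      filter_upwards [eventually_ge_atTop 0] with x hx
      exact hLB x (by simpa using hx)
    · intro s
      obtain ⟨g', hg'⟩ := (Sp_BU hf 0).bcf (x + (-s) • y)
      have e : Ψ (s * I) = cexp (2 * π * A * (s * I)) • g' := by
        ext u; simp [hΨ, hg']
      rw [e, map_smul, norm_smul, Complex.norm_exp]
      simpa using hR _ g' hg'
  have e : g = cexp (-(2 * π * A)) • Ψ 1 := by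
    ext u; simp [hΨ, hg, ← mul_assoc, ← Complex.exp_add]
  rw [e, map_smul, norm_smul, Complex.norm_exp, mul_comm]
  refine mul_le_mul main (le_of_eq ?_) (Real.exp_pos _).le ((norm_nonneg _).trans main)
  congr 1
  simp

theorem Sp_sup {S : Set (E →L[ℝ] ℝ)} {f : E × E → ℂ} (hf : f ∈ Sp S) {y : E} {A : ℝ}
    (hA : ∀ t ∈ S, A ≤ t y) {R : ℝ} (hR : ∀ x, ‖f (x, 0)‖ ≤ R) (x : E) :
    ‖f (x, y)‖ ≤ R * Real.exp (-(2 * π * A)) := by
  obtain ⟨g, hg⟩ := (Sp_BU hf y).bcf x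
  have := Sp_pl (evalCLM ℂ (0 : E)) hf hA (R := R) (fun x g hg => by simpa [hg] using hR x) x g hg
  simpa [hg] using this

theorem Sp_eLp [MeasurableSpace E] [BorelSpace E] (ν : Measure E) [IsFiniteMeasure ν]
    {S : Set (E →L[ℝ] ℝ)} {f : E × E → ℂ} (hf : f ∈ Sp S) {y : E}
    (hA : ∀ t ∈ S, 0 ≤ t y) {p : ℝ≥0∞} (hp : 1 ≤ p) {R : ℝ} (hR0 : 0 ≤ R)
    (hR : ∀ x, eLpNorm (fun u => f (x + u, 0)) p ν ≤ ENNReal.ofReal R) (x : E) :
    eLpNorm (fun u => f (x + u, y)) p ν ≤ ENNReal.ofReal R := by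
  have : Fact (1 ≤ p) := ⟨hp⟩
  have hn : ∀ g : E →ᵇ ℂ, eLpNorm g p ν = ENNReal.ofReal ‖toLp (E := ℂ) p ν ℂ g‖ := by
    intro g
    rw [ofReal_norm, Lp.enorm_def, eLpNorm_congr_ae (coeFn_toLp p ν ℂ g)]
  obtain ⟨g, hg⟩ := (Sp_BU hf y).bcf x
  have := Sp_pl (toLp (E := ℂ) p ν ℂ) hf hA (R := R) (fun x g hg => by
    have h := hR x
    rw [← funext hg, hn] at h
    exact (ENNReal.ofReal_le_ofReal_iff hR0).1 h) x g hg
  rw [← funext hg, hn]
  exact ENNReal.ofReal_le_ofReal (by simpa using this)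

/-- Approximation of a continuous function of `t x` modulo one. -/
theorem exists_cut (t : E →L[ℝ] ℝ) {ω : E} (hω : t ω = 0) {b : TT → ℝ} (hb : Continuous b)
    {η : ℝ} (hη : 0 < η) :
    ∃ χ ∈ Sp {s : E →L[ℝ] ℝ | s ω = 0},
      ∀ x, ‖χ (x, 0) - b (t x : ℝ)‖ ≤ η ∧ χ (x, ω) = χ (x, 0) := by
  let g : C(TT, ℂ) := ⟨fun u => (b u : ℂ), by fun_prop⟩
  have hg : g ∈ (Submodule.span ℂ (range (fourier (T := 1)))).topologicalClosure := by
    rw [span_fourier_closure_eq_top]; trivial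
  obtain ⟨q, hq, hq'⟩ := Metric.mem_closure_iff.1 hg η hη
  have h : ∃ χ ∈ Sp {s : E →L[ℝ] ℝ | s ω = 0},
      ∀ x, χ (x, 0) = q (t x : ℝ) ∧ χ (x, ω) = χ (x, 0) := by
    clear hq'
    induction hq using Submodule.span_induction with
    | mem q hq =>
      obtain ⟨j, rfl⟩ := hq
      refine ⟨ef ((j : ℝ) • t), ef_mem (by simp [hω]), fun x => ⟨?_, by simp [ef, hω]⟩⟩
      rw [← e1_zsmul, ← AddCircle.coe_zsmul]
      simp [ef]
    | zero => exact ⟨0, Submodule.zero_mem _, by simp⟩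
    | add a b _ _ ha hb =>
      obtain ⟨χ, h1, h2⟩ := ha
      obtain ⟨ψ, h3, h4⟩ := hb
      exact ⟨χ + ψ, Submodule.add_mem _ h1 h3, fun x => by simp [h2 x, h4 x]⟩
    | smul c a _ ha =>
      obtain ⟨χ, h1, h2⟩ := ha
      exact ⟨c • χ, Submodule.smul_mem _ c h1, fun x => by simp [h2 x]⟩
  obtain ⟨χ, h1, h2⟩ := h
  refine ⟨χ, h1, fun x => ⟨?_, (h2 x).2⟩⟩
  rw [(h2 x).1, ← dist_eq_norm, dist_comm]
  exact ((ContinuousMap.dist_apply_le_dist (f := g) (g := q) _).trans hq'.le)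

end

end Pool.Agent.Lib.MP_730078_an.G
end

-- part Pool.Agent.Lib.MP_730078_an.GAv
section

open MeasureTheory Set Filter Topology Complex
open scoped ENNReal Real

namespace Pool.Agent.Lib.MP_730078_an.G

noncomputable section

variable {E : Type*} [NormedAddCommGroup E] [NormedSpace ℝ E] [MeasurableSpace E] [BorelSpace E]
  [SecondCountableTopology E]

/-- A probability measure carried by the ball of radius `r` in the kernel of `e`. -/
structure Av (e : E →L[ℝ] ℝ) (r : ℝ) (ν : Measure E) : Prop where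
  prob : IsProbabilityMeasure ν
  ae : ∀ᵐ u ∂ν, ‖u‖ ≤ r ∧ e u = 0

/-- Local mean. -/
def mn (ν : Measure E) (f : E → ℝ) (x : E) : ℝ := ∫ u, f (x + u) ∂ν

variable {e : E →L[ℝ] ℝ} {r : ℝ} {ν : Measure E} {f g : E → ℝ}

omit [BorelSpace E] [SecondCountableTopology E] in
theorem Av.mono (h : Av e r ν) {r' : ℝ} (hr : r ≤ r') : Av e r' ν :=
  ⟨h.prob, h.ae.mono fun _ hu => ⟨hu.1.trans hr, hu.2⟩⟩

omit [BorelSpace E] [SecondCountableTopology E] in
theorem Av.zero (h : Av e r ν) : Av 0 r ν := ⟨h.prob, h.ae.mono fun _ hu => ⟨hu.1, rfl⟩⟩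

omit [NormedSpace ℝ E] [SecondCountableTopology E] in
theorem BU.intg (hf : BU f) (ν : Measure E) [IsFiniteMeasure ν] (x : E) :
    Integrable (fun u => f (x + u)) ν := by
  obtain ⟨C, hC⟩ := hf.2
  have := hf.cont
  exact (integrable_const C).mono' (Continuous.aestronglyMeasurable (by fun_prop))
    (Eventually.of_forall fun u => hC _)

omit [SecondCountableTopology E] in
theorem Av.add (h : Av e r ν) (hf : BU f) (hg : BU g) (x : E) :
    mn ν (fun x => f x + g x) x = mn ν f x + mn ν g x :=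
  have := h.prob
  integral_add (hf.intg ν x) (hg.intg ν x)

omit [NormedSpace ℝ E] [BorelSpace E] [SecondCountableTopology E] in
theorem mn_mul (c : ℝ) (f : E → ℝ) (x : E) : mn ν (fun x => c * f x) x = c * mn ν f x :=
  integral_const_mul _ _

omit [BorelSpace E] [SecondCountableTopology E] in
theorem Av.const (h : Av e r ν) (c : ℝ) (x : E) : mn ν (fun _ => c) x = c := by
  have := h.prob
  simp [mn]

omit [NormedSpace ℝ E] [BorelSpace E] [SecondCountableTopology E] in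
theorem mn_nonneg (h : ∀ x, 0 ≤ f x) (x : E) : 0 ≤ mn ν f x := integral_nonneg fun _ => h _

omit [SecondCountableTopology E] in
theorem Av.le (h : Av e r ν) (hf : BU f) (hg : BU g) {x : E}
    (hfg : ∀ x', e x' = e x → f x' ≤ g x') : mn ν f x ≤ mn ν g x :=
  have := h.prob
  integral_mono_ae (hf.intg ν x) (hg.intg ν x) (h.ae.mono fun u hu => hfg _ (by simp [hu.2]))

omit [SecondCountableTopology E] in
theorem Av.BU (h : Av e r ν) (hf : BU f) : BU (mn ν f) := by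
  have := h.prob
  obtain ⟨C, hC⟩ := hf.2
  refine ⟨Metric.uniformContinuous_iff.2 fun ε hε => ?_, C, fun x => abs_int_le fun u => hC _⟩
  obtain ⟨δ, hδ, h1⟩ := Metric.uniformContinuous_iff.1 hf.1 (ε / 2) (half_pos hε)
  refine ⟨δ, hδ, fun {a b} hab => ?_⟩
  rw [Real.dist_eq, mn, mn, ← integral_sub (hf.intg ν a) (hf.intg ν b)]
  exact (abs_int_le fun u => (h1 (a := a + u) (b := b + u) (by simpa using hab)).le).trans_lt
    (half_lt_self hε)

theorem Av.conv {μ : Measure E} {r' : ℝ} (h : Av e r μ) (h' : Av e r' ν) :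
    Av e (r + r') (μ ∗ ν) := by
  have := h.prob
  have := h'.prob
  refine ⟨inferInstance, ?_⟩
  have hm : MeasurableSet {u : E | ‖u‖ ≤ r + r' ∧ e u = 0} :=
    ((isClosed_le continuous_norm continuous_const).inter
      (isClosed_eq e.continuous continuous_const)).measurableSet
  refine (ae_map_iff (by fun_prop) hm).2 ?_
  filter_upwards [Measure.quasiMeasurePreserving_fst.ae h.ae,
    Measure.quasiMeasurePreserving_snd.ae h'.ae] with z h1 h2
  exact ⟨norm_add_le_of_le h1.1 h2.1, by simp [h1.2, h2.2]⟩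

theorem Av.mn_conv {μ : Measure E} {r' : ℝ} (h : Av e r μ) (h' : Av e r' ν) (hf : G.BU f) (x : E) :
    mn (μ ∗ ν) f x = mn μ (mn ν f) x := by
  have := h.prob
  have := h'.prob
  simp only [mn]
  rw [integral_conv (hf.intg _ x)]
  simp only [add_assoc]

/-- The uniform measure on a segment. -/
def seg (v : E) : Measure E := Measure.map (fun s : ℝ => s • v) (volume.restrict (Ioc 0 1))

omit [SecondCountableTopology E] in
theorem av_seg {v : E} (hv : e v = 0) : Av e ‖v‖ (seg v) := by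
  have : IsProbabilityMeasure ((volume : Measure ℝ).restrict (Ioc 0 1)) := ⟨by simp⟩
  refine ⟨Measure.isProbabilityMeasure_map (by fun_prop), ?_⟩
  have hm : MeasurableSet {u : E | ‖u‖ ≤ ‖v‖ ∧ e u = 0} :=
    ((isClosed_le continuous_norm continuous_const).inter
      (isClosed_eq e.continuous continuous_const)).measurableSet
  refine (ae_map_iff (by fun_prop) hm).2 ?_
  filter_upwards [ae_restrict_mem measurableSet_Ioc] with s hs
  refine ⟨?_, by simp [hv]⟩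
  rw [norm_smul, Real.norm_of_nonneg hs.1.le]
  exact mul_le_of_le_one_left (norm_nonneg _) hs.2

omit [SecondCountableTopology E] in
theorem mn_seg {v x : E} (hf : Continuous f) {φ : TT → ℝ} {a : ℝ}
    (h : ∀ s : ℝ, f (x + s • v) = φ (a + s : ℝ)) : mn (seg v) f x = ∫ u, φ u := by
  rw [mn, seg, integral_map (by fun_prop) (Continuous.aestronglyMeasurable (by fun_prop)),
    ← intervalIntegral.integral_of_le zero_le_one, ← UnitAddCircle.intervalIntegral_preimage a]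
  simp only [h]
  simpa using intervalIntegral.integral_comp_add_left (fun s : ℝ => φ (s : ℝ)) a (a := 0) (b := 1)

def Slow (F : E → ℝ) (r ε : ℝ) : Prop := ∀ x u, ‖u‖ ≤ r → |F (x + u) - F x| ≤ ε

omit [NormedSpace ℝ E] [MeasurableSpace E] [BorelSpace E] [SecondCountableTopology E] in
theorem BU.slow (hf : BU f) {ε : ℝ} (hε : 0 < ε) : ∀ᶠ r in 𝓝[>] (0 : ℝ), Slow f r ε := by
  obtain ⟨δ, hδ, h1⟩ := Metric.uniformContinuous_iff.1 hf.1 ε hε
  filter_upwards [Ioo_mem_nhdsGT hδ] with r hr x u hu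
  exact (h1 (a := x + u) (b := x) (by simpa using hu.trans_lt hr.2)).le

omit [SecondCountableTopology E] in
theorem Av.one (h : Av e r ν) (hf : G.BU f) (hg : G.BU g) (hg0 : ∀ x, 0 ≤ g x) {ε : ℝ}
    (hs : Slow f r ε) (x : E) :
    |mn ν (fun x => f x * g x) x - f x * mn ν g x| ≤ ε * mn ν g x := by
  have := h.prob
  have i1 := (hf.mul hg).intg ν x
  have i2 := hg.intg ν x
  rw [mn, mn, ← integral_const_mul, ← integral_const_mul, ← integral_sub i1 (i2.const_mul _)]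
  refine (abs_integral_le_integral_abs).trans (integral_mono_ae (i1.sub (i2.const_mul _)).abs
    (i2.const_mul _) (h.ae.mono fun u hu => ?_))
  simp only
  rw [← sub_mul, abs_mul, abs_of_nonneg (hg0 _)]
  exact mul_le_mul_of_nonneg_right (hs x u hu.1) (hg0 _)

omit [SecondCountableTopology E] in
theorem Av.one' (h : Av e r ν) (hf : G.BU f) {ε : ℝ} (hs : Slow f r ε) (x : E) :
    |mn ν f x - f x| ≤ ε := by
  simpa [h.const] using h.one hf (BU.const 1) (by simp) hs x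

def pj (η e : E →L[ℝ] ℝ) (x : E) : T2 := ((η x : ℝ), (e x : ℝ))

omit [MeasurableSpace E] [BorelSpace E] [SecondCountableTopology E] in
theorem BU_pj (η e : E →L[ℝ] ℝ) {p : T2 → ℝ} (hp : Continuous p) : BU fun x => p (pj η e x) :=
  (BU.of_compact hp).precomp
    ((uc_mk.comp η.uniformContinuous).prodMk (uc_mk.comp e.uniformContinuous))

theorem abs_mul_le' {s a b : ℝ} (hs : |s| ≤ 1) (h : |a| ≤ b) : s * a ≤ b :=
  (le_abs_self _).trans (by rw [abs_mul]; exact (mul_le_of_le_one_left (abs_nonneg _) hs).trans h)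

/-- Three separated scales behave as independent variables. -/
theorem three (η e : E →L[ℝ] ℝ) {v : E} (hv : e v = 0) (hv' : η v = 1) {p0 p1 p2 p3 : T2 → ℝ}
    (c0 : Continuous p0) (c1 : Continuous p1) (c2 : Continuous p2) (c3 : Continuous p3)
    (n1 : ∀ q, 0 ≤ p1 q) (n2 : ∀ q, 0 ≤ p2 q) (n3 : ∀ q, 0 ≤ p3 q) {s M ε : ℝ} (hs : |s| ≤ 1)
    (hM : 0 ≤ M) (hε : 0 < ε) :
    ∀ᶠ rA in 𝓝[>] (0 : ℝ), ∀ νA, Av e rA νA → ∀ G G' : E → ℝ, BU G → BU G' → (∀ x, 0 ≤ G x) →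
      (∀ x, 0 ≤ G' x) → ∀ᶠ rB in 𝓝[>] (0 : ℝ), ∀ νB, Av e rB νB → ∀ H : E → ℝ, BU H →
      (∀ x, 0 ≤ H x) → ∀ (x : E) (m m' k : ℝ), 0 ≤ k → k ≤ M →
      (∀ x', e x' = e x → mn νA G x' ≤ M ∧ mn νA G' x' ≤ M ∧ mn νB H x' ≤ M ∧
        s * mn νA G x' ≤ s * m ∧ s * mn νA G' x' ≤ s * m' ∧ s * mn νB H x' ≤ s * k) →
      s * mn (seg v ∗ νA ∗ νB) (fun x => p0 (pj η e x) + p1 (pj η e x) * G x +
          (p2 (pj η e x) + p3 (pj η e x) * G' x) * H x) x ≤
        s * (∫ u, (p0 (u, (e x : ℝ)) + p1 (u, (e x : ℝ)) * m +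
          (p2 (u, (e x : ℝ)) + p3 (u, (e x : ℝ)) * m') * k)) + ε := by
  have hε' : 0 < ε / (2 + 3 * M + M * M) := by positivity
  have hεe : ε / (2 + 3 * M + M * M) * (2 + 3 * M + M * M) = ε := by field_simp
  generalize ε / (2 + 3 * M + M * M) = δ at hε' hεe
  have b0 := BU_pj η e c0
  have b1 := BU_pj η e c1
  have b2 := BU_pj η e c2
  have b3 := BU_pj η e c3
  filter_upwards [b0.slow hε', b1.slow hε', b2.slow hε', b3.slow hε'] with rA s0 s1 s2 s3 νA hA
    G G' bG bG' nG nG'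
  have bF0 := b0.add (b1.mul bG)
  have bF1 := b2.add (b3.mul bG')
  filter_upwards [bF0.slow hε', bF1.slow hε'] with rB s4 s5 νB hB H bH nH x m m' k hk0 hkM h
  have h0 := av_seg (e := e) hv
  have bF := bF0.add (bF1.mul bH)
  have bs := BU.const (X := E) s
  have bk := BU.const (X := E) k
  have bQ := (b0.add (b1.mul (BU.const m))).add ((b2.add (b3.mul (BU.const m'))).mul bk)
  rw [h0.mn_conv (hA.conv hB) bF, ← mn_mul]
  have key : ∀ x', e x' = e x → s * mn (νA ∗ νB) (fun x => p0 (pj η e x) + p1 (pj η e x) * G x +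
      (p2 (pj η e x) + p3 (pj η e x) * G' x) * H x) x' ≤
      s * (p0 (pj η e x') + p1 (pj η e x') * m + (p2 (pj η e x') + p3 (pj η e x') * m') * k) + ε := by
    intro x' hx'
    rw [hA.mn_conv hB bF, ← mn_mul]
    have k1 := hA.le (bs.mul (hB.BU bF)) ((bs.mul ((b0.add (bk.mul b2)).add ((b1.mul bG).add
        (bk.mul (b3.mul bG'))))).add (BU.const (δ * (1 + M)))) (x := x') (fun y hy => by
      obtain ⟨-, -, a1, -, -, a2⟩ := h y (hy.trans hx')
      rw [hB.add bF0 (bF1.mul bH)]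
      have a3 := abs_mul_le' hs (hB.one' bF0 s4 y)
      have a4 := abs_mul_le' hs (hB.one bF1 bH nH s5 y)
      have a5 := mul_le_mul_of_nonneg_left a2
        (add_nonneg (n2 (pj η e y)) (mul_nonneg (n3 (pj η e y)) (nG' y)))
      have a6 := mul_le_mul_of_nonneg_left a1 hε'.le
      linarith)
    rw [hA.add (bs.mul ((b0.add (bk.mul b2)).add ((b1.mul bG).add (bk.mul (b3.mul bG')))))
      (BU.const _), mn_mul s (fun x => _ + _), hA.const,
      hA.add (b0.add (bk.mul b2)) ((b1.mul bG).add (bk.mul (b3.mul bG'))),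
      hA.add b0 (bk.mul b2), hA.add (b1.mul bG) (bk.mul (b3.mul bG')), mn_mul k, mn_mul k] at k1
    obtain ⟨a1, a2, -, a3, a4, -⟩ := h x' hx'
    have a5 := abs_mul_le' hs (hA.one' b0 s0 x')
    have a6 := mul_le_mul_of_nonneg_left (abs_mul_le' hs (hA.one' b2 s2 x')) hk0
    have a7 := abs_mul_le' hs (hA.one b1 bG nG s1 x')
    have a8 := mul_le_mul_of_nonneg_left (abs_mul_le' hs (hA.one b3 bG' nG' s3 x')) hk0
    have a9 := mul_le_mul_of_nonneg_left a3 (n1 (pj η e x'))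
    have a10 := mul_le_mul_of_nonneg_left a4 (mul_nonneg hk0 (n3 (pj η e x')))
    have a11 := mul_le_mul_of_nonneg_left a1 hε'.le
    have a12 := mul_le_mul_of_nonneg_left (mul_le_mul hkM a2 (mn_nonneg nG' x') hM) hε'.le
    have a13 := mul_le_mul_of_nonneg_left hkM hε'.le
    linarith
  refine (h0.le (bs.mul ((hA.conv hB).BU bF)) ((bs.mul bQ).add (BU.const ε)) key).trans
    (le_of_eq ?_)
  rw [h0.add (bs.mul bQ) (BU.const ε), mn_mul, h0.const, mn_seg bQ.cont (a := η x)]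
  intro t
  simp [pj, hv, hv']

end

end Pool.Agent.Lib.MP_730078_an.G
end

-- part Pool.Agent.Lib.MP_730078_an.GTree1
section

open MeasureTheory Set Filter Topology Complex
open scoped ENNReal Real

namespace Pool.Agent.Lib.MP_730078_an.G

noncomputable section

variable {E : Type*} [NormedAddCommGroup E] [NormedSpace ℝ E] [MeasurableSpace E] [BorelSpace E]
  [SecondCountableTopology E]

def nZ (a : TT → ℝ) (η e : E →L[ℝ] ℝ) (G H : E → ℝ) (x : E) : ℝ :=
  a (pj η e x).1 * G x + (1 - a ((pj η e x).1 - (pj η e x).2)) * H x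

omit [MeasurableSpace E] [BorelSpace E] [SecondCountableTopology E] in
theorem BU_nZ {a : TT → ℝ} (ca : Continuous a) (η e : E →L[ℝ] ℝ) {G H : E → ℝ} (hG : BU G)
    (hH : BU H) : BU (nZ a η e G H) :=
  ((BU_pj η e (p := fun q => a q.1) (by fun_prop)).mul hG).add
    ((BU_pj η e (p := fun q => 1 - a (q.1 - q.2)) (by fun_prop)).mul hH)

theorem three_lin {δ : ℝ} {a bp bm : TT → ℝ} (hC : Cut δ a bp bm) (η e : E →L[ℝ] ℝ) {v : E}
    (hv : e v = 0) (hv' : η v = 1) {s M ε : ℝ} (hs : |s| ≤ 1) (hM : 0 ≤ M) (hε : 0 < ε) :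
    ∀ᶠ rA in 𝓝[>] (0 : ℝ), ∀ νA, Av e rA νA → ∀ G : E → ℝ, BU G → (∀ x, 0 ≤ G x) →
      ∀ᶠ rB in 𝓝[>] (0 : ℝ), ∀ νB, Av e rB νB → ∀ H : E → ℝ, BU H →
      (∀ x, 0 ≤ H x) → ∀ (x : E) (m k : ℝ), 0 ≤ k → k ≤ M →
      (∀ x', e x' = e x → mn νA G x' ≤ M ∧ mn νB H x' ≤ M ∧
        s * mn νA G x' ≤ s * m ∧ s * mn νB H x' ≤ s * k) →
      s * mn (seg v ∗ νA ∗ νB) (nZ a η e G H) x ≤
        s * ((∫ u, a u) * m + (1 - ∫ u, a u) * k) + ε := by
  have ca := hC.ca
  filter_upwards [three η e hv hv' (p0 := fun _ => 0) (p1 := fun q => a q.1)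
    (p2 := fun q => 1 - a (q.1 - q.2)) (p3 := fun _ => 0) (by fun_prop) (by fun_prop) (by fun_prop)
    (by fun_prop) (fun q => hC.a0 _) (fun q => sub_nonneg.2 (hC.a1 _)) (fun _ => le_rfl) hs hM hε]
    with rA h νA hA G bG nG
  filter_upwards [h νA hA G G bG bG nG nG] with rB h νB hB H bH nH x m k hk0 hk h'
  have := h νB hB H bH nH x m m k hk0 hk fun x' hx' => by
    obtain ⟨a1, a2, a3, a4⟩ := h' x' hx'
    exact ⟨a1, a1, a2, a3, a3, a4⟩
  simp only [zero_add, zero_mul, add_zero] at this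
  rw [integral_add (intg (by fun_prop)) (intg (by fun_prop)), integral_mul_const,
    integral_mul_const, integral_sub_right_eq_self (fun u => 1 - a u),
    integral_sub (integrable_const _) (intg ca)] at this
  simp only [integral_const, probReal_univ, smul_eq_mul, mul_one] at this
  exact this

theorem three_cross {δ : ℝ} {a bp bm : TT → ℝ} (hC : Cut δ a bp bm) (η e : E →L[ℝ] ℝ) {v : E}
    (hv : e v = 0) (hv' : η v = 1) {z ε : ℝ} (hz : 0 ≤ z) (hε : 0 < ε) :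
    ∀ᶠ rA in 𝓝[>] (0 : ℝ), ∀ νA, Av e rA νA → ∀ G : E → ℝ, BU G → (∀ x, 0 ≤ G x) →
      ∀ᶠ rB in 𝓝[>] (0 : ℝ), ∀ νB, Av e rB νB → ∀ H : E → ℝ, BU H →
      (∀ x, 0 ≤ H x) → (∀ x, mn νA G x ≤ z) → (∀ x, mn νB H x ≤ z) → ∀ x,
      mn (seg v ∗ νA ∗ νB)
        (fun x => a (pj η e x).1 * (1 - a ((pj η e x).1 - (pj η e x).2)) * G x * H x) x ≤
        (2 * ‖((e x : ℝ) : TT)‖ + 2 * δ) * (z * z) + ε := by
  have ca := hC.ca
  filter_upwards [three η e hv hv' (p0 := fun _ => 0) (p1 := fun _ => 0) (p2 := fun _ => 0)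
    (p3 := fun q => a q.1 * (1 - a (q.1 - q.2))) (by fun_prop) (by fun_prop) (by fun_prop)
    (by fun_prop) (fun _ => le_rfl) (fun _ => le_rfl)
    (fun q => mul_nonneg (hC.a0 _) (sub_nonneg.2 (hC.a1 _))) (s := 1) (by simp) hz hε]
    with rA h νA hA G bG nG
  filter_upwards [h νA hA G G bG bG nG nG] with rB h νB hB H bH nH h1 h2 x
  have := h νB hB H bH nH x z z z hz le_rfl fun x' _ => by simp [h1 x', h2 x']
  simp only [zero_add, zero_mul, one_mul] at this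
  rw [integral_mul_const, integral_mul_const, mul_assoc] at this
  exact this.trans (add_le_add_left (mul_le_mul_of_nonneg_right (hC.io _) (by positivity)) _)

theorem int_E {l : ℝ} (hl0 : 0 < l) (hl : l ≤ 1 / 20) {a bp bm : TT → ℝ}
    (hC : Cut (l / 6) a bp bm) (c : DD) (T : TT) {u : ℝ} (hu0 : 0 ≤ u) (hu : u ≤ l / 2) :
    ∫ φ, Real.exp (l * ((c : ℂ) * e1 (T + φ)).re) * (1 + bp φ * u) * (1 + bm (φ - T) * u) ≤
      1 + u + 3 * l ^ 2 := by
  have cp := hC.cp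
  have cm := hC.cm
  have k1 : ∫ φ, Real.exp (l * ((c : ℂ) * e1 (T + φ)).re) ≤ 1 + l ^ 2 :=
    (fi_snd (fun φ => Real.exp (l * ((c : ℂ) * e1 (T + φ)).re)) T).symm.trans_le
      (fi_E hl0.le (by linarith) c T)
  have k2 : ∫ φ, Real.exp (l * ((c : ℂ) * e1 (T + φ)).re) * (1 + bp φ * u) * (1 + bm (φ - T) * u) ≤
      ∫ φ, (Real.exp (l * ((c : ℂ) * e1 (T + φ)).re) + (1 + 2 * l) * u * bp φ +
        (1 + 2 * l) * u * bm (φ - T) + (1 + 2 * l) * (u * u)) := by
    refine integral_mono (intg (by fun_prop)) (intg (by fun_prop)) fun φ => ?_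
    have a1 := E_le hl0.le (by linarith) c (T + φ)
    have a0 := (Real.exp_pos (l * ((c : ℂ) * e1 (T + φ)).re)).le
    have a2 := mul_le_mul_of_nonneg_right a1 (mul_nonneg hu0 (hC.p0 φ))
    have a3 := mul_le_mul_of_nonneg_right a1 (mul_nonneg hu0 (hC.m0 (φ - T)))
    have a4 := mul_le_mul_of_nonneg_right (mul_le_mul a1
      (mul_le_one₀ (hC.p1 φ) (hC.m0 (φ - T)) (hC.m1 _)) (mul_nonneg (hC.p0 _) (hC.m0 _))
      (by linarith)) (mul_nonneg hu0 hu0)
    simp only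
    linarith
  rw [integral_add (intg (by fun_prop)) (integrable_const _),
    integral_add (intg (by fun_prop)) (intg (by fun_prop)),
    integral_add (intg (by fun_prop)) (intg (by fun_prop)), integral_const_mul, integral_const_mul,
    integral_sub_right_eq_self bm] at k2
  simp only [integral_const, probReal_univ, smul_eq_mul, one_mul] at k2
  have k11 := mul_le_mul_of_nonneg_left hC.ib (show 0 ≤ (1 + 2 * l) * u by positivity)
  have k12 : l * u ≤ l ^ 2 / 2 := by nlinarith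
  have k13 : u * u ≤ l ^ 2 / 4 := by nlinarith
  have k14 : l * (l * u) ≤ l ^ 2 / 40 := by nlinarith
  have k15 : l * (u * u) ≤ l ^ 2 / 80 := by nlinarith
  nlinarith

theorem three_exp {l : ℝ} (hl0 : 0 < l) (hl : l ≤ 1 / 20) {a bp bm : TT → ℝ}
    (hC : Cut (l / 6) a bp bm) (η e : E →L[ℝ] ℝ) {v : E} (hv : e v = 0) (hv' : η v = 1) (c : DD)
    {u : ℝ} (hu0 : 0 ≤ u) (hu : u ≤ l / 2) :
    ∀ᶠ rA in 𝓝[>] (0 : ℝ), ∀ νA, Av e rA νA → ∀ G : E → ℝ, BU G → (∀ x, 0 ≤ G x) →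
      ∀ᶠ rB in 𝓝[>] (0 : ℝ), ∀ νB, Av e rB νB → ∀ H : E → ℝ, BU H →
      (∀ x, 0 ≤ H x) → (∀ x, mn νA G x ≤ 1 + u) → (∀ x, mn νB H x ≤ 1 + u) → ∀ x,
      mn (seg v ∗ νA ∗ νB)
        (fun x => Real.exp (l * ((c : ℂ) * e1 ((pj η e x).2 + (pj η e x).1)).re) *
          (1 + bp (pj η e x).1 * (G x - 1)) *
          (1 + bm ((pj η e x).1 - (pj η e x).2) * (H x - 1))) x ≤ 1 + u + 5 * l ^ 2 := by
  have cp := hC.cp
  have cm := hC.cm
  let F : T2 → ℝ := fun q => Real.exp (l * ((c : ℂ) * e1 (q.2 + q.1)).re)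
  have cF : Continuous F := by fun_prop
  have F0 : ∀ q, 0 ≤ F q := fun q => (Real.exp_pos _).le
  have p' : ∀ u, 0 ≤ 1 - bp u := fun u => sub_nonneg.2 (hC.p1 u)
  have m' : ∀ u, 0 ≤ 1 - bm u := fun u => sub_nonneg.2 (hC.m1 u)
  filter_upwards [three η e hv hv' (p0 := fun q => F q * (1 - bp q.1) * (1 - bm (q.1 - q.2)))
    (p1 := fun q => F q * bp q.1 * (1 - bm (q.1 - q.2)))
    (p2 := fun q => F q * (1 - bp q.1) * bm (q.1 - q.2))
    (p3 := fun q => F q * bp q.1 * bm (q.1 - q.2)) (by fun_prop) (by fun_prop) (by fun_prop)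
    (by fun_prop) (fun q => mul_nonneg (mul_nonneg (F0 q) (hC.p0 _)) (m' _))
    (fun q => mul_nonneg (mul_nonneg (F0 q) (p' _)) (hC.m0 _))
    (fun q => mul_nonneg (mul_nonneg (F0 q) (hC.p0 _)) (hC.m0 _)) (s := 1) (M := 1 + u)
    (ε := 2 * l ^ 2) (by simp) (by positivity) (by positivity)] with rA h νA hA G bG nG
  filter_upwards [h νA hA G G bG bG nG nG] with rB h νB hB H bH nH h1 h2 x
  have := h νB hB H bH nH x (1 + u) (1 + u) (1 + u) (by positivity) le_rfl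
    fun x' _ => by simp [h1 x', h2 x']
  rw [one_mul, one_mul] at this
  have h3 := int_E hl0 hl hC c (e x : ℝ) hu0 hu
  refine le_trans (le_of_eq ?_) (this.trans (le_trans (add_le_add_left (le_of_eq ?_) _)
    ((add_le_add_left h3 _).trans (le_of_eq (by ring)))))
  · congr 1
    funext y
    simp only [F]
    ring
  · congr 1
    funext y
    simp only [F]
    ring

end

end Pool.Agent.Lib.MP_730078_an.G
end
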