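import Pool.Agent.Lib.MP_730078_an.Block2
import Pool.Agent.Lib.MP_730078_an.Defs
import Pool.Agent.Lib.MP_730078_an.GTree1
import Pool.Agent.Shared.PNT.Fejer

-- part Pool.Agent.Lib.MP_730078_an.Series
section

open MeasureTheory Set Filter Topology Complex
open scoped ENNReal Real

namespace Pool.Agent.Lib.MP_730078_an

noncomputable section

theorem exists_scale (A B : ℝ) {ε η : ℝ} (hε : 0 < ε) (hη : 0 < η) {d : ℕ} (hd : 0 < d) :
    ∃ N : ℕ, 0 < N ∧ d ∣ N ∧ B ≤ η * N ∧ A * N * Real.exp (-(N * ε)) ≤ η := by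
  have h0 : Tendsto (fun m : ℕ => ((d * m : ℕ) : ℝ)) atTop atTop :=
    tendsto_natCast_atTop_atTop.comp (tendsto_id.const_mul_atTop' hd)
  have h1 : Tendsto (fun m : ℕ => A / ε * ((((d * m : ℕ) : ℝ) * ε) ^ 1 *
      Real.exp (-(((d * m : ℕ) : ℝ) * ε)))) atTop (𝓝 (A / ε * 0)) :=
    ((Real.tendsto_pow_mul_exp_neg_atTop_nhds_zero 1).comp (h0.atTop_mul_const hε)).const_mul _
  rw [mul_zero] at h1
  obtain ⟨m, hm1, hm2, hm3⟩ := ((eventually_gt_atTop 0).and
    (((h0.const_mul_atTop hη).eventually_ge_atTop B).and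
      (h1.eventually (eventually_le_nhds hη)))).exists
  refine ⟨d * m, Nat.mul_pos hd hm1, dvd_mul_right _ _, hm2, le_trans (le_of_eq ?_) hm3⟩
  field_simp

theorem exists_scales (A B κ : ℕ → ℝ) (hκ : ∀ k, 0 < κ k) :
    ∃ (N : ℕ → ℕ) (ε : ℕ → ℝ), (∀ l, 0 < N l) ∧ (∀ l, ε l ≤ 1 / (l + 1)) ∧
      (∀ k l, k < l → ε l ≤ κ k / N k) ∧ (∀ m l, 0 < m → m ≤ l → m ∣ N l) ∧
      (∀ l, B l ≤ (1 / 2) ^ l * N l) ∧
      ∀ l, A l * N l * Real.exp (-(N l * ε l)) ≤ (1 / 2) ^ l := by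
  have h : ∀ (l : ℕ) (ε : ℝ) (d : ℕ), ∃ N : ℕ, 0 < ε → 0 < d →
      0 < N ∧ d ∣ N ∧ B l ≤ (1 / 2) ^ l * N ∧ A l * N * Real.exp (-(N * ε)) ≤ (1 / 2) ^ l := by
    intro l ε d
    by_cases hh : 0 < ε ∧ 0 < d
    · obtain ⟨N, hN⟩ := exists_scale (A l) (B l) hh.1 (η := (1 / 2) ^ l) (by positivity) hh.2
      exact ⟨N, fun _ _ => hN⟩
    · exact ⟨0, fun h1 h2 => absurd ⟨h1, h2⟩ hh⟩
  choose next hnext using h
  let sq : ℕ → ℕ × ℝ := fun l => Nat.rec (next 0 1 1, 1)
    (fun l s => (next (l + 1) (min s.2 (min (κ l / s.1) (1 / (l + 1 + 1)))) (s.1 * (l + 1)),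
      min s.2 (min (κ l / s.1) (1 / (l + 1 + 1))))) l
  have s0 : sq 0 = (next 0 1 1, 1) := rfl
  have s1 : ∀ l, (sq (l + 1)).2 = min (sq l).2 (min (κ l / (sq l).1) (1 / (l + 1 + 1))) :=
    fun l => rfl
  have s2 : ∀ l, (sq (l + 1)).1 = next (l + 1) (sq (l + 1)).2 ((sq l).1 * (l + 1)) := fun l => rfl
  have hpos : ∀ l, 0 < (sq l).1 ∧ 0 < (sq l).2 := by
    intro l
    induction l with
    | zero => exact ⟨(hnext 0 1 1 one_pos one_pos).1, one_pos⟩
    | succ l ih =>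
      have h2 : 0 < (sq (l + 1)).2 := by
        rw [s1]
        have := ih.1
        have := hκ l
        exact lt_min ih.2 (lt_min (by positivity) (by positivity))
      exact ⟨(hnext _ _ _ h2 (Nat.mul_pos ih.1 (Nat.succ_pos l))).1, h2⟩
  have hn : ∀ l, (sq l).1 * (l + 1) ∣ (sq (l + 1)).1 := fun l =>
    (hnext _ _ _ (hpos (l + 1)).2 (Nat.mul_pos (hpos l).1 (Nat.succ_pos l))).2.1
  have hanti : Antitone fun l => (sq l).2 :=
    antitone_nat_of_succ_le fun l => by rw [s1]; exact min_le_left _ _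
  refine ⟨fun l => (sq l).1, fun l => (sq l).2, fun l => (hpos l).1, ?_, ?_, ?_, ?_, ?_⟩
  · intro l
    cases l with
    | zero => simp [s0]
    | succ l =>
      simp only [s1]; push_cast
      exact (min_le_right _ _).trans (min_le_right _ _)
  · intro k l hkl
    refine (hanti (show k + 1 ≤ l from hkl)).trans ?_
    simp only [s1]
    exact (min_le_right _ _).trans (min_le_left _ _)
  · intro m l hm hml
    induction hml with
    | refl =>
      obtain ⟨m, rfl⟩ := Nat.exists_eq_succ_of_ne_zero hm.ne'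
      exact (dvd_mul_left _ _).trans (hn m)
    | step _ ih => exact (ih.mul_right _).trans (hn _)
  · intro l
    cases l with
    | zero => exact (hnext 0 1 1 one_pos one_pos).2.2.1
    | succ l =>
      exact (hnext _ _ _ (hpos (l + 1)).2 (Nat.mul_pos (hpos l).1 (Nat.succ_pos l))).2.2.1
  · intro l
    cases l with
    | zero => exact (hnext 0 1 1 one_pos one_pos).2.2.2
    | succ l =>
      exact (hnext _ _ _ (hpos (l + 1)).2 (Nat.mul_pos (hpos l).1 (Nat.succ_pos l))).2.2.2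

theorem dense_torsion : Dense {a : T3 | ∃ m : ℕ, 0 < m ∧ (m : ℤ) • a = 0} := by
  have h1 : DenseRange fun q : ℚ => ((q : ℝ) : TT) :=
    (QuotientAddGroup.mk_surjective.denseRange).comp Rat.denseRange_cast
      (AddCircle.continuous_mk' 1)
  have h2 : ∀ (q : ℚ) (c : ℕ), ((c * q.den : ℕ) : ℤ) • ((q : ℝ) : TT) = 0 := by
    intro q c
    rw [← AddCircle.coe_zsmul, AddCircle.coe_eq_zero_iff]
    refine ⟨c * q.num, ?_⟩
    have : ((q.num : ℚ) : ℝ) = ((q * q.den : ℚ) : ℝ) := by rw [Rat.mul_den_eq_num]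
    push_cast at this
    simp only [zsmul_eq_mul]
    push_cast
    rw [this]; ring
  refine (h1.prodMap (h1.prodMap h1)).mono ?_
  rintro _ ⟨⟨a, b, c⟩, rfl⟩
  refine ⟨a.den * b.den * c.den, by positivity, ?_⟩
  ext
  · simpa [mul_comm, mul_left_comm] using h2 a (b.den * c.den)
  · simpa [mul_comm, mul_left_comm] using h2 b (a.den * c.den)
  · simpa [mul_comm, mul_left_comm] using h2 c (a.den * b.den)

set_option synthInstance.maxSize 1000 in
theorem ergodic_T3 : ErgodicVAdd T3 T3 (volume : Measure T3) := inferInstance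

theorem hasSum_bnd (c : ℕ → ℝ) (k : ℕ) :
    HasSum (fun l => (if l < k then c l else 0) + (1 / 2 : ℝ) ^ l)
      (∑ l ∈ Finset.range k, c l + 2) := by
  refine HasSum.add ?_ hasSum_geometric_two
  have : HasSum (fun l => if l < k then c l else 0)
      (∑ l ∈ Finset.range k, if l < k then c l else 0) :=
    hasSum_sum_of_ne_finset_zero (fun l hl => if_neg (by simpa using hl))
  rwa [Finset.sum_congr rfl (fun l hl => if_pos (Finset.mem_range.1 hl))] at this

theorem lift_dil (N : ℕ) (f : T3 × R3 → ℂ) (z : C3) :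
    lift (dil N f) z = lift f ((N : ℂ) • z) := by
  simp only [lift, dil, mk3, Prod.smul_mk, Prod.smul_fst, Prod.smul_snd, smul_eq_mul,
    ← AddCircle.coe_zsmul, zsmul_eq_mul]
  simp

theorem im3_smul (N : ℕ) (z : C3) : im3 ((N : ℂ) • z) = (N : ℝ) • im3 z := by
  simp [im3]

/-- A periodic holomorphic function with bounded `L^p` norms which is unbounded as `y → 0` in the
cone over almost every point. -/
theorem series (p : ℝ≥0∞) (hp1 : 1 ≤ p) (hp2 : p < 2) :
    ∃ F : T3 × R3 → ℂ,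
      (∀ z : C3, ∀ κ : ℝ, 0 < κ → im3 z ∈ K κ → DifferentiableAt ℂ (lift F) z) ∧
      (∀ κ : ℝ, 0 < κ → ∀ y ∈ K κ, Continuous (fun x => F (x, y)) ∧
        eLpNorm (fun x => F (x, y)) p volume ≤ ENNReal.ofReal 2) ∧
      ∀ᵐ x : T3, ∀ j : ℕ, ∃ κ : ℝ, 0 < κ ∧ ∃ y ∈ K κ, ‖y‖ < 1 / (j + 1) ∧ j < ‖F (x, y)‖ := by
  have hblock := fun (Kk : ℝ) (k : ℕ) =>
    block p hp1 hp2 Kk (ε := (1 / 2 : ℝ) ^ k) (by positivity)
  choose Φ' hΦm' hΦp' κ' hκ' B' G' hG' hGv' hG using hblock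
  choose A' hA0' hA' f' hf' hf'' using fun Kk k => V_decay (hΦm' Kk k)
  let S : ℕ → ℝ := fun k => Nat.rec 0 (fun k s => s + A' (k + 3 + s) k) k
  let Φ : ℕ → T3 × R3 → ℂ := fun k => Φ' (k + 3 + S k) k
  let A : ℕ → ℝ := fun k => A' (k + 3 + S k) k
  let κ : ℕ → ℝ := fun k => κ' (k + 3 + S k) k
  let B : ℕ → ℝ := fun k => B' (k + 3 + S k) k
  let G : ℕ → Set T3 := fun k => G' (k + 3 + S k) k
  have hS : ∀ k, S k = ∑ l ∈ Finset.range k, A l := by
    intro k
    induction k with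
    | zero => rfl
    | succ k ih => rw [Finset.sum_range_succ, ← ih]
  have hA0 : ∀ l, 0 ≤ A l := fun l => hA0' _ _
  obtain ⟨N, ε, hN, hε1, hε2, hdvd, hNB, hNA⟩ := exists_scales A B κ (fun k => hκ' _ _)
  have hN1 : ∀ l, (1 : ℝ) ≤ N l := fun l => by exact_mod_cast hN l
  let u : ℕ → T3 × R3 → ℂ := fun l => dil (N l) (Φ l)
  have hum : ∀ l, u l ∈ V S0 := fun l => dil_mem (hN l) (hΦm' _ _)
  have hu1 : ∀ l (c : ℝ), 0 ≤ c → ∀ y ∈ K c, ∀ x, ‖u l (x, y)‖ ≤ A l * Real.exp (-(N l * c)) :=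
    fun l c hc y hy x => hA' _ _ (N l * c) (by positivity) _ (smul_mem_K (by positivity) hy) _
  have hsmall : ∀ l (c : ℝ), ε l ≤ c → A l * N l * Real.exp (-(N l * c)) ≤ (1 / 2) ^ l := by
    intro l c hc
    refine le_trans ?_ (hNA l)
    have := hA0 l
    gcongr
  have hexp : ∀ l (c : ℝ), 0 ≤ c → Real.exp (-(N l * c)) ≤ 1 := fun l c hc =>
    Real.exp_le_one_iff.2 (neg_nonpos.2 (by positivity))
  have hu2 : ∀ l (c : ℝ), 0 ≤ c → ∀ y ∈ K c, ∀ x, ‖u l (x, y)‖ ≤ A l := fun l c hc y hy x =>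
    (hu1 l c hc y hy x).trans (mul_le_of_le_one_right (hA0 l) (hexp l c hc))
  have hu3 : ∀ l (c : ℝ), 0 ≤ c → ε l ≤ c → ∀ y ∈ K c, ∀ x, ‖u l (x, y)‖ ≤ (1 / 2) ^ l := by
    intro l c hc hc' y hy x
    refine (hu1 l c hc y hy x).trans (le_trans ?_ (hsmall l c hc'))
    have := hA0 l
    have := hN1 l
    gcongr
    nlinarith
  have hl0 : ∀ c : ℝ, 0 < c → ∃ l₀ : ℕ, ∀ l, ¬ l < l₀ → ε l ≤ c := by
    intro c hc
    obtain ⟨l₀, hl₀⟩ := exists_nat_one_div_lt hc
    refine ⟨l₀, fun l hl => (hε1 l).trans (le_trans ?_ hl₀.le)⟩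
    have : (l₀ : ℝ) ≤ l := by exact_mod_cast not_lt.1 hl
    gcongr
  have hbd : ∀ c : ℝ, 0 < c → ∃ b : ℕ → ℝ, Summable b ∧
      ∀ l, ∀ y ∈ K c, ∀ x, ‖u l (x, y)‖ ≤ b l := by
    intro c hc
    obtain ⟨l₀, hl₀⟩ := hl0 c hc
    refine ⟨_, (hasSum_bnd A l₀).summable, fun l y hy x => ?_⟩
    split_ifs with h
    · exact (hu2 l c hc.le y hy x).trans (le_add_of_nonneg_right (by positivity))
    · rw [zero_add]; exact hu3 l c hc.le (hl₀ l h) y hy x
  have hsum : ∀ c : ℝ, 0 < c → ∀ y ∈ K c, ∀ x, Summable fun l => u l (x, y) := by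
    intro c hc y hy x
    obtain ⟨b, hb, hb'⟩ := hbd c hc
    exact Summable.of_norm_bounded hb (fun l => hb' l y hy x)
  let F : T3 × R3 → ℂ := fun w => ∑' l, u l w
  have hFc : ∀ c : ℝ, 0 < c → ∀ y ∈ K c, Continuous fun x => F (x, y) := by
    intro c hc y hy
    obtain ⟨b, hb, hb'⟩ := hbd c hc
    exact continuous_tsum (fun l => (V_continuous (hum l)).comp (by fun_prop)) hb
      (fun l x => hb' l y hy x)
  refine ⟨F, ?_, fun c hc y hy => ⟨hFc c hc y hy, ?_⟩, ?_⟩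
  · intro z c hc hz
    obtain ⟨l₀, hl₀⟩ := hl0 (c / 2) (by positivity)
    let O : Set C3 := {w | c / 2 < w.1.im ∧ c / 2 < w.2.2.im ∧
      w.2.1.im ^ 2 < (w.1.im - c / 2) * (w.2.2.im - c / 2)}
    have hO : IsOpen O := by
      have c1 : Continuous fun w : C3 => w.1.im := by fun_prop
      have c2 : Continuous fun w : C3 => w.2.2.im := by fun_prop
      have c3 : Continuous fun w : C3 => w.2.1.im ^ 2 := by fun_prop
      have c4 : Continuous fun w : C3 => (w.1.im - c / 2) * (w.2.2.im - c / 2) := by fun_prop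
      exact (isOpen_lt continuous_const c1).inter
        ((isOpen_lt continuous_const c2).inter (isOpen_lt c3 c4))
    have hzO : z ∈ O := by
      obtain ⟨h1, h2, h3⟩ := hz
      simp only [im3] at h1 h2 h3
      refine ⟨by linarith, by linarith, h3.trans_lt ?_⟩
      nlinarith
    obtain ⟨r, hr, hball⟩ := Metric.isOpen_iff.1 hO z hzO
    have hK : ∀ w ∈ Metric.ball z r, im3 w ∈ K (c / 2) := fun w hw =>
      ⟨(hball hw).1.le, (hball hw).2.1.le, (hball hw).2.2.le⟩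
    have key := hasFDerivAt_tsum_of_isPreconnected (f := fun l => lift (u l))
      (f' := fun l w => (N l : ℂ) • f' (l + 3 + S l) l ((N l : ℂ) • w))
      (hasSum_bnd (fun l => A l * N l) l₀).summable Metric.isOpen_ball
      (convex_ball z r).isPreconnected ?_ ?_ (Metric.mem_ball_self hr)
      (hsum c hc _ hz _) (Metric.mem_ball_self hr)
    · exact key.differentiableAt
    · intro l w _
      have e : lift (u l) = lift (Φ l) ∘ fun w => (N l : ℂ) • w := funext (lift_dil _ _)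
      rw [e]
      have := (hf' (l + 3 + S l) l ((N l : ℂ) • w)).comp w
        ((hasFDerivAt_id w).const_smul (N l : ℂ))
      convert this using 1
      ext <;> simp
    · intro l w hw
      have h1 := hf'' (l + 3 + S l) l (N l * (c / 2)) (by positivity) ((N l : ℂ) • w)
        (by rw [im3_smul]; exact smul_mem_K (by positivity) (hK w hw))
      rw [norm_smul, Complex.norm_natCast]
      have h2 : (N l : ℝ) * ‖f' (l + 3 + S l) l ((N l : ℂ) • w)‖ ≤
          A l * N l * Real.exp (-(N l * (c / 2))) := by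
        calc _ ≤ N l * (A l * Real.exp (-(N l * (c / 2)))) := by gcongr
          _ = _ := by ring
      refine h2.trans ?_
      split_ifs with h
      · refine le_trans ?_ (le_add_of_nonneg_right (by positivity))
        exact mul_le_of_le_one_right (mul_nonneg (hA0 l) (by positivity))
          (hexp l _ (by positivity))
      · rw [zero_add]; exact hsmall l _ (hl₀ l h)
  · have hmeas : ∀ l, AEStronglyMeasurable (fun x => u l (x, y)) volume := fun l =>
      ((V_continuous (hum l)).comp (by fun_prop)).aestronglyMeasurable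
    have hul : ∀ l, eLpNorm (fun x => u l (x, y)) p volume ≤ ENNReal.ofReal ((1 / 2) ^ l) := by
      intro l
      refine (V_eLpNorm_le (hum l) p hp1 (K_mono hc.le hy)).trans ?_
      have e : (fun x => u l (x, 0)) = (fun x => Φ l (x, 0)) ∘ fun x : T3 => (N l : ℤ) • x := by
        funext x; simp [u, dil]
      have hc0 : Continuous fun x : T3 => Φ l (x, 0) :=
        (V_continuous (hΦm' _ _)).comp (by fun_prop)
      rw [e, eLpNorm_comp_measurePreserving hc0.aestronglyMeasurable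
        (Measure.measurePreserving_zsmul volume (n := (N l : ℤ)) (by exact_mod_cast (hN l).ne'))]
      exact hΦp' _ _
    refine (Lp.eLpNorm_lim_le_liminf_eLpNorm
      (f := fun n => ∑ l ∈ Finset.range n, fun x => u l (x, y))
      (fun n => Finset.aestronglyMeasurable_sum _ fun l _ => hmeas l) _
      (Eventually.of_forall fun x => ?_)).trans ?_
    · simpa using (hsum c hc y hy x).hasSum.tendsto_sum_nat
    · refine liminf_le_of_frequently_le' (Frequently.of_forall fun n => ?_)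
      refine (eLpNorm_sum_le (fun l _ => hmeas l) hp1).trans ?_
      refine (Finset.sum_le_sum fun l _ => hul l).trans ?_
      rw [← ENNReal.ofReal_sum_of_nonneg (fun _ _ => by positivity)]
      exact ENNReal.ofReal_le_ofReal (sum_le_hasSum _ (fun _ _ => by positivity)
        hasSum_geometric_two)
  · let U : ℕ → Set T3 := fun j =>
      {x | ∃ c : ℝ, 0 < c ∧ ∃ y ∈ K c, ‖y‖ < 1 / (j + 1) ∧ j < ‖F (x, y)‖}
    have hUo : ∀ j, IsOpen (U j) := by
      intro j
      rw [isOpen_iff_mem_nhds]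
      rintro x ⟨c, hc, y, hy, h1, h2⟩
      filter_upwards [(hFc c hc y hy).norm.continuousAt.eventually (lt_mem_nhds h2)] with x' hx'
      exact ⟨c, hc, y, hy, h1, hx'⟩
    have hUa : Antitone U := by
      rintro i j hij x ⟨c, hc, y, hy, h1, h2⟩
      have : (i : ℝ) ≤ j := by exact_mod_cast hij
      refine ⟨c, hc, y, hy, h1.trans_le ?_, this.trans_lt h2⟩
      gcongr
    have hUv : ∀ j, ENNReal.ofReal (1 / 32) ≤ volume (U j) := by
      intro j
      obtain ⟨k, hk1, hk2⟩ : ∃ k : ℕ, j ≤ k ∧ (1 / 2 : ℝ) ^ k < 1 / (j + 1) :=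
        ((eventually_ge_atTop j).and
          ((tendsto_pow_atTop_nhds_zero_of_lt_one (by norm_num) (by norm_num)).eventually
            (eventually_lt_nhds (by positivity)))).exists
      have hmp := Measure.measurePreserving_zsmul (volume : Measure T3)
        (n := (N k : ℤ)) (by exact_mod_cast (hN k).ne')
      refine (hGv' (k + 3 + S k) k).trans ?_
      rw [← hmp.measure_preimage (hG' _ _).nullMeasurableSet]
      apply measure_mono
      intro x hx
      obtain ⟨y, hy, hy1, hy2⟩ := hG _ _ _ hx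
      have hNk : (0 : ℝ) < N k := by linarith [hN1 k]
      have hc : 0 < (N k : ℝ)⁻¹ * κ k := mul_pos (inv_pos.2 hNk) (hκ' _ _)
      have hy' : (N k : ℝ)⁻¹ • y ∈ K ((N k : ℝ)⁻¹ * κ k) := smul_mem_K (by positivity) hy
      refine ⟨_, hc, _, hy', ?_, ?_⟩
      · rw [norm_smul, norm_inv, Real.norm_natCast]
        refine lt_of_le_of_lt ?_ hk2
        rw [inv_mul_le_iff₀ hNk, mul_comm]
        exact hy1.trans (hNB k)
      · have e1 : u k (x, (N k : ℝ)⁻¹ • y) = Φ k ((N k : ℤ) • x, y) := by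
          simp only [u, dil, smul_smul, mul_inv_cancel₀ hNk.ne', one_smul]
        have e2 := (hsum _ hc _ hy' x).tsum_eq_add_tsum_ite k
        have h3 : ‖∑' l, ite (l = k) 0 (u l (x, (N k : ℝ)⁻¹ • y))‖ ≤ S k + 2 := by
          rw [hS]
          refine tsum_of_norm_bounded (hasSum_bnd A k) fun l => ?_
          by_cases h : l = k
          · simp [h]
          · rw [if_neg h]
            split_ifs with h'
            · exact (hu2 l _ hc.le _ hy' x).trans (le_add_of_nonneg_right (by positivity))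
            · rw [zero_add]
              refine hu3 l _ hc.le ?_ _ hy' x
              rw [← div_eq_inv_mul]
              exact hε2 k l (by omega)
        have h4 := norm_sub_norm_le (u k (x, (N k : ℝ)⁻¹ • y))
          (-∑' l, ite (l = k) 0 (u l (x, (N k : ℝ)⁻¹ • y)))
        rw [sub_neg_eq_add, norm_neg, ← e2, e1] at h4
        have h5 : (j : ℝ) ≤ k := by exact_mod_cast hk1
        change (j : ℝ) < ‖∑' l, u l (x, (N k : ℝ)⁻¹ • y)‖
        change (k : ℝ) + 3 + S k ≤ ‖Φ k ((N k : ℤ) • x, y)‖ at hy2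
        linarith
    have hDv : ENNReal.ofReal (1 / 32) ≤ volume (⋂ j, U j) :=
      ge_of_tendsto' (tendsto_measure_iInter_atTop
        (fun j => (hUo j).measurableSet.nullMeasurableSet) hUa ⟨0, measure_ne_top _ _⟩) hUv
    have hinv : ∀ (a : T3) (m : ℕ), 0 < m → (m : ℤ) • a = 0 → ∀ x ∈ ⋂ j, U j, a + x ∈ ⋂ j, U j := by
      intro a m hm ha x hx
      rw [mem_iInter] at hx ⊢
      intro j
      obtain ⟨i, hi⟩ := exists_nat_ge (∑ l ∈ Finset.range m, 2 * A l + 2)
      obtain ⟨c, hc, y, hy, h1, h2⟩ := hx (j + i)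
      refine ⟨c, hc, y, hy, h1.trans_le ?_, ?_⟩
      · push_cast
        have : (0 : ℝ) ≤ i := by positivity
        gcongr
        linarith
      · have h3 : ‖F (x, y) - F (a + x, y)‖ ≤ ∑ l ∈ Finset.range m, 2 * A l + 2 := by
          simp only [F]
          rw [← (hsum c hc y hy x).tsum_sub (hsum c hc y hy (a + x))]
          refine tsum_of_norm_bounded (hasSum_bnd (fun l => 2 * A l) m) fun l => ?_
          split_ifs with h
          · refine le_trans ?_ (le_add_of_nonneg_right (by positivity))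
            refine (norm_sub_le _ _).trans ?_
            linarith [hu2 l c hc.le y hy x, hu2 l c hc.le y hy (a + x)]
          · obtain ⟨d, hd⟩ := hdvd m l hm (not_lt.1 h)
            have : (N l : ℤ) • a = 0 := by
              rw [hd, Nat.cast_mul, mul_comm, mul_smul, ha, smul_zero]
            simp [u, dil, this]
        have h4 := norm_sub_norm_le (F (x, y)) (F (a + x, y))
        push_cast at h2
        linarith
    have hconst : EventuallyConst (⋂ j, U j) (ae (volume : Measure T3)) := by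
      have : Measure.InnerRegular (volume : Measure T3) :=
        instInnerRegularOfIsCompletelyPseudoMetrizableSpace _
      have := ergodic_T3
      refine aeconst_of_dense_setOfPred_preimage_vadd_eq (M := T3)
        (MeasurableSet.iInter fun j => (hUo j).measurableSet).nullMeasurableSet
        (dense_torsion.mono ?_)
      rintro a ⟨m, hm, ha⟩
      ext x
      constructor
      · intro hx
        have := hinv (-a) m hm (by rw [smul_neg, ha, neg_zero]) _ hx
        simpa using this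
      · exact hinv a m hm ha x
    rcases eventuallyConst_set'.1 hconst with h | h
    · rw [measure_congr h, measure_empty] at hDv
      norm_num at hDv
    · filter_upwards [h.mem_iff] with x hx
      exact mem_iInter.1 (hx.2 (mem_univ x))

end

end Pool.Agent.Lib.MP_730078_an
end

-- part Pool.Agent.Lib.MP_730078_an.Final
section

open MeasureTheory Set Filter Topology Complex
open scoped ENNReal Real

namespace Pool.Agent.Lib.MP_730078_an

noncomputable section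

variable {m : ℕ}

def LamR (x : Fin (m + 3) → ℝ) : R3 := (x 0 + x 2, x 1, x 0 - x 2)
def LamC (z : Fin (m + 3) → ℂ) : C3 := (z 0 + z 2, z 1, z 0 - z 2)
def prj (x : Fin (m + 3) → ℝ) : T3 := mk3 (LamR x)
def cube (m : ℕ) : Set (Fin (m + 3) → ℝ) := univ.pi fun _ => Ioc (0 : ℝ) (0 + 1)

theorem prj_add (x u : Fin (m + 3) → ℝ) : prj (x + u) = prj x + prj u := by
  rw [prj, prj, prj, ← mk3_add]
  congr 1
  ext <;> simp [LamR] <;> ring

@[fun_prop] theorem continuous_prj : Continuous (prj (m := m)) := by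
  unfold prj LamR; fun_prop

theorem lift_LamC (F : T3 × R3 → ℂ) (x y : Fin (m + 3) → ℝ) :
    lift F (LamC (pt x y)) = F (prj x, LamR y) := by
  simp [lift, LamC, pt, prj, LamR]

theorem im3_LamC (x y : Fin (m + 3) → ℝ) : im3 (LamC (pt x y)) = LamR y := by
  simp [im3, LamC, pt, LamR]

theorem measurePreserving_prj :
    MeasurePreserving (prj (m := m)) (volume.restrict (cube m)) volume := by
  have h1 : MeasurePreserving (fun (x : Fin (m + 3) → ℝ) (i : Fin (m + 3)) => (x i : TT))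
      (volume.restrict (cube m)) volume := by
    rw [cube, volume_pi, Measure.restrict_pi_pi, volume_pi]
    exact measurePreserving_pi _ _ fun _ => UnitAddCircle.measurePreserving_mk 0
  let h : (Fin (m + 3) → TT) →+ T3 :=
    { toFun := fun x => (x 0 + x 2, x 1, x 0 - x 2)
      map_zero' := by simp
      map_add' := by intro x y; ext <;> simp <;> abel }
  have hc : Continuous h := by
    change Continuous fun x : Fin (m + 3) → TT => ((x 0 + x 2, x 1, x 0 - x 2) : T3)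
    fun_prop
  have hs : Function.Surjective h := by
    rintro ⟨a, b, c⟩
    obtain ⟨d, hd⟩ := DivisibleBy.surjective_smul TT ℤ (n := 2) two_ne_zero (a + c)
    simp only [two_zsmul] at hd
    refine ⟨Fin.cons d (Fin.cons b (Fin.cons (a - d) 0)), ?_⟩
    change ((d + (a - d), b, d - (a - d)) : T3) = (a, b, c)
    ext
    · simp
    · rfl
    · change d - (a - d) = c
      rw [sub_sub_eq_add_sub, hd]; abel
  have h2 : MeasurePreserving h (volume : Measure (Fin (m + 3) → TT)) (volume : Measure T3) :=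
    AddMonoidHom.measurePreserving hc hs (by simp)
  have e : prj (m := m) = h ∘ fun (x : Fin (m + 3) → ℝ) (i : Fin (m + 3)) => (x i : TT) := by
    funext x
    simp [prj, mk3, LamR, h]
  rw [e]
  exact h2.comp h1

theorem averaging {Φ : T3 → ℝ≥0∞} (hΦ : Measurable Φ) {w w' : (Fin (m + 3) → ℝ) → ℝ≥0∞}
    (hw' : Measurable w') (h : ∀ x u, ‖u‖ ≤ 1 → w x ≤ w' (x - u)) :
    ∫⁻ x, Φ (prj x) * w x ≤ (∫⁻ v, w' v) * ∫⁻ t, Φ t := by
  have hmp := measurePreserving_prj (m := m)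
  have hcm : MeasurableSet (cube m) := MeasurableSet.univ_pi fun _ => measurableSet_Ioc
  have hprob : (volume.restrict (cube m)) univ = 1 := by
    rw [← preimage_univ (f := prj (m := m)), hmp.measure_preimage nullMeasurableSet_univ]
    simp
  have hp : Measurable (prj (m := m)) := continuous_prj.measurable
  calc ∫⁻ x, Φ (prj x) * w x
      ≤ ∫⁻ x, ∫⁻ u in cube m, Φ (prj x) * w' (x - u) := by
        refine lintegral_mono fun x => ?_
        calc Φ (prj x) * w x = ∫⁻ u in cube m, Φ (prj x) * w x := by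
              rw [lintegral_const, hprob, mul_one]
          _ ≤ _ := by
              refine setLIntegral_mono' hcm fun u hu => ?_
              gcongr
              refine h x u ((pi_norm_le_iff_of_nonneg zero_le_one).2 fun i => ?_)
              have := hu i (mem_univ i)
              rw [Real.norm_eq_abs, abs_le]
              constructor <;> linarith [this.1, this.2]
    _ = ∫⁻ u in cube m, ∫⁻ x, Φ (prj x) * w' (x - u) :=
        lintegral_lintegral_swap (by fun_prop)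
    _ = ∫⁻ u in cube m, ∫⁻ v, Φ (prj v + prj u) * w' v := by
        refine lintegral_congr fun u => ?_
        rw [← lintegral_add_right_eq_self _ u]
        simp [prj_add]
    _ = ∫⁻ v, ∫⁻ u in cube m, Φ (prj v + prj u) * w' v := by
        refine lintegral_lintegral_swap (Measurable.aemeasurable ?_)
        have hc : Continuous fun q : (Fin (m + 3) → ℝ) × (Fin (m + 3) → ℝ) =>
            prj q.2 + prj q.1 := by fun_prop
        exact (hΦ.comp hc.measurable).mul (hw'.comp measurable_snd)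
    _ = ∫⁻ v, w' v * ∫⁻ t, Φ t := by
        refine lintegral_congr fun v => ?_
        have h1 : Measurable fun t : T3 => Φ (prj v + t) :=
          hΦ.comp (continuous_const.add continuous_id).measurable
        have h2 : Measurable fun u : Fin (m + 3) → ℝ => Φ (prj v + prj u) := h1.comp hp
        rw [lintegral_mul_const _ h2, hmp.lintegral_comp h1,
          lintegral_add_left_eq_self, mul_comm]
    _ = _ := lintegral_mul_const _ hw'

theorem sum_erase_zero (f : Fin (m + 3) → ℝ) :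
    ∑ j ∈ Finset.univ.erase 0, f j = f 1 + f 2 + ∑ j : Fin m, f j.succ.succ.succ := by
  have h := Finset.add_sum_erase Finset.univ f (Finset.mem_univ 0)
  rw [Fin.sum_univ_succ, Fin.sum_univ_succ, Fin.sum_univ_succ] at h
  have e1 : (0 : Fin (m + 2)).succ = 1 := rfl
  have e2 : (0 : Fin (m + 1)).succ.succ = 2 := rfl
  rw [e1, e2] at h
  linarith

theorem LamR_mem {y : Fin (m + 3) → ℝ} (hy : y ∈ lightCone (m + 3)) :
    ∃ κ : ℝ, 0 < κ ∧ LamR y ∈ K κ := by
  obtain ⟨h0, h1⟩ := hy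
  rw [sum_erase_zero] at h1
  have h2 : 0 ≤ ∑ j : Fin m, y j.succ.succ.succ ^ 2 := Finset.sum_nonneg fun _ _ => sq_nonneg _
  set δ := y 0 ^ 2 - y 1 ^ 2 - y 2 ^ 2 with hδ
  have hδ0 : 0 < δ := by linarith
  set κ := δ / (2 * y 0) with hκ
  have hκ1 : κ * (2 * y 0) = δ := by rw [hκ]; field_simp
  have hκ0 : 0 < κ := by positivity
  have h3 : κ ≤ y 0 := by nlinarith [sq_nonneg (y 1), sq_nonneg (y 2)]
  have h4 : y 1 ^ 2 + y 2 ^ 2 ≤ (y 0 - κ) ^ 2 := by nlinarith
  have h5 := abs_le_of_sq_le_sq' (a := y 2) (b := y 0 - κ) (by nlinarith [sq_nonneg (y 1)])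
    (by linarith)
  refine ⟨κ, hκ0, ?_, ?_, ?_⟩
  · simp only [LamR]; linarith [h5.1]
  · simp only [LamR]; linarith [h5.2]
  · simp only [LamR]; nlinarith

theorem exists_preimage {κ : ℝ} (hκ : 0 < κ) {y : R3} (hy : y ∈ K κ) :
    ∃ y' ∈ lightCone (m + 3), LamR y' = y ∧ ‖y'‖ ≤ ‖y‖ := by
  obtain ⟨h1, h2, h3⟩ := hy
  refine ⟨Fin.cons ((y.1 + y.2.2) / 2) (Fin.cons y.2.1 (Fin.cons ((y.1 - y.2.2) / 2) 0)),
    ⟨?_, ?_⟩, ?_, ?_⟩
  · simp only [Fin.cons_zero]; linarith
  · rw [sum_erase_zero]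
    change 0 < ((y.1 + y.2.2) / 2) ^ 2 - (y.2.1 ^ 2 + ((y.1 - y.2.2) / 2) ^ 2 + ∑ j : Fin m, 0 ^ 2)
    simp only [ne_eq, OfNat.ofNat_ne_zero, not_false_eq_true, zero_pow, Finset.sum_const_zero]
    nlinarith
  · change (((y.1 + y.2.2) / 2 + (y.1 - y.2.2) / 2, y.2.1,
      (y.1 + y.2.2) / 2 - (y.1 - y.2.2) / 2) : R3) = y
    ext <;> simp <;> ring
  · have a1 : |y.1| ≤ ‖y‖ := norm_fst_le y
    have a2 : |y.2.1| ≤ ‖y‖ := (norm_fst_le y.2).trans (norm_snd_le y)
    have a3 : |y.2.2| ≤ ‖y‖ := (norm_snd_le y.2).trans (norm_snd_le y)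
    rw [abs_le] at a1 a3
    refine (pi_norm_le_iff_of_nonneg (norm_nonneg _)).2 fun i => ?_
    refine Fin.cases ?_ (fun i => Fin.cases ?_ (fun i => Fin.cases ?_ (fun i => ?_) i) i) i
    · simp only [Fin.cons_zero, Real.norm_eq_abs, abs_le]
      constructor <;> linarith [a1.1, a1.2, a3.1, a3.2]
    · simpa using a2
    · simp only [Fin.cons_succ, Fin.cons_zero, Real.norm_eq_abs, abs_le]
      constructor <;> linarith [a1.1, a1.2, a3.1, a3.2]
    · simp

/-- A polynomial without zeros on the closed tube. -/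
def Pd (z : Fin (m + 3) → ℂ) : ℂ := ∏ j, (z 0 + z j + I)

theorem Pd_lower (x : Fin (m + 3) → ℝ) {y : Fin (m + 3) → ℝ} (hy : y ∈ lightCone (m + 3)) :
    1 + ‖x‖ ≤ 3 * ‖Pd (pt x y)‖ := by
  obtain ⟨h0, h1⟩ := hy
  have h2 : ∀ j, 0 ≤ y 0 + y j := by
    intro j
    by_cases hj : j = 0
    · rw [hj]; linarith
    · have : y j ^ 2 ≤ ∑ j ∈ Finset.univ.erase 0, y j ^ 2 :=
        Finset.single_le_sum (f := fun j => y j ^ 2) (fun _ _ => sq_nonneg _)
          (Finset.mem_erase.2 ⟨hj, Finset.mem_univ _⟩)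
      have := abs_le_of_sq_le_sq' (a := y j) (b := y 0) (by linarith) h0.le
      linarith [this.1]
  have h3 : ∀ j, 1 ≤ ‖pt x y 0 + pt x y j + I‖ := by
    intro j
    refine le_trans ?_ (Complex.im_le_norm _)
    simp [pt, h2 j]
  have h4 : ∀ j, ‖pt x y 0 + pt x y j + I‖ ≤ ‖Pd (pt x y)‖ := by
    intro j
    rw [Pd, norm_prod, ← Finset.mul_prod_erase _ _ (Finset.mem_univ j)]
    exact le_mul_of_one_le_right (norm_nonneg _) (Finset.one_le_prod fun i _ => h3 i)
  have h5 : ∀ j, |x 0 + x j| ≤ ‖Pd (pt x y)‖ := by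
    intro j
    refine le_trans ?_ ((Complex.abs_re_le_norm _).trans (h4 j))
    simp [pt]
  have h6 := (h3 0).trans (h4 0)
  have h7 : ‖x‖ ≤ 2 * ‖Pd (pt x y)‖ := by
    refine (pi_norm_le_iff_of_nonneg (by positivity)).2 fun j => ?_
    have a := abs_le.1 (h5 0)
    have b := abs_le.1 (h5 j)
    rw [Real.norm_eq_abs, abs_le]
    constructor <;> linarith [a.1, a.2, b.1, b.2]
  linarith

theorem Pd_ne_zero (x : Fin (m + 3) → ℝ) {y : Fin (m + 3) → ℝ} (hy : y ∈ lightCone (m + 3)) :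
    Pd (pt x y) ≠ 0 := by
  intro h
  have := Pd_lower x hy
  rw [h, norm_zero] at this
  linarith [norm_nonneg x]

theorem main (m : ℕ) (p : ℝ) (hp0 : 0 < p) (hp2 : p < 2) :
    ∃ F : (Fin (m + 3) → ℂ) → ℂ, MemHardy (lightCone (m + 3)) p F ∧
      ∀ᵐ x : Fin (m + 3) → ℝ,
        ¬ ∃ L : ℂ, Tendsto (fun y => F (pt x y)) (𝓝[lightCone (m + 3)] 0) (𝓝 L) := by
  obtain ⟨F, hF1, hF2, hF3⟩ := series (ENNReal.ofReal (max p 1))
    (by simp)
    (by
      rw [← ENNReal.ofReal_ofNat 2]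
      exact (ENNReal.ofReal_lt_ofReal_iff (by norm_num)).2 (max_lt hp2 (by norm_num)))
  obtain ⟨r, hr⟩ := exists_nat_gt ((m + 3) / p)
  rw [div_lt_iff₀ hp0] at hr
  refine ⟨fun z => lift F (LamC z) * (Pd z)⁻¹ ^ r, ⟨?_, ?_⟩, ?_⟩
  · rintro _ ⟨x, y, hy, rfl⟩
    obtain ⟨κ, hκ, hκ'⟩ := LamR_mem hy
    have h1 := hF1 (LamC (pt x y)) κ hκ (by rwa [im3_LamC])
    have h2 : Differentiable ℂ (LamC (m := m)) := by unfold LamC; fun_prop
    have h3 : Differentiable ℂ (Pd (m := m)) := by unfold Pd; fun_prop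
    exact ((h1.comp _ (h2 _)).mul (((h3 _).inv (Pd_ne_zero x hy)).pow r)).differentiableWithinAt
  · let w : (Fin (m + 3) → ℝ) → ℝ≥0∞ := fun x => ENNReal.ofReal ((3 / (1 + ‖x‖)) ^ (r * p))
    let w' : (Fin (m + 3) → ℝ) → ℝ≥0∞ := fun x =>
      ENNReal.ofReal (6 ^ (r * p)) * ENNReal.ofReal ((1 + ‖x‖) ^ (-(r * p)))
    have hw' : Measurable w' := by simp only [w']; fun_prop
    have hrp : 0 ≤ r * p := by positivity
    have hww : ∀ x u, ‖u‖ ≤ 1 → w x ≤ w' (x - u) := by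
      intro x u hu
      simp only [w, w']
      rw [← ENNReal.ofReal_mul (by positivity), Real.rpow_neg (by positivity), ← div_eq_mul_inv,
        ← Real.div_rpow (by norm_num) (by positivity)]
      gcongr ENNReal.ofReal (?_ ^ _)
      rw [div_le_div_iff₀ (by positivity) (by positivity)]
      linarith [norm_sub_le x u, norm_nonneg x]
    have hfin : ∫⁻ v, w' v < ∞ := by
      simp only [w']
      rw [lintegral_const_mul _ (by fun_prop)]
      refine ENNReal.mul_lt_top ENNReal.ofReal_lt_top (finite_integral_one_add_norm ?_)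
      simpa using hr
    refine lt_of_le_of_lt (iSup₂_le fun y hy => ?_)
      (ENNReal.mul_lt_top hfin (ENNReal.rpow_lt_top_of_nonneg hp0.le
        (ENNReal.ofReal_ne_top (r := 2))))
    obtain ⟨κ, hκ, hκ'⟩ := LamR_mem hy
    obtain ⟨hc, hL⟩ := hF2 κ hκ _ hκ'
    have hm : Measurable fun t : T3 => ‖F (t, LamR y)‖ₑ ^ p :=
      hc.measurable.enorm.pow_const p
    refine le_trans (lintegral_mono fun x => ?_) ((averaging hm hw' hww).trans ?_)
    · simp only [w]
      rw [lift_LamC, enorm_mul, ENNReal.mul_rpow_of_nonneg _ _ hp0.le]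
      gcongr
      rw [← ofReal_norm, ENNReal.ofReal_rpow_of_nonneg (norm_nonneg _) hp0.le, norm_pow, norm_inv,
        Real.rpow_natCast_mul (by positivity)]
      gcongr
      have := Pd_lower x hy
      have h0 : 0 < ‖Pd (pt x y)‖ := norm_pos_iff.2 (Pd_ne_zero x hy)
      rw [inv_eq_one_div, div_le_div_iff₀ h0 (by positivity)]
      linarith
    · gcongr
      have h1 : eLpNorm (fun t => F (t, LamR y)) (ENNReal.ofReal p) volume ≤ ENNReal.ofReal 2 :=
        (eLpNorm_le_eLpNorm_of_exponent_le (ENNReal.ofReal_le_ofReal (le_max_left p 1))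
          hc.aestronglyMeasurable).trans hL
      rw [eLpNorm_eq_lintegral_rpow_enorm_toReal (by simpa using hp0) ENNReal.ofReal_ne_top,
        ENNReal.toReal_ofReal hp0.le] at h1
      have h2 := ENNReal.rpow_le_rpow h1 hp0.le
      rwa [← ENNReal.rpow_mul, one_div_mul_cancel hp0.ne', ENNReal.rpow_one] at h2
  · obtain ⟨Z, hZ1, hZ2, hZ3⟩ := exists_measurable_superset_of_null (ae_iff.1 hF3)
    have hnull : volume (prj (m := m) ⁻¹' Z) = 0 := by
      have h := averaging (m := m) (Φ := Z.indicator 1) (measurable_one.indicator hZ2)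
        (w := fun _ => 1) (w' := fun _ => 1) measurable_const (fun _ _ _ => le_rfl)
      rw [lintegral_indicator_one hZ2, hZ3, mul_zero] at h
      rw [← lintegral_indicator_one (continuous_prj.measurable hZ2)]
      refine le_antisymm (le_trans (le_of_eq ?_) h) zero_le
      refine lintegral_congr fun x => ?_
      by_cases hx : prj x ∈ Z
      · simp [indicator_of_mem hx, indicator_of_mem (show x ∈ prj ⁻¹' Z from hx)]
      · simp [indicator_of_notMem hx, indicator_of_notMem (show x ∉ prj ⁻¹' Z from hx)]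
    filter_upwards [measure_eq_zero_iff_ae_notMem.1 hnull] with x hx
    have hx' : ∀ j : ℕ, ∃ κ : ℝ, 0 < κ ∧ ∃ y ∈ K κ, ‖y‖ < 1 / (j + 1) ∧ j < ‖F (prj x, y)‖ := by
      by_contra hh
      exact hx (hZ1 hh)
    rintro ⟨L, hL⟩
    choose κ hκ y hy hy1 hy2 using hx'
    choose y' hy' hy'1 hy'2 using fun j => exists_preimage (m := m) (hκ j) (hy j)
    have ht0 : Tendsto y' atTop (𝓝 0) :=
      squeeze_zero_norm (fun j => (hy'2 j).trans (hy1 j).le)
        tendsto_one_div_add_atTop_nhds_zero_nat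
    have ht : Tendsto y' atTop (𝓝[lightCone (m + 3)] 0) :=
      tendsto_nhdsWithin_iff.2 ⟨ht0, Eventually.of_forall hy'⟩
    have hP : Continuous fun y : Fin (m + 3) → ℝ => Pd (pt x y) ^ r := by
      unfold Pd pt; fun_prop
    have h1 := ((hL.comp ht).mul ((hP.tendsto 0).comp ht0)).norm
    have h2 : ∀ j : ℕ, (j : ℝ) ≤ ‖((fun y => lift F (LamC (pt x y)) * (Pd (pt x y))⁻¹ ^ r) ∘ y') j *
        ((fun y => Pd (pt x y) ^ r) ∘ y') j‖ := by
      intro j
      simp only [Function.comp_apply]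
      rw [mul_assoc, ← mul_pow, inv_mul_cancel₀ (Pd_ne_zero x (hy' j)), one_pow, mul_one,
        lift_LamC, hy'1]
      exact (hy2 j).le
    exact not_tendsto_nhds_of_tendsto_atTop
      (tendsto_atTop_mono h2 tendsto_natCast_atTop_atTop) _ h1

end

end Pool.Agent.Lib.MP_730078_an
end

-- part Pool.Agent.Lib.MP_730078_an.HKer
section

open MeasureTheory Set Filter Topology Complex
open scoped ENNReal Real FourierTransform

namespace Pool.Agent.Lib.MP_730078_an.G.H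

noncomputable section

theorem exists_meas {m : ℝ → ℂ} {k : ℝ → ℝ} (hc : Continuous m) (hm : Integrable m)
    (hk : Integrable k) (hk0 : ∀ s, 0 ≤ k s) (h : ∀ s, 𝓕 m s = k s) (h0 : m 0 = 1) :
    ∃ K : Measure ℝ, IsProbabilityMeasure K ∧ ∀ ξ : ℝ, ∫ s, e1 (ξ * s : ℝ) ∂K = m ξ := by
  have hF : 𝓕 m = fun s => (k s : ℂ) := funext h
  have hi : Integrable (𝓕 m) := hF ▸ hk.ofReal
  have inv := hc.fourierInv_fourier_eq hm hi
  have key : ∀ ξ : ℝ, ∫ s, e1 (ξ * s : ℝ) ∂(volume.withDensity fun s => ENNReal.ofReal (k s)) =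
      m ξ := by
    intro ξ
    rw [integral_withDensity_eq_integral_toReal_smul₀
      (hk.1.aemeasurable.ennreal_ofReal) (by simp), ← congrFun inv ξ, Real.fourierInv_eq', hF]
    congr 1
    funext s
    rw [ENNReal.toReal_ofReal (hk0 s), e1_coe]
    simp only [RCLike.inner_apply, conj_trivial, real_smul, smul_eq_mul]
    rw [mul_comm]
    congr 2
    push_cast
    ring
  refine ⟨_, ⟨?_⟩, key⟩
  have h1 := key 0
  rw [h0] at h1
  simp only [zero_mul, QuotientAddGroup.mk_zero, e1_zero, integral_const, real_smul,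
    mul_one] at h1
  have h2 : (volume.withDensity fun s => ENNReal.ofReal (k s)).real univ = 1 := by
    exact_mod_cast h1
  exact (ENNReal.toReal_eq_one_iff _).1 h2

theorem exists_cauchy : ∃ K : Measure ℝ, IsProbabilityMeasure K ∧
    ∀ ξ : ℝ, ∫ s, e1 (ξ * s : ℝ) ∂K = cexp (-(2 * π * (|ξ| : ℝ))) := by
  have hp := Real.pi_pos
  have i1 : ∀ s : ℝ, IntegrableOn (fun v : ℝ => cexp ((2 * π * (1 - s * I)) * v)) (Iic 0) :=
    fun s => integrableOn_exp_mul_complex_Iic (by simp; positivity) 0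
  have i2 : ∀ s : ℝ, IntegrableOn (fun v : ℝ => cexp ((2 * π * (-1 - s * I)) * v)) (Ioi 0) :=
    fun s => integrableOn_exp_mul_complex_Ioi (by simp; positivity) 0
  have e1' : ∀ s : ℝ, EqOn (fun v : ℝ => cexp ((2 * π * (1 - s * I)) * v))
      (fun v : ℝ => cexp ((-2 * π * v * s : ℝ) * I) • cexp (-(2 * π * (|v| : ℝ)))) (Iic 0) := by
    intro s v hv
    simp only [smul_eq_mul, ← Complex.exp_add, abs_of_nonpos (mem_Iic.1 hv)]
    congr 1
    push_cast
    ring
  have e2' : ∀ s : ℝ, EqOn (fun v : ℝ => cexp ((2 * π * (-1 - s * I)) * v))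
      (fun v : ℝ => cexp ((-2 * π * v * s : ℝ) * I) • cexp (-(2 * π * (|v| : ℝ)))) (Ioi 0) := by
    intro s v hv
    simp only [smul_eq_mul, ← Complex.exp_add, abs_of_pos (mem_Ioi.1 hv)]
    congr 1
    push_cast
    ring
  have j1 := fun s => (i1 s).congr_fun (e1' s) measurableSet_Iic
  have j2 := fun s => (i2 s).congr_fun (e2' s) measurableSet_Ioi
  refine exists_meas (k := fun s => π⁻¹ * (1 + s ^ 2)⁻¹) (by fun_prop) ?_
    (integrable_inv_one_add_sq.const_mul _) (fun s => by positivity) (fun s => ?_) (by simp)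
  · have := (j1 0).union (j2 0)
    rw [Iic_union_Ioi, integrableOn_univ] at this
    simpa using this
  · rw [Real.fourier_real_eq_integral_exp_smul, ← intervalIntegral.integral_Iic_add_Ioi (j1 s) (j2 s),
      ← setIntegral_congr_fun measurableSet_Iic (e1' s),
      ← setIntegral_congr_fun measurableSet_Ioi (e2' s),
      integral_exp_mul_complex_Iic (by simp; positivity),
      integral_exp_mul_complex_Ioi (by simp; positivity)]
    have h1 : (1 - s * I : ℂ) ≠ 0 := fun h => by simpa using congrArg re h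
    have h2 : (-1 - s * I : ℂ) ≠ 0 := fun h => by simpa using congrArg re h
    have h3 : (1 + s ^ 2 : ℂ) ≠ 0 := by exact_mod_cast (by positivity : (1 + s ^ 2 : ℝ) ≠ 0)
    have h4 : (π : ℂ) ≠ 0 := by exact_mod_cast hp.ne'
    simp only [ofReal_zero, mul_zero, Complex.exp_zero]
    push_cast
    field_simp
    linear_combination (-2 * s ^ 2 : ℂ) * I_sq

theorem exists_fejer {a : ℝ} (ha : 0 < a) : ∃ ψ : Measure ℝ, IsProbabilityMeasure ψ ∧
    ∀ ξ : ℝ, a ≤ |ξ| → ∫ s, e1 (ξ * s : ℝ) ∂ψ = 0 := by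
  have hs : HasCompactSupport fun v : ℝ => ((max (1 - |v|) 0 : ℝ) : ℂ) := by
    refine HasCompactSupport.intro (isCompact_Icc (a := -1) (b := 1)) fun v hv => ?_
    have : 1 ≤ |v| := by
      by_contra h
      exact hv (abs_le.1 (not_le.1 h).le)
    simp [this]
  have hc : Continuous fun v : ℝ => ((max (1 - |v|) 0 : ℝ) : ℂ) := by fun_prop
  have hF : ∀ s : ℝ, 𝓕 (fun v : ℝ => ((max (1 - |v|) 0 : ℝ) : ℂ)) s =
      Shared.PNT.fej (-(2 * π) * s) := by
    intro s
    rw [Real.fourier_real_eq_integral_exp_smul, ← Shared.PNT.fej_eq,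
      intervalIntegral.integral_of_le (by norm_num), ← integral_Icc_eq_integral_Ioc,
      ← setIntegral_eq_integral_of_forall_compl_eq_zero (s := Icc (-1) 1)]
    · refine setIntegral_congr_fun measurableSet_Icc fun v hv => ?_
      have : |v| ≤ 1 := abs_le.2 hv
      simp only [smul_eq_mul, max_eq_left (sub_nonneg.2 this)]
      rw [mul_comm]
      congr 2
      push_cast
      ring
    · intro v hv
      have : 1 ≤ |v| := by
        by_contra h
        exact hv (abs_le.1 (not_le.1 h).le)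
      simp [this]
  obtain ⟨K, hK, h⟩ := exists_meas (k := fun s => Shared.PNT.fej (-(2 * π) * s)) hc
    (hc.integrable_of_hasCompactSupport hs)
    (Shared.PNT.integrable_fej.comp_mul_left' (by simp))
    (fun s => Shared.PNT.fej_nonneg _) hF (by simp)
  refine ⟨K.map fun s => a⁻¹ * s, Measure.isProbabilityMeasure_map (by fun_prop), fun ξ hξ => ?_⟩
  rw [integral_map (by fun_prop) (Continuous.aestronglyMeasurable (by fun_prop))]
  simp only [← mul_assoc, h]
  have : 1 ≤ |ξ * a⁻¹| := by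
    rw [abs_mul, abs_inv, abs_of_pos ha, ← div_eq_mul_inv, le_div_iff₀ ha]; linarith
  rw [max_eq_right (sub_nonpos.2 this), ofReal_zero]

theorem tail (K : Measure ℝ) [IsProbabilityMeasure K] {ε : ℝ} (hε : 0 < ε) :
    ∃ L : ℝ, 1 ≤ L ∧ K.real {s | L < |s|} ≤ ε := by
  have h := tendsto_measure_iInter_atTop (μ := K) (s := fun n : ℕ => {s : ℝ | (n : ℝ) < |s|})
    (fun n => (measurableSet_lt measurable_const (by fun_prop)).nullMeasurableSet)
    (fun a b hab s hs => lt_of_le_of_lt (show (a : ℝ) ≤ b by exact_mod_cast hab) hs) ⟨0, measure_ne_top _ _⟩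
  have e : ⋂ n : ℕ, {s : ℝ | (n : ℝ) < |s|} = ∅ := by
    refine eq_empty_of_forall_notMem fun s hs => ?_
    obtain ⟨n, hn⟩ := exists_nat_ge |s|
    exact (mem_iInter.1 hs n).not_ge hn
  rw [e, measure_empty] at h
  obtain ⟨n, h1, h2⟩ := ((eventually_ge_atTop 1).and
    (h.eventually (eventually_le_nhds (ENNReal.ofReal_pos.2 hε)))).exists
  exact ⟨n, by exact_mod_cast h1, ENNReal.toReal_le_of_le_ofReal hε.le h2⟩

/-- An integral of a bounded function which is small near the origin. -/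
theorem int_tail {F : Type*} [NormedAddCommGroup F] [NormedSpace ℝ F] (K : Measure ℝ)
    [IsProbabilityMeasure K] {f : ℝ → F} {L a b : ℝ} (ha : 0 ≤ a) (h1 : ∀ s, |s| ≤ L → ‖f s‖ ≤ a)
    (h2 : ∀ s, ‖f s‖ ≤ b) : ‖∫ s, f s ∂K‖ ≤ a + b * K.real {s | L < |s|} := by
  have hm : MeasurableSet {s : ℝ | L < |s|} := measurableSet_lt measurable_const (by fun_prop)
  have hi : Integrable ({s : ℝ | L < |s|}.indicator fun _ => b) K :=
    (integrable_const b).indicator hm
  refine (norm_integral_le_of_norm_le ((integrable_const a).add hi)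
    (Eventually.of_forall fun s => ?_)).trans (le_of_eq ?_)
  · by_cases h : L < |s|
    · simp only [Pi.add_apply, indicator_of_mem (show s ∈ {s : ℝ | L < |s|} from h)]
      linarith [h2 s]
    · simp only [Pi.add_apply, indicator_of_notMem (show s ∉ {s : ℝ | L < |s|} from h)]
      linarith [h1 s (not_lt.1 h)]
  · simp only [Pi.add_apply]
    rw [integral_add (integrable_const a) hi, integral_indicator hm]
    simp [mul_comm]

end

end Pool.Agent.Lib.MP_730078_an.G.H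
end

-- part Pool.Agent.Lib.MP_730078_an.HAlg
section

open MeasureTheory Set Filter Topology Complex ComplexConjugate
open scoped ENNReal Real

namespace Pool.Agent.Lib.MP_730078_an.G.H

noncomputable section

variable {E : Type*} [NormedAddCommGroup E] [NormedSpace ℝ E]

theorem ef_zero : ef (0 : E →L[ℝ] ℝ) = 1 := by
  funext w
  simp [ef]

theorem Sp_const {S : Set (E →L[ℝ] ℝ)} (h0 : 0 ∈ S) (c : ℂ) : (fun _ => c) ∈ Sp S := by
  have := Submodule.smul_mem _ c (ef_mem h0)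
  rw [ef_zero] at this
  convert this using 1
  funext w
  simp

theorem Sp_univ {S : Set (E →L[ℝ] ℝ)} {f : E × E → ℂ} (hf : f ∈ Sp S) : f ∈ Sp univ :=
  Sp_mono (subset_univ _) hf

theorem Sp_mul_univ {f g : E × E → ℂ} (hf : f ∈ Sp univ) (hg : g ∈ Sp univ) : f * g ∈ Sp univ :=
  Sp_mul (fun _ _ _ _ => mem_univ _) hf hg

theorem conj_e1 (u : ℝ) : conj (e1 (u : TT)) = e1 (-u : ℝ) := by
  rw [e1_coe, e1_coe, ← Complex.exp_conj]
  congr 1
  simp [map_ofNat]

theorem Sp_conj {S : Set (E →L[ℝ] ℝ)} {f : E × E → ℂ} (hf : f ∈ Sp S) :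
    ∃ g ∈ Sp (univ : Set (E →L[ℝ] ℝ)), ∀ x, g (x, 0) = conj (f (x, 0)) := by
  refine Sp_induction (P := fun f => ∃ g ∈ Sp (univ : Set (E →L[ℝ] ℝ)),
    ∀ x, g (x, 0) = conj (f (x, 0))) (fun t _ => ⟨ef (-t), ef_mem (mem_univ _), fun x => ?_⟩)
    ⟨0, Submodule.zero_mem _, by simp⟩ ?_ ?_ hf
  · simp [ef, conj_e1]
  · rintro f g ⟨a, h1, h2⟩ ⟨b, h3, h4⟩
    exact ⟨a + b, Submodule.add_mem _ h1 h3, fun x => by simp [h2, h4]⟩
  · rintro c f ⟨a, h1, h2⟩
    exact ⟨conj c • a, Submodule.smul_mem _ _ h1, fun x => by simp [h2]⟩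

theorem Sp_shift {S : Set (E →L[ℝ] ℝ)} {f : E × E → ℂ} (hf : f ∈ Sp S) (y : E) :
    ∃ g ∈ Sp S, ∀ x, g (x, 0) = f (x, y) := by
  refine Sp_induction (P := fun f => ∃ g ∈ Sp S, ∀ x, g (x, 0) = f (x, y))
    (fun t ht => ⟨cexp (-(2 * π * t y)) • ef t, Submodule.smul_mem _ _ (ef_mem ht), fun x => ?_⟩)
    ⟨0, Submodule.zero_mem _, by simp⟩ ?_ ?_ hf
  · simp [ef, mul_comm]
  · rintro f g ⟨a, h1, h2⟩ ⟨b, h3, h4⟩
    exact ⟨a + b, Submodule.add_mem _ h1 h3, fun x => by simp [h2, h4]⟩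
  · rintro c f ⟨a, h1, h2⟩
    exact ⟨c • a, Submodule.smul_mem _ _ h1, fun x => by simp [h2]⟩

theorem Sp_normSq {S : Set (E →L[ℝ] ℝ)} {f : E × E → ℂ} (hf : f ∈ Sp S) :
    ∃ g ∈ Sp (univ : Set (E →L[ℝ] ℝ)), ∀ x, g (x, 0) = (‖f (x, 0)‖ ^ 2 : ℝ) := by
  obtain ⟨g, h1, h2⟩ := Sp_conj hf
  exact ⟨f * g, Sp_mul_univ (Sp_univ hf) h1, fun x => by
    simp [h2, Complex.mul_conj, Complex.normSq_eq_norm_sq]⟩

theorem Sp_poly {S : Set (E →L[ℝ] ℝ)} (h0 : 0 ∈ S) (hS : ∀ s ∈ S, ∀ t ∈ S, s + t ∈ S)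
    {f : E × E → ℂ} (hf : f ∈ Sp S) (p : Polynomial ℂ) : (fun w => p.eval (f w)) ∈ Sp S := by
  induction p using Polynomial.induction_on with
  | C a => simpa using Sp_const h0 a
  | add p q hp hq =>
    simp only [Polynomial.eval_add]
    exact Submodule.add_mem _ hp hq
  | monomial n a h =>
    have := Sp_mul hS h hf
    convert this using 1
    funext w
    simp [pow_succ, mul_assoc]

theorem Sp_exp {S : Set (E →L[ℝ] ℝ)} (h0 : 0 ∈ S) (hS : ∀ s ∈ S, ∀ t ∈ S, s + t ∈ S)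
    {f : E × E → ℂ} (hf : f ∈ Sp S) (R : ℝ) {ε : ℝ} (hε : 0 < ε) :
    ∃ g ∈ Sp S, ∀ w, ‖f w‖ ≤ R → ‖g w - cexp (f w)‖ ≤ ε := by
  have h1 := (NormedSpace.exp_hasFPowerSeriesOnBall (𝕂 := ℂ) (𝔸 := ℂ)).tendstoUniformlyOn'
    (r' := ⟨|R| + 1, by positivity⟩) (by simp)
  obtain ⟨N, hN⟩ := (Metric.tendstoUniformlyOn_iff.1 h1 ε hε).exists
  refine ⟨_, Sp_poly h0 hS hf (∑ k ∈ Finset.range N, Polynomial.monomial k (k.factorial : ℂ)⁻¹),
    fun w hw => ?_⟩
  have := hN (f w) (by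
    rw [mem_ball_zero_iff]
    change _ < |R| + 1
    linarith [le_abs_self R])
  rw [dist_comm, dist_eq_norm, ← Complex.exp_eq_exp_ℂ] at this
  refine le_trans (le_of_eq ?_) this.le
  congr 2
  simp only [FormalMultilinearSeries.partialSum, NormedSpace.expSeries_apply_eq,
    Polynomial.eval_finsetSum, Polynomial.eval_monomial, sub_zero, smul_eq_mul]

theorem ef_line (t : E →L[ℝ] ℝ) (x ω : E) (ζ : ℂ) :
    ef t (x + ζ.re • ω, ζ.im • ω) = e1 (t x : ℝ) * cexp (2 * π * I * t ω * ζ) := by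
  simp only [ef, e1_coe, ← Complex.exp_add, map_add, map_smul, smul_eq_mul]
  congr 1
  conv_rhs => rw [← re_add_im ζ]
  push_cast
  linear_combination (-(2 * π * t ω * ζ.im) : ℂ) * I_mul_I

theorem Sp_line {S : Set (E →L[ℝ] ℝ)} {f : E × E → ℂ} (hf : f ∈ Sp S) (x ω : E) :
    Differentiable ℂ fun ζ : ℂ => f (x + ζ.re • ω, ζ.im • ω) := by
  refine Sp_induction (P := fun f => Differentiable ℂ fun ζ : ℂ => f (x + ζ.re • ω, ζ.im • ω))
    (fun t _ => ?_) (differentiable_const _) (fun f g hf hg => hf.add hg)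
    (fun c f hf => hf.const_smul c) hf
  simp only [ef_line]
  fun_prop

theorem Sp_intg {S : Set (E →L[ℝ] ℝ)} {f : E × E → ℂ} (hf : f ∈ Sp S) (K : Measure ℝ)
    [IsProbabilityMeasure K] (x ω y : E) : Integrable (fun s : ℝ => f (x + s • ω, y)) K := by
  obtain ⟨C, hC⟩ := (Sp_BU hf y).2
  have := (Sp_BU hf y).cont
  exact (integrable_const C).mono' (Continuous.aestronglyMeasurable
    (this.comp (f := fun s : ℝ => x + s • ω) (by fun_prop))) (Eventually.of_forall fun u => hC _)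

theorem int_ef (t : E →L[ℝ] ℝ) (K : Measure ℝ) (x ω : E) :
    ∫ s, ef t (x + s • ω, 0) ∂K = e1 (t x : ℝ) * ∫ s, e1 (t ω * s : ℝ) ∂K := by
  rw [← integral_const_mul]
  congr 1
  funext s
  simp [ef, e1_add, mul_comm]

/-- Analytic completion along a direction. -/
theorem Sp_split {K : Measure ℝ} [IsProbabilityMeasure K]
    (hK : ∀ ξ : ℝ, ∫ s, e1 (ξ * s : ℝ) ∂K = cexp (-(2 * π * (|ξ| : ℝ)))) {g : E × E → ℂ}
    (hg : g ∈ Sp univ) (ω : E) : ∃ h ∈ Sp {t : E →L[ℝ] ℝ | 0 ≤ t ω}, ∀ x, ∀ y : ℝ, 0 ≤ y →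
      (h (x, y • ω)).re = ∫ s, (g (x + s • y • ω, 0)).re ∂K := by
  have key : g ∈ Sp univ ∧ ∃ h ∈ Sp {t : E →L[ℝ] ℝ | 0 ≤ t ω}, ∃ k ∈ Sp {t : E →L[ℝ] ℝ | 0 ≤ t ω},
      ∀ x, ∀ y : ℝ, 0 ≤ y →
        ∫ s, g (x + s • y • ω, 0) ∂K = h (x, y • ω) + conj (k (x, y • ω)) := by
    refine Sp_induction (P := fun g => g ∈ Sp univ ∧ ∃ h ∈ Sp {t : E →L[ℝ] ℝ | 0 ≤ t ω},
      ∃ k ∈ Sp {t : E →L[ℝ] ℝ | 0 ≤ t ω}, ∀ x, ∀ y : ℝ, 0 ≤ y →
        ∫ s, g (x + s • y • ω, 0) ∂K = h (x, y • ω) + conj (k (x, y • ω))) ?_ ?_ ?_ ?_ hg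
    · intro t ht
      refine ⟨ef_mem ht, ?_⟩
      rcases le_total 0 (t ω) with h | h
      · refine ⟨ef t, ef_mem h, 0, Submodule.zero_mem _, fun x y hy => ?_⟩
        rw [int_ef, hK, abs_of_nonneg (by rw [map_smul]; exact mul_nonneg hy h)]
        simp [ef]
      · refine ⟨0, Submodule.zero_mem _, ef (-t), ef_mem (by simpa using h), fun x y hy => ?_⟩
        rw [int_ef, hK, abs_of_nonpos (by rw [map_smul]; exact mul_nonpos_of_nonneg_of_nonpos hy h)]
        simp only [ef, Pi.zero_apply, zero_add, map_mul, _root_.neg_apply, conj_e1, neg_neg,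
          ← Complex.exp_conj]
        simp [map_ofNat]
    · exact ⟨Submodule.zero_mem _, 0, Submodule.zero_mem _, 0, Submodule.zero_mem _, by simp⟩
    · rintro f g ⟨m1, a, h1, b, h2, h3⟩ ⟨m2, c, k1, d, k2, k3⟩
      refine ⟨Submodule.add_mem _ m1 m2, a + c, Submodule.add_mem _ h1 k1, b + d,
        Submodule.add_mem _ h2 k2, fun x y hy => ?_⟩
      simp only [Pi.add_apply]
      rw [integral_add (Sp_intg m1 K _ _ _) (Sp_intg m2 K _ _ _), h3 x y hy, k3 x y hy, map_add]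
      ring
    · rintro c f ⟨m1, a, h1, b, h2, h3⟩
      refine ⟨Submodule.smul_mem _ _ m1, c • a, Submodule.smul_mem _ _ h1, conj c • b,
        Submodule.smul_mem _ _ h2, fun x y hy => ?_⟩
      simp only [Pi.smul_apply, smul_eq_mul]
      rw [integral_const_mul, h3 x y hy, map_mul, conj_conj]
      ring
  obtain ⟨-, h, h1, k, h2, h3⟩ := key
  refine ⟨h + k, Submodule.add_mem _ h1 h2, fun x y hy => ?_⟩
  have := integral_re (𝕜 := ℂ) (Sp_intg hg K x (y • ω) 0)
  simp only [RCLike.re_to_complex] at this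
  rw [this, h3 x y hy]
  simp

/-- Band limited smoothing along a direction. -/
theorem Sp_smooth {ψ : Measure ℝ} [IsProbabilityMeasure ψ] {a : ℝ}
    (hψ : ∀ ξ : ℝ, a ≤ |ξ| → ∫ s, e1 (ξ * s : ℝ) ∂ψ = 0) {f : E × E → ℂ} (hf : f ∈ Sp univ)
    (ω : E) : ∃ u ∈ Sp {t : E →L[ℝ] ℝ | |t ω| ≤ a}, ∀ x, u (x, 0) = ∫ s, f (x + s • ω, 0) ∂ψ := by
  refine (Sp_induction (P := fun f => f ∈ Sp univ ∧ ∃ u ∈ Sp {t : E →L[ℝ] ℝ | |t ω| ≤ a},
    ∀ x, u (x, 0) = ∫ s, f (x + s • ω, 0) ∂ψ) ?_ ?_ ?_ ?_ hf).2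
  · intro t ht
    refine ⟨ef_mem ht, ?_⟩
    rcases le_total a |t ω| with h | h
    · exact ⟨0, Submodule.zero_mem _, fun x => by rw [int_ef, hψ _ h]; simp⟩
    · refine ⟨(∫ s, e1 (t ω * s : ℝ) ∂ψ) • ef t, Submodule.smul_mem _ _ (ef_mem h), fun x => ?_⟩
      rw [int_ef]
      simp [ef, mul_comm]
  · exact ⟨Submodule.zero_mem _, 0, Submodule.zero_mem _, by simp⟩
  · rintro f g ⟨m1, a, h1, h3⟩ ⟨m2, c, k1, k3⟩
    refine ⟨Submodule.add_mem _ m1 m2, a + c, Submodule.add_mem _ h1 k1, fun x => ?_⟩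
    simp only [Pi.add_apply]
    rw [integral_add (Sp_intg m1 ψ _ _ _) (Sp_intg m2 ψ _ _ _), h3 x, k3 x]
  · rintro c f ⟨m1, a, h1, h3⟩
    refine ⟨Submodule.smul_mem _ _ m1, c • a, Submodule.smul_mem _ _ h1, fun x => ?_⟩
    simp only [Pi.smul_apply, smul_eq_mul]
    rw [integral_const_mul, h3 x]

/-- A weak form of Bernstein's inequality. -/
theorem Sp_bern {a : ℝ} (ha : 0 < a) (ha1 : a < 1) {ω : E} {u : E × E → ℂ}
    (hu : u ∈ Sp {t : E →L[ℝ] ℝ | |t ω| ≤ a}) (h2 : ∀ x, ‖u (x, 0)‖ ≤ 2) (x : E) :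
    ‖u (x, ω) - u (x, 0)‖ ≤ (2 * Real.exp (2 * π) + 3) * a := by
  have h := Complex.dist_le_div_mul_dist_of_mapsTo_ball
    (f := fun ζ : ℂ => u (x + ζ.re • ω, ζ.im • ω)) (c := 0) (R₁ := a⁻¹)
    (R₂ := 2 * Real.exp (2 * π) + 3) (z := I) (Sp_line hu x ω).differentiableOn
    (fun ζ hζ => ?_) (by simpa using (one_lt_inv₀ ha).2 ha1)
  · simpa [dist_eq_norm] using h
  · have h3 := Sp_sup hu (y := ζ.im • ω) (A := -1) (fun t ht => by
      have h4 : |ζ.im| ≤ a⁻¹ := (Complex.abs_im_le_norm ζ).trans (mem_ball_zero_iff.1 hζ).le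
      have h5 := mul_le_mul h4 (show |t ω| ≤ a from ht) (abs_nonneg _) (by positivity)
      rw [inv_mul_cancel₀ ha.ne', ← abs_mul] at h5
      rw [map_smul, smul_eq_mul]
      exact (abs_le.1 h5).1) h2 (x + ζ.re • ω)
    have h4 := h2 x
    simp only [Metric.mem_closedBall, dist_eq_norm, zero_re, zero_im, zero_smul, add_zero]
    refine (norm_sub_le _ _).trans ?_
    simp only [mul_neg, mul_one, neg_neg] at h3
    linarith

end

end Pool.Agent.Lib.MP_730078_an.G.H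
end

-- part Pool.Agent.Lib.MP_730078_an.HOuter
section

open MeasureTheory Set Filter Topology Complex ComplexConjugate
open scoped ENNReal Real

namespace Pool.Agent.Lib.MP_730078_an.G.H

noncomputable section

/-- The logarithmic potential of the disc. -/
def Ps (z : ℂ) : ℝ := -Real.log (1 - ‖z‖ ^ 2)

theorem one_sub_pos {z : ℂ} (h : ‖z‖ < 1) : 0 < 1 - ‖z‖ ^ 2 := by nlinarith [norm_nonneg z]

theorem sq_le_Ps {z : ℂ} (h : ‖z‖ < 1) : ‖z‖ ^ 2 ≤ Ps z := by
  have := Real.log_le_sub_one_of_pos (one_sub_pos h)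
  unfold Ps
  linarith

theorem Ps_nonneg {z : ℂ} (h : ‖z‖ < 1) : 0 ≤ Ps z := (sq_nonneg _).trans (sq_le_Ps h)

@[simp] theorem Ps_zero : Ps 0 = 0 := by simp [Ps]

theorem exp_Ps {z : ℂ} (h : ‖z‖ < 1) : Real.exp (-Ps z) = 1 - ‖z‖ ^ 2 := by
  rw [Ps, neg_neg, Real.exp_log (one_sub_pos h)]

theorem Ps_step {p d : ℂ} {a : ℝ} (hp : ‖p‖ < 1) (ha : 0 ≤ a) (ha' : a ≤ 1 / 20)
    (hd : ‖d‖ ≤ a * (1 - ‖p‖ ^ 2)) :
    Ps (p + d) ≤ Ps p + (2 * conj p * d / (1 - ‖p‖ ^ 2 : ℝ)).re + 19 * a ^ 2 ∧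
      Ps (p + d) ≤ Ps p + 4 * a := by
  have h0 := one_sub_pos hp
  have hp0 := norm_nonneg p
  have hd0 := norm_nonneg d
  set m := 1 - ‖p‖ ^ 2 with hm
  have hm1 : m ≤ 1 := by nlinarith
  set r := (2 * conj p * d / (m : ℝ)).re with hr
  have e1 : r * m = 2 * (conj p * d).re := by
    rw [hr, Complex.div_ofReal_re, mul_assoc]
    field_simp
    simp only [mul_re, re_ofNat, im_ofNat, mul_im, conj_re, conj_im]
    ring
  have e2 : ‖p + d‖ ^ 2 = ‖p‖ ^ 2 + ‖d‖ ^ 2 + 2 * (conj p * d).re := by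
    simp only [Complex.sq_norm, Complex.normSq_apply, add_re, add_im, mul_re, conj_re, conj_im]
    ring
  have h1 : |(conj p * d).re| ≤ a * m := by
    refine (Complex.abs_re_le_norm _).trans ?_
    rw [norm_mul, Complex.norm_conj]
    nlinarith
  have h2 : |r| ≤ 2 * a := by
    have : |r| * m ≤ 2 * a * m := by
      rw [← abs_of_pos h0, ← abs_mul, e1, abs_mul, abs_of_pos h0, abs_two]
      linarith
    exact le_of_mul_le_mul_right this h0
  obtain ⟨s, hs0, hs1, hs⟩ : ∃ s, 0 ≤ s ∧ s ≤ a ^ 2 ∧ ‖d‖ ^ 2 = s * m := by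
    refine ⟨‖d‖ ^ 2 / m, by positivity, ?_, by field_simp⟩
    rw [div_le_iff₀ h0]
    have : ‖d‖ ^ 2 ≤ (a * m) ^ 2 := by gcongr
    nlinarith [mul_nonneg (sq_nonneg a) (mul_nonneg h0.le (sub_nonneg.2 hm1))]
  obtain ⟨h3, h4⟩ := abs_le.1 h2
  have e3 : 1 - ‖p + d‖ ^ 2 = m * (1 - (r + s)) := by rw [e2, hs, ← e1]; ring
  have h5 : r + s ≤ 3 * a := by nlinarith
  have h6 : 0 < 1 - (r + s) := by linarith
  have h7 : -Real.log (1 - (r + s)) ≤ (r + s) + 2 * (r + s) ^ 2 := by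
    have := Real.log_le_sub_one_of_pos (inv_pos.2 h6)
    rw [Real.log_inv] at this
    refine this.trans ?_
    rw [sub_le_iff_le_add, inv_le_iff_one_le_mul₀ h6]
    nlinarith [mul_nonneg (sq_nonneg (r + s)) (show 0 ≤ 1 - 2 * (r + s) by linarith)]
  have h8 : (r + s) ^ 2 ≤ (3 * a) ^ 2 := sq_le_sq' (by linarith) h5
  have e4 : Ps (p + d) = Ps p - Real.log (1 - (r + s)) := by
    rw [Ps, e3, Real.log_mul h0.ne' h6.ne', Ps]
    ring
  constructor <;> nlinarith

theorem norm_step {p d : ℂ} {a : ℝ} (ha : 0 ≤ a)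
    (hd : ‖d‖ ≤ a * (1 - ‖p‖ ^ 2)) : (1 - ‖p‖) * (1 - 2 * a) ≤ 1 - ‖p + d‖ := by
  have h := norm_add_le p d
  nlinarith [mul_nonneg ha (sq_nonneg (1 - ‖p‖))]

theorem exp_sub_one_le {ζ : ℂ} (h : ζ.re ≤ 0) : ‖cexp ζ - 1‖ ≤ 2 * ‖ζ‖ := by
  rcases le_total ‖ζ‖ 1 with h1 | h1
  · exact Complex.norm_exp_sub_one_le h1
  · have := norm_sub_le (cexp ζ) 1
    rw [Complex.norm_exp, norm_one] at this
    linarith [Real.exp_le_one_iff.2 h]

section

variable {E : Type*} [NormedAddCommGroup E]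

/-- The boundary values stay in a compact part of the disc. -/
def Lt1 (f : E × E → ℂ) : Prop := ∃ τ : ℝ, τ < 1 ∧ ∀ x, ‖f (x, 0)‖ ≤ τ

theorem Lt1.lt {f : E × E → ℂ} (h : Lt1 f) (x : E) : ‖f (x, 0)‖ < 1 :=
  let ⟨_, h1, h2⟩ := h
  (h2 x).trans_lt h1

variable [NormedSpace ℝ E]

theorem Lt1.BU_comp {S : Set (E →L[ℝ] ℝ)} {f : E × E → ℂ} (hf : f ∈ Sp S) (h : Lt1 f)
    {F : Type*} [NormedAddCommGroup F] {φ : ℂ × ℝ → F}
    (hφ : ContinuousOn φ (univ ×ˢ Ioi 0)) : BU fun x => φ (f (x, 0), 1 - ‖f (x, 0)‖ ^ 2) := by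
  obtain ⟨τ, h1, h2⟩ := h
  have h0 : 0 ≤ τ := (norm_nonneg _).trans (h2 0)
  have h3 : 0 < 1 - τ ^ 2 := by nlinarith
  have := (Sp_BU hf 0).comp (φ := fun z => φ (z, max (1 - ‖z‖ ^ 2) (1 - τ ^ 2)))
    (hφ.comp_continuous (by fun_prop) fun z => ⟨mem_univ _, lt_max_of_lt_right h3⟩)
  convert this using 4 with x
  exact (max_eq_left (by nlinarith [h2 x, norm_nonneg (f (x, 0))])).symm

theorem Lt1.BU {S : Set (E →L[ℝ] ℝ)} {f : E × E → ℂ} (hf : f ∈ Sp S) (h : Lt1 f) :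
    BU fun x => Ps (f (x, 0)) :=
  h.BU_comp hf (φ := fun q => -Real.log q.2)
    ((Real.continuousOn_log.comp continuousOn_snd fun _ hq => ne_of_gt (mem_prod.1 hq).2).neg)

theorem Sp_Ps {P : E × E → ℂ} (hP : P ∈ Sp univ) (h : Lt1 P) {ε : ℝ} (hε : 0 < ε) :
    ∃ g ∈ Sp (univ : Set (E →L[ℝ] ℝ)), ∀ x, Ps (P (x, 0)) ≤ (g (x, 0)).re ∧
      (g (x, 0)).re ≤ Ps (P (x, 0)) + ε := by
  obtain ⟨τ, h1, h2⟩ := h
  have h0 : 0 ≤ τ := (norm_nonneg _).trans (h2 0)
  obtain ⟨p, hp⟩ := exists_polynomial_near_of_continuousOn 0 (τ ^ 2)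
    (fun u => -Real.log (1 - u) + ε / 2) (((Real.continuousOn_log.comp (by fun_prop)
      fun u hu => (by nlinarith [hu.2] : (0 : ℝ) < 1 - u).ne').neg).add continuousOn_const)
    (ε / 2) (half_pos hε)
  obtain ⟨q, hq, hq'⟩ := Sp_normSq hP
  refine ⟨_, Sp_poly (mem_univ _) (fun _ _ _ _ => mem_univ _) hq (p.map (algebraMap ℝ ℂ)),
    fun x => ?_⟩
  have h3 := abs_lt.1 (hp (‖P (x, 0)‖ ^ 2) ⟨by positivity, by gcongr; exact h2 x⟩)
  have e : Polynomial.eval (q (x, 0)) (p.map (algebraMap ℝ ℂ)) =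
      (p.eval (‖P (x, 0)‖ ^ 2) : ℝ) := by
    rw [hq', ← Complex.coe_algebraMap, Polynomial.eval_map_algebraMap,
      Polynomial.aeval_algebraMap_apply]
    simp
  simp only [e, ofReal_re, Ps]
  constructor <;> linarith [h3.1, h3.2]

/-- Consequences of the Borel–Carathéodory inequality along a direction. -/
theorem bc {ω : E} {S : Set (E →L[ℝ] ℝ)} {h : E × E → ℂ} (hh : h ∈ Sp S)
    (h0 : ∀ x, ∀ y : ℝ, 0 ≤ y → 0 ≤ (h (x, y • ω)).re) {L M : ℝ} (hL : 1 ≤ L) {x : E}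
    (hM : (h (x, (2 * L) • ω)).re < M) {r : ℝ} (hr : |r| ≤ L) :
    ‖-h (x, ω) + I * (h (x + r • ω, (2 * L) • ω)).im‖ ≤ 8 * L * M := by
  have hM0 : 0 < M := (h0 x _ (by linarith)).trans_lt hM
  let f : ℂ → ℂ := fun ζ => h (x + ζ.re • ω, ζ.im • ω)
  have hf : Differentiable ℂ f := Sp_line hh x ω
  have key : ∀ z : ℂ, ‖z‖ < 2 * L →
      ‖f (2 * L * I) - f (2 * L * I + z)‖ ≤ 2 * M * ‖z‖ / (2 * L - ‖z‖) := by
    intro z hz
    refine Complex.borelCaratheodory_zero (f := fun z => f (2 * L * I) - f (2 * L * I + z)) hM0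
      (by fun_prop) (fun ζ hζ => ?_) (by linarith) (mem_ball_zero_iff.2 hz) (by simp)
    have h1 : 0 ≤ (f (2 * L * I + ζ)).re := h0 _ _ (by
      have := (abs_le.1 ((Complex.abs_im_le_norm ζ).trans (mem_ball_zero_iff.1 hζ).le)).1
      simp only [add_im, mul_im, mul_re, re_ofNat, ofReal_re, im_ofNat, ofReal_im, I_re, I_im]
      linarith)
    have h2 : f (2 * L * I) = h (x, (2 * L) • ω) := by simp [f]
    simp only [mem_ofPred_eq, sub_re, h2]
    linarith
  have e0 : f (2 * L * I) = h (x, (2 * L) • ω) := by simp [f]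
  have k1 := key (((1 - 2 * L : ℝ) : ℂ) * I) (by
    rw [norm_mul, norm_I, Complex.norm_real, Real.norm_of_nonpos (by linarith)]; linarith)
  have k2 := key r (by rw [Complex.norm_real, Real.norm_eq_abs]; linarith)
  have e1 : f (2 * L * I + ((1 - 2 * L : ℝ) : ℂ) * I) = h (x, ω) := by simp [f]
  have e2 : f (2 * L * I + r) = h (x + r • ω, (2 * L) • ω) := by simp [f]
  rw [e0, e1, norm_mul, norm_I, Complex.norm_real, Real.norm_of_nonpos (by linarith),
    show 2 * L - -(1 - 2 * L) * 1 = 1 by ring, div_one] at k1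
  rw [e0, e2, Complex.norm_real, Real.norm_eq_abs] at k2
  have k3 : 2 * M * |r| / (2 * L - |r|) ≤ 2 * M := by
    rw [div_le_iff₀ (by linarith)]
    nlinarith
  have k4 := h0 x (2 * L) (by linarith)
  generalize h (x, (2 * L) • ω) = a at *
  generalize h (x, ω) = b at *
  generalize h (x + r • ω, (2 * L) • ω) = c at *
  have e : -b + I * c.im = (a - b) - a.re - I * (a - c).im := by
    apply Complex.ext
    · simp
    · simp; ring
  have k5 : ‖I * (a - c).im‖ ≤ 2 * M := by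
    rw [norm_mul, norm_I, one_mul, Complex.norm_real]
    exact (Complex.abs_im_le_norm _).trans (k2.trans k3)
  rw [e]
  refine (norm_sub_le_of_le (norm_sub_le_of_le k1 (le_refl _)) k5).trans ?_
  rw [Complex.norm_real, Real.norm_of_nonneg k4]
  nlinarith

end

/-- Existence of directional outer multipliers. -/
def Outer (E : Type*) [NormedAddCommGroup E] [NormedSpace ℝ E] (K : Measure ℝ) (C : ℝ) : Prop :=
  ∀ P ∈ Sp (univ : Set (E →L[ℝ] ℝ)), Lt1 P → ∀ ω : E,
    ∃ κ ∈ Sp {t : E →L[ℝ] ℝ | -(1 / 10) ≤ t ω}, ∀ x, ‖κ (x, 0)‖ ≤ 1 - ‖P (x, 0)‖ ^ 2 ∧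
      ‖κ (x, ω) - 1‖ ≤ 1 / 40 + C * ∫ s, Ps (P (x + s • ω, 0)) ∂K

theorem exists_outer : ∃ (K : Measure ℝ) (C : ℝ), IsProbabilityMeasure K ∧ 1 ≤ C ∧
    ∀ (E : Type) [NormedAddCommGroup E] [NormedSpace ℝ E], Outer E K C := by
  obtain ⟨K, hK, hK'⟩ := exists_cauchy
  have hq : 0 < 2 * Real.exp (2 * π) + 3 := by positivity
  obtain ⟨a, ha, ha1, ha2⟩ : ∃ a : ℝ, 0 < a ∧ a ≤ 1 / 10 ∧
      (2 * Real.exp (2 * π) + 3) * a ≤ 1 / 200 :=
    ⟨1 / 200 / (2 * Real.exp (2 * π) + 3), by positivity,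
      by rw [div_le_iff₀ hq]; linarith [Real.exp_pos (2 * π)], by field_simp; rfl⟩
  obtain ⟨ψ, hψ, hψ'⟩ := exists_fejer ha
  obtain ⟨L, hL, hL'⟩ := tail ψ (ε := 1 / 400) (by norm_num)
  refine ⟨K.map fun s => s * (2 * L), 16 * L, Measure.isProbabilityMeasure_map (by fun_prop),
    by linarith, fun E _ _ P hP h1 ω => ?_⟩
  obtain ⟨ε, hε, hε1, hε2⟩ : ∃ ε : ℝ, 0 < ε ∧ ε ≤ 1 / 10000 ∧ L * ε ≤ 1 / 10000 :=
    ⟨1 / 10000 / L, by positivity, div_le_self (by norm_num) hL, by field_simp; rfl⟩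
  have bP := h1.BU hP
  obtain ⟨g, hg, hg'⟩ := Sp_Ps hP h1 hε
  obtain ⟨h, hh, hh'⟩ := Sp_split hK' hg ω
  have h0 : ∀ x, ∀ y : ℝ, 0 ≤ y → 0 ≤ (h (x, y • ω)).re := fun x y hy => by
    rw [hh' x y hy]
    exact integral_nonneg fun s => (Ps_nonneg (h1.lt _)).trans (hg' _).1
  have h00 : ∀ x, Ps (P (x, 0)) ≤ (h (x, 0)).re := fun x => by
    have := hh' x 0 le_rfl
    simp only [zero_smul, smul_zero, add_zero, integral_const, probReal_univ, one_smul] at this
    exact this ▸ (hg' x).1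
  obtain ⟨τ, hτ, hτ'⟩ := id h1
  have hτ0 : 0 ≤ τ := (norm_nonneg _).trans (hτ' 0)
  have hτ1 : 0 < 1 - τ ^ 2 := by nlinarith
  obtain ⟨R0, hR0⟩ := (Sp_BU hh 0).2
  obtain ⟨R1, hR1⟩ := (Sp_BU hh ω).2
  obtain ⟨R2, hR2⟩ := (Sp_BU hh ((2 * L) • ω)).2
  obtain ⟨O, hO, hO'⟩ := Sp_exp (S := {t : E →L[ℝ] ℝ | 0 ≤ t ω}) (by simp)
    (fun s hs t ht => add_nonneg (show 0 ≤ s ω from hs) (show 0 ≤ t ω from ht)) (Submodule.neg_mem _ hh) (max R0 R1) (mul_pos hε hτ1)
  obtain ⟨b, hb, hb'⟩ := Sp_shift hh ((2 * L) • ω)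
  obtain ⟨c, hc, hc'⟩ := Sp_conj hb
  have hbc : ∀ x, ((1 / 2 : ℂ) • (b - c)) (x, 0) = I * (h (x, (2 * L) • ω)).im := fun x => by
    simp only [Pi.smul_apply, Pi.sub_apply, hc', hb', Complex.sub_conj, smul_eq_mul]
    push_cast
    ring
  obtain ⟨f, hf, hf'⟩ := Sp_exp (mem_univ _) (fun _ _ _ _ => mem_univ _)
    (Submodule.smul_mem _ (1 / 2 : ℂ) (Submodule.sub_mem _ (Sp_univ hb) hc)) R2 hε
  replace hf' : ∀ x, ‖f (x, 0) - cexp (I * (h (x, (2 * L) • ω)).im)‖ ≤ ε := fun x => by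
    rw [← hbc]
    refine hf' _ ?_
    rw [hbc, norm_mul, norm_I, one_mul, Complex.norm_real]
    exact (Complex.abs_im_le_norm _).trans (hR2 x)
  have n1 : ∀ r : ℝ, ‖cexp (I * r)‖ = 1 := fun r => by rw [mul_comm, Complex.norm_exp_ofReal_mul_I]
  have hf1 : ∀ x, ‖f (x, 0)‖ ≤ 1 + ε := fun x => by
    linarith [norm_sub_norm_le (f (x, 0)) (cexp (I * (h (x, (2 * L) • ω)).im)), hf' x,
      n1 (h (x, (2 * L) • ω)).im]
  obtain ⟨u, hu, hu'⟩ := Sp_smooth hψ' hf ω
  have hu1 : ∀ x, ‖u (x, 0)‖ ≤ 1 + ε := fun x => by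
    rw [hu']
    simpa using norm_integral_le_of_norm_le_const (μ := ψ) (Eventually.of_forall fun s => hf1 _)
  have hu2 := fun x => (Sp_bern ha (by linarith) hu (fun x => by linarith [hu1 x]) x).trans ha2
  refine ⟨((1 - 3 * ε : ℝ) : ℂ) • (O * u), Submodule.smul_mem _ _ (Sp_mul (fun s hs t ht => ?_)
    hO hu), fun x => ⟨?_, ?_⟩⟩
  · have h2 : 0 ≤ s ω := hs
    have h3 := (abs_le.1 (show |t ω| ≤ a from ht)).1
    simp only [mem_ofPred_eq, _root_.add_apply]
    linarith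
  · have h2 := hO' (x, 0) (by simpa using Or.inl (hR0 x))
    have h3 : ‖cexp ((-h) (x, 0))‖ ≤ 1 - ‖P (x, 0)‖ ^ 2 := by
      rw [Complex.norm_exp, ← exp_Ps (h1.lt x)]
      simpa using h00 x
    have h4 : 1 - τ ^ 2 ≤ 1 - ‖P (x, 0)‖ ^ 2 := by gcongr; exact hτ' x
    have h5 : ‖O (x, 0)‖ ≤ (1 + ε) * (1 - ‖P (x, 0)‖ ^ 2) := by
      nlinarith [norm_sub_norm_le (O (x, 0)) (cexp ((-h) (x, 0)))]
    have h6 := mul_le_mul h5 (hu1 x) (norm_nonneg _) (by nlinarith)
    rw [Pi.smul_apply, norm_smul, Complex.norm_real, Real.norm_of_nonneg (by linarith),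
      Pi.mul_apply, norm_mul]
    refine (mul_le_mul_of_nonneg_left h6 (by linarith)).trans ?_
    have h7 : (1 - 3 * ε) * ((1 + ε) * (1 + ε)) ≤ 1 := by nlinarith [mul_pos hε hε]
    nlinarith
  · rw [integral_map (f := fun s : ℝ => Ps (P (x + s • ω, 0))) (by fun_prop)
      (Continuous.aestronglyMeasurable
      (bP.cont.comp (f := fun s : ℝ => x + s • ω) (by fun_prop)))]
    simp only [mul_smul _ (2 * L)]
    have i1 : Integrable (fun s : ℝ => Ps (P (x + s • (2 * L) • ω, 0))) K := by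
      obtain ⟨C, hC⟩ := bP.2
      exact (integrable_const C).mono' (Continuous.aestronglyMeasurable (bP.cont.comp
        (f := fun s : ℝ => x + s • (2 * L) • ω) (by fun_prop))) (Eventually.of_forall fun u => hC _)
    have h2 : (h (x, (2 * L) • ω)).re ≤ ∫ s, Ps (P (x + s • (2 * L) • ω, 0)) ∂K + ε := by
      rw [hh' x _ (by linarith)]
      refine (integral_mono (Sp_intg hg K x _ 0).re (i1.add (integrable_const ε))
        fun s => (hg' _).2).trans (le_of_eq ?_)
      simp only [Pi.add_apply]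
      rw [integral_add i1 (integrable_const ε)]
      simp
    have h3 : 0 ≤ ∫ s, Ps (P (x + s • (2 * L) • ω, 0)) ∂K :=
      integral_nonneg fun s => Ps_nonneg (h1.lt _)
    generalize ∫ s, Ps (P (x + s • (2 * L) • ω, 0)) ∂K = D at *
    have h4 : 0 ≤ (h (x, ω)).re := by simpa using h0 x 1 zero_le_one
    have h5 : ‖cexp (-h (x, ω))‖ ≤ 1 := by
      rw [Complex.norm_exp]
      simpa using h4
    have h6 : ‖O (x, ω) - cexp (-h (x, ω))‖ ≤ ε :=
      (hO' (x, ω) (by simpa using Or.inr (hR1 x))).trans (by nlinarith)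
    have key : ∀ s : ℝ, ∀ B, ‖cexp (-h (x, ω) + I * (h (x + s • ω, (2 * L) • ω)).im) - 1‖ ≤ B →
        ‖cexp (-h (x, ω)) * f (x + s • ω, 0) - 1‖ ≤ B + ε := by
      intro s B hB
      rw [Complex.exp_add] at hB
      have := mul_le_mul h5 (hf' (x + s • ω)) (norm_nonneg _) zero_le_one
      rw [← norm_mul, mul_sub] at this
      linarith [norm_sub_le_norm_sub_add_norm_sub (cexp (-h (x, ω)) * f (x + s • ω, 0))
        (cexp (-h (x, ω)) * cexp (I * (h (x + s • ω, (2 * L) • ω)).im)) 1]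
    have h7 := int_tail ψ (f := fun s => cexp (-h (x, ω)) * f (x + s • ω, 0) - 1) (L := L)
      (a := 2 * (8 * L * (D + 2 * ε)) + ε) (b := 2 + ε) (by positivity)
      (fun s hs => key s _ ((exp_sub_one_le (by simpa using h4)).trans
        (mul_le_mul_of_nonneg_left (bc hh h0 hL (by linarith) hs) zero_le_two)))
      (fun s => key s _ ((norm_sub_le _ _).trans (by
        rw [Complex.exp_add, norm_mul, n1, norm_one]; linarith)))
    rw [integral_sub ((Sp_intg hf ψ x ω 0).const_mul _) (integrable_const _), integral_const_mul,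
      ← hu'] at h7
    simp only [integral_const, probReal_univ, one_smul] at h7
    have h8 := mul_le_mul_of_nonneg_left hL' (show 0 ≤ 2 + ε by positivity)
    have h9 := hu1 x
    have h10 := hu2 x
    simp only [Pi.smul_apply, Pi.mul_apply, smul_eq_mul]
    generalize O (x, ω) = o at *
    generalize cexp (-h (x, ω)) = e at *
    generalize u (x, ω) = v at *
    generalize u (x, 0) = v0 at *
    have h11 : ‖v‖ ≤ 2 := by linarith [norm_sub_norm_le v v0]
    have h12 : ‖o‖ ≤ 2 := by linarith [norm_sub_norm_le o e]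
    have e1 : ((1 - 3 * ε : ℝ) : ℂ) * (o * v) - 1 =
        (e * v0 - 1) + e * (v - v0) + (o - e) * v - ((3 * ε : ℝ) : ℂ) * (o * v) := by
      push_cast
      ring
    have k1 : ‖e * (v - v0)‖ ≤ 1 * (1 / 200) := by
      rw [norm_mul]; exact mul_le_mul h5 h10 (norm_nonneg _) zero_le_one
    have k2 : ‖(o - e) * v‖ ≤ ε * 2 := by
      rw [norm_mul]; exact mul_le_mul h6 h11 (norm_nonneg _) hε.le
    have k3 : ‖((3 * ε : ℝ) : ℂ) * (o * v)‖ ≤ 3 * ε * (2 * 2) := by
      rw [norm_mul, norm_mul, Complex.norm_real, Real.norm_of_nonneg (by positivity)]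
      exact mul_le_mul_of_nonneg_left (mul_le_mul h12 h11 (norm_nonneg _) zero_le_two)
        (by positivity)
    rw [e1]
    refine (norm_sub_le_of_le (norm_add_le_of_le (norm_add_le_of_le h7 k1) k2) k3).trans ?_
    nlinarith

end

end Pool.Agent.Lib.MP_730078_an.G.H
end
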