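import Pool.Agent.Lib.MP_730078_an.GTree1
import Pool.Agent.Lib.MP_730078_an.GDefs
import Pool.Agent.Lib.MP_730078_an.HOuter

-- part Pool.Agent.Lib.MP_730078_an.GTree2
section

open MeasureTheory Set Filter Topology Complex ComplexConjugate
open scoped ENNReal Real

namespace Pool.Agent.Lib.MP_730078_an.G

noncomputable section

variable {E : Type*} [NormedAddCommGroup E] [NormedSpace ℝ E]

/-- Frequencies which are at least `c` on `Ω` and at least `A` away from `ω`. -/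
def SS (Ω : Set E) (ω : E) (ρ A c : ℝ) : Set (E →L[ℝ] ℝ) :=
  {t | ∀ y ∈ Ω, c ≤ t y ∧ (ρ ≤ ‖y - ω‖ → A ≤ t y)}

theorem SS_mono {Ω : Set E} {ω ω' : E} {ρ ρ' A A' c c' : ℝ} (h1 : ‖ω' - ω‖ + ρ' ≤ ρ) (h2 : A ≤ A')
    (h3 : c ≤ c') : SS Ω ω' ρ' A' c' ⊆ SS Ω ω ρ A c := fun _ ht y hy =>
  ⟨h3.trans (ht y hy).1, fun h => h2.trans ((ht y hy).2 (by
    linarith [norm_sub_le_norm_sub_add_norm_sub y ω' ω]))⟩

/-- An exposed point. -/
def Exp (Ω : Set E) (ω : E) : Prop :=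
  ω ∈ Ω ∧ ∃ l : E →L[ℝ] ℝ, l ω = 0 ∧ ∀ y ∈ Ω, y ≠ ω → 0 < l y

theorem exists_partner {Ω : Set E} (hΩ : IsCompact Ω) {e : E →L[ℝ] ℝ} (he : ∀ y ∈ Ω, e y = 1)
    {ω : E} (hω : Exp Ω ω) {Q : Set E} (hQ : Q ⊆ Ω)
    (hacc : ∀ r > 0, ∃ ω' ∈ Q, ω' ≠ ω ∧ ‖ω' - ω‖ ≤ r) {ρ : ℝ} (hρ : 0 < ρ) (A : ℝ) :
    ∃ ω' ∈ Q, ∃ η : E →L[ℝ] ℝ, ω' ≠ ω ∧ ‖ω' - ω‖ ≤ ρ / 2 ∧ η ω = 0 ∧ η ω' = 1 ∧
      e + η ∈ SS Ω ω ρ A 1 := by
  obtain ⟨-, l, hl0, hl⟩ := hω
  obtain ⟨m, hm0, hm⟩ : ∃ m > 0, ∀ y ∈ Ω, ρ ≤ ‖y - ω‖ → m ≤ l y := by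
    obtain ⟨m, hm0, hm⟩ := (hΩ.inter_right (isClosed_le continuous_const
      (show Continuous fun y : E => ‖y - ω‖ by fun_prop))).exists_forall_le' (f := l) (a := 0)
      l.continuous.continuousOn (fun y hy => hl y hy.1 (by
        rintro rfl
        have : ρ ≤ ‖y - y‖ := hy.2
        simp at this
        linarith))
    exact ⟨m, hm0, fun y h1 h2 => hm y ⟨h1, h2⟩⟩
  obtain ⟨ω', h1, h2, h3⟩ := hacc (min (ρ / 2) (m / ((|A| + 1) * (‖l‖ + 1)))) (by positivity)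
  have h4 := hl ω' (hQ h1) h2
  have h5 : (|A| + 1) * l ω' ≤ m := by
    have a1 : l ω' ≤ (‖l‖ + 1) * ‖ω' - ω‖ := by
      have := l.le_opNorm (ω' - ω)
      rw [map_sub, hl0, sub_zero] at this
      linarith [le_abs_self (l ω'), Real.norm_eq_abs (l ω'), norm_nonneg (ω' - ω)]
    have a2 := (le_div_iff₀ (by positivity)).1 (h3.trans (min_le_right _ _))
    nlinarith [abs_nonneg A]
  refine ⟨ω', h1, (l ω')⁻¹ • l, h2, h3.trans (min_le_left _ _), by simp [hl0],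
    by simp [h4.ne'], fun y hy => ?_⟩
  have h6 : 0 ≤ l y := by
    by_cases h : y = ω
    · rw [h, hl0]
    · exact (hl y hy h).le
  simp only [_root_.add_apply, he y hy, smul_apply, smul_eq_mul]
  refine ⟨le_add_of_nonneg_right (by positivity), fun h => ?_⟩
  have : |A| + 1 ≤ (l ω')⁻¹ * l y := by
    rw [← div_eq_inv_mul, le_div_iff₀ h4]
    exact h5.trans (hm y hy h)
  linarith [le_abs_self A]

theorem prod_mem {Ω : Set E} (hΩ : IsCompact Ω) {ω : E} {χ : E × E → ℂ}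
    (hχ : χ ∈ Sp {s : E →L[ℝ] ℝ | s ω = 0}) {c : ℝ} (hc : 0 < c) (A : ℝ) :
    ∃ A' : ℝ, ∀ᶠ ρ in 𝓝[>] (0 : ℝ), ∀ f ∈ Sp (SS Ω ω ρ A' c), χ * f ∈ Sp (SS Ω ω ρ A (c / 2)) := by
  obtain ⟨C, hC, hχ⟩ := Sp_bdd hχ
  obtain ⟨D, hD⟩ := hΩ.exists_bound_of_continuousOn (f := fun y => y - ω) (by fun_prop)
  refine ⟨max A (c / 2) + C * D, ?_⟩
  filter_upwards [Ioo_mem_nhdsGT (show 0 < c / (2 * C) by positivity)] with ρ hρ f hf
  refine Sp_mul (fun s hs t ht y hy => ?_) hχ hf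
  have h1 : -(C * ‖y - ω‖) ≤ s y := by
    have := s.le_of_opNorm_le hs.2 (y - ω)
    rw [map_sub, hs.1, sub_zero] at this
    exact (abs_le.1 this).1
  have h2 : ρ ≤ ‖y - ω‖ → max A (c / 2) ≤ s y + t y := fun h => by
    linarith [(ht y hy).2 h, mul_le_mul_of_nonneg_left (hD y hy) hC.le]
  rw [_root_.add_apply]
  refine ⟨?_, fun h => (le_max_left _ _).trans (h2 h)⟩
  rcases le_or_gt ρ ‖y - ω‖ with h | h
  · exact (le_max_right _ _).trans (h2 h)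
  · have := (lt_div_iff₀ (by positivity)).1 (h.trans hρ.2)
    linarith [(ht y hy).1]

theorem root_zero (η e : E →L[ℝ] ℝ) (x : E) :
    ef (e + η) (x, 0) = e1 ((pj η e x).2 + (pj η e x).1) := by
  simp [ef, pj]

theorem root_left {η e : E →L[ℝ] ℝ} {ω : E} (h1 : e ω = 1) (h2 : η ω = 0) (x : E) :
    (conj (e1 (e x : ℝ)) * ef (e + η) (x, ω)).re = ww * (e1 (pj η e x).1).re := by
  have h3 : conj (e1 (e x : ℝ)) * e1 (e x : ℝ) = 1 := by
    rw [mul_comm, Complex.mul_conj, Complex.normSq_eq_norm_sq, norm_e1]; simp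
  have h4 : ef (e + η) (x, ω) = e1 (e x : ℝ) * (ww * e1 (pj η e x).1) := by
    simp [ef, h1, h2, pj, ww, e1_add]; ring
  rw [h4, ← mul_assoc, h3, one_mul, re_ofReal_mul]

theorem root_right {η e : E →L[ℝ] ℝ} {ω : E} (h1 : e ω = 1) (h2 : η ω = 1) (x : E) :
    ‖ef (e + η) (x, ω)‖ = ww ^ 2 := by
  rw [norm_ef, ww, ← Real.exp_nat_mul]
  congr 1
  simp [h1, h2]; ring

/-- One branch of the recursion for the height. -/
theorem ht_branch {Ω : Set E} {ω ω' σ : E} {ρ ρ' A c c' R β : ℝ} {r χ Φ Ψ : E × E → ℂ} {x : E}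
    (u : TT) (hσ : σ ∈ Ω) (hc : 0 ≤ c) (hΦ : Φ ∈ Sp (SS Ω ω ρ A c)) (hR0 : 0 < R)
    (hR : ∀ x, ‖Φ (x, 0)‖ ≤ R) {A' : ℝ} (hΨ : Ψ ∈ Sp (SS Ω ω' ρ' A' c')) (hfar : ρ' ≤ ‖σ - ω'‖)
    (hΨ' : ∀ x, ‖Ψ (x, 0)‖ ≤ 2 * R) (hA' : 2 * R * Real.exp (-(2 * π * A')) ≤ β)
    (h1 : ‖r (x, σ) - r (x, ω)‖ ≤ β) (h2 : ‖χ (x, σ) - χ (x, ω)‖ ≤ β / R) {η : ℝ}
    (h3 : ‖χ (x, ω) - 1‖ ≤ η) (hη : η * R ≤ β) :
    (conj (e1 u) * r (x, ω)).re + (conj (e1 u) * Φ (x, σ)).re - 4 * β ≤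
      (conj (e1 u) * (r (x, σ) + χ (x, σ) * Φ (x, σ) + Ψ (x, σ))).re := by
  have k1 := re_est u (r (x, σ)) (r (x, ω)) (χ (x, σ)) (Φ (x, σ)) (Ψ (x, σ))
  have k2 := (Sp_sup hΨ (fun t ht => (ht σ hσ).2 hfar) hΨ' x).trans hA'
  have k3 : ‖Φ (x, σ)‖ ≤ R := by
    simpa using Sp_sup hΦ (A := 0) (fun t ht => hc.trans (ht σ hσ).1) hR x
  have h4 : ‖χ (x, σ) - 1‖ ≤ β / R + η :=
    (norm_sub_le_norm_sub_add_norm_sub _ _ _).trans (add_le_add h2 h3)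
  have k4 := mul_le_mul h4 k3 (norm_nonneg _) ((norm_nonneg _).trans h4)
  rw [add_mul, div_mul_cancel₀ _ hR0.ne'] at k4
  linarith

def cc : Fin 4 → DD := ![⟨1, by simp⟩, ⟨-1, by simp⟩, ⟨-I, by simp⟩, ⟨I, by simp⟩]

variable [MeasurableSpace E] [BorelSpace E] [SecondCountableTopology E]

/-- The invariant of the branching construction near the direction `ω`. -/
structure Inv (Ω : Set E) (e : E →L[ℝ] ℝ) (l : ℝ) (n : ℕ) (ω : E) (ρ A : ℝ) (Φ : E × E → ℂ)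
    (Y Z : E → ℝ) (ν : Measure E) : Prop where
  mem : Φ ∈ Sp (SS Ω ω ρ A ((1 / 2) ^ n))
  bd : ∀ x, ‖Φ (x, 0)‖ ≤ 5 ^ n
  av : Av e ρ ν
  bY : BU Y
  bZ : BU Z
  Y0 : ∀ x, 0 ≤ Y x
  Z0 : ∀ x, 0 ≤ Z x
  YZ : ∀ x, Y x ≤ n * Z x
  iZ1 : ∀ x, mn ν Z x ≤ 1 + 2 * n * l ^ 2
  iZ0 : ∀ x, 1 - 2 * n * l ^ 2 ≤ mn ν Z x
  iY : ∀ x, n / 4 ≤ mn ν Y x
  iZ2 : ∀ x, mn ν (fun x => Z x ^ 2) x ≤ 1 + n * (5 * ‖((e x : ℝ) : TT)‖ + 2 * l)
  ex : ∀ i x, mn ν (fun x => Real.exp (l * ((cc i : ℂ) * Φ (x, 0)).re)) x ≤ 1 + 10 * n * l ^ 2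
  ht : ∀ j x, 0 < Y x - j * Z x → ∃ σ ∈ Ω, ‖σ - ω‖ ≤ ρ ∧
      ww / 2 * j - 2 * ww ^ 2 * n ≤ (conj (e1 (e x : ℝ)) * Φ (x, σ)).re

omit [SecondCountableTopology E] in
theorem inv_zero {Ω : Set E} (e : E →L[ℝ] ℝ) (l : ℝ) {ω : E} (hω : ω ∈ Ω) {ρ : ℝ} (hρ : 0 < ρ)
    (A : ℝ) : Inv Ω e l 0 ω ρ A 0 (fun _ => 0) (fun _ => 1) (Measure.dirac 0) where
  mem := Submodule.zero_mem _
  bd := by simp
  av := ⟨inferInstance, by simp [hρ.le]⟩
  bY := BU.const _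
  bZ := BU.const _
  Y0 := by simp
  Z0 := by simp
  YZ := by simp
  iZ1 := by simp [mn]
  iZ0 := by simp [mn]
  iY := by simp [mn]
  iZ2 := by simp [mn]
  ex := by simp [mn]
  ht j x h := ⟨ω, hω, by simp [hρ.le], by have := ww_pos; simp at h ⊢; nlinarith⟩

omit [MeasurableSpace E] [BorelSpace E] [SecondCountableTopology E] in
theorem BU_exp {S : Set (E →L[ℝ] ℝ)} {f : E × E → ℂ} (hf : f ∈ Sp S) (l : ℝ) (c : ℂ) :
    BU fun x => Real.exp (l * (c * f (x, 0)).re) :=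
  (Sp_BU hf 0).comp (φ := fun z => Real.exp (l * (c * z).re)) (by fun_prop)

end

end Pool.Agent.Lib.MP_730078_an.G
end

-- part Pool.Agent.Lib.MP_730078_an.GTree3
section

open MeasureTheory Set Filter Topology Complex ComplexConjugate
open scoped ENNReal Real

namespace Pool.Agent.Lib.MP_730078_an.G

noncomputable section

variable {E : Type*} [NormedAddCommGroup E] [NormedSpace ℝ E] [MeasurableSpace E] [BorelSpace E]
  [SecondCountableTopology E]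

theorem exp_cut_le {l η R : ℝ} (hl0 : 0 < l) (hl : l ≤ 1 / 20) (hη : η * R ≤ l / 2) (c : DD)
    {r χ ψ P Q : ℂ} {b b' : ℝ} (b0 : 0 ≤ b) (b1 : b ≤ 1) (b0' : 0 ≤ b') (b1' : b' ≤ 1)
    (h1 : ‖χ - b‖ ≤ η) (h2 : ‖ψ - b'‖ ≤ η) (hP : ‖P‖ ≤ R) (hQ : ‖Q‖ ≤ R) :
    Real.exp (l * ((c : ℂ) * (r + χ * P + ψ * Q)).re) ≤
      (1 + 2 * l ^ 2) * (Real.exp (l * ((c : ℂ) * r).re) *
        (1 + b * (Real.exp (l * ((c : ℂ) * P).re) - 1)) *
        (1 + b' * (Real.exp (l * ((c : ℂ) * Q).re) - 1))) := by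
  have hl2 : 0 < l ^ 2 := by positivity
  have k1 := re_cut_le c h1 hP
  have k2 := re_cut_le c h2 hQ
  have k3 : l * ((c : ℂ) * (r + χ * P + ψ * Q)).re ≤ l ^ 2 +
      (l * ((c : ℂ) * r).re + b * (l * ((c : ℂ) * P).re) + b' * (l * ((c : ℂ) * Q).re)) := by
    simp only [mul_add, add_re]
    nlinarith [mul_le_mul_of_nonneg_left k1 hl0.le, mul_le_mul_of_nonneg_left k2 hl0.le]
  refine (Real.exp_le_exp.2 k3).trans ?_
  rw [Real.exp_add, Real.exp_add, Real.exp_add]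
  have k4 : Real.exp (l ^ 2) ≤ 1 + 2 * l ^ 2 := by
    have := (abs_le.1 (Real.abs_exp_sub_one_le (x := l ^ 2)
      (by rw [abs_of_pos hl2]; nlinarith))).2
    rw [abs_of_pos hl2] at this
    linarith
  have k5 := one_add_nonneg (a := l * ((c : ℂ) * P).re) b0 b1
  gcongr
  · exact exp_mul_le b0 b1
  · exact exp_mul_le b0' b1'

theorem inv_step {Ω : Set E} (hΩ : IsCompact Ω) {e : E →L[ℝ] ℝ} (he : ∀ y ∈ Ω, e y = 1) {l : ℝ}
    (hl0 : 0 < l) {n : ℕ} (hn : (n + 1) * l ≤ 1 / 20) {ω : E} (hω : Exp Ω ω) {Q : Set E}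
    (hQ : Q ⊆ Ω) (hacc : ∀ r > 0, ∃ ω' ∈ Q, ω' ≠ ω ∧ ‖ω' - ω‖ ≤ r)
    (ih : ∀ ω' ∈ insert ω Q, ∀ ρ > 0, ∀ A, ∃ Φ Y Z ν, Inv Ω e l n ω' ρ A Φ Y Z ν)
    {ρ : ℝ} (hρ : 0 < ρ) (A : ℝ) : ∃ Φ Y Z ν, Inv Ω e l (n + 1) ω ρ A Φ Y Z ν := by
  have hn0 : (0 : ℝ) ≤ n := Nat.cast_nonneg n
  have hl : l ≤ 1 / 20 := by nlinarith
  have hnl : n * l ≤ 1 / 20 := by nlinarith
  have hnl2 : n * l ^ 2 ≤ l / 20 := by nlinarith
  have hl2 : 0 < l ^ 2 := by positivity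
  have hl3 : l ^ 2 ≤ l / 20 := by nlinarith
  have hw := ww_pos
  have hβ : 0 < ww ^ 2 / 4 := by positivity
  obtain ⟨a, bp, bm, hC⟩ := exists_Cut (δ := l / 6) (by positivity) (by linarith)
  obtain ⟨ω', hω', η, hne, hd, hη0, hη1, hroot⟩ := exists_partner hΩ he hω hQ hacc hρ A
  have hd0 : 0 < ‖ω' - ω‖ := norm_pos_iff.2 (sub_ne_zero.2 hne)
  have hv : e (ω' - ω) = 0 := by rw [map_sub, he _ hω.1, he _ (hQ hω'), sub_self]
  have hv' : η (ω' - ω) = 1 := by rw [map_sub, hη0, hη1, sub_zero]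
  set R : ℝ := 5 ^ n with hR
  have hR1 : 1 ≤ R := one_le_pow₀ (by norm_num)
  have hR0 : 0 < R := by linarith
  obtain ⟨θ, hθ, hθ1, hθ2⟩ : ∃ θ > 0, θ * R ≤ ww ^ 2 / 4 ∧ θ * R ≤ l / 2 :=
    ⟨min (ww ^ 2 / 4) (l / 2) / R, by positivity,
      by rw [div_mul_cancel₀ _ hR0.ne']; exact min_le_left _ _,
      by rw [div_mul_cancel₀ _ hR0.ne']; exact min_le_right _ _⟩
  have hθ3 : θ ≤ 1 := by nlinarith
  obtain ⟨χp, hp1, hp2⟩ := exists_cut η hη0 hC.cp hθ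
  obtain ⟨χm, hm1, hm2⟩ := exists_cut (η - e) (ω := ω') (by simp [hη1, he _ (hQ hω')]) hC.cm hθ
  replace hp2 : ∀ x, ‖χp (x, 0) - bp (pj η e x).1‖ ≤ θ ∧ χp (x, ω) = χp (x, 0) := hp2
  replace hm2 : ∀ x, ‖χm (x, 0) - bm ((pj η e x).1 - (pj η e x).2)‖ ≤ θ ∧
      χm (x, ω') = χm (x, 0) := by simpa [pj] using hm2
  have two : ∀ {χ P : ℂ} {b : ℝ}, 0 ≤ b → b ≤ 1 → ‖χ - b‖ ≤ θ → ‖P‖ ≤ R → ‖χ * P‖ ≤ 2 * R := by
    intro χ P b b0 b1 h1 h2
    have := norm_sub_norm_le χ b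
    rw [Complex.norm_real, Real.norm_of_nonneg b0] at this
    rw [norm_mul]
    exact mul_le_mul (by linarith) h2 (norm_nonneg _) zero_le_two
  obtain ⟨A0, hA0, hA1⟩ : ∃ A0, A ≤ A0 ∧ 2 * R * Real.exp (-(2 * π * A0)) ≤ ww ^ 2 / 4 := by
    have h1 : Tendsto (fun s : ℝ => 2 * R * Real.exp (-(2 * π * s))) atTop (𝓝 (2 * R * 0)) :=
      (Real.tendsto_exp_neg_atTop_nhds_zero.comp
        (tendsto_id.const_mul_atTop (by positivity))).const_mul _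
    rw [mul_zero] at h1
    exact ((eventually_ge_atTop A).and (h1.eventually (eventually_le_nhds hβ))).exists
  have hc : (0 : ℝ) < (1 / 2) ^ n := by positivity
  obtain ⟨Ap, hAp⟩ := prod_mem hΩ hp1 hc A0
  obtain ⟨Am, hAm⟩ := prod_mem hΩ hm1 hc A0
  have hr := ef_mem hroot
  have hu0 : 0 ≤ 10 * n * l ^ 2 := by positivity
  obtain ⟨rA, ⟨hrA0, hrA⟩, a1, a2, a3, t1, t2, t3, t4, t5, t6⟩ :=
    ((show ∀ᶠ r in 𝓝[>] (0 : ℝ), r ∈ Ioo 0 (‖ω' - ω‖ / 2) from Ioo_mem_nhdsGT (half_pos hd0)).and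
    (hAp.and ((Sp_near' hr ω hβ).and ((Sp_near' hp1 ω (div_pos hβ hR0)).and
    ((three_lin hC η e hv hv' (s := 1) (M := 2) (ε := 2 * l ^ 2) (by simp) (by simp)
      (by positivity)).and
    ((three_lin hC η e hv hv' (s := -1) (M := 2) (ε := 2 * l ^ 2) (by simp) (by simp)
      (by positivity)).and
    ((three_lin hC η e hv hv' (s := -1) (M := 2 * (n + 1)) (by simp) (by positivity) hl2).and
    ((three_lin hC η e hv hv' (s := 1) (M := 1 + 3 * n) (by simp) (by positivity) hl2).and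
    ((three_cross hC η e hv hv' (z := 201 / 200) (by norm_num) hl2).and
    (eventually_all.2 fun i => three_exp hl0 hl hC η e hv hv' (cc i) hu0
      (by linarith))))))))))).exists
  obtain ⟨ΦA, YA, ZA, νA, hA⟩ := ih ω (mem_insert _ _) rA hrA0 Ap
  have bYZ := hA.bY.add hA.bZ
  have sq : ∀ {Z : E → ℝ}, BU Z → BU fun x => Z x ^ 2 := fun h =>
    h.comp (φ := fun s => s ^ 2) (by fun_prop)
  obtain ⟨rB, ⟨hrB0, hrB⟩, b1, b2, b3, s1, s2, s3, s4, s5, s6⟩ :=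
    ((show ∀ᶠ r in 𝓝[>] (0 : ℝ), r ∈ Ioo 0 (‖ω' - ω‖ / 2) from Ioo_mem_nhdsGT (half_pos hd0)).and
    (hAm.and ((Sp_near' hr ω' hβ).and ((Sp_near' hm1 ω' (div_pos hβ hR0)).and
    ((t1 νA hA.av ZA hA.bZ hA.Z0).and ((t2 νA hA.av ZA hA.bZ hA.Z0).and
    ((t3 νA hA.av _ bYZ fun x => add_nonneg (hA.Y0 x) (hA.Z0 x)).and
    ((t4 νA hA.av _ (sq hA.bZ) fun x => sq_nonneg _).and ((t5 νA hA.av ZA hA.bZ hA.Z0).and
    (eventually_all.2 fun i => t6 i νA hA.av _ (BU_exp hA.mem l (cc i))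
      fun x => (Real.exp_pos _).le)))))))))).exists
  obtain ⟨ΦB, YB, ZB, νB, hB⟩ := ih ω' (mem_insert_of_mem _ hω') rB hrB0 Am
  clear t1 t2 t3 t4 t5 t6 hAp hAm ih
  have mA := a1 _ hA.mem
  have mB := b1 _ hB.mem
  have nA : ∀ x, ‖(χp * ΦA) (x, 0)‖ ≤ 2 * R := fun x =>
    two (hC.p0 _) (hC.p1 _) (hp2 x).1 (hA.bd x)
  have nB : ∀ x, ‖(χm * ΦB) (x, 0)‖ ≤ 2 * R := fun x =>
    two (hC.m0 _) (hC.m1 _) (hm2 x).1 (hB.bd x)
  have hc' : (1 / 2 : ℝ) ^ (n + 1) ≤ (1 / 2) ^ n / 2 := by rw [pow_succ]; linarith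
  have hmem : ef (e + η) + χp * ΦA + χm * ΦB ∈ Sp (SS Ω ω ρ A ((1 / 2) ^ (n + 1))) :=
    Submodule.add_mem _ (Submodule.add_mem _
      (Sp_mono (SS_mono (by simp) le_rfl (pow_le_one₀ (by norm_num) (by norm_num))) hr)
      (Sp_mono (SS_mono (by simp; linarith) hA0 hc') mA))
      (Sp_mono (SS_mono (by linarith) hA0 hc') mB)
  have hav := ((av_seg (e := e) hv).conv (hA.av.conv hB.av)).mono (show _ ≤ ρ by linarith)
  have ha' : ∀ u, 0 ≤ 1 - a u := fun u => sub_nonneg.2 (hC.a1 u)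
  have hα := hC.ia
  have zA : ∀ x, mn νA ZA x ≤ 201 / 200 := fun x => by linarith [hA.iZ1 x]
  have zB : ∀ x, mn νB ZB x ≤ 201 / 200 := fun x => by linarith [hB.iZ1 x]
  have bnZ := BU_nZ hC.ca η e hA.bZ hB.bZ
  refine ⟨_, nZ a η e (fun x => YA x + ZA x) YB, nZ a η e ZA ZB, seg (ω' - ω) ∗ νA ∗ νB, hmem,
    fun x => ?_, hav, BU_nZ hC.ca η e bYZ hB.bY, bnZ, fun x => ?_, fun x => ?_, fun x => ?_,
    fun x => ?_, fun x => ?_, fun x => ?_, fun x => ?_, fun i x => ?_, fun j x hx => ?_⟩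
  · refine (norm_add_le_of_le (norm_add_le_of_le (le_of_eq (norm_ef _ _)) (nA x)) (nB x)).trans ?_
    simp only [map_zero, mul_zero, neg_zero, Real.exp_zero, pow_succ]
    linarith
  · exact add_nonneg (mul_nonneg (hC.a0 _) (add_nonneg (hA.Y0 _) (hA.Z0 _)))
      (mul_nonneg (ha' _) (hB.Y0 _))
  · exact add_nonneg (mul_nonneg (hC.a0 _) (hA.Z0 _)) (mul_nonneg (ha' _) (hB.Z0 _))
  · have h1 := mul_le_mul_of_nonneg_left (hA.YZ x) (hC.a0 (pj η e x).1)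
    have h2 := mul_le_mul_of_nonneg_left (hB.YZ x) (ha' ((pj η e x).1 - (pj η e x).2))
    have h3 := mul_nonneg (ha' ((pj η e x).1 - (pj η e x).2)) (hB.Z0 x)
    simp only [nZ]
    push_cast
    nlinarith
  · have := s1 νB hB.av ZB hB.bZ hB.Z0 x (1 + 2 * n * l ^ 2) (1 + 2 * n * l ^ 2) (by positivity)
      (by linarith) fun y _ => ⟨by linarith [zA y], by linarith [zB y], by linarith [hA.iZ1 y],
        by linarith [hB.iZ1 y]⟩
    push_cast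
    linarith
  · have := s2 νB hB.av ZB hB.bZ hB.Z0 x (1 - 2 * n * l ^ 2) (1 - 2 * n * l ^ 2) (by linarith)
      (by nlinarith) fun y _ => ⟨by linarith [zA y], by linarith [zB y], by linarith [hA.iZ0 y],
        by linarith [hB.iZ0 y]⟩
    push_cast
    linarith
  · have := s3 νB hB.av YB hB.bY hB.Y0 x (n / 4 + 199 / 200) (n / 4) (by positivity)
      (by linarith) fun y _ => by
        have k1 := hA.av.le hA.bY ((BU.const (n : ℝ)).mul hA.bZ) (x := y) fun x _ => hA.YZ x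
        have k2 := hB.av.le hB.bY ((BU.const (n : ℝ)).mul hB.bZ) (x := y) fun x _ => hB.YZ x
        rw [mn_mul] at k1 k2
        have k3 := mul_le_mul_of_nonneg_left (zA y) hn0
        have k4 := mul_le_mul_of_nonneg_left (zB y) hn0
        rw [hA.av.add hA.bY hA.bZ]
        exact ⟨by linarith [zA y], by linarith, by linarith [hA.iY y, hA.iZ0 y],
          by linarith [hB.iY y]⟩
    push_cast
    linarith
  · have hT : ‖((e x : ℝ) : TT)‖ ≤ 1 / 2 := by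
      simpa using AddCircle.norm_le_half_period (1 : ℝ) (x := ((e x : ℝ) : TT)) one_ne_zero
    have hT0 := norm_nonneg ((e x : ℝ) : TT)
    have hM : 1 + n * (5 * ‖((e x : ℝ) : TT)‖ + 2 * l) ≤ 1 + 3 * n := by nlinarith
    have h1 := s4 νB hB.av _ (sq hB.bZ) (fun x => sq_nonneg _) x _ _ (by positivity) hM
      fun y hy => by
        have k1 := hA.iZ2 y
        have k2 := hB.iZ2 y
        rw [hy] at k1 k2
        exact ⟨k1.trans hM, k2.trans hM, by rw [one_mul, one_mul]; exact k1,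
          by rw [one_mul, one_mul]; exact k2⟩
    have h2 := s5 νB hB.av ZB hB.bZ hB.Z0 zA zB x
    have bc := ((BU_pj η e (p := fun q => a q.1 * (1 - a (q.1 - q.2)))
      (by have := hC.ca; fun_prop)).mul hA.bZ).mul hB.bZ
    have bq := BU_nZ hC.ca η e (sq hA.bZ) (sq hB.bZ)
    have h4 := hav.le (sq bnZ) (bq.add ((BU.const 2).mul bc)) (x := x) fun y _ => by
      have k1 := mul_nonneg (mul_nonneg (hC.a0 (pj η e y).1) (ha' (pj η e y).1))
        (sq_nonneg (ZA y))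
      have k2 := mul_nonneg (mul_nonneg (hC.a0 ((pj η e y).1 - (pj η e y).2))
        (ha' ((pj η e y).1 - (pj η e y).2))) (sq_nonneg (ZB y))
      simp only [nZ]
      nlinarith
    rw [hav.add bq ((BU.const 2).mul bc), mn_mul] at h4
    push_cast
    nlinarith
  · have h1 := s6 i νB hB.av _ (BU_exp hB.mem l (cc i)) (fun x => (Real.exp_pos _).le)
      (hA.ex i) (hB.ex i) x
    have cp := hC.cp
    have cm := hC.cm
    have bb := ((BU_pj η e (p := fun q => Real.exp (l * ((cc i : ℂ) * e1 (q.2 + q.1)).re))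
      (by fun_prop)).mul ((BU.const 1).add ((BU_pj η e (p := fun q => bp q.1) (by fun_prop)).mul
        ((BU_exp hA.mem l (cc i)).comp (φ := fun s => s - 1) (by fun_prop))))).mul
      ((BU.const 1).add ((BU_pj η e (p := fun q => bm (q.1 - q.2)) (by fun_prop)).mul
        ((BU_exp hB.mem l (cc i)).comp (φ := fun s => s - 1) (by fun_prop))))
    have h2 := hav.le (BU_exp hmem l (cc i)) ((BU.const (1 + 2 * l ^ 2)).mul bb) (x := x)
      fun y _ => by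
        simp only [Pi.add_apply, Pi.mul_apply, root_zero]
        exact exp_cut_le hl0 hl hθ2 _ (hC.p0 _) (hC.p1 _) (hC.m0 _) (hC.m1 _) (hp2 y).1 (hm2 y).1
          (hA.bd y) (hB.bd y)
    rw [mn_mul] at h2
    have h3 := mul_le_mul_of_nonneg_left h1 (show 0 ≤ 1 + 2 * l ^ 2 by positivity)
    have h4 := mul_le_mul_of_nonneg_left (show n * l ^ 2 ≤ 1 / 400 by linarith) hl2.le
    have h5 := mul_le_mul_of_nonneg_left (show l ^ 2 ≤ 1 / 400 by linarith) hl2.le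
    push_cast
    nlinarith
  · have e0 : nZ a η e (fun x => YA x + ZA x) YB x - j * nZ a η e ZA ZB x =
        a (pj η e x).1 * (YA x - (j - 1) * ZA x) +
          (1 - a ((pj η e x).1 - (pj η e x).2)) * (YB x - j * ZB x) := by
      simp only [nZ]; ring
    rw [e0] at hx
    push_cast
    by_cases h1 : 0 < a (pj η e x).1 * (YA x - (j - 1) * ZA x)
    · obtain ⟨ha, hb⟩ := pos_of_mul h1 (hC.a0 _)
      obtain ⟨σ, hσ, hσ1, hσ2⟩ := hA.ht _ _ hb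
      refine ⟨σ, hσ, by linarith, ?_⟩
      have k1 := ht_branch (e x : ℝ) hσ hc.le hA.mem hR0 hA.bd mB (by
          have := norm_sub_le_norm_sub_add_norm_sub ω' σ ω
          rw [norm_sub_rev ω' σ] at this
          linarith) nB hA1 (a2 σ hσ1 x) (a3 σ hσ1 x)
        (by simpa [(hp2 x).2, (hC.ap _ ha).1] using (hp2 x).1) hθ1
      rw [root_left (he _ hω.1) hη0] at k1
      have k5 := mul_le_mul_of_nonneg_left (hC.ap _ ha).2 hw.le
      simp only [Pi.add_apply, Pi.mul_apply] at k1 ⊢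
      nlinarith
    · obtain ⟨ha, hb⟩ := pos_of_mul (show 0 < (1 - a ((pj η e x).1 - (pj η e x).2)) *
        (YB x - j * ZB x) by linarith) (ha' _)
      obtain ⟨σ, hσ, hσ1, hσ2⟩ := hB.ht _ _ hb
      refine ⟨σ, hσ, by linarith [norm_sub_le_norm_sub_add_norm_sub σ ω' ω], ?_⟩
      have k1 := ht_branch (e x : ℝ) hσ hc.le hB.mem hR0 hB.bd mA (by
          have := norm_sub_le_norm_sub_add_norm_sub ω' σ ω
          rw [norm_sub_rev ω' σ] at this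
          linarith) nA hA1 (b2 σ hσ1 x) (b3 σ hσ1 x)
        (by simpa [(hm2 x).2, hC.am _ (sub_pos.1 ha)] using (hm2 x).1) hθ1
      have k5 := re_conj_ge (e x : ℝ) (ef (e + η) (x, ω'))
      rw [root_right (he _ (hQ hω')) hη1] at k5
      simp only [Pi.add_apply, Pi.mul_apply] at k1 ⊢
      rw [add_right_comm]
      nlinarith

theorem exists_inv {Ω : Set E} (hΩ : IsCompact Ω) {e : E →L[ℝ] ℝ} (he : ∀ y ∈ Ω, e y = 1)
    {Q : ℕ → Set E} (hQ : ∀ k, ∀ ω ∈ Q k, Exp Ω ω)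
    (hQ' : ∀ k, ∀ ω ∈ Q (k + 1), ω ∈ Q k ∧ ∀ r > 0, ∃ ω' ∈ Q k, ω' ≠ ω ∧ ‖ω' - ω‖ ≤ r)
    {l : ℝ} (hl0 : 0 < l) (n : ℕ) (hn : n * l ≤ 1 / 20) :
    ∀ ω ∈ Q n, ∀ ρ > 0, ∀ A, ∃ Φ Y Z ν, Inv Ω e l n ω ρ A Φ Y Z ν := by
  induction n with
  | zero => exact fun ω hω ρ hρ A => ⟨_, _, _, _, inv_zero e l (hQ _ _ hω).1 hρ A⟩
  | succ n ih =>
    push_cast at hn
    intro ω hω ρ hρ A
    refine inv_step hΩ he hl0 hn (hQ _ _ hω) (fun y hy => (hQ n y hy).1) (hQ' _ _ hω).2 ?_ hρ A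
    rintro ω' (rfl | h)
    · exact ih (by nlinarith) _ (hQ' _ _ hω).1
    · exact ih (by nlinarith) _ h

end

end Pool.Agent.Lib.MP_730078_an.G
end

-- part Pool.Agent.Lib.MP_730078_an.GSeed
section

open MeasureTheory Set Filter Topology Complex ComplexConjugate
open scoped ENNReal Real

namespace Pool.Agent.Lib.MP_730078_an.G

noncomputable section

variable {E : Type*} [NormedAddCommGroup E] [NormedSpace ℝ E]

/-- Frequencies which are positive on the cone. -/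
def S1 (Γ : Set E) : Set (E →L[ℝ] ℝ) := {t | ∀ y ∈ Γ, 0 < t y}

/-- Over the points where `g < 1` the function `Φ` reaches the height `h` in a compact part of
the cone. -/
def Tall (Γ : Set E) (h : ℝ) (Φ : E × E → ℂ) (g : E → ℝ) : Prop :=
  ∃ C, IsCompact C ∧ C ⊆ Γ ∧ ∀ x, g x < 1 → ∃ y ∈ C, h ≤ ‖Φ (x, y)‖

/-- A compact base of the cone with an exposed point of rank `n`. -/
def Frame (Γ : Set E) (n : ℕ) : Prop :=
  ∃ (Ω : Set E) (e : E →L[ℝ] ℝ) (Q : ℕ → Set E) (y₀ : E), IsCompact Ω ∧ (∀ y ∈ Ω, e y = 1) ∧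
    (∀ k, ∀ ω ∈ Q k, Exp Ω ω) ∧
    (∀ k, ∀ ω ∈ Q (k + 1), ω ∈ Q k ∧ ∀ r > 0, ∃ ω' ∈ Q k, ω' ≠ ω ∧ ‖ω' - ω‖ ≤ r) ∧
    (Q n).Nonempty ∧ (∀ y ∈ Γ, ∃ s : ℝ, 0 < s ∧ ∃ σ ∈ Ω, y = s • σ) ∧
    ∀ σ ∈ Ω, ∀ κ : ℝ, 0 < κ → σ + κ • y₀ ∈ Γ

variable [MeasurableSpace E] [BorelSpace E] [SecondCountableTopology E]

theorem seed_n {Γ : Set E} {n : ℕ} (hn : 0 < n) (hF : Frame Γ n) :
    ∃ Φ ∈ Sp (S1 Γ), ∃ (g : E → ℝ) (ν : Measure E) (r : ℝ), Av 0 r ν ∧ BU g ∧ (∀ x, 0 ≤ g x) ∧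
    (∀ i x, mn ν (fun x => Real.exp ((cc i : ℂ) * Φ (x, 0)).re) x ≤ 1 + 1 / (40 * n)) ∧
    (∀ x, mn ν g x ≤ 1 - Real.log (1 + n) / (405 * n)) ∧ Tall Γ (ww / 1280) Φ g := by
  obtain ⟨Ω, e, Q, y₀, hΩ, he, hQ, hQ', ⟨ω, hω⟩, hΓ, hy₀⟩ := hF
  have hn' : (0 : ℝ) < n := by exact_mod_cast hn
  have hw := ww_pos
  have hl0 : (0 : ℝ) < 1 / (20 * n) := by positivity
  have hl : n * (1 / (20 * n) : ℝ) = 1 / 20 := by field_simp
  have hn1 : (1 : ℝ) ≤ n := by exact_mod_cast hn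
  have hl3 : 10 * n * (1 / (20 * n) : ℝ) ^ 2 = 1 / (40 * n) := by field_simp; norm_num
  obtain ⟨Φ, Y, Z, ν, h⟩ := exists_inv hΩ he hQ hQ' hl0 n hl.le ω hω 1 one_pos 0
  generalize (1 / (20 * n) : ℝ) = l at hl0 hl hl3 h
  have hl1 : l ≤ 1 / 20 := by nlinarith
  let θ : TT → ℝ := fun T => (45 * n : ℝ)⁻¹ * (1 + n * ‖T‖)⁻¹
  have ci : Continuous fun T : TT => (1 + n * ‖T‖)⁻¹ :=
    Continuous.inv₀ (by fun_prop) fun t => by positivity
  have cθ : Continuous θ := continuous_const.mul ci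
  have hθ : ∀ T, 0 < θ T := fun T => by positivity
  have hmem : (l : ℂ) • Φ ∈ Sp (S1 Γ) := by
    refine Submodule.smul_mem _ _ (Sp_mono (fun t ht y hy => ?_) h.mem)
    obtain ⟨s, hs, σ, hσ, rfl⟩ := hΓ y hy
    rw [map_smul]
    exact mul_pos hs (lt_of_lt_of_le (by positivity) (ht σ hσ).1)
  have h0 := av_seg (e := (0 : E →L[ℝ] ℝ)) (v := ω) rfl
  have bg : BU fun x => (1 - θ (e x : ℝ) * (Y x - n / 8 * Z x)) ^ 2 :=
    (BU_pj e e (p := fun q => θ q.2) (by fun_prop)).comp2 (h.bY.pair h.bZ)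
      (φ := fun q => (1 - q.1 * (q.2.1 - n / 8 * q.2.2)) ^ 2) (by fun_prop)
  refine ⟨_, hmem, _, seg ω ∗ ν, _, h0.conv h.av.zero, bg, fun x => sq_nonneg _,
    fun i x => ?_, fun x => ?_, ?_⟩
  · have b := BU_exp h.mem l (cc i)
    have e1 : (fun x => Real.exp ((cc i : ℂ) * ((l : ℂ) • Φ) (x, 0)).re) =
        fun x => Real.exp (l * ((cc i : ℂ) * Φ (x, 0)).re) := by
      funext x
      rw [Pi.smul_apply, smul_eq_mul, mul_left_comm, re_ofReal_mul]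
    rw [e1, h0.mn_conv h.av.zero b, ← hl3, ← h0.const (1 + 10 * n * l ^ 2) x]
    exact h0.le (h.av.BU b) (BU.const _) fun y _ => h.ex i y
  · have bφ := BU_pj e e (p := fun q => 1 - 1 / 405 * (1 + n * ‖q.2‖)⁻¹)
      (continuous_const.sub (continuous_const.mul (ci.comp continuous_snd)))
    rw [h0.mn_conv h.av.zero bg]
    refine (h0.le (h.av.BU bg) bφ fun y _ => ?_).trans ?_
    · set T : TT := ((e y : ℝ) : TT) with hT
      have sq : BU fun x => Z x ^ 2 := h.bZ.comp (φ := fun s => s ^ 2) (by fun_prop)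
      have b1 := (BU.const (-(2 * θ T))).mul h.bY
      have b2 := (BU.const (θ T * n / 4)).mul h.bZ
      have b3 := (BU.const ((θ T * n) ^ 2)).mul sq
      have h1 := h.av.le bg ((((BU.const 1).add b1).add b2).add b3) (x := y) fun v hv => by
        have k1 := h.Y0 v
        have k2 := h.YZ v
        have k3 := mul_nonneg hn'.le (h.Z0 v)
        have k4 : (Y v - n / 8 * Z v) ^ 2 ≤ (n * Z v) ^ 2 := sq_le_sq' (by linarith) (by linarith)
        have k5 := mul_le_mul_of_nonneg_left k4 (sq_nonneg (θ T))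
        rw [hv, ← hT]
        nlinarith
      rw [h.av.add (((BU.const 1).add b1).add b2) b3, h.av.add ((BU.const 1).add b1) b2,
        h.av.add (BU.const 1) b1, h.av.const, mn_mul, mn_mul, mn_mul] at h1
      have k1 := mul_le_mul_of_nonneg_left (h.iY y) (hθ T).le
      have k2 : mn ν Z y ≤ 201 / 200 := by nlinarith [h.iZ1 y]
      have k3 := mul_le_mul_of_nonneg_left k2 (mul_pos (hθ T) hn').le
      have k4 : mn ν (fun x => Z x ^ 2) y ≤ 5 * (1 + n * ‖T‖) := by nlinarith [h.iZ2 y]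
      have k5 := mul_le_mul_of_nonneg_left k4 (sq_nonneg (θ T * n))
      have hT : 0 < 1 + n * ‖T‖ := by positivity
      have k6 : θ T * n = 1 / 45 * (1 + n * ‖T‖)⁻¹ := by simp only [θ]; field_simp
      have k7 : (θ T * n) ^ 2 * (5 * (1 + n * ‖T‖)) = 1 / 405 * (1 + n * ‖T‖)⁻¹ := by
        rw [k6]; field_simp; norm_num
      have k8 := inv_pos.2 hT
      change _ ≤ 1 - 1 / 405 * (1 + n * ‖T‖)⁻¹
      nlinarith
    · rw [mn_seg bφ.cont (φ := fun T => 1 - 1 / 405 * (1 + n * ‖T‖)⁻¹) (a := e x)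
        (fun s => by simp [pj, he ω (hQ _ _ hω).1]),
        integral_sub (integrable_const _) (intg (by fun_prop)), integral_const_mul]
      have := log_le_int hn'
      have e : Real.log (1 + n) / (405 * n) = 1 / 405 * (Real.log (1 + n) / n) := by field_simp
      simp only [integral_const, probReal_univ, smul_eq_mul, mul_one]
      linarith
  · have h1 : Tendsto (fun κ : ℝ => κ • y₀) (𝓝[>] 0) (𝓝 0) :=
      (Continuous.tendsto' (by fun_prop) 0 0 (by simp)).mono_left nhdsWithin_le_nhds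
    obtain ⟨κ, hκ, hκ0⟩ := ((h1.eventually (Sp_near h.mem hΩ (ε := ww * n / 64)
      (by positivity))).and self_mem_nhdsWithin).exists
    refine ⟨(fun σ => σ + κ • y₀) '' Ω, hΩ.image (by fun_prop), ?_, fun x hx => ?_⟩
    · rintro _ ⟨σ, hσ, rfl⟩
      exact hy₀ σ hσ κ hκ0
    have h1 : 0 < Y x - n / 8 * Z x := by
      by_contra hh
      have := mul_nonpos_of_nonneg_of_nonpos (hθ (e x : ℝ)).le (not_lt.1 hh)
      simp only at hx
      nlinarith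
    obtain ⟨σ, hσ, -, h2⟩ := h.ht _ _ h1
    have h3 : (conj (e1 (e x : ℝ)) * Φ (x, σ)).re ≤ ‖Φ (x, σ)‖ := by
      refine (Complex.re_le_norm _).trans (le_of_eq ?_)
      rw [norm_mul, Complex.norm_conj, norm_e1, one_mul]
    have h4 := hκ σ hσ x
    have h5 := norm_sub_norm_le (Φ (x, σ)) (Φ (x, σ + κ • y₀))
    rw [norm_sub_rev] at h5
    refine ⟨_, ⟨σ, hσ, rfl⟩, ?_⟩
    rw [Pi.smul_apply, norm_smul, Complex.norm_real, Real.norm_of_nonneg hl0.le]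
    have h6 : ww * n / 64 ≤ ‖Φ (x, σ + κ • y₀)‖ := by
      have := mul_le_mul_of_nonneg_left ww_le (mul_pos hw hn').le
      nlinarith
    have := mul_le_mul_of_nonneg_left h6 hl0.le
    nlinarith

theorem exists_depth {τ : ℝ} (hτ : 0 < τ) : ∃ n : ℕ, 0 < n ∧
    1 / (40 * n : ℝ) ≤ τ * (Real.log (1 + n) / (405 * n)) := by
  have h1 : Tendsto (fun n : ℕ => Real.log (1 + n)) atTop atTop :=
    Real.tendsto_log_atTop.comp (tendsto_atTop_add_const_left _ _ tendsto_natCast_atTop_atTop)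
  obtain ⟨n, hn, h2⟩ := ((eventually_gt_atTop 0).and (h1.eventually_ge_atTop (11 / τ))).exists
  have hn' : (0 : ℝ) < n := by exact_mod_cast hn
  refine ⟨n, hn, ?_⟩
  rw [div_le_iff₀ hτ] at h2
  rw [← mul_div_assoc, div_le_div_iff₀ (by positivity) (by positivity)]
  nlinarith

end

end Pool.Agent.Lib.MP_730078_an.G
end

-- part Pool.Agent.Lib.MP_730078_an.GAmp
section

open MeasureTheory Set Filter Topology Complex ComplexConjugate
open scoped ENNReal Real Nat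

namespace Pool.Agent.Lib.MP_730078_an.G

noncomputable section

variable {E : Type*} [NormedAddCommGroup E] [NormedSpace ℝ E]
  {E' : Type*} [NormedAddCommGroup E'] [NormedSpace ℝ E']

/-- Pull back by a linear map. -/
def pb (Λ : E →L[ℝ] E') (f : E' × E' → ℂ) : E × E → ℂ := fun w => f (Λ w.1, Λ w.2)

theorem pb_mem {Γ : Set E} {Γ' : Set E'} {Λ : E →L[ℝ] E'} (h : ∀ y ∈ Γ, Λ y ∈ Γ')
    {f : E' × E' → ℂ} (hf : f ∈ Sp (S1 Γ')) : pb Λ f ∈ Sp (S1 Γ) :=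
  Sp_induction (S := S1 Γ') (P := fun f => pb Λ f ∈ Sp (S1 Γ))
    (fun t ht => ef_mem (t := t.comp Λ) fun y hy => ht _ (h y hy)) (Submodule.zero_mem _)
    (fun _ _ hf hg => Submodule.add_mem _ hf hg) (fun c _ hf => Submodule.smul_mem _ c hf) hf

def dl (N : ℝ) : E →L[ℝ] E := N • ContinuousLinearMap.id ℝ E

@[simp] theorem dl_apply (N : ℝ) (x : E) : dl N x = N • x := rfl

def IsCone (Γ : Set E) : Prop := ∀ s : ℝ, 0 < s → ∀ y ∈ Γ, s • y ∈ Γ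

theorem IsCone.ball {Γ : Set E} (hΓ : IsCone Γ) {y : E} {c N : ℝ} (hN : 0 < N)
    (h : Metric.ball y c ⊆ Γ) : Metric.ball (N • y) (N * c) ⊆ Γ := by
  intro z hz
  have := hΓ N hN (N⁻¹ • z) (h (by
    rw [mem_ball_iff_norm] at hz ⊢
    rw [show N⁻¹ • z - y = N⁻¹ • (z - N • y) by simp [smul_sub, smul_smul, hN.ne'], norm_smul,
      norm_inv, Real.norm_of_nonneg hN.le, inv_mul_lt_iff₀ hN]
    exact hz))
  simpa [smul_smul, hN.ne'] using this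

def S2 (Γ : Set E) (γ : ℝ) : Set (E →L[ℝ] ℝ) :=
  {t | ∀ c, 0 < c → ∀ y, Metric.ball y c ⊆ Γ → γ * c ≤ t y}

theorem Sp_gap {Γ : Set E} {f : E × E → ℂ} (hf : f ∈ Sp (S1 Γ)) : ∃ γ > 0, f ∈ Sp (S2 Γ γ) := by
  have m : ∀ {γ γ' : ℝ}, γ ≤ γ' → Sp (S2 Γ γ') ≤ Sp (S2 Γ γ) := fun h =>
    Sp_mono fun t ht c hc y hy => (mul_le_mul_of_nonneg_right h hc.le).trans (ht c hc y hy)
  refine Sp_induction (P := fun f => ∃ γ > 0, f ∈ Sp (S2 Γ γ)) (fun t ht => ?_)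
    ⟨1, one_pos, Submodule.zero_mem _⟩ ?_ ?_ hf
  · rcases Γ.eq_empty_or_nonempty with rfl | ⟨y₀, hy₀⟩
    · exact ⟨1, one_pos, ef_mem fun c hc y hy => (hy (Metric.mem_ball_self hc)).elim⟩
    have h0 := ht y₀ hy₀
    refine ⟨t y₀ / (‖y₀‖ + 1), by positivity, ef_mem fun c hc y hy => ?_⟩
    have := ht (y - (c / (‖y₀‖ + 1)) • y₀) (hy (by
      rw [mem_ball_iff_norm, sub_sub_cancel_left, norm_neg, norm_smul,
        Real.norm_of_nonneg (by positivity), div_mul_eq_mul_div, div_lt_iff₀ (by positivity)]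
      linarith))
    rw [map_sub, map_smul, smul_eq_mul] at this
    rw [div_mul_comm]
    linarith
  · rintro f g ⟨a, ha, h1⟩ ⟨b, hb, h2⟩
    exact ⟨min a b, lt_min ha hb,
      Submodule.add_mem _ (m (min_le_left _ _) h1) (m (min_le_right _ _) h2)⟩
  · rintro c f ⟨a, ha, h1⟩
    exact ⟨a, ha, Submodule.smul_mem _ c h1⟩

omit [NormedSpace ℝ E] in
theorem exists_ball {Γ C : Set E} (ho : IsOpen Γ) (hC : IsCompact C) (h : C ⊆ Γ) :
    ∃ κ > 0, ∀ y ∈ C, Metric.ball y κ ⊆ Γ := by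
  obtain ⟨κ, hκ, h1⟩ := hC.exists_thickening_subset_open ho h
  exact ⟨κ, hκ, fun y hy => (Metric.ball_subset_thickening hy κ).trans h1⟩

theorem ev_small {Γ C : Set E} (ho : IsOpen Γ) (hΓ : IsCone Γ) (hC : IsCompact C) (h : C ⊆ Γ)
    {f : E × E → ℂ} (hf : f ∈ Sp (S1 Γ)) {ε : ℝ} (hε : 0 < ε) :
    ∀ᶠ N : ℝ in atTop, ∀ y ∈ C, ∀ x, ‖f (x, N • y)‖ ≤ ε := by
  obtain ⟨κ, hκ, h1⟩ := exists_ball ho hC h
  obtain ⟨γ, hγ, h2⟩ := Sp_gap hf
  obtain ⟨R, hR⟩ := (Sp_BU hf 0).2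
  have h3 : Tendsto (fun N : ℝ => R * Real.exp (-(2 * π * (γ * (N * κ))))) atTop (𝓝 (R * 0)) :=
    (Real.tendsto_exp_neg_atTop_nhds_zero.comp (((tendsto_id.atTop_mul_const hκ).const_mul_atTop
      hγ).const_mul_atTop (by positivity))).const_mul _
  rw [mul_zero] at h3
  filter_upwards [h3.eventually (eventually_le_nhds hε), eventually_gt_atTop 0] with N h4 hN y hy x
  exact (Sp_sup h2 (fun t ht => ht _ (by positivity) _ (hΓ.ball hN (h1 y hy))) hR x).trans h4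

omit [NormedSpace ℝ E] in
theorem Tall.mono {Γ : Set E} {h h' : ℝ} {Φ : E × E → ℂ} {g : E → ℝ} (H : Tall Γ h Φ g)
    (hh : h' ≤ h) : Tall Γ h' Φ g := by
  obtain ⟨C, h1, h2, H⟩ := H
  exact ⟨C, h1, h2, fun x hx => (H x hx).imp fun y hy => ⟨hy.1, hh.trans hy.2⟩⟩

theorem tall_step {Γ : Set E} (ho : IsOpen Γ) (hΓ : IsCone Γ) (hne : Γ.Nonempty)
    {Ψ Φ : E × E → ℂ} (hΨ : Ψ ∈ Sp (S1 Γ)) (hΦ : Φ ∈ Sp (S1 Γ)) {G g : E → ℝ}
    {t h ε : ℝ} (h1 : Tall Γ t Ψ G) (h2 : Tall Γ h Φ g) (ht : t ≤ h / 2) (hε : 0 < ε) :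
    ∀ᶠ N : ℝ in atTop, Tall Γ (t - ε) (Ψ + pb (dl N) Φ) (fun x => G x * g (N • x)) := by
  obtain ⟨C1, c1, s1, h1⟩ := h1
  obtain ⟨C0, c0, s0, h2⟩ := h2
  obtain ⟨r, hr', hr⟩ := ((Sp_near' hΨ 0 (half_pos hε)).and self_mem_nhdsWithin).exists
  replace hr : 0 < r := hr
  simp only [sub_zero] at hr'
  obtain ⟨y₁, hy₁, hy₁'⟩ : ∃ y₁ ∈ Γ, ‖y₁‖ ≤ r := by
    obtain ⟨y, hy⟩ := hne
    refine ⟨_, hΓ (r / (‖y‖ + 1)) (by positivity) y hy, ?_⟩
    rw [norm_smul, Real.norm_of_nonneg (by positivity), div_mul_eq_mul_div,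
      div_le_iff₀ (by positivity)]
    linarith
  obtain ⟨B, hB⟩ := c0.isBounded.exists_norm_le
  filter_upwards [ev_small ho hΓ (c1.insert y₁) (insert_subset hy₁ s1) hΦ (half_pos hε),
    eventually_gt_atTop 0, eventually_ge_atTop (B / r)] with N h4 hN hN2
  have h5 : ∀ a b : ℂ, ‖a‖ - ‖b‖ ≤ ‖a + b‖ := fun a b => by
    simpa using norm_sub_norm_le a (-b)
  refine ⟨insert y₁ C1 ∪ (fun y => N⁻¹ • y) '' C0, (c1.insert y₁).union (c0.image (by fun_prop)),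
    union_subset (insert_subset hy₁ s1) ?_, fun x hx => ?_⟩
  · rintro _ ⟨y, hy, rfl⟩
    exact hΓ _ (by positivity) _ (s0 hy)
  simp only [Pi.add_apply, pb, dl_apply]
  by_cases hG : G x < 1
  · obtain ⟨y, hy1, hy3⟩ := h1 x hG
    refine ⟨y, Or.inl (mem_insert_of_mem _ hy1), ?_⟩
    linarith [h5 (Ψ (x, y)) (Φ (N • x, N • y)), h4 y (mem_insert_of_mem _ hy1) (N • x)]
  have hg : g (N • x) < 1 := by
    by_contra hg
    exact hx.not_ge (one_le_mul_of_one_le_of_one_le (not_lt.1 hG) (not_lt.1 hg))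
  by_cases h6 : ‖Ψ (x, 0)‖ ≤ h / 2
  · obtain ⟨y, hy1, hy3⟩ := h2 _ hg
    have hy4 : ‖N⁻¹ • y‖ ≤ r := by
      rw [norm_smul, norm_inv, Real.norm_of_nonneg hN.le, inv_mul_le_iff₀ hN]
      exact (hB y hy1).trans ((div_le_iff₀ hr).1 hN2)
    refine ⟨N⁻¹ • y, Or.inr ⟨y, hy1, rfl⟩, ?_⟩
    rw [smul_smul, mul_inv_cancel₀ hN.ne', one_smul, add_comm]
    linarith [h5 (Φ (N • x, y)) (Ψ (x, N⁻¹ • y)), hr' _ hy4 x,
      norm_sub_norm_le (Ψ (x, N⁻¹ • y)) (Ψ (x, 0))]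
  · refine ⟨y₁, Or.inl (mem_insert _ _), ?_⟩
    have h7 := hr' _ hy₁' x
    rw [norm_sub_rev] at h7
    linarith [h5 (Ψ (x, y₁)) (Φ (N • x, N • y₁)), h4 _ (mem_insert _ _) (N • x),
      norm_sub_norm_le (Ψ (x, 0)) (Ψ (x, y₁)), not_le.1 h6]

variable [MeasurableSpace E] [BorelSpace E] [MeasurableSpace E'] [BorelSpace E']

theorem Av.map {r : ℝ} {ν : Measure E'} (h : Av 0 r ν) (S : E' →L[ℝ] E) :
    Av 0 (‖S‖ * r) (ν.map S) := by
  have := h.prob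
  refine ⟨Measure.isProbabilityMeasure_map (by fun_prop), ?_⟩
  have hm : MeasurableSet {u : E | ‖u‖ ≤ ‖S‖ * r ∧ (0 : E →L[ℝ] ℝ) u = 0} :=
    ((isClosed_le continuous_norm continuous_const).inter
      (isClosed_eq (0 : E →L[ℝ] ℝ).continuous continuous_const)).measurableSet
  exact (ae_map_iff (by fun_prop) hm).2 (h.ae.mono fun u hu => ⟨S.le_opNorm_of_le hu.1, rfl⟩)

theorem mn_map (ν : Measure E') {S : E' →L[ℝ] E} {Λ : E →L[ℝ] E'} (hS : ∀ u, Λ (S u) = u)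
    {g : E' → ℝ} (hg : Continuous g) (x : E) :
    mn (ν.map S) (fun x => g (Λ x)) x = mn ν g (Λ x) := by
  rw [mn, integral_map (by fun_prop) (Continuous.aestronglyMeasurable (by fun_prop))]
  simp only [map_add, hS, mn]

variable [SecondCountableTopology E]

theorem mixN {r r' : ℝ} {μ ν : Measure E} (hμ : Av 0 r μ) (hν : Av 0 r' ν) {F G : E → ℝ}
    (bF : BU F) (bG : BU G) (nF : ∀ x, 0 ≤ F x) (nG : ∀ x, 0 ≤ G x) {a b ε : ℝ}
    (ha : ∀ x, mn μ F x ≤ a) (hb : ∀ x, mn ν G x ≤ b) (hε : 0 < ε) :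
    ∀ᶠ N : ℝ in atTop, ∀ x,
      mn (μ ∗ ν.map (dl N⁻¹ : E →L[ℝ] E)) (fun x => F x * G (N • x)) x ≤ a * b + ε := by
  have hb0 : 0 ≤ b := (mn_nonneg nG 0).trans (hb 0)
  obtain ⟨δ, hs, hδ⟩ := ((bF.slow (ε := ε / (b + 1)) (by positivity)).and
    self_mem_nhdsWithin).exists
  replace hδ : 0 < δ := hδ
  filter_upwards [eventually_gt_atTop 0, eventually_ge_atTop (|r'| / δ)] with N hN hN' x
  have h1 : Av 0 δ (ν.map (dl N⁻¹ : E →L[ℝ] E)) := (hν.map _).mono (by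
    have : ‖(dl N⁻¹ : E →L[ℝ] E)‖ ≤ N⁻¹ := ContinuousLinearMap.opNorm_le_bound _ (by positivity)
      fun u => by rw [dl_apply, norm_smul, Real.norm_of_nonneg (by positivity)]
    refine (mul_le_mul_of_nonneg_left (le_abs_self r') (norm_nonneg _)).trans
      ((mul_le_mul_of_nonneg_right this (abs_nonneg _)).trans ?_)
    rw [inv_mul_le_iff₀ hN]
    exact (div_le_iff₀ hδ).1 hN')
  have bG' : BU fun x => G (N • x) := bG.precomp (dl N : E →L[ℝ] E).uniformContinuous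
  rw [hμ.mn_conv h1 (bF.mul bG')]
  have h2 := hμ.le (h1.BU (bF.mul bG')) (((BU.const b).mul bF).add (BU.const ε)) (x := x)
    fun y _ => by
      have k1 := (abs_le.1 (h1.one bF bG' (fun _ => nG _) hs y)).2
      have k2 : mn (ν.map (dl N⁻¹ : E →L[ℝ] E)) (fun x => G (N • x)) y ≤ b :=
        (mn_map ν (Λ := dl N) (by simp [smul_smul, hN.ne']) bG.cont y).trans_le (hb _)
      have k3 := mul_le_mul_of_nonneg_left k2 (nF y)
      have k4 := mul_le_mul_of_nonneg_left (k2.trans (le_add_of_nonneg_right zero_le_one))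
        (show 0 ≤ ε / (b + 1) by positivity)
      rw [div_mul_cancel₀ _ (by positivity)] at k4
      linarith
  rw [hμ.add ((BU.const b).mul bF) (BU.const ε), mn_mul, hμ.const] at h2
  linarith [mul_le_mul_of_nonneg_left (ha x) hb0]

end

end Pool.Agent.Lib.MP_730078_an.G
end

-- part Pool.Agent.Lib.MP_730078_an.GBlock
section

open MeasureTheory Set Filter Topology Complex ComplexConjugate
open scoped ENNReal Real

namespace Pool.Agent.Lib.MP_730078_an.G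

noncomputable section

section

variable {E : Type*} [NormedAddCommGroup E] [NormedSpace ℝ E] [MeasurableSpace E] [BorelSpace E]
  [SecondCountableTopology E]

omit [MeasurableSpace E] [BorelSpace E] [SecondCountableTopology E] in
theorem BU_exp' {S : Set (E →L[ℝ] ℝ)} {f : E × E → ℂ} (hf : f ∈ Sp S) (c : ℂ) :
    BU fun x => Real.exp (c * f (x, 0)).re :=
  (Sp_BU hf 0).comp (φ := fun z => Real.exp (c * z).re) (by fun_prop)

/-- Sums of asymptotically independent copies. -/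
theorem amp {Γ : Set E} (ho : IsOpen Γ) (hΓ : IsCone Γ) (hne : Γ.Nonempty) {u q h ε r : ℝ}
    (hu : 0 < u) (hq : 0 < q) (hε : 0 < ε) {Φ : E × E → ℂ} (hΦ : Φ ∈ Sp (S1 Γ)) {g : E → ℝ}
    {ν : Measure E} (hν : Av 0 r ν) (bg : BU g) (hg0 : ∀ x, 0 ≤ g x)
    (hE : ∀ i x, mn ν (fun x => Real.exp ((cc i : ℂ) * Φ (x, 0)).re) x ≤ 1 + u)
    (hg : ∀ x, mn ν g x ≤ 1 - q) (hG : Tall Γ h Φ g) (k : ℕ) :
    ∃ Ψ ∈ Sp (S1 Γ), ∃ (G : E → ℝ) (μ : Measure E) (r' : ℝ), Av 0 r' μ ∧ BU G ∧ (∀ x, 0 ≤ G x) ∧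
      (∀ i x, mn μ (fun x => Real.exp ((cc i : ℂ) * Ψ (x, 0)).re) x ≤ (1 + 2 * u) ^ k) ∧
      (∀ x, mn μ G x ≤ (1 - q / 2) ^ k) ∧ Tall Γ (h / 2 - k * ε) Ψ G := by
  induction k with
  | zero => exact ⟨0, Submodule.zero_mem _, fun _ => 1, ν, r, hν, BU.const _, by simp,
      by simp [hν.const], by simp [hν.const], ∅, isCompact_empty, empty_subset _, by simp⟩
  | succ k ih =>
    obtain ⟨Ψ, hΨ, G, μ, r', hμ, bG, hG0, h1, h2, h3⟩ := ih
    have hq2 : 0 < 1 - q / 2 := by linarith [mn_nonneg (ν := ν) hg0 0, hg 0]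
    obtain ⟨N, hN0, hN1, hN2, hN3⟩ := ((eventually_gt_atTop 0).and ((eventually_all.2 fun i =>
      mixN hμ hν (BU_exp' hΨ (cc i)) (BU_exp' hΦ (cc i)) (fun _ => (Real.exp_pos _).le)
        (fun _ => (Real.exp_pos _).le) (h1 i) (hE i) hu).and
      ((mixN hμ hν bG bg hG0 hg0 h2 hg (ε := q / 2 * (1 - q / 2) ^ k) (by positivity)).and
      (tall_step ho hΓ hne hΨ hΦ h3 hG (sub_le_self _ (by positivity)) hε)))).exists
    refine ⟨Ψ + pb (dl N) Φ, Submodule.add_mem _ hΨ (pb_mem (hΓ N hN0) hΦ),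
      fun x => G x * g (N • x), _, _, hμ.conv (hν.map (dl N⁻¹)),
      bG.mul (bg.precomp (dl N : E →L[ℝ] E).uniformContinuous),
      fun x => mul_nonneg (hG0 _) (hg0 _), fun i x => ?_, fun x => ?_, hN3.mono (le_of_eq ?_)⟩
    · have k1 := hN1 i x
      have k3 : 1 ≤ (1 + 2 * u) ^ k := one_le_pow₀ (by linarith)
      simp only [Pi.add_apply, pb, dl_apply, smul_zero, mul_add, add_re, Real.exp_add, pow_succ]
      nlinarith
    · have k1 := hN2 x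
      rw [pow_succ]
      linarith
    · push_cast; ring

omit [SecondCountableTopology E] in
theorem moment {r : ℝ} {ν : Measure E} (hν : Av 0 r ν) {f : E → ℂ} (hf : BU f) {ζ : ℝ} {x : E}
    (h : ∀ i, mn ν (fun x => Real.exp ((cc i : ℂ) * f x).re) x ≤ 1 + ζ) {m : ℕ} (hm : 0 < m) :
    mn ν (fun x => ‖f x‖ ^ (2 * m)) x ≤ 2 ^ m * (2 * m).factorial * ζ := by
  have b := fun i => hf.comp (φ := fun z => Real.exp ((cc i : ℂ) * z).re) (by fun_prop)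
  have b' := (((b 0).add (b 1)).add (b 2)).add (b 3)
  have h5 := hν.le (hf.comp (φ := fun z => ‖z‖ ^ (2 * m)) (by fun_prop))
    ((BU.const (2 ^ (m - 1) * (2 * m).factorial / 2 : ℝ)).mul (b'.add (BU.const (-4)))) (x := x)
    fun x _ => by
      have k1 := pow_le_cosh (f x).re hm
      have k2 := pow_le_cosh (f x).im hm
      have k3 := add_pow_le (sq_nonneg (f x).re) (sq_nonneg (f x).im) m
      rw [← pow_mul, ← pow_mul] at k3
      have k4 := mul_le_mul_of_nonneg_left (add_le_add k1 k2)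
        (show (0 : ℝ) ≤ 2 ^ (m - 1) by positivity)
      simp only [cc, Matrix.cons_val_zero, Matrix.cons_val_one, Matrix.cons_val, one_mul, neg_mul,
        neg_re, I_mul_re, neg_neg]
      rw [pow_mul, Complex.sq_norm, Complex.normSq_apply, ← sq, ← sq]
      linarith
  rw [mn_mul, hν.add b' (BU.const _), hν.add (((b 0).add (b 1)).add (b 2)) (b 3),
    hν.add ((b 0).add (b 1)) (b 2), hν.add (b 0) (b 1), hν.const] at h5
  refine h5.trans ((mul_le_mul_of_nonneg_left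
    (show _ ≤ 4 * ζ by linarith [h 0, h 1, h 2, h 3]) (by positivity)).trans (le_of_eq ?_))
  obtain ⟨k, rfl⟩ := Nat.exists_eq_succ_of_ne_zero hm.ne'
  simp only [Nat.succ_eq_add_one, add_tsub_cancel_right, pow_succ]
  ring

/-- A building block for the cone `Γ`. -/
def Blk (Γ : Set E) (p : ℝ≥0∞) (H ε : ℝ) : Prop :=
  ∃ Φ ∈ Sp (S1 Γ), ∃ (G : E → ℝ) (ν : Measure E) (r : ℝ), Av 0 r ν ∧ BU G ∧ (∀ x, 0 ≤ G x) ∧
    (∀ x, eLpNorm (fun u => Φ (x + u, 0)) p ν ≤ ENNReal.ofReal ε) ∧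
    (∀ x, mn ν G x ≤ ε) ∧ Tall Γ H Φ G

end

/-- The building block for every finite exponent. -/
theorem block (p : ℝ≥0∞) (hp : p ≠ ∞) (H : ℝ) {ε : ℝ} (hε : 0 < ε) :
    ∃ n : ℕ, ∀ (d : ℕ) (Γ : Set (Fin d → ℝ)), IsOpen Γ → IsCone Γ → Γ.Nonempty → Frame Γ n →
      Blk Γ p H ε := by
  have hw := ww_pos
  obtain ⟨m, hm⟩ := ENNReal.exists_nat_gt hp
  set s : ℝ := (|H| + 1) * 5120 / ww with hs
  have hs0 : 0 < s := by positivity
  set ζ : ℝ := (ε / s) ^ (2 * (m + 1)) / (2 ^ (m + 1) * (2 * (m + 1)).factorial) with hζ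
  have hζ0 : 0 < ζ := by positivity
  have hlog := Real.log_pos (show 1 < 1 + ζ by linarith)
  obtain ⟨n, hn, huq⟩ := exists_depth (τ := Real.log (1 + ζ) / (2 * (2 / ε + 1))) (by positivity)
  refine ⟨n, fun d Γ ho hΓ hne hF => ?_⟩
  obtain ⟨Φ, hΦ, g, ν, r, hν, bg, hg0, hE, hg, hG⟩ := seed_n hn hF
  have hn' : (0 : ℝ) < n := by exact_mod_cast hn
  have hu : (0 : ℝ) < 1 / (40 * n) := by positivity
  have hq : 0 < Real.log (1 + n) / (405 * n) :=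
    div_pos (Real.log_pos (by linarith)) (by positivity)
  generalize (1 / (40 * n) : ℝ) = u at *
  generalize Real.log (1 + n) / (405 * n) = q at *
  have hq1 : q ≤ 1 := by linarith [mn_nonneg (ν := ν) hg0 0, hg 0]
  set L := ⌈2 / ε / q⌉₊ with hL
  obtain ⟨Ψ, hΨ, G, μ, r', hμ, bG, hG0, h1, h2, h3⟩ :=
    amp ho hΓ hne hu hq (ε := ww / 5120 / (L + 1)) (by positivity) hΦ hν bg hg0 hE hg hG L
  have k1 : (1 + 2 * u) ^ L ≤ 1 + ζ := by
    have a1 : (1 + 2 * u) ^ L ≤ Real.exp (2 * u) ^ L := by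
      gcongr; linarith [Real.add_one_le_exp (2 * u)]
    rw [← Real.exp_nat_mul] at a1
    rw [← Real.exp_log (show 0 < 1 + ζ by linarith)]
    refine a1.trans (Real.exp_le_exp.2 ?_)
    have a2 : (L : ℝ) * q ≤ 2 / ε + 1 := by
      have := mul_le_mul_of_nonneg_right (Nat.ceil_lt_add_one (show 0 ≤ 2 / ε / q by positivity)).le
        hq.le
      rw [add_mul, div_mul_cancel₀ _ hq.ne'] at this
      linarith
    calc L * (2 * u) ≤ L * (2 * (Real.log (1 + ζ) / (2 * (2 / ε + 1)) * q)) := by gcongr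
      _ = Real.log (1 + ζ) / (2 / ε + 1) * (L * q) := by field_simp
      _ ≤ Real.log (1 + ζ) / (2 / ε + 1) * (2 / ε + 1) := by gcongr
      _ = _ := by field_simp
  have k2 : (1 - q / 2) ^ L ≤ ε := by
    have a1 : (1 - q / 2) ^ L ≤ Real.exp (-(q / 2)) ^ L := by
      gcongr
      · linarith
      · linarith [Real.add_one_le_exp (-(q / 2))]
    rw [← Real.exp_nat_mul] at a1
    have a2 : 2 / ε ≤ L * q := (div_le_iff₀ hq).1 (Nat.le_ceil _)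
    refine a1.trans ((Real.exp_le_exp.2 (show _ ≤ -ε⁻¹ by
      rw [div_eq_mul_inv] at a2; linarith)).trans ?_)
    rw [Real.exp_neg, inv_le_comm₀ (Real.exp_pos _) hε]
    linarith [Real.add_one_le_exp ε⁻¹]
  obtain ⟨C, c1, c2, h3⟩ := h3.mono (h' := ww / 5120) (by
    have : (L : ℝ) * (ww / 5120 / (L + 1)) ≤ ww / 5120 := by
      rw [← mul_div_assoc, div_le_iff₀ (by positivity)]; linarith
    linarith)
  have hm' := Submodule.smul_mem _ (s : ℂ) hΨ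
  refine ⟨_, hm', G, μ, r', hμ, bG, hG0, fun x => ?_, fun x => (h2 x).trans k2, C, c1, c2,
    fun x hx => ?_⟩
  · have := hμ.prob
    obtain ⟨g, hg⟩ := (Sp_BU hm' 0).bcf x
    have hmem : MemLp (fun u => ((s : ℂ) • Ψ) (x + u, 0)) ((2 * (m + 1) : ℕ) : ℝ≥0∞) μ := by
      rw [← funext hg]
      exact (g.memLp_top).mono_exponent le_top
    refine (eLpNorm_le_eLpNorm_of_exponent_le (q := ((2 * (m + 1) : ℕ) : ℝ≥0∞))
      (hm.le.trans (by exact_mod_cast (by omega))) hmem.1).trans ?_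
    rw [MemLp.eLpNorm_eq_integral_rpow_norm (by simp) (ENNReal.natCast_ne_top _) hmem]
    apply ENNReal.ofReal_le_ofReal
    simp only [ENNReal.toReal_natCast, Real.rpow_natCast, Pi.smul_apply, norm_smul, mul_pow,
      Complex.norm_real, Real.norm_of_nonneg hs0.le, integral_const_mul]
    rw [← Real.pow_rpow_inv_natCast hε.le (n := 2 * (m + 1)) (by omega)]
    gcongr
    refine (mul_le_mul_of_nonneg_left (moment hμ (Sp_BU hΨ 0)
      (fun c => (h1 c x).trans k1) m.succ_pos) (by positivity)).trans (le_of_eq ?_)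
    rw [hζ, div_pow ε s]
    clear_value s
    simp only [Nat.succ_eq_add_one]
    field_simp
  · obtain ⟨y, hy1, hy3⟩ := h3 x hx
    refine ⟨y, hy1, ?_⟩
    rw [Pi.smul_apply, norm_smul, Complex.norm_real, Real.norm_of_nonneg hs0.le]
    refine le_trans ?_ (mul_le_mul_of_nonneg_left hy3 hs0.le)
    rw [hs]
    field_simp
    linarith [le_abs_self H]

end

end Pool.Agent.Lib.MP_730078_an.G
end

-- part Pool.Agent.Lib.MP_730078_an.GGeo
section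

open MeasureTheory Set Filter Topology
open scoped ENNReal Real

namespace Pool.Agent.Lib.MP_730078_an.G

noncomputable section

variable {n : ℕ} {Γ : Set (Fin n → ℝ)}

theorem add_mem (h : Regular Γ) {σ y : Fin n → ℝ} (hσ : σ ∈ closure Γ) (hy : y ∈ Γ) : σ + y ∈ Γ := by
  have := h.2.1.combo_closure_interior_mem_interior hσ (h.1.interior_eq.symm ▸ hy)
    (a := 1 / 2) (b := 1 / 2) (by norm_num) (by norm_num) (by norm_num)
  rw [h.1.interior_eq] at this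
  simpa [smul_add, smul_smul] using h.2.2.1 2 two_pos _ this

theorem smul_mem_closure (h : Regular Γ) {s : ℝ} (hs : 0 < s) {y : Fin n → ℝ}
    (hy : y ∈ closure Γ) : s • y ∈ closure Γ :=
  map_mem_closure (f := fun y => s • y) (by fun_prop) hy (h.2.2.1 s hs)

theorem pointed (h : Regular Γ) {v : Fin n → ℝ} (h1 : v ∈ closure Γ) (h2 : -v ∈ closure Γ) :
    v = 0 := by
  by_contra hv
  obtain ⟨y, hy⟩ := closure_nonempty_iff.1 ⟨v, h1⟩
  obtain ⟨t, ht⟩ := h.2.2.2 y v hv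
  apply ht
  rw [add_comm]
  rcases lt_trichotomy t 0 with h0 | rfl | h0
  · refine add_mem h ?_ hy
    simpa using smul_mem_closure h (neg_pos.2 h0) h2
  · simpa using hy
  · exact add_mem h (smul_mem_closure h h0 h1) hy

theorem exists_e (h : Regular Γ) :
    ∃ (e : (Fin n → ℝ) →L[ℝ] ℝ) (c : ℝ), 0 < c ∧ ∀ y ∈ closure Γ, c * ‖y‖ ≤ e y := by
  have hK : IsCompact (Metric.sphere (0 : Fin n → ℝ) 1 ∩ closure Γ) :=
    (isCompact_sphere _ _).inter_right isClosed_closure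
  obtain ⟨e, h0, h1⟩ : ∃ f : (Fin n → ℝ) →L[ℝ] ℝ, (∀ y ∈ closure Γ, 0 ≤ f y) ∧
      ∀ v ∈ Metric.sphere (0 : Fin n → ℝ) 1 ∩ closure Γ, v ∈ closure Γ → 0 < f v := by
    refine hK.induction_on (p := fun s => ∃ f : (Fin n → ℝ) →L[ℝ] ℝ, (∀ y ∈ closure Γ, 0 ≤ f y) ∧
      ∀ v ∈ s, v ∈ closure Γ → 0 < f v) ⟨0, by simp, by simp⟩ ?_ ?_ ?_
    · rintro s t hst ⟨f, h1, h2⟩
      exact ⟨f, h1, fun v hv => h2 v (hst hv)⟩
    · rintro s t ⟨f, h1, h2⟩ ⟨g, h3, h4⟩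
      refine ⟨f + g, fun y hy => add_nonneg (h1 y hy) (h3 y hy), ?_⟩
      rintro v (hv | hv) hv'
      · exact add_pos_of_pos_of_nonneg (h2 v hv hv') (h3 v hv')
      · exact add_pos_of_nonneg_of_pos (h1 v hv') (h4 v hv hv')
    · rintro v ⟨hv1, hv2⟩
      have hv : -v ∉ closure Γ := fun h' => by simp [pointed h hv2 h'] at hv1
      obtain ⟨f, u, h1, h2⟩ := geometric_hahn_banach_point_closed h.2.1.closure isClosed_closure hv
      have h3 : ∀ y ∈ closure Γ, 0 ≤ f y := by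
        intro y hy
        by_contra hh
        have hh := not_le.1 hh
        have := h2 _ (smul_mem_closure h (s := (|u| + 1) / -f y)
          (div_pos (by positivity) (by linarith)) hy)
        rw [map_smul, smul_eq_mul, div_neg, neg_mul, div_mul_cancel₀ _ hh.ne] at this
        linarith [neg_abs_le u]
      have h4 : 0 < f v := by
        have a1 : Tendsto (fun s : ℝ => f (s • v)) (𝓝[>] 0) (𝓝 0) :=
          (Continuous.tendsto' (by fun_prop) 0 0 (by simp)).mono_left nhdsWithin_le_nhds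
        have a2 : u ≤ 0 := ge_of_tendsto a1 (eventually_nhdsWithin_of_forall fun s hs =>
          (h2 _ (smul_mem_closure h hs hv2)).le)
        rw [map_neg] at h1
        linarith
      exact ⟨{w | 0 < f w}, mem_nhdsWithin_of_mem_nhds
        ((isOpen_lt continuous_const f.continuous).mem_nhds h4), f, h3, fun w hw _ => hw⟩
  obtain ⟨c, hc, h2⟩ := hK.exists_forall_le' (f := e) (a := 0) e.continuous.continuousOn
    fun v hv => h1 v hv hv.2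
  refine ⟨e, c, hc, fun y hy => ?_⟩
  rcases eq_or_ne y 0 with rfl | hy0
  · simp
  have hn := norm_pos_iff.2 hy0
  have := h2 (‖y‖⁻¹ • y) ⟨by simp [norm_smul, hn.ne'], smul_mem_closure h (by positivity) hy⟩
  rw [map_smul, smul_eq_mul, ← div_eq_inv_mul, le_div_iff₀ hn] at this
  exact this

theorem cbDeriv_succ (A : Set (Fin n → ℝ)) (k : ℕ) :
    cbDeriv A (k + 1) = cbDeriv A k ∩ derivedSet (cbDeriv A k) :=
  Function.iterate_succ_apply' _ _ _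

theorem cbDeriv_subset (A : Set (Fin n → ℝ)) (k : ℕ) : cbDeriv A k ⊆ A := by
  induction k with
  | zero => exact Subset.rfl
  | succ k ih => rw [cbDeriv_succ]; exact inter_subset_left.trans ih

theorem exposed_spec {ω : Fin n → ℝ} (h : ω ∈ exposedRays Γ) : ω ∈ closure Γ ∧
    ∃ l : (Fin n → ℝ) →L[ℝ] ℝ, l ω = 0 ∧
      ∀ y ∈ closure Γ, 0 < l y ∨ ∃ t : ℝ, y = t • ω := by
  obtain ⟨l, hl⟩ := h.2 ⟨0, 0, le_rfl, by simp⟩
  have h0 : (0 : Fin n → ℝ) ∈ {x ∈ closure Γ | ∀ y ∈ closure Γ, l y ≤ l x} :=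
    hl ▸ ⟨0, le_rfl, by simp⟩
  have h1 : ω ∈ {x ∈ closure Γ | ∀ y ∈ closure Γ, l y ≤ l x} := hl ▸ ⟨1, zero_le_one, by simp⟩
  have h2 : ∀ y ∈ closure Γ, l y ≤ 0 := by simpa using h0.2
  refine ⟨h1.1, -l, by simpa using le_antisymm (h2 ω h1.1) (by simpa using h1.2 0 h0.1),
    fun y hy => ?_⟩
  rcases (h2 y hy).lt_or_eq with h3 | h3
  · exact Or.inl (by simpa using h3)
  · have : y ∈ {x ∈ closure Γ | ∀ y ∈ closure Γ, l y ≤ l x} := ⟨hy, by rw [h3]; exact h2⟩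
    rw [← hl] at this
    exact Or.inr (this.imp fun t ht => ht.2)

theorem frame (h : Regular Γ) {k : ℕ} (hk : (cbDeriv (exposedRays Γ) k).Nonempty) :
    Γ.Nonempty ∧ Frame Γ k := by
  obtain ⟨e, c, hc, he⟩ := exists_e h
  obtain ⟨ω₀, hω₀⟩ := hk
  have hω₁ := cbDeriv_subset _ _ hω₀
  obtain ⟨y₀, hy₀⟩ := closure_nonempty_iff.1 ⟨_, (exposed_spec hω₁).1⟩
  have hpos : ∀ ω ∈ exposedRays Γ, 0 < e ω := fun ω hω => by
    have := he ω (exposed_spec hω).1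
    rw [hω.1] at this
    linarith
  refine ⟨⟨y₀, hy₀⟩, {y ∈ closure Γ | e y = 1}, e,
    fun j => (fun ω => (e ω)⁻¹ • ω) '' cbDeriv (exposedRays Γ) j, y₀, ?_, fun y hy => hy.2, ?_, ?_,
    ⟨_, ω₀, hω₀, rfl⟩, fun y hy => ?_, fun σ hσ κ hκ => add_mem h hσ.1 (h.2.2.1 κ hκ _ hy₀)⟩
  · refine Metric.isCompact_of_isClosed_isBounded
      (isClosed_closure.inter (isClosed_eq e.continuous continuous_const))
      (isBounded_iff_forall_norm_le.2 ⟨1 / c, fun y hy => ?_⟩)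
    rw [le_div_iff₀' hc]
    exact (he y hy.1).trans hy.2.le
  · rintro j _ ⟨ω, hω, rfl⟩
    have hω := cbDeriv_subset _ _ hω
    have h0 := hpos ω hω
    obtain ⟨h1, l, h2, h3⟩ := exposed_spec hω
    refine ⟨⟨smul_mem_closure h (by positivity) h1, by simp [h0.ne']⟩, l, by simp [h2],
      fun y hy hne => (h3 y hy.1).resolve_right ?_⟩
    rintro ⟨t, rfl⟩
    have := hy.2
    rw [map_smul, smul_eq_mul] at this
    exact hne (by rw [eq_inv_of_mul_eq_one_left this])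
  · rintro j _ ⟨ω, hω, rfl⟩
    rw [cbDeriv_succ] at hω
    have hω' := cbDeriv_subset _ _ hω.1
    refine ⟨⟨ω, hω.1, rfl⟩, fun r hr => ?_⟩
    have hcont : ContinuousAt (fun ω => (e ω)⁻¹ • ω) ω :=
      (e.continuous.continuousAt.inv₀ (hpos ω hω').ne').smul continuousAt_id
    obtain ⟨ω', ⟨h1, h2⟩, h3⟩ := accPt_iff_nhds.1 hω.2 _ (hcont (Metric.closedBall_mem_nhds _ hr))
    have hω'' := cbDeriv_subset _ _ h2
    refine ⟨_, ⟨ω', h2, rfl⟩, fun h4 => h3 ?_, mem_closedBall_iff_norm.1 h1⟩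
    have h5 := congrArg norm h4
    simp only [norm_smul, hω'.1, hω''.1, mul_one, Real.norm_of_nonneg (inv_pos.2 (hpos ω hω')).le,
      Real.norm_of_nonneg (inv_pos.2 (hpos _ hω'')).le] at h5
    simp only [h5] at h4
    exact smul_right_injective _ (inv_pos.2 (hpos ω hω')).ne' h4
  · have h1 : ∀ᶠ s : ℝ in 𝓝[>] 0, y - s • ω₀ ∈ Γ :=
      ((Continuous.tendsto' (f := fun s : ℝ => y - s • ω₀) (by fun_prop) 0 y (by simp)).eventually
        (h.1.mem_nhds hy)).filter_mono nhdsWithin_le_nhds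
    obtain ⟨s, h2, hs⟩ := (h1.and self_mem_nhdsWithin).exists
    have h3 := he _ (subset_closure h2)
    rw [map_sub, map_smul, smul_eq_mul] at h3
    have h4 : 0 < e y := by
      have := mul_pos (show 0 < s from hs) (hpos _ hω₁)
      have := mul_nonneg hc.le (norm_nonneg (y - s • ω₀))
      linarith
    exact ⟨e y, h4, (e y)⁻¹ • y, ⟨smul_mem_closure h (by positivity) (subset_closure hy),
      by simp [h4.ne']⟩, by simp [smul_smul, h4.ne']⟩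

theorem Blk.pull {m : ℕ} {Γ' : Set (Fin m → ℝ)} (ho : IsOpen Γ) (ho' : IsOpen Γ')
    (hne : Γ'.Nonempty) (hE : Exhausts Γ Γ') {p : ℝ≥0∞} {H ε : ℝ} (h : Blk Γ' p H ε) :
    Blk Γ p H ε := by
  obtain ⟨Φ, hΦ, G, ν, r, hν, bG, nG, h1, h2, C, c1, c2, h3⟩ := h
  obtain ⟨y₀, hy₀⟩ := hne
  obtain ⟨δ, hδ, hb⟩ := Metric.nhds_basis_closedBall.mem_iff.1 (ho'.mem_nhds hy₀)
  obtain ⟨Λ₀, hΛ1, hΛ2⟩ := hE _ (c1.union (isCompact_closedBall y₀ δ)) (union_subset c2 hb)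
  let Λ : (Fin n → ℝ) →L[ℝ] (Fin m → ℝ) := LinearMap.toContinuousLinearMap Λ₀
  have hsurj : Λ.range = ⊤ := by
    refine Submodule.eq_top_of_nonempty_interior' _ ⟨y₀, mem_interior_iff_mem_nhds.2
      (mem_of_superset (Metric.closedBall_mem_nhds y₀ hδ) fun y hy => ?_)⟩
    obtain ⟨x, -, rfl⟩ := hΛ1 (Or.inr hy)
    exact ⟨x, rfl⟩
  obtain ⟨S, hS⟩ := Λ.exists_rightInverse_of_surjective hsurj
  have hS' : ∀ u, Λ (S u) = u := fun u => congr($hS u)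
  obtain ⟨C', c1', c2', c3'⟩ : ∃ C', IsCompact C' ∧ C' ⊆ Γ ∧ C ⊆ Λ '' C' := by
    refine c1.induction_on (p := fun s => ∃ C', IsCompact C' ∧ C' ⊆ Γ ∧ s ⊆ Λ '' C')
      ⟨∅, isCompact_empty, empty_subset _, empty_subset _⟩ ?_ ?_ ?_
    · rintro s t hst ⟨C', a1, a2, a3⟩
      exact ⟨C', a1, a2, hst.trans a3⟩
    · rintro s t ⟨C', a1, a2, a3⟩ ⟨C'', b1, b2, b3⟩
      exact ⟨C' ∪ C'', a1.union b1, union_subset a2 b2, image_union _ _ _ ▸ union_subset_union a3 b3⟩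
    · intro y hy
      obtain ⟨x, hx, rfl⟩ := hΛ1 (Or.inl hy)
      obtain ⟨η, hη, hb⟩ := Metric.nhds_basis_closedBall.mem_iff.1 (ho.mem_nhds hx)
      refine ⟨(fun z => x + S (z - Λ x)) ⁻¹' Metric.closedBall x η, mem_nhdsWithin_of_mem_nhds
        (Continuous.tendsto' (by fun_prop) _ x (by simp [Λ]) (Metric.closedBall_mem_nhds x hη)),
        _, isCompact_closedBall x η, hb, fun z hz => ⟨_, hz, by simp [hS']⟩⟩
  refine ⟨pb Λ Φ, pb_mem (fun y hy => hΛ2 ⟨y, hy, rfl⟩) hΦ, fun x => G (Λ x), ν.map S, _,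
    hν.map S, bG.precomp Λ.uniformContinuous, fun x => nG _, fun x => ?_,
    fun x => (mn_map ν hS' bG.cont x).trans_le (h2 _), C', c1', c2', fun x hx => ?_⟩
  · have := (Sp_BU (pb_mem (fun y hy => hΛ2 ⟨y, hy, rfl⟩) hΦ : pb Λ Φ ∈ Sp (S1 Γ)) 0).cont
    rw [eLpNorm_map_measure (g := fun u => pb Λ Φ (x + u, 0))
      (this.comp (continuous_const.add continuous_id)).aestronglyMeasurable (by fun_prop)]
    simpa [Function.comp_def, pb, hS'] using h1 (Λ x)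
  · obtain ⟨y, hy, h4⟩ := h3 _ hx
    obtain ⟨y', hy', rfl⟩ := c3' hy
    exact ⟨y', hy', h4⟩

end

end Pool.Agent.Lib.MP_730078_an.G
end

-- part Pool.Agent.Lib.MP_730078_an.GLift
section

open MeasureTheory Set Filter Topology Complex
open scoped ENNReal Real

namespace Pool.Agent.Lib.MP_730078_an.G

noncomputable section

variable {n : ℕ}

def reP (z : Fin n → ℂ) : Fin n → ℝ := fun j => (z j).re
def imP (z : Fin n → ℂ) : Fin n → ℝ := fun j => (z j).im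

@[simp] theorem reP_pt (x y : Fin n → ℝ) : reP (pt x y) = x := by funext j; simp [reP, pt]
@[simp] theorem imP_pt (x y : Fin n → ℝ) : imP (pt x y) = y := by funext j; simp [imP, pt]

@[fun_prop] theorem continuous_imP : Continuous (imP (n := n)) := by unfold imP; fun_prop

def lift (f : (Fin n → ℝ) × (Fin n → ℝ) → ℂ) (z : Fin n → ℂ) : ℂ := f (reP z, imP z)

/-- Complexification of a linear form. -/
def cx (t : (Fin n → ℝ) →L[ℝ] ℝ) : (Fin n → ℂ) →L[ℂ] ℂ :=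
  ∑ i, (t fun j => if i = j then 1 else 0 : ℂ) • ContinuousLinearMap.proj i

theorem cx_apply (t : (Fin n → ℝ) →L[ℝ] ℝ) (z : Fin n → ℂ) :
    cx t z = t (reP z) + t (imP z) * I := by
  have h : ∀ x : Fin n → ℝ, t x = ∑ i, x i * t fun j => if i = j then 1 else 0 := fun x =>
    LinearMap.pi_apply_eq_sum_univ (t : (Fin n → ℝ) →ₗ[ℝ] ℝ) x
  rw [h, h (imP z)]
  simp only [cx, sum_apply, smul_apply, ContinuousLinearMap.proj_apply,
    smul_eq_mul, reP, imP, ofReal_sum, ofReal_mul, Finset.sum_mul, ← Finset.sum_add_distrib]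
  refine Finset.sum_congr rfl fun i _ => ?_
  conv_lhs => rw [← re_add_im (z i)]
  ring

theorem lift_ef (t : (Fin n → ℝ) →L[ℝ] ℝ) (z : Fin n → ℂ) :
    lift (ef t) z = cexp (((2 * π * I : ℂ) • cx t) z) := by
  simp only [lift, ef, e1_coe, ← Complex.exp_add, smul_apply, cx_apply, smul_eq_mul]
  congr 1
  linear_combination (-(2 * π * t (imP z)) : ℂ) * I_mul_I

theorem lift_dl (N : ℝ) (f : (Fin n → ℝ) × (Fin n → ℝ) → ℂ) (z : Fin n → ℂ) :
    lift (pb (dl N) f) z = lift f ((N : ℂ) • z) := by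
  simp only [lift, pb, dl_apply]
  congr 2 <;> funext j <;> simp [reP, imP]

theorem imP_smul (N : ℝ) (z : Fin n → ℂ) : imP ((N : ℂ) • z) = N • imP z := by
  funext j; simp [imP]

theorem Sp_decay {Γ : Set (Fin n → ℝ)} {f : (Fin n → ℝ) × (Fin n → ℝ) → ℂ} (hf : f ∈ Sp (S1 Γ)) :
    ∃ γ A : ℝ, 0 < γ ∧ 0 ≤ A ∧
      (∀ c, 0 < c → ∀ y, Metric.ball y c ⊆ Γ → ∀ x, ‖f (x, y)‖ ≤ A * Real.exp (-(γ * c))) ∧
      ∃ f' : (Fin n → ℂ) → (Fin n → ℂ) →L[ℂ] ℂ, (∀ z, HasFDerivAt (lift f) (f' z) z) ∧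
        ∀ c, 0 < c → ∀ z, Metric.ball (imP z) c ⊆ Γ → ‖f' z‖ ≤ A * Real.exp (-(γ * c)) := by
  obtain ⟨γ, hγ, hf⟩ := Sp_gap hf
  refine ⟨γ, ?_⟩
  simp only [hγ, true_and]
  refine Sp_induction (P := fun f => ∃ A : ℝ, 0 ≤ A ∧
      (∀ c, 0 < c → ∀ y, Metric.ball y c ⊆ Γ → ∀ x, ‖f (x, y)‖ ≤ A * Real.exp (-(γ * c))) ∧
      ∃ f' : (Fin n → ℂ) → (Fin n → ℂ) →L[ℂ] ℂ, (∀ z, HasFDerivAt (lift f) (f' z) z) ∧
        ∀ c, 0 < c → ∀ z, Metric.ball (imP z) c ⊆ Γ → ‖f' z‖ ≤ A * Real.exp (-(γ * c)))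
    ?_ ?_ ?_ ?_ hf
  · intro t ht
    have hb : ∀ c, 0 < c → ∀ y, Metric.ball y c ⊆ Γ → ∀ x,
        ‖ef t (x, y)‖ ≤ Real.exp (-(γ * c)) := by
      intro c hc y hy x
      rw [norm_ef, Real.exp_le_exp]
      have := ht c hc y hy
      have := mul_pos hγ hc
      nlinarith [Real.pi_gt_three]
    set L := (2 * π * I : ℂ) • cx t
    refine ⟨1 + ‖L‖, by positivity, ?_, fun z => cexp (L z) • L, ?_, ?_⟩
    · intro c hc y hy x
      have := hb c hc y hy x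
      have h2 : 0 ≤ ‖L‖ * Real.exp (-(γ * c)) := by positivity
      linarith
    · intro z
      rw [show lift (ef t) = fun z => cexp (L z) from funext (lift_ef t)]
      exact L.hasFDerivAt.cexp
    · intro c hc z hz
      rw [norm_smul, ← lift_ef]
      have h2 : 0 ≤ Real.exp (-(γ * c)) := by positivity
      calc ‖lift (ef t) z‖ * ‖L‖ ≤ Real.exp (-(γ * c)) * ‖L‖ :=
            mul_le_mul_of_nonneg_right (hb c hc _ hz _) (norm_nonneg _)
        _ ≤ _ := by nlinarith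
  · refine ⟨0, le_rfl, by simp, fun _ => 0, fun z => ?_, by simp⟩
    exact hasFDerivAt_const (0 : ℂ) z
  · rintro f g ⟨A, hA, h1, f', h2, h3⟩ ⟨B, hB, k1, g', k2, k3⟩
    refine ⟨A + B, by positivity, ?_, fun z => f' z + g' z, fun z => (h2 z).add (k2 z), ?_⟩
    · intro κ hκ y hy x
      rw [add_mul]
      exact norm_add_le_of_le (h1 κ hκ y hy x) (k1 κ hκ y hy x)
    · intro κ hκ z hz
      rw [add_mul]
      exact norm_add_le_of_le (h3 κ hκ z hz) (k3 κ hκ z hz)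
  · rintro c f ⟨A, hA, h1, f', h2, h3⟩
    refine ⟨‖c‖ * A, by positivity, ?_, fun z => c • f' z, fun z => (h2 z).const_smul c, ?_⟩
    · intro κ hκ y hy x
      rw [Pi.smul_apply, norm_smul, mul_assoc]
      exact mul_le_mul_of_nonneg_left (h1 κ hκ y hy x) (norm_nonneg _)
    · intro κ hκ z hz
      rw [norm_smul, mul_assoc]
      exact mul_le_mul_of_nonneg_left (h3 κ hκ z hz) (norm_nonneg _)

theorem scales (A B γ κ : ℕ → ℝ) (hγ : ∀ k, 0 < γ k) (hκ : ∀ k, 0 < κ k) :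
    ∃ N ε : ℕ → ℝ, (∀ l, 0 < N l) ∧ (∀ l, ε l ≤ 1 / (l + 1)) ∧
      (∀ k l, k < l → ε l ≤ (N k)⁻¹ * κ k) ∧ (∀ l, B l ≤ (1 / 2) ^ l * N l) ∧
      ∀ l, A l * N l * Real.exp (-(γ l * (N l * ε l))) ≤ (1 / 2) ^ l := by
  obtain ⟨N, ε, h1, h2, h3, -, h4, h5⟩ := exists_scales (fun l => A l / γ l) (fun l => B l * γ l)
    (fun l => κ l * γ l) fun l => mul_pos (hκ l) (hγ l)
  have h0 : ∀ l, (0 : ℝ) < N l := fun l => by exact_mod_cast h1 l
  refine ⟨fun l => N l / γ l, ε, fun l => div_pos (h0 l) (hγ l), h2,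
    fun k l h => (h3 k l h).trans (le_of_eq ?_), fun l => ?_, fun l => le_trans (le_of_eq ?_) (h5 l)⟩
  · field_simp
  · rw [← mul_div_assoc, le_div_iff₀ (hγ l)]; exact h4 l
  · have := (hγ l).ne'
    congr 1
    · field_simp
    · congr 2; field_simp

/-- The measure `μ` is controlled by local means at unit scale. -/
def Avg (μ : Measure (Fin n → ℝ)) (D : ℝ≥0∞) : Prop :=
  ∀ f : (Fin n → ℝ) → ℝ≥0∞, Measurable f → ∀ ν, Av 0 1 ν → ∀ c, (∀ x, ∫⁻ u, f (x + u) ∂ν ≤ c) →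
    ∫⁻ x, f x ∂μ ≤ D * c

theorem Avg.eLp {μ ν : Measure (Fin n → ℝ)} {D : ℝ≥0∞} (h : Avg μ D) (hν : Av 0 1 ν)
    {g : (Fin n → ℝ) → ℂ} (hg : Continuous g) {p a : ℝ≥0∞} (hp0 : p ≠ 0) (hp : p ≠ ∞)
    (ha : ∀ x, eLpNorm (fun u => g (x + u)) p ν ≤ a) :
    eLpNorm g p μ ≤ D ^ (1 / p.toReal) * a := by
  have h0 := ENNReal.toReal_pos hp0 hp
  simp only [eLpNorm_eq_lintegral_rpow_enorm_toReal hp0 hp] at ha ⊢
  refine (ENNReal.rpow_le_rpow (h _ (hg.measurable.enorm.pow_const _) ν hν (a ^ p.toReal)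
    fun x => ?_) (by positivity)).trans (le_of_eq ?_)
  · have := ENNReal.rpow_le_rpow (ha x) h0.le
    rwa [← ENNReal.rpow_mul, one_div_mul_cancel h0.ne', ENNReal.rpow_one] at this
  · rw [ENNReal.mul_rpow_of_nonneg _ _ (by positivity), ← ENNReal.rpow_mul,
      mul_one_div_cancel h0.ne', ENNReal.rpow_one]

theorem Avg.meas {μ ν : Measure (Fin n → ℝ)} {D : ℝ≥0∞} (h : Avg μ D) (hν : Av 0 1 ν)
    {g : (Fin n → ℝ) → ℝ} (hg : BU g) (hg0 : ∀ x, 0 ≤ g x) {a : ℝ} (ha : ∀ x, mn ν g x ≤ a) :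
    μ {x | 1 ≤ g x} ≤ D * ENNReal.ofReal a := by
  have := hν.prob
  have hm : Measurable fun x => ENNReal.ofReal (g x) := hg.cont.measurable.ennreal_ofReal
  refine le_trans ?_ (h _ hm ν hν _ fun x => ?_)
  · simpa using mul_meas_ge_le_lintegral (μ := μ) hm 1
  · rw [← ofReal_integral_eq_lintegral_ofReal (hg.intg ν x) (Eventually.of_forall fun _ => hg0 _)]
    exact ENNReal.ofReal_le_ofReal (ha x)

end

end Pool.Agent.Lib.MP_730078_an.G
end
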