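import Pool.Agent.Lib.MP_730078_an.GDefs

open MeasureTheory
open scoped ENNReal

namespace Pool.Agent.Lib.MP_730078_an

/-- Membership in the Hardy space `H^p` of the tube over `Γ`, `0 < p ≤ ∞`. -/
def MemHp {n : ℕ} (Γ : Set (Fin n → ℝ)) (p : ℝ≥0∞) (F : (Fin n → ℂ) → ℂ) : Prop :=
  DifferentiableOn ℂ F (tube Γ) ∧
    (p = ∞ → ∃ C : ℝ, ∀ z ∈ tube Γ, ‖F z‖ ≤ C) ∧
    (p ≠ ∞ → ⨆ y ∈ Γ, ∫⁻ x : Fin n → ℝ, ‖F (pt x y)‖ₑ ^ p.toReal < ∞)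

end Pool.Agent.Lib.MP_730078_an
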