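import Pool.Agent.Lib.MP_730078_an.HTree2
import Pool.Agent.Lib.MP_730078_an.GLift
import Pool.Agent.Lib.MP_730078_an.HDefs

-- part Pool.Agent.Lib.MP_730078_an.HSeed
section

open MeasureTheory Set Filter Topology Complex ComplexConjugate
open scoped ENNReal Real

namespace Pool.Agent.Lib.MP_730078_an.G.H

noncomputable section

section

variable {E : Type*} [NormedAddCommGroup E] [NormedSpace ℝ E] [MeasurableSpace E] [BorelSpace E]
  [SecondCountableTopology E]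

/-- A bounded exponential polynomial with small local mean square which is tall off a set of
local density at most `v`. -/
def Sd (Γ : Set E) (u v h : ℝ) : Prop :=
  ∃ Φ ∈ Sp (S1 Γ), ∃ (g : E → ℝ) (ν : Measure E) (r : ℝ), Av 0 r ν ∧ BU g ∧ (∀ x, 0 ≤ g x) ∧
    Lt1 Φ ∧ (∀ x, mn ν (fun x => ‖Φ (x, 0)‖ ^ 2) x ≤ u) ∧ (∀ x, mn ν g x ≤ v) ∧ Tall Γ h Φ g

theorem ww_le' : ww ≤ 1 / 256 := by
  have h1 : Real.exp 6 = Real.exp 1 ^ 6 := by rw [← Real.exp_nat_mul]; norm_num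
  have h2 : (2.7 : ℝ) ^ 6 ≤ Real.exp 1 ^ 6 := by
    gcongr; linarith [Real.exp_one_gt_d9]
  have h3 : Real.exp 6 ≤ Real.exp (2 * π) := Real.exp_le_exp.2 (by linarith [Real.pi_gt_three])
  rw [ww, Real.exp_neg, inv_eq_one_div]
  exact one_div_le_one_div_of_le (by norm_num) (by linarith [show (256 : ℝ) ≤ 2.7 ^ 6 by norm_num])

omit [MeasurableSpace E] [BorelSpace E] [SecondCountableTopology E] in
theorem BU_sq {S : Set (E →L[ℝ] ℝ)} {f : E × E → ℂ} (hf : f ∈ Sp S) :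
    BU fun x => ‖f (x, 0)‖ ^ 2 := (Sp_BU hf 0).comp (φ := fun z => ‖z‖ ^ 2) (by fun_prop)

theorem seed_n {K : Measure ℝ} [IsProbabilityMeasure K] {C : ℝ} (hC1 : 1 ≤ C) (hO : Outer E K C)
    {Γ : Set E} {n : ℕ} (hn : 0 < n) (hF : Frame Γ n) :
    Sd Γ (1 / (40 * n)) (1 - Real.log (1 + n) / (100000 * n)) (ww / (96000 * C)) := by
  obtain ⟨Ω, e, Q, y₀, hΩ, he, hQ, hQ', ⟨ω, hω⟩, hΓ, hy₀⟩ := hF
  have hn' : (0 : ℝ) < n := by exact_mod_cast hn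
  have hw := ww_pos
  have hl0 : (0 : ℝ) < 1 / (3000 * C * n) := by positivity
  have hl : C * (n * (1 / (3000 * C * n) : ℝ)) = 1 / 3000 := by field_simp
  have hn1 : (1 : ℝ) ≤ n := by exact_mod_cast hn
  generalize (1 / (3000 * C * n) : ℝ) = l at hl0 hl
  have hl2 : n * l ≤ 1 / 3000 := by nlinarith [mul_pos hn' hl0]
  have hl1 : l ≤ 1 / 3000 := by nlinarith
  obtain ⟨Φ, Y, B, Z, ν, h⟩ := exists_inv hC1 hO hΩ he hQ hQ' hl0 n (by linarith) ω hω (n * l ^ 2)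
    (by positivity) 0 0 (Submodule.zero_mem _) ⟨0, one_pos, by simp⟩ (fun _ => l)
    (Sp_const (mem_univ _) _) (by simp [abs_of_pos hl0])
  have eq : 0 + (fun _ => (l : ℂ)) * Φ = (l : ℂ) • Φ := by funext w; simp
  have hlt := h.lt
  have hpot := h.pot
  have hB := h.iB
  have c := h.cnt
  rw [eq] at hlt hpot
  simp only [Pi.zero_apply, Ps_zero, pa, integral_zero, zero_add, Complex.norm_real,
    Real.norm_of_nonneg hl0.le, mul_zero, add_zero] at hpot hB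
  let θ : TT → ℝ := fun T => (5000 * n : ℝ)⁻¹ * (1 + n * ‖T‖)⁻¹
  have ci : Continuous fun T : TT => (1 + n * ‖T‖)⁻¹ :=
    Continuous.inv₀ (by fun_prop) fun t => by positivity
  have cθ : Continuous θ := continuous_const.mul ci
  have hθ : ∀ T, 0 < θ T := fun T => by positivity
  have hmem : (l : ℂ) • Φ ∈ Sp (S1 Γ) := by
    refine Submodule.smul_mem _ _ (Sp_mono (fun t ht y hy => ?_) h.mem)
    obtain ⟨s, hs, σ, hσ, rfl⟩ := hΓ y hy
    rw [map_smul]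
    exact mul_pos hs (lt_of_lt_of_le (by positivity) (ht σ hσ).1)
  have h0 := av_seg (e := (0 : E →L[ℝ] ℝ)) (v := ω) rfl
  have bg : BU fun x => (1 - θ (e x : ℝ) * (Y x - B x - n / 8 * Z x)) ^ 2 :=
    (BU_pj e e (p := fun q => θ q.2) (by fun_prop)).comp2 (c.bY.pair (h.bB.pair c.bZ))
      (φ := fun q => (1 - q.1 * (q.2.1 - q.2.2.1 - n / 8 * q.2.2.2)) ^ 2) (by fun_prop)
  refine ⟨_, hmem, _, seg ω ∗ ν, _, h0.conv h.av.zero, bg, fun x => sq_nonneg _, hlt,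
    fun x => ?_, fun x => ?_, ?_⟩
  · have b := BU_sq hmem
    rw [h0.mn_conv h.av.zero b, ← h0.const (1 / (40 * n)) x]
    refine h0.le (h.av.BU b) (BU.const _) fun y _ => ?_
    refine (h.av.le b (hlt.BU hmem) fun y _ => sq_le_Ps (hlt.lt y)).trans ((hpot y).trans ?_)
    rw [le_div_iff₀ (by positivity)]
    nlinarith [mul_pos hn' hl0]
  · have bφ := BU_pj e e (p := fun q => 1 - 1 / 100000 * (1 + n * ‖q.2‖)⁻¹)
      (continuous_const.sub (continuous_const.mul (ci.comp continuous_snd)))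
    rw [h0.mn_conv h.av.zero bg]
    refine (h0.le (h.av.BU bg) bφ fun y _ => ?_).trans ?_
    · set T : TT := ((e y : ℝ) : TT) with hT
      have sq : BU fun x => Z x ^ 2 := c.bZ.comp (φ := fun s => s ^ 2) (by fun_prop)
      have b1 := (BU.const (-(2 * θ T))).mul c.bY
      have b2 := (BU.const (θ T * n / 4)).mul c.bZ
      have b3 := (BU.const (49 * (θ T * n) ^ 2)).mul sq
      have b4 := (BU.const (2 * θ T)).mul h.bB
      have h1 := h.av.le bg (((((BU.const 1).add b1).add b2).add b3).add b4) (x := y)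
        fun v hv => by
          have k1 := c.Y0 v
          have k2 := c.YZ v
          have k3 := mul_nonneg hn'.le (c.Z0 v)
          have k4 : (Y v - B v - n / 8 * Z v) ^ 2 ≤ (7 * n * Z v) ^ 2 :=
            sq_le_sq' (by linarith [h.BZ v]) (by linarith [h.B0 v])
          have k5 := mul_le_mul_of_nonneg_left k4 (sq_nonneg (θ T))
          rw [hv, ← hT]
          linarith
      rw [h.av.add ((((BU.const 1).add b1).add b2).add b3) b4,
        h.av.add (((BU.const 1).add b1).add b2) b3, h.av.add ((BU.const 1).add b1) b2,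
        h.av.add (BU.const 1) b1, h.av.const, mn_mul, mn_mul, mn_mul, mn_mul] at h1
      have k1 := mul_le_mul_of_nonneg_left (c.iY y) (hθ T).le
      have k2 : mn ν Z y ≤ 201 / 200 := by nlinarith [c.iZ1 y]
      have k3 := mul_le_mul_of_nonneg_left k2 (mul_pos (hθ T) hn').le
      have k4 : mn ν (fun x => Z x ^ 2) y ≤ 5 * (1 + n * ‖T‖) := by nlinarith [c.iZ2 y]
      have k5 := mul_le_mul_of_nonneg_left k4 (sq_nonneg (θ T * n))
      have k9 : mn ν B y ≤ n * (29 / 400) := (hB y).trans (by gcongr; linarith)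
      have k10 := mul_le_mul_of_nonneg_left k9 (hθ T).le
      have hT : 0 < 1 + n * ‖T‖ := by positivity
      have k6 : θ T * n = 1 / 5000 * (1 + n * ‖T‖)⁻¹ := by simp only [θ]; field_simp
      have k7 : (θ T * n) ^ 2 * (5 * (1 + n * ‖T‖)) = 1 / 5000000 * (1 + n * ‖T‖)⁻¹ := by
        rw [k6]; field_simp; norm_num
      have k8 := inv_pos.2 hT
      change _ ≤ 1 - 1 / 100000 * (1 + n * ‖T‖)⁻¹
      linarith
    · rw [mn_seg bφ.cont (φ := fun T => 1 - 1 / 100000 * (1 + n * ‖T‖)⁻¹) (a := e x)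
        (fun s => by simp [pj, he ω (hQ _ _ hω).1]),
        integral_sub (integrable_const _) (intg (by fun_prop)), integral_const_mul]
      have := log_le_int hn'
      have e : Real.log (1 + n) / (100000 * n) = 1 / 100000 * (Real.log (1 + n) / n) := by
        field_simp
      simp only [integral_const, probReal_univ, smul_eq_mul, mul_one]
      linarith
  · have h1 : Tendsto (fun κ : ℝ => κ • y₀) (𝓝[>] 0) (𝓝 0) :=
      (Continuous.tendsto' (by fun_prop) 0 0 (by simp)).mono_left nhdsWithin_le_nhds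
    obtain ⟨κ, hκ, hκ0⟩ := ((h1.eventually (Sp_near h.mem hΩ (ε := ww * n / 64)
      (by positivity))).and self_mem_nhdsWithin).exists
    refine ⟨(fun σ => σ + κ • y₀) '' Ω, hΩ.image (by fun_prop), ?_, fun x hx => ?_⟩
    · rintro _ ⟨σ, hσ, rfl⟩
      exact hy₀ σ hσ κ hκ0
    have h1 : 0 < Y x - B x - n / 8 * Z x := by
      by_contra hh
      have := mul_nonpos_of_nonneg_of_nonpos (hθ (e x : ℝ)).le (not_lt.1 hh)
      simp only at hx
      nlinarith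
    obtain ⟨σ, hσ, -, h2⟩ := h.ht _ _ h1
    have h3 : (conj (e1 (e x : ℝ)) * Φ (x, σ)).re ≤ ‖Φ (x, σ)‖ := by
      refine (Complex.re_le_norm _).trans (le_of_eq ?_)
      rw [norm_mul, Complex.norm_conj, norm_e1, one_mul]
    have h4 := hκ σ hσ x
    have h5 := norm_sub_norm_le (Φ (x, σ)) (Φ (x, σ + κ • y₀))
    rw [norm_sub_rev] at h5
    refine ⟨_, ⟨σ, hσ, rfl⟩, ?_⟩
    rw [Pi.smul_apply, norm_smul, Complex.norm_real, Real.norm_of_nonneg hl0.le]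
    have h6 : ww * n / 32 ≤ ‖Φ (x, σ + κ • y₀)‖ := by
      have := mul_le_mul_of_nonneg_left ww_le' (mul_pos hw hn').le
      linarith
    refine le_trans (le_of_eq ?_) (mul_le_mul_of_nonneg_left h6 hl0.le)
    field_simp
    linarith

/-- Frequencies in a shifted dual cone. -/
def S3 (Γ : Set E) (γ : ℝ) : Set (E →L[ℝ] ℝ) := {t | ∀ y ∈ Γ, γ * ‖y‖ ≤ t y}

/-- A seed with a spectral gap and with local mean zero. -/
def Sd' (Γ : Set E) (u v h : ℝ) : Prop :=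
  ∃ γ > 0, ∃ Φ ∈ Sp (S3 Γ γ), ∃ g : E → ℝ, BU g ∧ (∀ x, 0 ≤ g x) ∧ Lt1 Φ ∧ Tall Γ h Φ g ∧
    ∀ ε > 0, ∃ (ν : Measure E) (r : ℝ), Av 0 r ν ∧ (∀ x, mn ν (fun x => ‖Φ (x, 0)‖ ^ 2) x ≤ u) ∧
      (∀ x, mn ν g x ≤ v) ∧ ∀ c : ℂ, ‖c‖ ≤ 1 → ∀ x, mn ν (fun x => (c * Φ (x, 0)).re) x ≤ ε

omit [MeasurableSpace E] [BorelSpace E] [SecondCountableTopology E] in
theorem seg_zero {y : E} {f : E × E → ℂ} (hf : f ∈ Sp {t : E →L[ℝ] ℝ | 0 < t y}) :
    ∃ A : ℝ, ∀ L : ℝ, 0 < L → ∀ x, ‖∫ s in (0 : ℝ)..1, f (x + s • L • y, 0)‖ ≤ A / L := by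
  have ii : ∀ {f : E × E → ℂ}, f ∈ Sp {t : E →L[ℝ] ℝ | 0 < t y} → ∀ (L : ℝ) (x : E),
      IntervalIntegrable (fun s : ℝ => f (x + s • L • y, 0)) volume 0 1 := fun hf L x =>
    ((Sp_BU hf 0).cont.comp (f := fun s : ℝ => x + s • L • y) (by fun_prop)).intervalIntegrable _ _
  refine (Sp_induction (P := fun f => f ∈ Sp {t : E →L[ℝ] ℝ | 0 < t y} ∧ ∃ A : ℝ, ∀ L : ℝ, 0 < L →
    ∀ x, ‖∫ s in (0 : ℝ)..1, f (x + s • L • y, 0)‖ ≤ A / L) ?_ ?_ ?_ ?_ hf).2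
  · intro t ht
    have h0 : 0 < t y := ht
    refine ⟨ef_mem ht, 2 / (2 * π * t y), fun L hL x => ?_⟩
    have hc : ‖(2 * π * I * t (L • y) : ℂ)‖ = 2 * π * t y * L := by
      simp [abs_of_pos Real.pi_pos, abs_of_pos h0, abs_of_pos hL]; ring
    have hp : 0 < 2 * π * t y * L := by positivity
    have e : ∀ s : ℝ, ef t (x + s • L • y, 0) =
        e1 (t x : ℝ) * cexp (2 * π * I * t (L • y) * s) := fun s => by
      simpa using ef_line t x (L • y) s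
    simp only [e]
    rw [intervalIntegral.integral_const_mul, integral_exp_mul_complex (norm_pos_iff.1 (hc ▸ hp)),
      norm_mul, norm_e1, one_mul, norm_div, hc, div_div]
    gcongr
    refine (norm_sub_le _ _).trans (le_of_eq ?_)
    simp only [Complex.norm_exp]
    simp
    norm_num
  · exact ⟨Submodule.zero_mem _, 0, by simp⟩
  · rintro f g ⟨m1, A, h1⟩ ⟨m2, B, h2⟩
    refine ⟨Submodule.add_mem _ m1 m2, A + B, fun L hL x => ?_⟩
    simp only [Pi.add_apply]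
    rw [intervalIntegral.integral_add (ii m1 L x) (ii m2 L x), add_div]
    exact norm_add_le_of_le (h1 L hL x) (h2 L hL x)
  · rintro c f ⟨m1, A, h1⟩
    refine ⟨Submodule.smul_mem _ _ m1, ‖c‖ * A, fun L hL x => ?_⟩
    simp only [Pi.smul_apply]
    rw [intervalIntegral.integral_smul, norm_smul, mul_div_assoc]
    exact mul_le_mul_of_nonneg_left (h1 L hL x) (norm_nonneg _)

theorem Sd.gap {Γ : Set E} (hne : Γ.Nonempty) {e : E →L[ℝ] ℝ} {c : ℝ} (hc : 0 < c)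
    (he : ∀ y ∈ Γ, c * ‖y‖ ≤ e y) {u v h : ℝ} (h0 : 0 ≤ h) (H : Sd Γ u v h) :
    Sd' Γ u v (h / 2) := by
  obtain ⟨Φ, hΦ, g, ν, r, hν, bg, g0, lΦ, h1, h2, C, c1, c2, h3⟩ := H
  obtain ⟨y₀, hy₀⟩ := hne
  obtain ⟨B, hB⟩ := c1.exists_bound_of_continuousOn e.continuous.continuousOn
  have hd : 0 < 1 / (20 * (|B| + 1)) := by positivity
  have n0 : ∀ x, ‖(ef ((1 / (20 * (|B| + 1))) • e) * Φ) (x, 0)‖ = ‖Φ (x, 0)‖ := fun x => by
    simp [norm_ef]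
  have hm : ∀ {S : Set (E →L[ℝ] ℝ)}, (∀ t ∈ S1 Γ, (1 / (20 * (|B| + 1))) • e + t ∈ S) →
      ef ((1 / (20 * (|B| + 1))) • e) * Φ ∈ Sp S := fun h =>
    Sp_mul (S := {(1 / (20 * (|B| + 1))) • e}) (by rintro _ rfl; exact h) (ef_mem rfl) hΦ
  have hm1 := hm (S := S3 Γ (1 / (20 * (|B| + 1)) * c)) fun t ht y hy => by
    have := mul_le_mul_of_nonneg_left (he y hy) hd.le
    simp only [_root_.add_apply, smul_apply, smul_eq_mul]
    linarith [ht y hy]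
  obtain ⟨A, hA⟩ := seg_zero (hm (S := {t | 0 < t y₀}) fun t ht => by
    have := mul_nonneg hd.le ((mul_nonneg hc.le (norm_nonneg _)).trans (he y₀ hy₀))
    simp only [mem_ofPred_eq, _root_.add_apply, smul_apply, smul_eq_mul]
    linarith [ht y₀ hy₀])
  refine ⟨_, by positivity, _, hm1, g, bg, g0, lΦ.imp fun τ h => ⟨h.1, fun x => n0 x ▸ h.2 x⟩,
    ⟨C, c1, c2, fun x hx => (h3 x hx).imp fun y hy => ⟨hy.1, ?_⟩⟩, fun ε hε => ?_⟩
  · rw [Pi.mul_apply, norm_mul, norm_ef]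
    have k1 : e y ≤ |B| + 1 := by
      linarith [(abs_le.1 (hB y hy.1)).2, le_abs_self B]
    have k2 : 1 / (20 * (|B| + 1)) * e y ≤ 1 / 20 := by
      rw [div_mul_eq_mul_div, div_le_div_iff₀ (by positivity) (by positivity)]; linarith
    have k3 := Real.add_one_le_exp (-(2 * π * ((1 / (20 * (|B| + 1))) • e) y))
    have k4 := mul_le_mul_of_nonneg_left k2 Real.pi_pos.le
    simp only [smul_apply, smul_eq_mul] at k3 ⊢
    have k5 := mul_le_mul (show 1 / 2 ≤ Real.exp (-(2 * π * (1 / (20 * (|B| + 1)) * e y))) by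
      linarith [Real.pi_lt_four]) hy.2 h0 (Real.exp_pos _).le
    linarith
  · have hL : 0 < (|A| + 1) / ε := by positivity
    have hs := av_seg (e := (0 : E →L[ℝ] ℝ)) (v := ((|A| + 1) / ε) • y₀) rfl
    have b := BU_sq hΦ
    simp only [n0]
    refine ⟨_, _, hs.conv hν, fun x => ?_, fun x => ?_, fun c hc x => ?_⟩
    · rw [hs.mn_conv hν b, ← hs.const u x]
      exact hs.le (hν.BU b) (BU.const _) fun y _ => h1 y
    · rw [hs.mn_conv hν bg, ← hs.const v x]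
      exact hs.le (hν.BU bg) (BU.const _) fun y _ => h2 y
    · have := hs.prob
      have := hν.prob
      have bc := (Sp_BU hm1 0).comp (φ := fun z => (c * z).re) (by fun_prop)
      have cc := (Sp_BU hm1 0).cont
      rw [Measure.conv_comm, hν.mn_conv hs bc]
      refine (hν.le (hs.BU bc) (BU.const ε) fun y _ => ?_).trans (hν.const ε x).le
      have k1 := hA _ hL y
      generalize ef ((1 / (20 * (|B| + 1))) • e) * Φ = Ψ at k1 cc bc ⊢
      have k2 := intervalIntegral.intervalIntegral_re (𝕜 := ℂ) (μ := volume) (a := 0) (b := 1)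
        (f := fun s : ℝ => c * Ψ (y + s • ((|A| + 1) / ε) • y₀, 0)) ((continuous_const.mul (cc.comp
          (f := fun s : ℝ => y + s • ((|A| + 1) / ε) • y₀) (by fun_prop))).intervalIntegrable _ _)
      have cb := bc.cont
      rw [mn, seg, integral_map (f := fun u => (c * Ψ (y + u, 0)).re) (by fun_prop)
        (Continuous.aestronglyMeasurable (cb.comp (f := fun u => y + u) (by fun_prop))),
        ← intervalIntegral.integral_of_le zero_le_one]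
      simp only [RCLike.re_to_complex] at k2
      rw [k2, intervalIntegral.integral_const_mul]
      refine (Complex.re_le_norm _).trans ?_
      rw [norm_mul]
      refine (mul_le_of_le_one_left (norm_nonneg _) hc).trans (k1.trans ?_)
      rw [div_le_iff₀ hL, mul_div_cancel₀ _ hε.ne']
      linarith [le_abs_self A]

end

theorem Sd.pull {n m : ℕ} {Γ : Set (Fin n → ℝ)} {Γ' : Set (Fin m → ℝ)} (ho : IsOpen Γ)
    (ho' : IsOpen Γ') (hne : Γ'.Nonempty) (hE : Exhausts Γ Γ') {u v H : ℝ} (h : Sd Γ' u v H) :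
    Γ.Nonempty ∧ Sd Γ u v H := by
  obtain ⟨Φ, hΦ, G, ν, r, hν, bG, nG, lΦ, h1, h2, C, c1, c2, h3⟩ := h
  obtain ⟨y₀, hy₀⟩ := hne
  obtain ⟨δ, hδ, hb⟩ := Metric.nhds_basis_closedBall.mem_iff.1 (ho'.mem_nhds hy₀)
  obtain ⟨Λ₀, hΛ1, hΛ2⟩ := hE _ (c1.union (isCompact_closedBall y₀ δ)) (union_subset c2 hb)
  let Λ : (Fin n → ℝ) →L[ℝ] (Fin m → ℝ) := LinearMap.toContinuousLinearMap Λ₀
  have hsurj : Λ.range = ⊤ := by
    refine Submodule.eq_top_of_nonempty_interior' _ ⟨y₀, mem_interior_iff_mem_nhds.2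
      (mem_of_superset (Metric.closedBall_mem_nhds y₀ hδ) fun y hy => ?_)⟩
    obtain ⟨x, -, rfl⟩ := hΛ1 (Or.inr hy)
    exact ⟨x, rfl⟩
  obtain ⟨S, hS⟩ := Λ.exists_rightInverse_of_surjective hsurj
  have hS' : ∀ u, Λ (S u) = u := fun u => congr($hS u)
  obtain ⟨C', c1', c2', c3'⟩ : ∃ C', IsCompact C' ∧ C' ⊆ Γ ∧ C ⊆ Λ '' C' := by
    refine c1.induction_on (p := fun s => ∃ C', IsCompact C' ∧ C' ⊆ Γ ∧ s ⊆ Λ '' C')
      ⟨∅, isCompact_empty, empty_subset _, empty_subset _⟩ ?_ ?_ ?_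
    · rintro s t hst ⟨C', a1, a2, a3⟩
      exact ⟨C', a1, a2, hst.trans a3⟩
    · rintro s t ⟨C', a1, a2, a3⟩ ⟨C'', b1, b2, b3⟩
      exact ⟨C' ∪ C'', a1.union b1, union_subset a2 b2, image_union _ _ _ ▸ union_subset_union a3 b3⟩
    · intro y hy
      obtain ⟨x, hx, rfl⟩ := hΛ1 (Or.inl hy)
      obtain ⟨η, hη, hb⟩ := Metric.nhds_basis_closedBall.mem_iff.1 (ho.mem_nhds hx)
      refine ⟨(fun z => x + S (z - Λ x)) ⁻¹' Metric.closedBall x η, mem_nhdsWithin_of_mem_nhds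
        (Continuous.tendsto' (by fun_prop) _ x (by simp [Λ]) (Metric.closedBall_mem_nhds x hη)),
        _, isCompact_closedBall x η, hb, fun z hz => ⟨_, hz, by simp [hS']⟩⟩
  refine ⟨(hΛ1 (Or.inr (Metric.mem_closedBall_self hδ.le))).imp fun _ h => h.1,
    pb Λ Φ, pb_mem (fun y hy => hΛ2 ⟨y, hy, rfl⟩) hΦ, fun x => G (Λ x), ν.map S, _,
    hν.map S, bG.precomp Λ.uniformContinuous, fun x => nG _,
    lΦ.imp fun τ h => ⟨h.1, fun x => by simpa [pb] using h.2 (Λ x)⟩, fun x => ?_,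
    fun x => (mn_map ν hS' bG.cont x).trans_le (h2 _), C', c1', c2', fun x hx => ?_⟩
  · simpa [pb] using (mn_map ν hS' (BU_sq hΦ).cont x).trans_le (h1 _)
  · obtain ⟨y, hy, h4⟩ := h3 _ hx
    obtain ⟨y', hy', rfl⟩ := c3' hy
    exact ⟨y', hy', h4⟩

end

end Pool.Agent.Lib.MP_730078_an.G.H
end

-- part Pool.Agent.Lib.MP_730078_an.HAmp
section

open MeasureTheory Set Filter Topology Complex ComplexConjugate
open scoped ENNReal Real

namespace Pool.Agent.Lib.MP_730078_an.G.H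

noncomputable section

section

variable {E : Type*} [NormedAddCommGroup E] [NormedSpace ℝ E]

theorem exists_W {S : Set (E →L[ℝ] ℝ)} {T : E × E → ℂ} (hT : T ∈ Sp S) :
    ∃ W ∈ Sp (univ : Set (E →L[ℝ] ℝ)), ∀ x, W (x, 0) = ((1 - ‖T (x, 0)‖ ^ 2) / 2 : ℝ) := by
  obtain ⟨q, h1, h2⟩ := Sp_normSq hT
  refine ⟨(1 / 2 : ℂ) • ((fun _ => 1) - q), Submodule.smul_mem _ _ (Submodule.sub_mem _
    (Sp_const (mem_univ _) 1) h1), fun x => ?_⟩
  simp only [Pi.smul_apply, Pi.sub_apply, h2, smul_eq_mul]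
  push_cast
  ring

theorem prod_S3 {Γ : Set E} {γ : ℝ} (hγ : 0 < γ) {W Φ : E × E → ℂ} (hW : W ∈ Sp univ)
    (hΦ : Φ ∈ Sp (S3 Γ γ)) (hΓ : IsCone Γ) (M : ℝ) :
    ∀ᶠ N : ℝ in atTop, W * pb (dl N) Φ ∈ Sp (S3 Γ M) := by
  obtain ⟨C, -, hW⟩ := Sp_bdd hW
  filter_upwards [eventually_gt_atTop 0, eventually_ge_atTop ((M + C) / γ)] with N hN hN'
  have h1 : pb (dl N) Φ ∈ Sp (S3 Γ (N * γ)) :=
    Sp_induction (S := S3 Γ γ) (P := fun f => pb (dl N) f ∈ Sp (S3 Γ (N * γ)))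
      (fun t ht => ef_mem (t := t.comp (dl N)) fun y hy => by
        have := ht _ (hΓ N hN y hy)
        rw [norm_smul, Real.norm_of_nonneg hN.le] at this
        rw [ContinuousLinearMap.comp_apply, dl_apply]
        linarith) (Submodule.zero_mem _)
      (fun _ _ hf hg => Submodule.add_mem _ hf hg) (fun c _ hf => Submodule.smul_mem _ c hf) hΦ
  refine Sp_mul (fun s hs t ht y hy => ?_) hW h1
  have h2 := (abs_le.1 (s.le_of_opNorm_le hs.2 y)).1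
  have h3 := mul_le_mul_of_nonneg_right ((div_le_iff₀ hγ).1 hN') (norm_nonneg y)
  rw [_root_.add_apply]
  linarith [ht y hy]

theorem S3_sup {Γ : Set E} {M : ℝ} {D : E × E → ℂ} (hD : D ∈ Sp (S3 Γ M))
    (h1 : ∀ x, ‖D (x, 0)‖ ≤ 1) {y : E} (hy : y ∈ Γ) (x : E) :
    ‖D (x, y)‖ ≤ Real.exp (-(2 * π * (M * ‖y‖))) := by
  simpa using Sp_sup hD (fun t ht => ht y hy) h1 x

theorem norm_W {T W Φ : E × E → ℂ} (lT : Lt1 T)
    (hW : ∀ x, W (x, 0) = ((1 - ‖T (x, 0)‖ ^ 2) / 2 : ℝ)) (N : ℝ) (x : E) :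
    ‖(W * pb (dl N) Φ) (x, 0)‖ = ‖Φ (N • x, 0)‖ / 2 * (1 - ‖T (x, 0)‖ ^ 2) := by
  have := one_sub_pos (lT.lt x)
  simp only [Pi.mul_apply, norm_mul, hW, Complex.norm_real, pb, dl_apply, smul_zero]
  rw [Real.norm_of_nonneg (by positivity)]
  ring

theorem norm_W_le {T W Φ : E × E → ℂ} (lT : Lt1 T) (lΦ : Lt1 Φ)
    (hW : ∀ x, W (x, 0) = ((1 - ‖T (x, 0)‖ ^ 2) / 2 : ℝ)) (N : ℝ) (x : E) :
    ‖(W * pb (dl N) Φ) (x, 0)‖ ≤ 1 := by
  rw [norm_W lT hW]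
  exact mul_le_one₀ (by linarith [lΦ.lt (N • x)]) (one_sub_pos (lT.lt x)).le
    (sub_le_self _ (sq_nonneg _))

theorem Lt1.stack {T W Φ : E × E → ℂ} (lT : Lt1 T) (lΦ : Lt1 Φ)
    (hW : ∀ x, W (x, 0) = ((1 - ‖T (x, 0)‖ ^ 2) / 2 : ℝ)) (N : ℝ) :
    Lt1 (T + W * pb (dl N) Φ) := by
  obtain ⟨τ, h1, h2⟩ := lΦ
  refine lT.step (a := τ / 2) (by linarith [h2 0, norm_nonneg (Φ (0, 0))]) (by linarith) fun x => ?_
  rw [norm_W lT hW]
  exact mul_le_mul_of_nonneg_right (by linarith [h2 (N • x)]) (one_sub_pos (lT.lt x)).le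

omit [NormedSpace ℝ E] in
theorem exists_low {Γ C : Set E} (h0 : 0 ∉ Γ) (hC : IsCompact C) (h : C ⊆ Γ) :
    ∃ κ > 0, ∀ y ∈ C, κ ≤ ‖y‖ :=
  hC.exists_forall_le' (f := fun y => ‖y‖) continuous_norm.continuousOn
    fun _ hy => norm_pos_iff.2 fun e => h0 (e ▸ h hy)

theorem prod_small {Γ C : Set E} (h0 : 0 ∉ Γ) (hΓ : IsCone Γ) (hC : IsCompact C) (h : C ⊆ Γ)
    {γ : ℝ} (hγ : 0 < γ) {W Φ : E × E → ℂ} (hW : W ∈ Sp univ) (hΦ : Φ ∈ Sp (S3 Γ γ))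
    (h1 : ∀ N x, ‖(W * pb (dl N) Φ) (x, 0)‖ ≤ 1) {ε : ℝ} (hε : 0 < ε) :
    ∀ᶠ N : ℝ in atTop, ∀ y ∈ C, ∀ x, ‖(W * pb (dl N) Φ) (x, y)‖ ≤ ε := by
  obtain ⟨κ, hκ, hκ'⟩ := exists_low h0 hC h
  filter_upwards [prod_S3 hγ hW hΦ hΓ (ε⁻¹ / κ)] with N hN y hy x
  refine (S3_sup hN (h1 N) (h hy) x).trans ?_
  have h2 : ε⁻¹ ≤ ε⁻¹ / κ * ‖y‖ := by
    rw [div_mul_eq_mul_div, le_div_iff₀ hκ]
    exact mul_le_mul_of_nonneg_left (hκ' y hy) (by positivity)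
  have h3 := inv_pos.2 hε
  rw [Real.exp_neg, inv_le_comm₀ (Real.exp_pos _) hε]
  nlinarith [Real.add_one_le_exp (2 * π * (ε⁻¹ / κ * ‖y‖)), Real.pi_gt_three]

theorem exists_short {Γ : Set E} (hΓ : IsCone Γ) (hne : Γ.Nonempty) {r : ℝ} (hr : 0 < r) :
    ∃ y ∈ Γ, ‖y‖ ≤ r := by
  obtain ⟨y, hy⟩ := hne
  refine ⟨_, hΓ (r / (‖y‖ + 1)) (by positivity) y hy, ?_⟩
  rw [norm_smul, Real.norm_of_nonneg (by positivity), div_mul_eq_mul_div,
    div_le_iff₀ (by positivity)]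
  linarith

theorem jump {W Φ : E × E → ℂ} {N : ℝ} (hN : 0 < N) {x y : E} {w h ε : ℝ} (h0 : 0 ≤ h) (h1 : h ≤ 1)
    (hε : 0 ≤ ε) (hw : W (x, 0) = w) (h2 : ‖W (x, N⁻¹ • y) - W (x, 0)‖ ≤ ε)
    (h3 : h ≤ ‖Φ (N • x, y)‖) : w * h - ε ≤ ‖(W * pb (dl N) Φ) (x, N⁻¹ • y)‖ := by
  simp only [Pi.mul_apply, norm_mul, pb, dl_apply, smul_smul, mul_inv_cancel₀ hN.ne', one_smul]
  have h4 := norm_sub_norm_le (W (x, 0)) (W (x, N⁻¹ • y))
  rw [norm_sub_rev, hw, Complex.norm_real, Real.norm_eq_abs] at h4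
  rw [hw] at h2
  have h5 := mul_le_mul_of_nonneg_left h3 (norm_nonneg (W (x, N⁻¹ • y)))
  have h6 := mul_le_mul_of_nonneg_right (show w - ε ≤ ‖W (x, N⁻¹ • y)‖ by
    linarith [le_abs_self w]) h0
  nlinarith

theorem norm_inv_smul {N B r : ℝ} (hN : 0 < N) (hr : 0 < r) (h : B / r ≤ N) {y : E}
    (hy : ‖y‖ ≤ B) : ‖N⁻¹ • y‖ ≤ r := by
  rw [norm_smul, norm_inv, Real.norm_of_nonneg hN.le, inv_mul_le_iff₀ hN]
  exact hy.trans ((div_le_iff₀ hr).1 h)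

theorem tall_step' {Γ : Set E} (h0 : 0 ∉ Γ) (hΓ : IsCone Γ) (hne : Γ.Nonempty) {γ : ℝ}
    (hγ : 0 < γ) {S : Set (E →L[ℝ] ℝ)} {T W Φ : E × E → ℂ} (hT : T ∈ Sp S) (hW : W ∈ Sp univ)
    (hΦ : Φ ∈ Sp (S3 Γ γ)) (lT : Lt1 T) (lΦ : Lt1 Φ)
    (hW' : ∀ x, W (x, 0) = ((1 - ‖T (x, 0)‖ ^ 2) / 2 : ℝ)) {G g : E → ℝ} {t h ε : ℝ}
    (h1 : Tall Γ t T G) (h2 : Tall Γ h Φ g) (hh0 : 0 ≤ h) (hh1 : h ≤ 1) (ht : t ≤ h / 5)
    (hε : 0 < ε) :
    ∀ᶠ N : ℝ in atTop, Tall Γ (t - ε) (T + W * pb (dl N) Φ) (fun x => G x * g (N • x)) := by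
  obtain ⟨C1, c1, s1, h1⟩ := h1
  obtain ⟨C0, c0, s0, h2⟩ := h2
  obtain ⟨r, hr', hr'', hr⟩ := ((Sp_near' hT 0 (half_pos hε)).and
    ((Sp_near' hW 0 (half_pos hε)).and self_mem_nhdsWithin)).exists
  replace hr : 0 < r := hr
  simp only [sub_zero] at hr' hr''
  obtain ⟨y₁, hy₁, hy₁'⟩ := exists_short hΓ hne hr
  obtain ⟨B, hB⟩ := c0.isBounded.exists_norm_le
  filter_upwards [prod_small h0 hΓ (c1.insert y₁) (insert_subset hy₁ s1) hγ hW hΦ
    (norm_W_le lT lΦ hW') (half_pos hε),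
    eventually_gt_atTop 0, eventually_ge_atTop (B / r)] with N h4 hN hN2
  have h5 : ∀ a b : ℂ, ‖a‖ - ‖b‖ ≤ ‖a + b‖ := fun a b => by
    simpa using norm_sub_norm_le a (-b)
  refine ⟨insert y₁ C1 ∪ (fun y => N⁻¹ • y) '' C0, (c1.insert y₁).union (c0.image (by fun_prop)),
    union_subset (insert_subset hy₁ s1) ?_, fun x hx => ?_⟩
  · rintro _ ⟨y, hy, rfl⟩
    exact hΓ _ (by positivity) _ (s0 hy)
  simp only [Pi.add_apply]
  by_cases hG : G x < 1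
  · obtain ⟨y, hy1, hy3⟩ := h1 x hG
    refine ⟨y, Or.inl (mem_insert_of_mem _ hy1), ?_⟩
    linarith [h5 (T (x, y)) ((W * pb (dl N) Φ) (x, y)), h4 y (mem_insert_of_mem _ hy1) x]
  have hg : g (N • x) < 1 := by
    by_contra hg
    exact hx.not_ge (one_le_mul_of_one_le_of_one_le (not_lt.1 hG) (not_lt.1 hg))
  by_cases h6 : ‖T (x, 0)‖ ≤ h / 5
  · obtain ⟨y, hy1, hy3⟩ := h2 _ hg
    have hy4 := norm_inv_smul hN hr hN2 (hB y hy1)
    refine ⟨N⁻¹ • y, Or.inr ⟨y, hy1, rfl⟩, ?_⟩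
    have k1 := jump hN hh0 hh1 (half_pos hε).le (hW' x) (hr'' _ hy4 x) hy3
    have k2 : ‖T (x, 0)‖ ^ 2 ≤ (1 / 5) ^ 2 := by gcongr; linarith
    have k3 := mul_le_mul_of_nonneg_right k2 hh0
    rw [add_comm]
    linarith [h5 ((W * pb (dl N) Φ) (x, N⁻¹ • y)) (T (x, N⁻¹ • y)), hr' _ hy4 x,
      norm_sub_norm_le (T (x, N⁻¹ • y)) (T (x, 0))]
  · refine ⟨y₁, Or.inl (mem_insert _ _), ?_⟩
    have h7 := hr' _ hy₁' x
    rw [norm_sub_rev] at h7
    linarith [h5 (T (x, y₁)) ((W * pb (dl N) Φ) (x, y₁)), h4 _ (mem_insert _ _) x,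
      norm_sub_norm_le (T (x, 0)) (T (x, y₁)), not_le.1 h6]

variable [MeasurableSpace E] [BorelSpace E]

theorem av_dl {r δ : ℝ} {ν : Measure E} (hν : Av 0 r ν) (hδ : 0 < δ) :
    ∀ᶠ N : ℝ in atTop, Av 0 δ (ν.map (dl N⁻¹ : E →L[ℝ] E)) := by
  filter_upwards [eventually_gt_atTop 0, eventually_ge_atTop (|r| / δ)] with N hN hN'
  refine (hν.map _).mono ?_
  have : ‖(dl N⁻¹ : E →L[ℝ] E)‖ ≤ N⁻¹ := ContinuousLinearMap.opNorm_le_bound _ (by positivity)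
    fun u => by rw [dl_apply, norm_smul, Real.norm_of_nonneg (by positivity)]
  refine (mul_le_mul_of_nonneg_left (le_abs_self r) (norm_nonneg _)).trans
    ((mul_le_mul_of_nonneg_right this (abs_nonneg _)).trans ?_)
  rw [inv_mul_le_iff₀ hN]
  exact (div_le_iff₀ hδ).1 hN'

theorem mn_dl (ν : Measure E) {N : ℝ} (hN : 0 < N) {g : E → ℝ} (hg : BU g) (x : E) :
    mn (ν.map (dl N⁻¹ : E →L[ℝ] E)) (fun x => g (N • x)) x = mn ν g (N • x) :=
  mn_map ν (Λ := dl N) (by simp [smul_smul, hN.ne']) hg.cont x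

omit [MeasurableSpace E] [BorelSpace E] in
theorem BU_dl {F : Type*} [NormedAddCommGroup F] {g : E → F} (hg : BU g) (N : ℝ) :
    BU fun x => g (N • x) := hg.precomp (dl N : E →L[ℝ] E).uniformContinuous

variable [SecondCountableTopology E]

theorem sq_step {S S' : Set (E →L[ℝ] ℝ)} {T W Φ : E × E → ℂ} (hT : T ∈ Sp S) (hW : W ∈ Sp univ)
    (hΦ : Φ ∈ Sp S') (lT : Lt1 T) (lΦ : Lt1 Φ)
    (hW' : ∀ x, W (x, 0) = ((1 - ‖T (x, 0)‖ ^ 2) / 2 : ℝ)) {r r' a u : ℝ} (hu : 0 < u)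
    {μ ν : Measure E} (hμ : Av 0 r μ) (hν : Av 0 r' ν)
    (h1 : ∀ x, mn μ (fun x => ‖T (x, 0)‖ ^ 2) x ≤ a) (h2 : ∀ x, mn ν (fun x => ‖Φ (x, 0)‖ ^ 2) x ≤ u)
    (h3 : ∀ c : ℂ, ‖c‖ ≤ 1 → ∀ x, mn ν (fun x => (c * Φ (x, 0)).re) x ≤ u / 4) :
    ∀ᶠ N : ℝ in atTop, ∀ x, mn (μ ∗ ν.map (dl N⁻¹ : E →L[ℝ] E))
      (fun x => ‖(T + W * pb (dl N) Φ) (x, 0)‖ ^ 2) x ≤ a + u := by
  have bT := BU_sq hT
  have bc : BU fun x => 2 * conj (T (x, 0)) * W (x, 0) :=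
    (Sp_BU hT 0).comp2 (Sp_BU hW 0) (φ := fun q => 2 * conj q.1 * q.2) (by fun_prop)
  have hu4 : 0 < u / 4 := by positivity
  obtain ⟨δ, s1, s2, hδ⟩ := ((bT.slow hu4).and ((slowC bc hu4).and self_mem_nhdsWithin)).exists
  filter_upwards [av_dl hν (show 0 < δ from hδ), eventually_gt_atTop 0] with N hN hN0 x
  have w1 : ∀ x, ‖W (x, 0)‖ ≤ 1 / 2 := fun x => by
    have := one_sub_pos (lT.lt x)
    rw [hW', Complex.norm_real, Real.norm_of_nonneg (by positivity)]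
    linarith [sq_nonneg ‖T (x, 0)‖]
  have bΦ := BU_sq hΦ
  have br : ∀ c : ℂ, BU fun x => (c * Φ (x, 0)).re := fun c =>
    (Sp_BU hΦ 0).comp (φ := fun z => (c * z).re) (by fun_prop)
  have b0 : BU fun x => ‖(T + W * pb (dl N) Φ) (x, 0)‖ ^ 2 := by
    simpa [pb] using (Sp_BU hT 0).comp2 ((Sp_BU hW 0).pair (BU_dl (Sp_BU hΦ 0) N))
      (φ := fun q => ‖q.1 + q.2.1 * q.2.2‖ ^ 2) (by fun_prop)
  rw [hμ.mn_conv hN b0]
  have key := hμ.le (hN.BU b0) (bT.add (BU.const u)) (x := x) fun y _ => by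
    have k1 := Av_loc hN b0 (((BU.const (‖T (y, 0)‖ ^ 2 + u / 2)).add
      (BU_dl (br (2 * conj (T (y, 0)) * W (y, 0))) N)).add ((BU.const (1 / 4)).mul (BU_dl bΦ N)))
      (x := y) fun v hv => by
        have a1 := (abs_le.1 (s1 y v hv)).2
        have a2 := mul_le_mul (s2 y v hv) (lΦ.lt (N • (y + v))).le (norm_nonneg _) hu4.le
        rw [← norm_mul, sub_mul] at a2
        have a3 := (Complex.re_le_norm _).trans a2
        have a4 : ‖W (y + v, 0)‖ ^ 2 ≤ (1 / 2) ^ 2 := by gcongr; exact w1 _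
        have a5 := mul_le_mul_of_nonneg_right a4 (sq_nonneg ‖Φ (N • (y + v), 0)‖)
        have e : ∀ p w f : ℂ, ‖p + w * f‖ ^ 2 =
            ‖p‖ ^ 2 + (2 * conj p * w * f).re + ‖w‖ ^ 2 * ‖f‖ ^ 2 := fun p w f => by
          simp only [Complex.sq_norm, Complex.normSq_apply, add_re, add_im, mul_re, mul_im, conj_re,
            conj_im, re_ofNat, im_ofNat]
          ring
        simp only [Pi.add_apply, Pi.mul_apply, pb, dl_apply, smul_zero, e, sub_re] at a1 a3 ⊢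
        linarith
    rw [hN.add ((BU.const _).add (BU_dl (br _) N)) ((BU.const _).mul (BU_dl bΦ N)),
      hN.add (BU.const _) (BU_dl (br _) N), hN.const, mn_mul, mn_dl ν hN0 (br _),
      mn_dl ν hN0 bΦ] at k1
    have k2 := h3 (2 * conj (T (y, 0)) * W (y, 0)) (by
      rw [norm_mul, norm_mul, Complex.norm_conj, Complex.norm_two]
      nlinarith [w1 y, lT.lt y, norm_nonneg (T (y, 0)), norm_nonneg (W (y, 0))]) (N • y)
    linarith [h2 (N • y)]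
  rw [hμ.add bT (BU.const u), hμ.const] at key
  linarith [h1 x]

theorem amp {Γ : Set E} (h0 : 0 ∉ Γ) (hΓ : IsCone Γ) (hne : Γ.Nonempty) {u q h ε : ℝ}
    (hu : 0 < u) (hq : 0 < q) (hq1 : q ≤ 1) (hε : 0 < ε) (hh0 : 0 ≤ h) (hh1 : h ≤ 1)
    (H : Sd' Γ u (1 - q) h) (k : ℕ) : Sd Γ (k * u) ((1 - q / 2) ^ k) (h / 5 - k * ε) := by
  obtain ⟨γ, hγ, Φ, hΦ, g, bg, g0, lΦ, tΦ, H⟩ := H
  obtain ⟨ν, r, hν, h1, h2, h3⟩ := H (u / 4) (by positivity)
  induction k with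
  | zero => exact ⟨0, Submodule.zero_mem _, fun _ => 1, ν, r, hν, BU.const _, by simp,
      ⟨0, one_pos, by simp⟩, by simp [mn], by simp [hν.const], ∅, isCompact_empty,
      empty_subset _, by simp⟩
  | succ k ih =>
    obtain ⟨T, hT, G, μ, r', hμ, bG, G0, lT, k1, k2, k3⟩ := ih
    obtain ⟨W, hW, hW'⟩ := exists_W hT
    have hq2 : 0 < 1 - q / 2 := by linarith
    obtain ⟨N, n1, n2, n3, n4⟩ := ((prod_S3 hγ hW hΦ hΓ 1).and
      ((sq_step hT hW hΦ lT lΦ hW' hu hμ hν k1 h1 h3).and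
      ((mixN hμ hν bG bg G0 g0 k2 h2 (ε := q / 2 * (1 - q / 2) ^ k) (by positivity)).and
      (tall_step' h0 hΓ hne hγ hT hW hΦ lT lΦ hW' k3 tΦ hh0 hh1
        (sub_le_self _ (by positivity)) hε)))).exists
    refine ⟨T + W * pb (dl N) Φ, Submodule.add_mem _ hT (Sp_mono (fun t ht y hy => ?_) n1),
      fun x => G x * g (N • x), _, _, hμ.conv (hν.map (dl N⁻¹)), bG.mul (BU_dl bg N),
      fun x => mul_nonneg (G0 _) (g0 _), lT.stack lΦ hW' N, fun x => (n2 x).trans (le_of_eq ?_),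
      fun x => (n3 x).trans (le_of_eq ?_), n4.mono (le_of_eq ?_)⟩
    · have := ht y hy
      have h4 : 0 < ‖y‖ := norm_pos_iff.2 fun e => h0 (e ▸ hy)
      linarith
    · push_cast; ring
    · ring
    · push_cast; ring

end

theorem zero_notMem {n : ℕ} {Γ : Set (Fin n → ℝ)} (h : Regular Γ) (hn : ∃ v : Fin n → ℝ, v ≠ 0) :
    0 ∉ Γ := by
  intro h0
  obtain ⟨v, hv⟩ := hn
  have h1 : ∀ w : Fin n → ℝ, w ∈ closure Γ := fun w => by
    have h2 : ∀ᶠ s : ℝ in 𝓝[>] 0, s • w ∈ Γ :=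
      ((Continuous.tendsto' (f := fun s : ℝ => s • w) (by fun_prop) 0 0 (by simp)).eventually
        (h.1.mem_nhds h0)).filter_mono nhdsWithin_le_nhds
    obtain ⟨s, h3, hs⟩ := (h2.and self_mem_nhdsWithin).exists
    have hs : 0 < s := hs
    simpa [smul_smul, hs.ne'] using subset_closure (h.2.2.1 s⁻¹ (inv_pos.2 hs) _ h3)
  exact hv (pointed h (h1 _) (h1 _))

/-- The bounded building block. -/
theorem block {n : ℕ} {Γ : Set (Fin n → ℝ)} (h : Regular Γ) (h0 : 0 ∉ Γ)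
    (hk : ∀ k : ℕ, ∃ (m : ℕ) (Γ' : Set (Fin m → ℝ)), Regular Γ' ∧
      (cbDeriv (exposedRays Γ') k).Nonempty ∧ Exhausts Γ Γ') :
    Γ.Nonempty ∧ ∃ H : ℝ, 0 < H ∧ H ≤ 1 ∧ ∀ ε > 0, Sd' Γ ε ε H := by
  obtain ⟨K, C, hK, hC, hO⟩ := exists_outer
  obtain ⟨e, c, hc, he⟩ := exists_e h
  replace he : ∀ y ∈ Γ, c * ‖y‖ ≤ e y := fun y hy => he y (subset_closure hy)
  have hw := ww_pos
  have seed : ∀ k : ℕ, 0 < k → Γ.Nonempty ∧ Sd Γ (1 / (40 * k))
      (1 - Real.log (1 + k) / (100000 * k)) (ww / (96000 * C)) := fun k hk0 => by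
    obtain ⟨m, Γ', h1, h2, h3⟩ := hk k
    obtain ⟨h4, h5⟩ := frame h1 h2
    exact (seed_n hC (hO _) hk0 h5).pull h.1 h1.1 h4 h3
  have hne := (seed 1 one_pos).1
  have hH : 0 < ww / (96000 * C) := by positivity
  have hH1 : ww / (96000 * C) ≤ 1 := by
    rw [div_le_one (by positivity)]; linarith [ww_le]
  generalize ww / (96000 * C) = H at *
  refine ⟨hne, H / 20 / 2, by positivity, by linarith, fun ε hε => ?_⟩
  obtain ⟨k, hk0, huq⟩ := exists_depth (τ := ε / (2 / ε + 1) * (405 / 100000)) (by positivity)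
  have hn' : (0 : ℝ) < k := by exact_mod_cast hk0
  have hs := (seed k hk0).2
  have hu : (0 : ℝ) < 1 / (40 * k) := by positivity
  have hq : 0 < Real.log (1 + k) / (100000 * k) :=
    div_pos (Real.log_pos (by linarith)) (by positivity)
  have hq1 : Real.log (1 + k) / (100000 * k) ≤ 1 := by
    rw [div_le_one (by positivity)]
    linarith [Real.log_le_sub_one_of_pos (show (0 : ℝ) < 1 + k by positivity)]
  replace huq : 1 / (40 * k : ℝ) ≤ ε / (2 / ε + 1) * (Real.log (1 + k) / (100000 * k)) :=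
    huq.trans (le_of_eq (by field_simp))
  generalize (1 / (40 * k) : ℝ) = u at *
  generalize Real.log (1 + k) / (100000 * k) = q at *
  set L := ⌈2 / ε / q⌉₊ with hL
  obtain ⟨T, hT, G, μ, r, hμ, bG, G0, lT, k1, k2, k3⟩ := amp h0 h.2.2.1 hne hu hq hq1
    (ε := H / 20 / (L + 1)) (by positivity) (by positivity) (by linarith)
    (hs.gap hne hc he hH.le) L
  refine Sd.gap hne hc he (by positivity) ⟨T, hT, G, μ, r, hμ, bG, G0, lT,
    fun x => (k1 x).trans ?_, fun x => (k2 x).trans ?_, k3.mono ?_⟩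
  · have a2 : (L : ℝ) * q ≤ 2 / ε + 1 := by
      have := mul_le_mul_of_nonneg_right (Nat.ceil_lt_add_one (show 0 ≤ 2 / ε / q by positivity)).le
        hq.le
      rw [add_mul, div_mul_cancel₀ _ hq.ne'] at this
      linarith
    calc L * u ≤ L * (ε / (2 / ε + 1) * q) := by gcongr
      _ = ε / (2 / ε + 1) * (L * q) := by ring
      _ ≤ ε / (2 / ε + 1) * (2 / ε + 1) := by gcongr
      _ = _ := by field_simp
  · have a1 : (1 - q / 2) ^ L ≤ Real.exp (-(q / 2)) ^ L := by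
      gcongr
      · linarith
      · linarith [Real.add_one_le_exp (-(q / 2))]
    rw [← Real.exp_nat_mul] at a1
    have a2 : 2 / ε ≤ L * q := (div_le_iff₀ hq).1 (Nat.le_ceil _)
    refine a1.trans ((Real.exp_le_exp.2 (show _ ≤ -ε⁻¹ by
      rw [div_eq_mul_inv] at a2; linarith)).trans ?_)
    rw [Real.exp_neg, inv_le_comm₀ (Real.exp_pos _) hε]
    linarith [Real.add_one_le_exp ε⁻¹]
  · have : (L : ℝ) * (H / 20 / (L + 1)) ≤ H / 20 := by
      rw [← mul_div_assoc, div_le_iff₀ (by positivity)]; linarith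
    linarith

end

end Pool.Agent.Lib.MP_730078_an.G.H
end

-- part Pool.Agent.Lib.MP_730078_an.HSeries
section

open MeasureTheory Set Filter Topology Complex ComplexConjugate
open scoped ENNReal Real

namespace Pool.Agent.Lib.MP_730078_an.G.H

noncomputable section

variable {n : ℕ}

theorem step {Γ : Set (Fin n → ℝ)} (h0 : 0 ∉ Γ) (hΓ : IsCone Γ) (hne : Γ.Nonempty) {h : ℝ}
    (hh0 : 0 < h) (hh1 : h ≤ 1) (hB : ∀ ε > 0, Sd' Γ ε ε h) {μ : Measure (Fin n → ℝ)}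
    {D₀ : ℝ≥0∞} (hμ : Avg μ D₀) (j : ℕ) (T : (Fin n → ℝ) × (Fin n → ℝ) → ℂ) (a : ℝ)
    (hT : T ∈ Sp (S3 Γ 0) ∧ Lt1 T ∧ 0 < a) :
    ∃ (D : (Fin n → ℝ) × (Fin n → ℝ) → ℂ) (a' : ℝ) (Bad : Set (Fin n → ℝ)),
      (T + D ∈ Sp (S3 Γ 0) ∧ Lt1 (T + D) ∧ 0 < a') ∧ a' ≤ a ∧ D ∈ Sp (S3 Γ (j / a)) ∧
      (∀ x, ‖D (x, 0)‖ ≤ 1) ∧ μ Bad ≤ D₀ * ENNReal.ofReal ((1 / 2) ^ j) * 2 ∧ ∀ x ∉ Bad,
        (1 - ‖T (x, 0)‖) * (1 - (1 / 2) ^ j) ≤ 1 - ‖(T + D) (x, 0)‖ ∧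
        ∃ y ∈ Γ, ∃ y' ∈ Γ, a' ≤ ‖y‖ ∧ a' ≤ ‖y'‖ ∧ ‖y‖ ≤ (1 / 2) ^ j ∧ ‖y'‖ ≤ (1 / 2) ^ j ∧
          (1 - ‖T (x, 0)‖) / 2 * h - 4 * (1 / 2) ^ j ≤ ‖(T + D) (x, y) - (T + D) (x, y')‖ := by
  obtain ⟨hT, lT, ha⟩ := hT
  have hε : (0 : ℝ) < (1 / 2) ^ j := by positivity
  have hε1 : ((1 / 2 : ℝ)) ^ j ≤ 1 := pow_le_one₀ (by norm_num) (by norm_num)
  generalize ((1 / 2 : ℝ)) ^ j = ε at *
  obtain ⟨γ, hγ, Φ, hΦ, g, bg, g0, lΦ, ⟨C, c1, c2, c3⟩, H⟩ := hB (ε ^ 3) (by positivity)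
  obtain ⟨ν, r, hν, h1, h2, -⟩ := H 1 one_pos
  obtain ⟨W, hW, hW'⟩ := exists_W hT
  obtain ⟨ρ, r1, r2, r3, r4⟩ := ((Sp_near' hT 0 hε).and ((Sp_near' hW 0 hε).and
    (show ∀ᶠ r in 𝓝[>] (0 : ℝ), r ∈ Ioo 0 ε from Ioo_mem_nhdsGT hε))).exists
  simp only [sub_zero] at r1 r2
  obtain ⟨y', hy', hy''⟩ := exists_short hΓ hne r3
  have hy0 : 0 < ‖y'‖ := norm_pos_iff.2 fun e => h0 (e ▸ hy')
  obtain ⟨B, hB⟩ := c1.isBounded.exists_norm_le
  obtain ⟨κ, hκ, hκ'⟩ := exists_low h0 c1 c2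
  obtain ⟨N, n1, n2, n3, hN, n5⟩ := ((prod_S3 hγ hW hΦ hΓ (j / a)).and
    ((prod_small h0 hΓ isCompact_singleton (singleton_subset_iff.2 hy') hγ hW hΦ
      (norm_W_le lT lΦ hW') hε).and ((av_dl hν one_pos).and ((eventually_gt_atTop 0).and
      (eventually_ge_atTop (B / ρ)))))).exists
  have bΦ := BU_sq hΦ
  refine ⟨W * pb (dl N) Φ, min a (min ‖y'‖ (N⁻¹ * κ)),
    {x | 1 ≤ g (N • x)} ∪ {x | 1 ≤ (ε ^ 2)⁻¹ * ‖Φ (N • x, 0)‖ ^ 2},
    ⟨Submodule.add_mem _ hT (Sp_mono (S := S3 Γ (j / a)) (S' := S3 Γ 0)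
      (fun t ht y hy => le_trans ?_ (ht y hy)) n1),
      lT.stack lΦ hW' N, by positivity⟩, min_le_left _ _, n1, norm_W_le lT lΦ hW' N, ?_,
    fun x hx => ⟨?_, ?_⟩⟩
  · rw [zero_mul]; positivity
  · rw [mul_two]
    refine (measure_union_le _ _).trans (add_le_add (hμ.meas n3 (BU_dl bg N) (fun _ => g0 _)
      fun x => ?_) (hμ.meas n3 ((BU.const _).mul (BU_dl bΦ N)) (fun _ => by positivity)
      fun x => ?_))
    · rw [mn_dl ν hN bg]
      exact (h2 _).trans (pow_le_of_le_one hε.le hε1 (by norm_num))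
    · rw [mn_mul, mn_dl ν hN bΦ, inv_mul_le_iff₀ (by positivity)]
      exact (h1 _).trans (le_of_eq (by ring))
  · have k1 : ‖Φ (N • x, 0)‖ ≤ ε := by
      have : (ε ^ 2)⁻¹ * ‖Φ (N • x, 0)‖ ^ 2 < 1 := not_le.1 fun h => hx (Or.inr h)
      rw [inv_mul_lt_iff₀ (by positivity), mul_one] at this
      exact (pow_lt_pow_iff_left₀ (norm_nonneg _) hε.le two_ne_zero).1 this |>.le
    have := norm_step (p := T (x, 0)) (d := (W * pb (dl N) Φ) (x, 0)) (half_pos hε).le (by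
      rw [norm_W lT hW']
      exact mul_le_mul_of_nonneg_right (by linarith) (one_sub_pos (lT.lt x)).le)
    rwa [mul_div_cancel₀ _ two_ne_zero] at this
  · obtain ⟨y, hy, hy2⟩ := c3 _ (not_le.1 fun h => hx (Or.inl h))
    have k1 := norm_inv_smul hN r3 n5 (hB y hy)
    refine ⟨N⁻¹ • y, hΓ _ (inv_pos.2 hN) _ (c2 hy), y', hy', ?_,
      (min_le_right _ _).trans (min_le_left _ _), by linarith, by linarith, ?_⟩
    · refine (min_le_right _ _).trans ((min_le_right _ _).trans ?_)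
      rw [norm_smul, Real.norm_of_nonneg (inv_pos.2 hN).le]
      exact mul_le_mul_of_nonneg_left (hκ' y hy) (inv_pos.2 hN).le
    · have k2 := jump hN hh0.le hh1 hε.le (hW' x) (r2 _ k1 x) hy2
      have k3 := n2 y' rfl x
      have k4 := r1 _ k1 x
      have k5 := r1 _ hy'' x
      have k6 : (1 - ‖T (x, 0)‖) / 2 * h ≤ (1 - ‖T (x, 0)‖ ^ 2) / 2 * h := by
        gcongr
        nlinarith [lT.lt x, norm_nonneg (T (x, 0))]
      simp only [Pi.add_apply]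
      generalize (W * pb (dl N) Φ) (x, N⁻¹ • y) = d at *
      generalize (W * pb (dl N) Φ) (x, y') = d' at *
      have k7 := norm_add_le_of_le (norm_sub_le_of_le (norm_add_le_of_le
        (le_refl ‖T (x, N⁻¹ • y) + d - (T (x, y') + d')‖) k5) k4) k3
      rw [show T (x, N⁻¹ • y) + d - (T (x, y') + d') + (T (x, y') - T (x, 0)) -
        (T (x, N⁻¹ • y) - T (x, 0)) + d' = d by ring] at k7
      linarith

theorem lift_diff {S : Set ((Fin n → ℝ) →L[ℝ] ℝ)} {f : (Fin n → ℝ) × (Fin n → ℝ) → ℂ}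
    (hf : f ∈ Sp S) : Differentiable ℂ (lift f) := by
  refine Sp_induction (P := fun f => Differentiable ℂ (lift f)) (fun t _ => ?_)
    (differentiable_const _) (fun f g hf hg => hf.add hg) (fun c f hf => hf.const_smul c) hf
  rw [show lift (ef t) = fun z => cexp (((2 * π * I : ℂ) • cx t) z) from funext (lift_ef t)]
  fun_prop

theorem prod_low {b : ℕ → ℝ} {J : ℕ} (hJ : 2 ≤ J) (h0 : 0 ≤ b J)
    (h : ∀ j, J ≤ j → b j * (1 - (1 / 2) ^ j) ≤ b (j + 1)) (j : ℕ) (hj : J ≤ j) :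
    b J * (1 / 2 + 2 * (1 / 2) ^ j) ≤ b j := by
  have hq : ∀ j, J ≤ j → (1 / 2 : ℝ) ^ j ≤ 1 / 4 := fun j hj =>
    (pow_le_pow_of_le_one (by norm_num) (by norm_num) (hJ.trans hj)).trans (by norm_num)
  induction j, hj using Nat.le_induction with
  | base => exact mul_le_of_le_one_right h0 (by linarith [hq J le_rfl])
  | succ j hj ih =>
    have h1 := hq j hj
    have h2 : (0 : ℝ) < (1 / 2) ^ j := by positivity
    refine le_trans ?_ ((mul_le_mul_of_nonneg_right ih (by linarith)).trans (h j hj))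
    rw [mul_assoc, pow_succ]
    exact mul_le_mul_of_nonneg_left (by nlinarith) h0

theorem series {Γ : Set (Fin n → ℝ)} (ho : IsOpen Γ) (h0 : 0 ∉ Γ) (hΓ : IsCone Γ)
    (hne : Γ.Nonempty) {h : ℝ} (hh0 : 0 < h) (hh1 : h ≤ 1) (hB : ∀ ε > 0, Sd' Γ ε ε h)
    {μ : Measure (Fin n → ℝ)} {D₀ : ℝ≥0∞} (hD₀ : D₀ ≠ ∞) (hμ : Avg μ D₀) :
    ∃ F : (Fin n → ℝ) × (Fin n → ℝ) → ℂ,
      (∀ z, imP z ∈ Γ → DifferentiableAt ℂ (lift F) z) ∧ (∀ y ∈ Γ, ∀ x, ‖F (x, y)‖ ≤ 1) ∧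
      ∀ᵐ x ∂μ, ¬ ∃ L : ℂ, Tendsto (fun y => F (x, y)) (𝓝[Γ] 0) (𝓝 L) := by
  choose D' a' Bad' H1 H2 H3 H4 H5 H6 using step h0 hΓ hne hh0 hh1 hB hμ
  let s : ℕ → {p : ((Fin n → ℝ) × (Fin n → ℝ) → ℂ) × ℝ //
      p.1 ∈ Sp (S3 Γ 0) ∧ Lt1 p.1 ∧ 0 < p.2} := fun j =>
    Nat.rec ⟨(0, 1), Submodule.zero_mem _, ⟨0, one_pos, by simp⟩, one_pos⟩
      (fun j p => ⟨(p.1.1 + D' j _ _ p.2, a' j _ _ p.2), H1 j _ _ p.2⟩) j
  let T := fun j => (s j).1.1
  let a := fun j => (s j).1.2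
  let D := fun j => D' j _ _ (s j).2
  have hT : ∀ j, T (j + 1) = T j + D j := fun j => rfl
  have ha0 : ∀ j, 0 < a j := fun j => (s j).2.2.2
  have ha : Antitone a := antitone_nat_of_succ_le fun j => H2 j _ _ (s j).2
  have hD : ∀ j, D j ∈ Sp (S3 Γ (j / a j)) := fun j => H3 j _ _ (s j).2
  have hTD : ∀ j w, T j w = ∑ i ∈ Finset.range j, D i w := fun j w => by
    induction j with
    | zero => rfl
    | succ j ih => rw [Finset.sum_range_succ, ← ih, hT, Pi.add_apply]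
  have hb : ∀ j, ∀ y ∈ Γ, ∀ c : ℝ, 0 ≤ c → c * a j ≤ ‖y‖ → ∀ x,
      ‖D j (x, y)‖ ≤ Real.exp (-c) ^ j := fun j y hy c hc hc' x => by
    refine (S3_sup (hD j) (H4 j _ _ (s j).2) hy x).trans ?_
    rw [← Real.exp_nat_mul, Real.exp_le_exp, div_mul_eq_mul_div, mul_div_assoc]
    have k1 := mul_le_mul_of_nonneg_left ((le_div_iff₀ (ha0 j)).2 hc') (Nat.cast_nonneg j)
    have k2 : 0 ≤ j * c := by positivity
    nlinarith [Real.pi_gt_three]
  have hb1 : ∀ j, ∀ y ∈ Γ, ∀ c : ℝ, 0 ≤ c → c ≤ ‖y‖ → ∀ x, ‖D j (x, y)‖ ≤ Real.exp (-c) ^ j :=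
    fun j y hy c hc hc' => hb j y hy c hc
      ((mul_le_of_le_one_right hc (ha (Nat.zero_le j))).trans hc')
  have geo : ∀ c : ℝ, 0 < c → Summable fun j => Real.exp (-c) ^ j := fun c hc =>
    summable_geometric_of_lt_one (Real.exp_pos _).le (Real.exp_lt_one_iff.2 (by linarith))
  have hy0 : ∀ y ∈ Γ, 0 < ‖y‖ := fun y hy => norm_pos_iff.2 fun e => h0 (e ▸ hy)
  have hsum : ∀ y ∈ Γ, ∀ x, Summable fun j => D j (x, y) := fun y hy x =>
    Summable.of_norm_bounded (geo _ (hy0 y hy)) fun j => hb1 j y hy _ (norm_nonneg _) le_rfl x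
  refine ⟨fun w => ∑' j, D j w, fun z hz => ?_, fun y hy x => ?_, ?_⟩
  · have hc := half_pos (hy0 _ hz)
    obtain ⟨r, hr, hball⟩ := Metric.mem_nhds_iff.1 (continuous_imP.continuousAt (x := z)
      (inter_mem (ho.mem_nhds hz) ((isOpen_lt continuous_const continuous_norm).mem_nhds
        (half_lt_self (hy0 _ hz)))))
    have hK : ∀ j, ∀ w ∈ Metric.ball z r, ‖lift (D j) w‖ ≤ Real.exp (-(‖imP z‖ / 2)) ^ j :=
      fun j w hw => hb1 j _ (hball hw).1 _ hc.le (le_of_lt (hball hw).2) _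
    have key := hasFDerivAt_tsum_of_isPreconnected (f := fun j => lift (D j))
      (f' := fun j w => fderiv ℂ (lift (D j)) w)
      (((geo _ hc).mul_left 2).div_const (r / 2)) Metric.isOpen_ball
      (convex_ball z (r / 2)).isPreconnected (fun j w _ => (lift_diff (hD j) w).hasFDerivAt) ?_
      (Metric.mem_ball_self (half_pos hr)) (hsum _ hz _) (Metric.mem_ball_self (half_pos hr))
    · exact key.differentiableAt
    · intro j w hw
      have hs : Metric.ball w (r / 2) ⊆ Metric.ball z r :=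
        Metric.ball_subset_ball' (by linarith [Metric.mem_ball.1 hw])
      refine Complex.norm_fderiv_le_div_of_mapsTo_ball (lift_diff (hD j)).differentiableOn
        (fun v hv => ?_) (half_pos hr)
      rw [mem_closedBall_iff_norm, two_mul]
      exact norm_sub_le_of_le (hK j v (hs hv)) (hK j w (hs (Metric.mem_ball_self (half_pos hr))))
  · refine le_of_tendsto' (hsum y hy x).hasSum.tendsto_sum_nat.norm fun j => ?_
    rw [← hTD]
    simpa using S3_sup (s j).2.1 (fun x => ((s j).2.2.1.lt x).le) hy x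
  · have hfin : ∑' j, μ (Bad' j _ _ (s j).2) ≠ ∞ := by
      refine ne_top_of_le_ne_top ?_ (ENNReal.tsum_le_tsum fun j => H5 j _ _ (s j).2)
      rw [ENNReal.tsum_mul_right, ENNReal.tsum_mul_left, ← ENNReal.ofReal_tsum_of_nonneg
        (fun _ => by positivity) summable_geometric_two]
      exact ENNReal.mul_ne_top (ENNReal.mul_ne_top hD₀ ENNReal.ofReal_ne_top) (by simp)
    filter_upwards [ae_eventually_notMem hfin] with x hx
    rintro ⟨L, hL⟩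
    obtain ⟨J, hJ⟩ := eventually_atTop.1 (hx.and (eventually_ge_atTop 2))
    have hc : 0 < 1 - ‖T J (x, 0)‖ := sub_pos.2 ((s J).2.2.1.lt x)
    have low := prod_low (b := fun j => 1 - ‖T j (x, 0)‖) (hJ J le_rfl).2 hc.le
      fun j hj => (H6 j _ _ (s j).2 x (hJ j hj).1).1
    have hκ : 0 < (1 - ‖T J (x, 0)‖) * h / 40 := by positivity
    obtain ⟨δ, hδ, hL⟩ := Metric.tendsto_nhdsWithin_nhds.1 hL _ hκ
    have h12 := tendsto_pow_atTop_nhds_zero_of_lt_one (r := (1 / 2 : ℝ)) (by norm_num) (by norm_num)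
    obtain ⟨j, j1, j2, j3⟩ := ((eventually_ge_atTop J).and ((h12.eventually
      (eventually_lt_nhds hδ)).and (h12.eventually (eventually_lt_nhds hκ)))).exists
    obtain ⟨y, hy, y', hy', k1, k2, k3, k4, k5⟩ := (H6 j _ _ (s j).2 x (hJ j j1).1).2
    have tl : ∀ y ∈ Γ, a (j + 1) ≤ ‖y‖ →
        ‖∑' i, D i (x, y) - T (j + 1) (x, y)‖ ≤ (1 / 2) ^ j := fun y hy hy' => by
      rw [← (hsum y hy x).sum_add_tsum_nat_add (j + 1), ← hTD (j + 1), add_sub_cancel_left]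
      refine (tsum_of_norm_bounded (hasSum_geometric_two.mul_right ((1 / 2) ^ (j + 1)))
        fun i => ?_).trans (le_of_eq (by ring))
      refine (hb _ y hy 1 zero_le_one (by linarith [ha (Nat.le_add_left (j + 1) i)]) x).trans ?_
      rw [← pow_add]
      gcongr
      rw [Real.exp_neg, inv_eq_one_div]
      exact one_div_le_one_div_of_le two_pos Real.exp_one_gt_two.le
    have t1 := tl y hy k1
    have t2 := tl y' hy' k2
    have l1 := hL hy (by simpa using k3.trans_lt j2)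
    have l2 := hL hy' (by simpa using k4.trans_lt j2)
    have l3 := mul_le_mul_of_nonneg_right (low j j1) hh0.le
    have l4 := mul_pos (mul_pos hc hh0) (show (0 : ℝ) < (1 / 2) ^ j by positivity)
    change (1 - ‖T j (x, 0)‖) / 2 * h - 4 * (1 / 2) ^ j ≤
      ‖T (j + 1) (x, y) - T (j + 1) (x, y')‖ at k5
    rw [dist_eq_norm] at l1 l2
    have l5 := norm_add_le_of_le (norm_sub_le_of_le (norm_sub_le_of_le l1.le l2.le) t1) t2
    rw [show ∑' i, D i (x, y) - L - (∑' i, D i (x, y') - L) -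
      (∑' i, D i (x, y) - T (j + 1) (x, y)) + (∑' i, D i (x, y') - T (j + 1) (x, y')) =
      T (j + 1) (x, y) - T (j + 1) (x, y') by ring] at l5
    linarith

/-- Unrestricted convergence fails for bounded holomorphic functions. -/
theorem main {Γ : Set (Fin n → ℝ)} (h : Regular Γ)
    (hk : ∀ k : ℕ, ∃ (m : ℕ) (Γ' : Set (Fin m → ℝ)), Regular Γ' ∧
      (cbDeriv (exposedRays Γ') k).Nonempty ∧ Exhausts Γ Γ') :
    ∃ F : (Fin n → ℂ) → ℂ, DifferentiableOn ℂ F (tube Γ) ∧ (∀ z ∈ tube Γ, ‖F z‖ ≤ 1) ∧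
      ∀ᵐ x : Fin n → ℝ, ¬ ∃ L : ℂ, Tendsto (fun y => F (pt x y)) (𝓝[Γ] 0) (𝓝 L) := by
  have h0 : 0 ∉ Γ := fun h0 => by
    obtain ⟨m, Γ', h1, ⟨ω, hω⟩, h3⟩ := hk 0
    obtain ⟨Λ, -, h4⟩ := h3 ∅ isCompact_empty (empty_subset _)
    exact zero_notMem h1 ⟨ω, fun e => by simpa [e] using hω.1⟩ (h4 ⟨0, h0, map_zero _⟩)
  obtain ⟨hne, H, h1, h2, h3⟩ := block h h0 hk
  have hn : (0 : ℝ) ≤ n + 1 := by positivity
  have hfin : ∫⁻ x : Fin n → ℝ, wt (n + 1) x < ∞ := finite_integral_one_add_norm (by simp)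
  obtain ⟨F, hF1, hF2, hF3⟩ := series h.1 h0 h.2.2.1 hne h1 h2 h3
    (ENNReal.mul_ne_top ENNReal.ofReal_ne_top hfin.ne) (avg_wt hn)
  refine ⟨lift F, ?_, ?_, ?_⟩
  · rintro _ ⟨x, y, hy, rfl⟩
    exact (hF1 _ (by simpa using hy)).differentiableWithinAt
  · rintro _ ⟨x, y, hy, rfl⟩
    simpa [lift] using hF2 y hy x
  · have hac : (volume : Measure (Fin n → ℝ)) ≪ volume.withDensity (wt (n + 1)) :=
      withDensity_absolutelyContinuous' (measurable_wt _).aemeasurable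
        (Eventually.of_forall fun x => (ENNReal.ofReal_pos.2 (by positivity)).ne')
    filter_upwards [hac.ae_le hF3] with x hx
    simpa [lift] using hx

end

end Pool.Agent.Lib.MP_730078_an.G.H
end

-- part Pool.Agent.Lib.MP_730078_an.HFinal
section

open MeasureTheory Set Filter Topology
open scoped ENNReal

namespace Pool.Agent.Lib.MP_730078_an.G.H

theorem all_p {n : ℕ} {Γ : Set (Fin n → ℝ)} (h : Regular Γ)
    (hk : ∀ k : ℕ, ∃ (m : ℕ) (Γ' : Set (Fin m → ℝ)), Regular Γ' ∧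
      (cbDeriv (exposedRays Γ') k).Nonempty ∧ Exhausts Γ Γ') {p : ℝ≥0∞} (hp : 0 < p) :
    ∃ F : (Fin n → ℂ) → ℂ, MemHp Γ p F ∧
      ∀ᵐ x : Fin n → ℝ, ¬ ∃ L : ℂ, Tendsto (fun y => F (pt x y)) (𝓝[Γ] 0) (𝓝 L) := by
  rcases eq_or_ne p ∞ with rfl | hp'
  · obtain ⟨F, h1, h2, h3⟩ := H.main h hk
    exact ⟨F, ⟨h1, fun _ => ⟨1, h2⟩, fun h => (h rfl).elim⟩, h3⟩
  · obtain ⟨F, h1, h2⟩ := G.main h hk (ENNReal.toReal_pos hp.ne' hp')
    exact ⟨F, ⟨h1.1, fun h => (hp' h).elim, fun _ => h1.2⟩, h2⟩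

theorem final {n : ℕ} {Γ : Set (Fin n → ℝ)}
    (hΓ : (∃ _ : NeZero n, 3 ≤ n ∧ Γ = lightCone n) ∨ Regular Γ ∧ (¬ (exposedRays Γ).Countable ∨
      ∀ k : ℕ, ∃ (m : ℕ) (Γ' : Set (Fin m → ℝ)), Regular Γ' ∧
        (cbDeriv (exposedRays Γ') k).Nonempty ∧ Exhausts Γ Γ')) {p : ℝ≥0∞} (hp : 0 < p) :
    ∃ F : (Fin n → ℂ) → ℂ, MemHp Γ p F ∧
      ∀ᵐ x : Fin n → ℝ, ¬ ∃ L : ℂ, Tendsto (fun y => F (pt x y)) (𝓝[Γ] 0) (𝓝 L) := by
  rcases hΓ with ⟨_, hn, rfl⟩ | ⟨h, hu | hk⟩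
  · obtain ⟨m, rfl⟩ := Nat.exists_eq_add_of_le' hn
    exact all_p lc_regular
      (fun k => ⟨_, _, lc_regular, cbDeriv_nonempty lc_uncountable k, exhausts_self _⟩) hp
  · exact all_p h (fun k => ⟨n, Γ, h, cbDeriv_nonempty hu k, exhausts_self Γ⟩) hp
  · exact all_p h hk hp

end Pool.Agent.Lib.MP_730078_an.G.H
end
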