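import Pool.Agent.Lib.MP_730078_an.GLift
import Pool.Agent.Lib.MP_730078_an.HOuter

-- part Pool.Agent.Lib.MP_730078_an.GSeries
section

open MeasureTheory Set Filter Topology Complex
open scoped ENNReal Real

namespace Pool.Agent.Lib.MP_730078_an.G

noncomputable section

variable {n : ℕ}

/-- A lacunary sum of building blocks. -/
theorem series {Γ : Set (Fin n → ℝ)} (ho : IsOpen Γ) (hΓ : IsCone Γ) {μ : Measure (Fin n → ℝ)}
    {D : ℝ≥0∞} (hD : D ≠ ∞) (hμ : Avg μ D) {p : ℝ≥0∞} (hp1 : 1 ≤ p) (hp : p ≠ ∞)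
    (hB : ∀ H ε : ℝ, 0 < ε → Blk Γ p H ε) :
    ∃ F : (Fin n → ℝ) × (Fin n → ℝ) → ℂ,
      (∀ z, imP z ∈ Γ → DifferentiableAt ℂ (lift F) z) ∧
      (∀ y ∈ Γ, Continuous (fun x => F (x, y)) ∧
        eLpNorm (fun x => F (x, y)) p μ ≤ D ^ (1 / p.toReal) * ENNReal.ofReal 2) ∧
      ∀ᵐ x ∂μ, ∀ j : ℕ, ∃ y ∈ Γ, ‖y‖ < 1 / (j + 1) ∧ j < ‖F (x, y)‖ := by
  choose Φ' hΦm' G' ν' r' hν' bG' nG' hΦp' hG' C' cC' sC' hC' using
    fun (H : ℝ) (k : ℕ) => hB H ((1 / 2) ^ k) (by positivity)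
  choose γ' A' hγ' hA0' hA' f' hf' hf'' using fun H k => Sp_decay (hΦm' H k)
  choose κ' hκ' hκ'' using fun H k => exists_ball ho (cC' H k) (sC' H k)
  choose B' hB' using fun H k => (cC' H k).isBounded.exists_norm_le
  let S : ℕ → ℝ := fun k => Nat.rec 0 (fun k s => s + A' (k + 3 + s) k) k
  let Φ := fun k : ℕ => Φ' (k + 3 + S k) k
  let A := fun k : ℕ => A' (k + 3 + S k) k
  let γ := fun k : ℕ => γ' (k + 3 + S k) k
  let κ := fun k : ℕ => κ' (k + 3 + S k) k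
  let G := fun k : ℕ => G' (k + 3 + S k) k
  have hS : ∀ k, S k = ∑ l ∈ Finset.range k, A l := by
    intro k
    induction k with
    | zero => rfl
    | succ k ih => rw [Finset.sum_range_succ, ← ih]
  have hA0 : ∀ l, 0 ≤ A l := fun l => hA0' _ _
  have hγ : ∀ l, 0 < γ l := fun l => hγ' _ _
  obtain ⟨N, ε, hN, hε1, hε2, hNB, hNA⟩ := scales A
    (fun k => max (B' (k + 3 + S k) k) (max |r' (k + 3 + S k) k| 1)) γ κ hγ (fun k => hκ' _ _)
  have hN2 : ∀ l : ℕ, max |r' (l + 3 + S l) l| 1 ≤ N l := fun l =>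
    ((le_max_right _ _).trans (hNB l)).trans
      (mul_le_of_le_one_left (hN l).le (pow_le_one₀ (by norm_num) (by norm_num)))
  have hN1 : ∀ l, 1 ≤ N l := fun l => (le_max_right _ _).trans (hN2 l)
  let u := fun l => pb (dl (N l)) (Φ l)
  let ν := fun l : ℕ => (ν' (l + 3 + S l) l).map (dl (N l)⁻¹ : (Fin n → ℝ) →L[ℝ] (Fin n → ℝ))
  have hν : ∀ l, Av 0 1 (ν l) := fun l => ((hν' _ _).map _).mono (by
    have : ‖(dl (N l)⁻¹ : (Fin n → ℝ) →L[ℝ] (Fin n → ℝ))‖ ≤ (N l)⁻¹ :=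
      ContinuousLinearMap.opNorm_le_bound _ (inv_pos.2 (hN l)).le
        fun u => by rw [dl_apply, norm_smul, Real.norm_of_nonneg (inv_pos.2 (hN l)).le]
    refine (mul_le_mul_of_nonneg_left (le_abs_self _) (norm_nonneg _)).trans
      ((mul_le_mul_of_nonneg_right this (abs_nonneg _)).trans ?_)
    rw [inv_mul_le_iff₀ (hN l), mul_one]
    exact (le_max_left _ _).trans (hN2 l))
  have hum : ∀ l, u l ∈ Sp (S1 Γ) := fun l => pb_mem (hΓ _ (hN l)) (hΦm' _ _)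
  have hu1 : ∀ l (c : ℝ), 0 < c → ∀ y, Metric.ball y c ⊆ Γ → ∀ x,
      ‖u l (x, y)‖ ≤ A l * Real.exp (-(γ l * (N l * c))) :=
    fun l c hc y hy x => hA' _ _ (N l * c) (mul_pos (hN l) hc) _ (hΓ.ball (hN l) hy) _
  have hsmall : ∀ l (c : ℝ), ε l ≤ c →
      A l * N l * Real.exp (-(γ l * (N l * c))) ≤ (1 / 2) ^ l := by
    intro l c hc
    refine le_trans ?_ (hNA l)
    have := hA0 l
    have := hN l
    have := hγ l
    gcongr
  have hexp : ∀ l (c : ℝ), 0 < c → Real.exp (-(γ l * (N l * c))) ≤ 1 := fun l c hc =>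
    Real.exp_le_one_iff.2 (neg_nonpos.2 (mul_pos (hγ l) (mul_pos (hN l) hc)).le)
  have hu2 : ∀ l (c : ℝ), 0 < c → ∀ y, Metric.ball y c ⊆ Γ → ∀ x, ‖u l (x, y)‖ ≤ A l :=
    fun l c hc y hy x => (hu1 l c hc y hy x).trans (mul_le_of_le_one_right (hA0 l) (hexp l c hc))
  have hu3 : ∀ l (c : ℝ), 0 < c → ε l ≤ c → ∀ y, Metric.ball y c ⊆ Γ → ∀ x,
      ‖u l (x, y)‖ ≤ (1 / 2) ^ l := by
    intro l c hc hc' y hy x
    refine (hu1 l c hc y hy x).trans (le_trans ?_ (hsmall l c hc'))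
    have := hA0 l
    have := hN1 l
    gcongr
    nlinarith
  have hl0 : ∀ c : ℝ, 0 < c → ∃ l₀ : ℕ, ∀ l, ¬ l < l₀ → ε l ≤ c := by
    intro c hc
    obtain ⟨l₀, hl₀⟩ := exists_nat_one_div_lt hc
    refine ⟨l₀, fun l hl => (hε1 l).trans (le_trans ?_ hl₀.le)⟩
    have : (l₀ : ℝ) ≤ l := by exact_mod_cast not_lt.1 hl
    gcongr
  have hbd : ∀ y ∈ Γ, ∃ b : ℕ → ℝ, Summable b ∧ ∀ l x, ‖u l (x, y)‖ ≤ b l := by
    intro y hy
    obtain ⟨c, hc, hy⟩ := Metric.isOpen_iff.1 ho y hy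
    obtain ⟨l₀, hl₀⟩ := hl0 c hc
    refine ⟨_, (hasSum_bnd A l₀).summable, fun l x => ?_⟩
    split_ifs with h
    · exact (hu2 l c hc y hy x).trans (le_add_of_nonneg_right (by positivity))
    · rw [zero_add]; exact hu3 l c hc (hl₀ l h) y hy x
  have hsum : ∀ y ∈ Γ, ∀ x, Summable fun l => u l (x, y) := by
    intro y hy x
    obtain ⟨b, hb, hb'⟩ := hbd y hy
    exact Summable.of_norm_bounded hb (fun l => hb' l x)
  let F : (Fin n → ℝ) × (Fin n → ℝ) → ℂ := fun w => ∑' l, u l w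
  refine ⟨F, fun z hz => ?_, fun y hy => ⟨?_, ?_⟩, ?_⟩
  · obtain ⟨c, hc, hz'⟩ := Metric.isOpen_iff.1 ho _ hz
    obtain ⟨l₀, hl₀⟩ := hl0 (c / 2) (by positivity)
    obtain ⟨r, hr, hball⟩ := Metric.mem_nhds_iff.1
      (continuous_imP.continuousAt (x := z) (Metric.ball_mem_nhds _ (half_pos hc)))
    have hK : ∀ w ∈ Metric.ball z r, Metric.ball (imP w) (c / 2) ⊆ Γ := fun w hw =>
      (Metric.ball_subset_ball' (by linarith [Metric.mem_ball.1 (hball hw)])).trans hz'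
    have key := hasFDerivAt_tsum_of_isPreconnected (f := fun l => lift (u l))
      (f' := fun l w => (N l : ℂ) • f' (l + 3 + S l) l ((N l : ℂ) • w))
      (hasSum_bnd (fun l => A l * N l) l₀).summable Metric.isOpen_ball
      (convex_ball z r).isPreconnected ?_ ?_ (Metric.mem_ball_self hr)
      (hsum _ hz _) (Metric.mem_ball_self hr)
    · exact key.differentiableAt
    · intro l w _
      have e : lift (u l) = lift (Φ l) ∘ fun w => (N l : ℂ) • w := funext (lift_dl _ _)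
      rw [e]
      have := (hf' (l + 3 + S l) l ((N l : ℂ) • w)).comp w
        ((hasFDerivAt_id w).const_smul (N l : ℂ))
      convert this using 1
      ext; simp
    · intro l w hw
      have h1 := hf'' (l + 3 + S l) l (N l * (c / 2)) (mul_pos (hN l) (half_pos hc))
        ((N l : ℂ) • w) (by rw [imP_smul]; exact hΓ.ball (hN l) (hK w hw))
      rw [norm_smul, Complex.norm_real, Real.norm_of_nonneg (hN l).le]
      have h2 : N l * ‖f' (l + 3 + S l) l ((N l : ℂ) • w)‖ ≤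
          A l * N l * Real.exp (-(γ l * (N l * (c / 2)))) :=
        (mul_le_mul_of_nonneg_left h1 (hN l).le).trans (le_of_eq (by ring))
      refine h2.trans ?_
      split_ifs with h
      · refine le_trans ?_ (le_add_of_nonneg_right (by positivity))
        exact mul_le_of_le_one_right (mul_nonneg (hA0 l) (hN l).le) (hexp l _ (half_pos hc))
      · rw [zero_add]; exact hsmall l _ (hl₀ l h)
  · obtain ⟨b, hb, hb'⟩ := hbd y hy
    exact continuous_tsum (fun l => (Sp_BU (hum l) y).cont) hb hb'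
  · have hmeas : ∀ l, AEStronglyMeasurable (fun x => u l (x, y)) μ := fun l =>
      (Sp_BU (hum l) y).cont.aestronglyMeasurable
    have hul : ∀ l, eLpNorm (fun x => u l (x, y)) p μ ≤
        D ^ (1 / p.toReal) * ENNReal.ofReal ((1 / 2) ^ l) := by
      intro l
      have := (hν l).prob
      refine hμ.eLp (hν l) (Sp_BU (hum l) y).cont (by positivity) hp
        (Sp_eLp _ (hum l) (fun t ht => (ht y hy).le) hp1 (by positivity) fun x => ?_)
      rw [eLpNorm_map_measure (g := fun v => u l (x + v, 0)) ((Sp_BU (hum l) 0).cont.comp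
        (continuous_const.add continuous_id)).aestronglyMeasurable (by fun_prop)]
      simpa [Function.comp_def, u, pb, smul_smul, (hN l).ne'] using hΦp' (l + 3 + S l) l (N l • x)
    refine (Lp.eLpNorm_lim_le_liminf_eLpNorm
      (f := fun n => ∑ l ∈ Finset.range n, fun x => u l (x, y))
      (fun n => Finset.aestronglyMeasurable_sum _ fun l _ => hmeas l) _
      (Eventually.of_forall fun x => ?_)).trans ?_
    · simpa using (hsum y hy x).hasSum.tendsto_sum_nat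
    · refine liminf_le_of_frequently_le' (Frequently.of_forall fun n => ?_)
      refine (eLpNorm_sum_le (fun l _ => hmeas l) hp1).trans ?_
      refine (Finset.sum_le_sum fun l _ => hul l).trans ?_
      rw [← Finset.mul_sum, ← ENNReal.ofReal_sum_of_nonneg (fun _ _ => by positivity)]
      gcongr
      exact sum_le_hasSum _ (fun _ _ => by positivity) hasSum_geometric_two
  · have hbad : ∀ l, μ {x | 1 ≤ G l (N l • x)} ≤ D * ENNReal.ofReal ((1 / 2) ^ l) := fun l =>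
      hμ.meas (hν l) ((bG' _ _).precomp (dl (N l) : (Fin n → ℝ) →L[ℝ] _).uniformContinuous)
        (fun _ => nG' _ _ _) fun x => (mn_map _ (Λ := dl (N l))
          (by simp [smul_smul, (hN l).ne']) (bG' _ _).cont x).trans_le (hG' _ _ _)
    have hfin : ∑' l, μ {x | 1 ≤ G l (N l • x)} ≠ ∞ := by
      refine ne_top_of_le_ne_top ?_ (ENNReal.tsum_le_tsum hbad)
      rw [ENNReal.tsum_mul_left, ← ENNReal.ofReal_tsum_of_nonneg (fun _ => by positivity)
        summable_geometric_two]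
      exact ENNReal.mul_ne_top hD ENNReal.ofReal_ne_top
    filter_upwards [ae_eventually_notMem hfin] with x hx j
    obtain ⟨k, hk0, hk1, hk2⟩ := (hx.and ((eventually_ge_atTop j).and
      ((tendsto_pow_atTop_nhds_zero_of_lt_one (r := (1 / 2 : ℝ)) (by norm_num)
        (by norm_num)).eventually (eventually_lt_nhds
          (show (0 : ℝ) < 1 / (j + 1) by positivity))))).exists
    obtain ⟨y, hy, hy2⟩ := hC' _ _ _ (not_le.1 hk0)
    have hNk := hN k
    have hc : 0 < (N k)⁻¹ * κ k := mul_pos (inv_pos.2 hNk) (hκ' _ _)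
    have hy' : Metric.ball ((N k)⁻¹ • y) ((N k)⁻¹ * κ k) ⊆ Γ :=
      hΓ.ball (inv_pos.2 hNk) (hκ'' _ _ y hy)
    have hy'' := hy' (Metric.mem_ball_self hc)
    refine ⟨_, hy'', ?_, ?_⟩
    · rw [norm_smul, norm_inv, Real.norm_of_nonneg hNk.le]
      refine lt_of_le_of_lt ?_ hk2
      rw [inv_mul_le_iff₀ hNk, mul_comm]
      exact ((hB' _ _ y hy).trans (le_max_left _ _)).trans (hNB k)
    · have e1 : u k (x, (N k)⁻¹ • y) = Φ k (N k • x, y) := by
        simp only [u, pb, dl_apply, smul_smul, mul_inv_cancel₀ hNk.ne', one_smul]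
      have e2 := (hsum _ hy'' x).tsum_eq_add_tsum_ite k
      have h3 : ‖∑' l, ite (l = k) 0 (u l (x, (N k)⁻¹ • y))‖ ≤ S k + 2 := by
        rw [hS]
        refine tsum_of_norm_bounded (hasSum_bnd A k) fun l => ?_
        by_cases h : l = k
        · simp [h]
        · rw [if_neg h]
          split_ifs with h'
          · exact (hu2 l _ hc _ hy' x).trans (le_add_of_nonneg_right (by positivity))
          · rw [zero_add]
            exact hu3 l _ hc (hε2 k l (by omega)) _ hy' x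
      have h4 := norm_sub_norm_le (u k (x, (N k)⁻¹ • y))
        (-∑' l, ite (l = k) 0 (u l (x, (N k)⁻¹ • y)))
      rw [sub_neg_eq_add, norm_neg, ← e2, e1] at h4
      have h5 : (j : ℝ) ≤ k := by exact_mod_cast hk1
      change (j : ℝ) < ‖∑' l, u l (x, (N k)⁻¹ • y)‖
      change (k : ℝ) + 3 + S k ≤ ‖Φ k (N k • x, y)‖ at hy2
      linarith

end

end Pool.Agent.Lib.MP_730078_an.G
end

-- part Pool.Agent.Lib.MP_730078_an.GFinal
section

open MeasureTheory Set Filter Topology Complex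
open scoped ENNReal Real

namespace Pool.Agent.Lib.MP_730078_an.G

noncomputable section

variable {n : ℕ}

def wt (a : ℝ) (x : Fin n → ℝ) : ℝ≥0∞ := ENNReal.ofReal ((1 + ‖x‖) ^ (-a))

@[fun_prop] theorem measurable_wt (a : ℝ) : Measurable (wt (n := n) a) := by unfold wt; fun_prop

theorem avg_wt {a : ℝ} (ha : 0 ≤ a) : Avg ((volume : Measure (Fin n → ℝ)).withDensity (wt a))
    (ENNReal.ofReal (2 ^ a) * ∫⁻ x : Fin n → ℝ, wt a x) := by
  intro f hf ν hν c hc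
  have := hν.prob
  have hw : ∀ x u : Fin n → ℝ, ‖u‖ ≤ 1 → wt a (x + u) ≤ ENNReal.ofReal (2 ^ a) * wt a x := by
    intro x u hu
    simp only [wt]
    rw [← ENNReal.ofReal_mul (by positivity), Real.rpow_neg (by positivity),
      Real.rpow_neg (by positivity), ← div_eq_mul_inv, ← Real.div_rpow (by norm_num)
      (by positivity), ← Real.inv_rpow (by positivity)]
    gcongr ENNReal.ofReal (?_ ^ _)
    rw [inv_eq_one_div, div_le_div_iff₀ (by positivity) (by positivity)]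
    have := norm_sub_le (x + u) u
    rw [add_sub_cancel_right] at this
    linarith [norm_nonneg (x + u)]
  rw [lintegral_withDensity_eq_lintegral_mul _ (measurable_wt a) hf]
  calc ∫⁻ x, wt a x * f x = ∫⁻ _u, ∫⁻ x, wt a x * f x ∂volume ∂ν := by simp
    _ ≤ ∫⁻ u, ∫⁻ x, ENNReal.ofReal (2 ^ a) * wt a x * f (x + u) ∂volume ∂ν := by
        refine lintegral_mono_ae (hν.ae.mono fun u hu => ?_)
        rw [← lintegral_add_right_eq_self _ u]
        exact lintegral_mono fun x => mul_le_mul_left (hw x u hu.1) _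
    _ = ∫⁻ x, ∫⁻ u, ENNReal.ofReal (2 ^ a) * wt a x * f (x + u) ∂ν ∂volume :=
        lintegral_lintegral_swap (by fun_prop)
    _ ≤ ∫⁻ x, ENNReal.ofReal (2 ^ a) * wt a x * c := by
        refine lintegral_mono fun x => ?_
        rw [lintegral_const_mul _ (by fun_prop)]
        exact mul_le_mul_right (hc x) _
    _ = _ := by rw [lintegral_mul_const _ (by fun_prop), lintegral_const_mul _ (by fun_prop)]

/-- A polynomial without zeros on the closed tube. -/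
theorem exists_poly {Γ : Set (Fin n → ℝ)} (h : Regular Γ) :
    ∃ (P : (Fin n → ℂ) → ℂ) (C : ℝ), Differentiable ℂ P ∧
      ∀ x, ∀ y ∈ Γ, 1 + ‖x‖ ≤ C * ‖P (pt x y)‖ := by
  obtain ⟨e, c, hc, he⟩ := exists_e h
  let l : Option (Fin n) → (Fin n → ℝ) →L[ℝ] ℝ := fun o =>
    o.elim e fun j => e + c • ContinuousLinearMap.proj j
  refine ⟨fun z => ∏ o, (cx (l o) z + I), 1 + 2 / c, by fun_prop, fun x y hy => ?_⟩
  have h2 : ∀ o, 0 ≤ l o y := by
    have := he y (subset_closure hy)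
    rintro (_ | j)
    · exact le_trans (by positivity) this
    · have := mul_le_mul_of_nonneg_left (abs_le.1 (norm_le_pi_norm y j)).1 hc.le
      simp only [l, Option.elim, _root_.add_apply, smul_apply, ContinuousLinearMap.proj_apply,
        smul_eq_mul]
      linarith
  have h3 : ∀ o, 1 ≤ ‖cx (l o) (pt x y) + I‖ := by
    intro o
    refine le_trans ?_ (Complex.im_le_norm _)
    simp [cx_apply, h2 o]
  have h4 : ∀ o, ‖cx (l o) (pt x y) + I‖ ≤ ‖∏ o, (cx (l o) (pt x y) + I)‖ := by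
    intro o
    rw [norm_prod, ← Finset.mul_prod_erase _ _ (Finset.mem_univ o)]
    exact le_mul_of_one_le_right (norm_nonneg _) (Finset.one_le_prod fun i _ => h3 i)
  have h5 : ∀ o, |l o x| ≤ ‖∏ o, (cx (l o) (pt x y) + I)‖ := by
    intro o
    refine le_trans ?_ ((Complex.abs_re_le_norm _).trans (h4 o))
    simp [cx_apply]
  have h6 := (h3 none).trans (h4 none)
  simp only
  generalize ‖∏ o, (cx (l o) (pt x y) + I)‖ = R at *
  have h7 : ‖x‖ ≤ 2 / c * R := by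
    refine (pi_norm_le_iff_of_nonneg (by positivity)).2 fun j => ?_
    have a := abs_le.1 (h5 none)
    have b := abs_le.1 (h5 (some j))
    simp only [l, Option.elim, _root_.add_apply, smul_apply, ContinuousLinearMap.proj_apply,
      smul_eq_mul] at a b
    rw [div_mul_eq_mul_div, le_div_iff₀' hc, Real.norm_eq_abs, ← abs_of_pos hc, ← abs_mul, abs_le]
    constructor <;> linarith [a.1, a.2, b.1, b.2]
  linarith

theorem final {Γ : Set (Fin n → ℝ)} (h : Regular Γ) {p : ℝ} (hp0 : 0 < p)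
    (hB : ∀ H ε : ℝ, 0 < ε → Blk Γ (ENNReal.ofReal (max p 1)) H ε) :
    ∃ F : (Fin n → ℂ) → ℂ, MemHardy Γ p F ∧
      ∀ᵐ x : Fin n → ℝ, ¬ ∃ L : ℂ, Tendsto (fun y => F (pt x y)) (𝓝[Γ] 0) (𝓝 L) := by
  obtain ⟨P, C, hP, hC⟩ := exists_poly h
  have hP0 : ∀ x, ∀ y ∈ Γ, P (pt x y) ≠ 0 := fun x y hy h0 => by
    have := hC x y hy
    rw [h0, norm_zero, mul_zero] at this
    linarith [norm_nonneg x]
  obtain ⟨r, hr⟩ := exists_nat_gt (n / p)
  rw [div_lt_iff₀ hp0] at hr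
  have hrp : 0 ≤ r * p := by positivity
  have hfin : ∫⁻ x : Fin n → ℝ, wt (r * p) x < ∞ := finite_integral_one_add_norm (by simpa using hr)
  obtain ⟨F, hF1, hF2, hF3⟩ := series h.1 h.2.2.1
    (ENNReal.mul_ne_top ENNReal.ofReal_ne_top hfin.ne) (avg_wt hrp) (by simp)
    ENNReal.ofReal_ne_top hB
  set μ := (volume : Measure (Fin n → ℝ)).withDensity (wt (r * p)) with hμ
  refine ⟨fun z => lift F z * (P z)⁻¹ ^ r, ⟨?_, ?_⟩, ?_⟩
  · rintro _ ⟨x, y, hy, rfl⟩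
    exact ((hF1 _ (by simpa using hy)).mul
      (((hP _).inv (hP0 x y hy)).pow r)).differentiableWithinAt
  · obtain ⟨M, hM, hM'⟩ : ∃ M : ℝ≥0∞, M ≠ ∞ ∧ ∀ y ∈ Γ,
        eLpNorm (fun x => F (x, y)) (ENNReal.ofReal p) μ ≤ M := by
      refine ⟨_, ?_, fun y hy => (eLpNorm_le_eLpNorm_mul_rpow_measure_univ
        (ENNReal.ofReal_le_ofReal (le_max_left p 1)) (hF2 y hy).1.aestronglyMeasurable).trans
        (mul_le_mul_left (hF2 y hy).2 _)⟩
      refine ENNReal.mul_ne_top (ENNReal.mul_ne_top (ENNReal.rpow_ne_top_of_nonneg (by positivity)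
        (ENNReal.mul_ne_top ENNReal.ofReal_ne_top hfin.ne)) ENNReal.ofReal_ne_top)
        (ENNReal.rpow_ne_top_of_nonneg ?_ (by simpa [hμ] using hfin.ne))
      rw [ENNReal.toReal_ofReal hp0.le, ENNReal.toReal_ofReal (by positivity), sub_nonneg]
      exact one_div_le_one_div_of_le hp0 (le_max_left p 1)
    refine lt_of_le_of_lt (iSup₂_le fun y hy => ?_) (ENNReal.mul_lt_top
      (ENNReal.ofReal_lt_top (r := C ^ (r * p))) (ENNReal.rpow_lt_top_of_nonneg hp0.le hM))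
    have hm : Measurable fun x => ‖F (x, y)‖ₑ ^ p := (hF2 y hy).1.measurable.enorm.pow_const p
    have h1 := ENNReal.rpow_le_rpow (hM' y hy) hp0.le
    rw [eLpNorm_eq_lintegral_rpow_enorm_toReal (by simpa using hp0) ENNReal.ofReal_ne_top,
      ENNReal.toReal_ofReal hp0.le, ← ENNReal.rpow_mul, one_div_mul_cancel hp0.ne',
      ENNReal.rpow_one, hμ, lintegral_withDensity_eq_lintegral_mul _ (measurable_wt _) hm] at h1
    refine le_trans ?_ (mul_le_mul_right h1 _)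
    rw [← lintegral_const_mul _ (by fun_prop)]
    refine lintegral_mono fun x => ?_
    have h2 := hC x y hy
    have h0 : 0 < ‖P (pt x y)‖ := norm_pos_iff.2 (hP0 x y hy)
    have hC0 : 0 < C := (pos_of_mul (mul_comm C _ ▸ lt_of_lt_of_le (by positivity) h2) h0.le).2
    simp only [lift, reP_pt, imP_pt, Pi.mul_apply, wt]
    rw [enorm_mul, ENNReal.mul_rpow_of_nonneg _ _ hp0.le, mul_comm, ← mul_assoc,
      ← ENNReal.ofReal_mul (by positivity), Real.rpow_neg (by positivity), ← div_eq_mul_inv,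
      ← Real.div_rpow hC0.le (by positivity)]
    gcongr
    rw [← ofReal_norm, ENNReal.ofReal_rpow_of_nonneg (norm_nonneg _) hp0.le, norm_pow, norm_inv,
      Real.rpow_natCast_mul (by positivity)]
    gcongr
    rw [inv_eq_one_div, div_le_div_iff₀ h0 (by positivity)]
    linarith
  · have hac : (volume : Measure (Fin n → ℝ)) ≪ μ :=
      withDensity_absolutelyContinuous' (measurable_wt _).aemeasurable
        (Eventually.of_forall fun x => (ENNReal.ofReal_pos.2 (by positivity)).ne')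
    filter_upwards [hac.ae_le hF3] with x hx
    rintro ⟨L, hL⟩
    choose y hy hy1 hy2 using hx
    have ht0 : Tendsto y atTop (𝓝 0) :=
      squeeze_zero_norm (fun j => (hy1 j).le) tendsto_one_div_add_atTop_nhds_zero_nat
    have ht : Tendsto y atTop (𝓝[Γ] 0) := tendsto_nhdsWithin_iff.2 ⟨ht0, Eventually.of_forall hy⟩
    have hPc : Continuous fun y : Fin n → ℝ => P (pt x y) ^ r :=
      (hP.continuous.comp (by unfold pt; fun_prop)).pow r
    have h1 := ((hL.comp ht).mul ((hPc.tendsto 0).comp ht0)).norm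
    have h2 : ∀ j : ℕ, (j : ℝ) ≤ ‖((fun y => lift F (pt x y) * (P (pt x y))⁻¹ ^ r) ∘ y) j *
        ((fun y => P (pt x y) ^ r) ∘ y) j‖ := by
      intro j
      simp only [Function.comp_apply]
      rw [mul_assoc, ← mul_pow, inv_mul_cancel₀ (hP0 x _ (hy j)), one_pow, mul_one, lift,
        reP_pt, imP_pt]
      exact (hy2 j).le
    exact not_tendsto_nhds_of_tendsto_atTop
      (tendsto_atTop_mono h2 tendsto_natCast_atTop_atTop) _ h1

theorem main {Γ : Set (Fin n → ℝ)} (h : Regular Γ)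
    (hk : ∀ k : ℕ, ∃ (m : ℕ) (Γ' : Set (Fin m → ℝ)), Regular Γ' ∧
      (cbDeriv (exposedRays Γ') k).Nonempty ∧ Exhausts Γ Γ') {p : ℝ} (hp0 : 0 < p) :
    ∃ F : (Fin n → ℂ) → ℂ, MemHardy Γ p F ∧
      ∀ᵐ x : Fin n → ℝ, ¬ ∃ L : ℂ, Tendsto (fun y => F (pt x y)) (𝓝[Γ] 0) (𝓝 L) := by
  refine final h hp0 fun H ε hε => ?_
  obtain ⟨k, hb⟩ := block _ ENNReal.ofReal_ne_top H hε
  obtain ⟨m, Γ', h1, h2, h3⟩ := hk k
  obtain ⟨h4, h5⟩ := frame h1 h2
  exact (hb m Γ' h1.1 h1.2.2.1 h4 h5).pull h.1 h1.1 h4 h3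

end

end Pool.Agent.Lib.MP_730078_an.G
end

-- part Pool.Agent.Lib.MP_730078_an.GCheck
section

/-! Sanity checks for the hypothesis of `G.main`: it holds for every regular cone with
uncountably many exposed rays, and the light cones `C_n`, `n ≥ 3`, are such cones. -/

open MeasureTheory Set Filter Topology

namespace Pool.Agent.Lib.MP_730078_an.G

noncomputable section

theorem cbDeriv_nonempty {n : ℕ} {A : Set (Fin n → ℝ)} (hA : ¬ A.Countable) (k : ℕ) :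
    (cbDeriv A k).Nonempty := by
  obtain ⟨D, hD, ⟨x, hx⟩, -⟩ := exists_perfect_nonempty_of_isClosed_of_not_countable
    (isClosed_univ (X := A)) (by rwa [countable_univ_iff, countable_coe_iff])
  have key : ∀ k, ∀ x ∈ D, (x : Fin n → ℝ) ∈ cbDeriv A k := by
    intro k
    induction k with
    | zero => exact fun x _ => x.2
    | succ k ih =>
      intro x hx
      rw [cbDeriv_succ]
      refine ⟨ih x hx, accPt_iff_nhds.2 fun U hU => ?_⟩
      obtain ⟨y, ⟨h1, h2⟩, h3⟩ := accPt_iff_nhds.1 (hD.acc x hx) _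
        (continuous_subtype_val.continuousAt hU)
      exact ⟨y, ⟨h1, ih y h2⟩, fun h => h3 (Subtype.ext h)⟩
  exact ⟨x, key k x hx⟩

theorem exhausts_self {n : ℕ} (Γ : Set (Fin n → ℝ)) : Exhausts Γ Γ :=
  fun _ _ h => ⟨LinearMap.id, by simpa using h, by simp⟩

/-- Every regular cone with uncountably many exposed rays fails for all finite exponents. -/
theorem main_uncountable {n : ℕ} {Γ : Set (Fin n → ℝ)} (h : Regular Γ)
    (hu : ¬ (exposedRays Γ).Countable) {p : ℝ} (hp0 : 0 < p) :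
    ∃ F : (Fin n → ℂ) → ℂ, MemHardy Γ p F ∧
      ∀ᵐ x : Fin n → ℝ, ¬ ∃ L : ℂ, Tendsto (fun y => F (pt x y)) (𝓝[Γ] 0) (𝓝 L) :=
  main h (fun k => ⟨n, Γ, h, cbDeriv_nonempty hu k, exhausts_self Γ⟩) hp0

variable {m : ℕ}

theorem mem_lc {y : Fin (m + 3) → ℝ} : y ∈ lightCone (m + 3) ↔
    0 < y 0 ∧ ∑ j : Fin (m + 2), y j.succ ^ 2 < y 0 ^ 2 := by
  have h := Finset.add_sum_erase Finset.univ (fun j => y j ^ 2) (Finset.mem_univ 0)
  rw [Fin.sum_univ_succ] at h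
  simp only [lightCone, mem_ofPred_eq]
  rw [show ∑ j ∈ Finset.univ.erase 0, y j ^ 2 = ∑ j : Fin (m + 2), y j.succ ^ 2 by linarith, sub_pos]

theorem lc_eq : lightCone (m + 3) =
    {y | ‖(WithLp.toLp 2 fun j : Fin (m + 2) => y j.succ : EuclideanSpace ℝ _)‖ < y 0} := by
  ext y
  rw [mem_lc, mem_ofPred_eq, EuclideanSpace.norm_eq]
  simp only [Real.norm_eq_abs, sq_abs]
  constructor
  · rintro ⟨h1, h2⟩
    exact (Real.sqrt_lt' h1).2 h2
  · intro h
    have h1 := (Real.sqrt_nonneg _).trans_lt h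
    exact ⟨h1, (Real.sqrt_lt' h1).1 h⟩

theorem lc_regular : Regular (lightCone (m + 3)) := by
  let T : (Fin (m + 3) → ℝ) →ₗ[ℝ] EuclideanSpace ℝ (Fin (m + 2)) :=
    { toFun := fun y => WithLp.toLp 2 fun j => y j.succ
      map_add' := fun _ _ => rfl
      map_smul' := fun _ _ => rfl }
  have e : lightCone (m + 3) = {y | ‖T y‖ < y 0} := lc_eq
  have hT : Continuous T := T.continuous_of_finiteDimensional
  rw [e]
  refine ⟨isOpen_lt (by fun_prop) (by fun_prop), fun x hx y hy a b ha hb hab => ?_,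
    fun s hs y hy => ?_, fun y v hv => ?_⟩
  · simp only [mem_ofPred_eq, map_add, map_smul, Pi.add_apply, Pi.smul_apply, smul_eq_mul] at *
    refine (norm_add_le _ _).trans_lt ?_
    rw [norm_smul, norm_smul, Real.norm_of_nonneg ha, Real.norm_of_nonneg hb]
    rcases ha.eq_or_lt with rfl | ha
    · simp only [zero_add] at hab; simpa [hab] using hy
    · exact add_lt_add_of_lt_of_le (mul_lt_mul_of_pos_left hx ha) (mul_le_mul_of_nonneg_left hy.le hb)
  · simp only [mem_ofPred_eq, map_smul, Pi.smul_apply, smul_eq_mul] at *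
    rw [norm_smul, Real.norm_of_nonneg hs.le]
    exact mul_lt_mul_of_pos_left hy hs
  · by_contra hh
    push Not at hh
    simp only [mem_ofPred_eq, map_add, map_smul, Pi.add_apply, Pi.smul_apply, smul_eq_mul] at hh
    have h0 : v 0 = 0 := by
      by_contra h0
      have := (norm_nonneg _).trans_lt (hh (-(y 0 / v 0)))
      rw [neg_mul, div_mul_cancel₀ _ h0] at this
      simp at this
    have h1 : T v ≠ 0 := fun h1 => hv (funext fun j => Fin.cases h0 (fun j => congr($h1 j)) j)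
    have h2 := norm_pos_iff.2 h1
    have h3 := hh ((|y 0| + ‖T y‖) / ‖T v‖)
    have h4 := norm_sub_norm_le (((|y 0| + ‖T y‖) / ‖T v‖) • T v) (-T y)
    rw [sub_neg_eq_add, add_comm _ (T y), norm_neg, norm_smul, Real.norm_of_nonneg (by positivity),
      div_mul_cancel₀ _ h2.ne'] at h4
    rw [h0] at h3
    linarith [le_abs_self (y 0)]

theorem lc_exposed (s : ℝ) (hs : s ∈ Icc (0 : ℝ) 1) :
    (Fin.cons 1 (Fin.cons s (Fin.cons (√(1 - s ^ 2)) 0)) : Fin (m + 3) → ℝ) ∈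
      exposedRays (lightCone (m + 3)) := by
  have h0 : 0 ≤ 1 - s ^ 2 := by nlinarith [hs.1, hs.2]
  have h1 := Real.sq_sqrt h0
  have h2 := Real.sqrt_nonneg (1 - s ^ 2)
  generalize √(1 - s ^ 2) = c at h1 h2
  set ω : Fin (m + 3) → ℝ := Fin.cons 1 (Fin.cons s (Fin.cons c 0)) with hω
  have hcl : ∀ y ∈ closure (lightCone (m + 3)),
      0 ≤ y 0 ∧ y 1 ^ 2 + (y 2 ^ 2 + ∑ j : Fin m, y j.succ.succ.succ ^ 2) ≤ y 0 ^ 2 := by
    refine closure_minimal (t := {y : Fin (m + 3) → ℝ | 0 ≤ y 0} ∩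
      {y | y 1 ^ 2 + (y 2 ^ 2 + ∑ j : Fin m, y j.succ.succ.succ ^ 2) ≤ y 0 ^ 2}) (fun y hy => ?_)
      ((isClosed_le (by fun_prop) (by fun_prop)).inter (isClosed_le (by fun_prop) (by fun_prop)))
    rw [mem_lc, Fin.sum_univ_succ, Fin.sum_univ_succ] at hy
    exact ⟨hy.1.le, hy.2.le⟩
  have hl : ∀ y ∈ closure (lightCone (m + 3)), s * y 1 + c * y 2 - y 0 ≤ 0 := by
    intro y hy
    obtain ⟨a, b⟩ := hcl y hy
    have : 0 ≤ ∑ j : Fin m, y j.succ.succ.succ ^ 2 := by positivity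
    exact sub_nonpos.2 (abs_le_of_sq_le_sq' (by nlinarith [sq_nonneg (s * y 2 - c * y 1)]) a).2
  have hray : ∀ t : ℝ, 0 ≤ t → t • ω ∈ closure (lightCone (m + 3)) := by
    intro t ht
    refine mem_closure_of_tendsto (f := fun ε : ℝ => t • ω + ε • Pi.single 0 1) (b := 𝓝[>] 0)
      ((Continuous.tendsto' (by fun_prop) 0 _ (by simp)).mono_left nhdsWithin_le_nhds)
      (eventually_nhdsWithin_of_forall fun ε hε => ?_)
    have hε : 0 < ε := hε
    rw [mem_lc, Fin.sum_univ_succ, Fin.sum_univ_succ]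
    change 0 < t * 1 + ε * 1 ∧ (t * s + ε * 0) ^ 2 + ((t * c + ε * 0) ^ 2 +
      ∑ j : Fin m, (t * 0 + ε * 0) ^ 2) < (t * 1 + ε * 1) ^ 2
    simp only [mul_zero, add_zero, ne_eq, OfNat.ofNat_ne_zero, not_false_eq_true, zero_pow,
      Finset.sum_const_zero]
    have : (t * c) ^ 2 = t ^ 2 * (1 - s ^ 2) := by rw [mul_pow, h1]
    constructor <;> nlinarith [mul_nonneg ht hε.le, mul_pos hε hε]
  refine ⟨le_antisymm ((pi_norm_le_iff_of_nonneg zero_le_one).2 fun i => ?_)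
    (by simpa [hω] using norm_le_pi_norm ω 0), fun _ =>
    ⟨s • ContinuousLinearMap.proj 1 + c • ContinuousLinearMap.proj 2 - ContinuousLinearMap.proj 0,
      ?_⟩⟩
  · refine Fin.cases ?_ (fun i => Fin.cases ?_ (fun i => Fin.cases ?_ (fun i => ?_) i) i) i
    · simp [hω]
    · simpa [hω, abs_of_nonneg hs.1] using hs.2
    · simp only [hω, Fin.cons_succ, Fin.cons_zero, Real.norm_of_nonneg h2]
      nlinarith [sq_nonneg s]
    · simp [hω]
  · ext x
    simp only [mem_ofPred_eq, _root_.sub_apply, _root_.add_apply, smul_apply,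
      ContinuousLinearMap.proj_apply, smul_eq_mul]
    constructor
    · rintro ⟨t, ht, rfl⟩
      refine ⟨hray t ht, fun y hy => (hl y hy).trans (le_of_eq ?_)⟩
      change 0 = s * (t * s) + c * (t * c) - t * 1
      linear_combination (-t) * h1
    · rintro ⟨hx, hx'⟩
      have a1 := hx' 0 (by simpa using hray 0 le_rfl)
      obtain ⟨a2, a3⟩ := hcl x hx
      have a4 := hl x hx
      simp only [Pi.zero_apply, mul_zero, add_zero, sub_zero] at a1
      have a5 : x 0 = s * x 1 + c * x 2 := by linarith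
      have a6 : 0 ≤ ∑ j : Fin m, x j.succ.succ.succ ^ 2 := by positivity
      have a7 : (x 1 - x 0 * s) ^ 2 + (x 2 - x 0 * c) ^ 2 +
        ∑ j : Fin m, x j.succ.succ.succ ^ 2 ≤ 0 := by nlinarith
      have a8 : ∑ j : Fin m, x j.succ.succ.succ ^ 2 = 0 := by
        nlinarith [sq_nonneg (x 1 - x 0 * s), sq_nonneg (x 2 - x 0 * c)]
      refine ⟨x 0, a2, funext fun i => ?_⟩
      refine Fin.cases ?_ (fun i => Fin.cases ?_ (fun i => Fin.cases ?_ (fun i => ?_) i) i) i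
      · simp [hω]
      · change x 1 = x 0 * s
        nlinarith [sq_nonneg (x 1 - x 0 * s), sq_nonneg (x 2 - x 0 * c)]
      · change x 2 = x 0 * c
        nlinarith [sq_nonneg (x 1 - x 0 * s), sq_nonneg (x 2 - x 0 * c)]
      · simpa [hω] using (Finset.sum_eq_zero_iff_of_nonneg fun _ _ => sq_nonneg _).1 a8 i
          (Finset.mem_univ i)

theorem lc_uncountable : ¬ (exposedRays (lightCone (m + 3))).Countable := by
  intro h
  have : (Icc (0 : ℝ) 1).Countable := (h.image fun y => y 1).mono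
    fun s hs => mem_image_of_mem (fun y : Fin (m + 3) → ℝ => y 1) (lc_exposed s hs)
  simpa using this.measure_zero volume

end

end Pool.Agent.Lib.MP_730078_an.G
end

-- part Pool.Agent.Lib.MP_730078_an.HTree1
section

open MeasureTheory Set Filter Topology Complex ComplexConjugate
open scoped ENNReal Real

namespace Pool.Agent.Lib.MP_730078_an.G.H

noncomputable section

variable {E : Type*} [NormedAddCommGroup E] [NormedSpace ℝ E]

/-- Mean along a direction. -/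
def pa (K : Measure ℝ) (ω : E) (f : E → ℝ) (x : E) : ℝ := ∫ s, f (x + s • ω) ∂K

variable {K : Measure ℝ} [IsProbabilityMeasure K] {f g : E → ℝ} {ω : E}

theorem pa_intg (hf : BU f) (x : E) : Integrable (fun s : ℝ => f (x + s • ω)) K := by
  obtain ⟨C, hC⟩ := hf.2
  exact (integrable_const C).mono' (Continuous.aestronglyMeasurable (hf.cont.comp
    (f := fun s : ℝ => x + s • ω) (by fun_prop))) (Eventually.of_forall fun u => hC _)

theorem pa_BU (hf : BU f) : BU (pa K ω f) := by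
  obtain ⟨C, hC⟩ := hf.2
  refine ⟨Metric.uniformContinuous_iff.2 fun ε hε => ?_, C, fun x => abs_int_le fun u => hC _⟩
  obtain ⟨δ, hδ, h1⟩ := Metric.uniformContinuous_iff.1 hf.1 (ε / 2) (half_pos hε)
  refine ⟨δ, hδ, fun {a b} hab => ?_⟩
  rw [Real.dist_eq, pa, pa, ← integral_sub (pa_intg hf a) (pa_intg hf b)]
  exact (abs_int_le fun u => (h1 (a := a + u • ω) (b := b + u • ω)
    (by simpa using hab)).le).trans_lt (half_lt_self hε)

omit [IsProbabilityMeasure K] in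
theorem pa_nonneg (h : ∀ x, 0 ≤ f x) (x : E) : 0 ≤ pa K ω f x := integral_nonneg fun _ => h _

theorem pa_le (hf : BU f) (hg : BU g) {c : ℝ} (h : ∀ x, f x ≤ g x + c) (x : E) :
    pa K ω f x ≤ pa K ω g x + c := by
  refine (integral_mono (pa_intg hf x) ((pa_intg hg x).add (integrable_const c))
    fun s => h _).trans (le_of_eq ?_)
  simp only [Pi.add_apply]
  rw [integral_add (pa_intg hg x) (integrable_const c)]
  simp [pa]

omit [NormedSpace ℝ E] in
theorem slowC {F : Type*} [NormedAddCommGroup F] {q : E → F} (hq : BU q) {ε : ℝ} (hε : 0 < ε) :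
    ∀ᶠ r in 𝓝[>] (0 : ℝ), ∀ x u, ‖u‖ ≤ r → ‖q (x + u) - q x‖ ≤ ε := by
  obtain ⟨δ, hδ, h1⟩ := Metric.uniformContinuous_iff.1 hq.1 ε hε
  filter_upwards [Ioo_mem_nhdsGT hδ] with r hr x u hu
  rw [← dist_eq_norm]
  exact (h1 (a := x + u) (b := x) (by simpa using hu.trans_lt hr.2)).le

theorem pa_near (hf : BU f) {ε : ℝ} (hε : 0 < ε) : ∀ᶠ r in 𝓝[>] (0 : ℝ), ∀ ω', ‖ω' - ω‖ ≤ r →
    ∀ x, pa K ω' f x ≤ pa K ω f x + ε := by
  obtain ⟨C, hC⟩ := hf.2
  have hC0 : 0 ≤ C := (norm_nonneg _).trans (hC 0)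
  obtain ⟨L, hL, hL'⟩ := tail K (ε := ε / 2 / (2 * C + 1)) (by positivity)
  obtain ⟨δ, h1, hδ⟩ := ((slowC hf (half_pos hε)).and self_mem_nhdsWithin).exists
  replace hδ : 0 < δ := hδ
  filter_upwards [Ioo_mem_nhdsGT (show 0 < δ / L by positivity)] with r hr ω' hω' x
  have h2 := int_tail K (f := fun s => f (x + s • ω') - f (x + s • ω)) (L := L) (b := 2 * C + 1)
    (half_pos hε).le (fun s hs => by
      have := h1 (x + s • ω) (s • (ω' - ω)) (by
        rw [norm_smul]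
        have := mul_le_mul hs (hω'.trans hr.2.le) (norm_nonneg _) (by linarith)
        rwa [mul_div_cancel₀ _ (by linarith)] at this)
      rwa [smul_sub, add_assoc, add_sub_cancel] at this)
    fun s => (norm_sub_le_of_le (hC _) (hC _)).trans (by linarith)
  rw [integral_sub (pa_intg hf x) (pa_intg hf x)] at h2
  have h3 := mul_le_mul_of_nonneg_left hL' (show 0 ≤ 2 * C + 1 by positivity)
  rw [mul_div_cancel₀ _ (by positivity)] at h3
  have := (abs_le.1 h2).2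
  unfold pa
  linarith

variable [MeasurableSpace E] [BorelSpace E] {e : E →L[ℝ] ℝ} {r : ℝ} {ν : Measure E}

theorem Av_loc (h : Av e r ν) (hf : BU f) (hg : BU g) {x : E}
    (hfg : ∀ u, ‖u‖ ≤ r → f (x + u) ≤ g (x + u)) : mn ν f x ≤ mn ν g x :=
  have := h.prob
  integral_mono_ae (hf.intg ν x) (hg.intg ν x) (h.ae.mono fun _ hu => hfg _ hu.1)

theorem seg_le {v x : E} (hf : BU f) {φ : TT → ℝ} (hφ : Continuous φ) {a : ℝ}
    (h : ∀ s : ℝ, |s| ≤ 1 → f (x + s • v) ≤ φ (a + s : ℝ)) : mn (seg v) f x ≤ ∫ u, φ u := by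
  have hc := hf.cont
  rw [mn, seg, integral_map (by fun_prop) (Continuous.aestronglyMeasurable (by fun_prop)),
    ← intervalIntegral.integral_of_le zero_le_one, ← UnitAddCircle.intervalIntegral_preimage a]
  have := intervalIntegral.integral_comp_add_left (fun s : ℝ => φ (s : ℝ)) a (a := 0) (b := 1)
  rw [add_zero] at this
  rw [← this]
  exact intervalIntegral.integral_mono_on zero_le_one (Continuous.intervalIntegrable (by fun_prop) _ _)
    (Continuous.intervalIntegrable (by fun_prop) _ _)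
    fun s hs => h s (abs_le.2 ⟨by linarith [hs.1], hs.2⟩)

omit [MeasurableSpace E] [BorelSpace E] in
theorem pj_seg {η : E →L[ℝ] ℝ} {v : E} (hv : e v = 0) (hv' : η v = 1) (x : E) (s : ℝ) :
    pj η e (x + s • v) = (((η x + s : ℝ) : TT), ((e x : ℝ) : TT)) := by
  simp [pj, hv, hv']

omit [MeasurableSpace E] [BorelSpace E] in
theorem norm_seg {v : E} {s : ℝ} (hs : |s| ≤ 1) : ‖s • v‖ ≤ ‖v‖ := by
  rw [norm_smul]
  exact mul_le_of_le_one_left (norm_nonneg _) hs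

theorem pot_seg (e : E →L[ℝ] ℝ) {F a : E → ℝ} {q : E → ℂ} (bF : BU F) (ba : BU a) (bq : BU q)
    {ε : ℝ} (hε : 0 < ε) : ∀ᶠ r in 𝓝[>] (0 : ℝ), ∀ (v : E) (η : E →L[ℝ] ℝ), ‖v‖ ≤ r → e v = 0 →
      η v = 1 → ∀ g : T2 → ℝ, Continuous g → (∀ u, 0 ≤ g u) → ∀ f : E → ℝ, BU f →
      (∀ y, f y ≤ F y + (q y * e1 ((pj η e y).2 + (pj η e y).1)).re + a y * g (pj η e y)) →
      ∀ x, mn (seg v) f x ≤ F x + 2 * ε + (a x + ε) * ∫ u, g (u, (e x : ℝ)) := by
  filter_upwards [bF.slow hε, ba.slow hε, slowC bq hε] with r s1 s2 s3 v η h1 h2 h3 g cg g0 f bf h x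
  refine (seg_le bf (a := η x) (φ := fun u => F x + 2 * ε + (q x * e1 (e x : ℝ) * e1 u).re +
    (a x + ε) * g (u, (e x : ℝ))) (by fun_prop) fun s hs => ?_).trans (le_of_eq ?_)
  · have h4 := h (x + s • v)
    have h5 := (norm_seg hs).trans h1
    rw [pj_seg h2 h3] at h4
    have k1 := (abs_le.1 (s1 x _ h5)).2
    have k2 := mul_le_mul_of_nonneg_right (show a (x + s • v) ≤ a x + ε by
      linarith [(abs_le.1 (s2 x _ h5)).2]) (g0 ((η x + s : ℝ), (e x : ℝ)))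
    have k3 := Complex.re_le_norm ((q (x + s • v) - q x) * e1 ((e x : ℝ) + (η x + s : ℝ)))
    rw [norm_mul, norm_e1, mul_one, sub_mul, sub_re] at k3
    have k4 := s3 x _ h5
    simp only [mul_assoc, ← e1_add] at h4 ⊢
    linarith
  · rw [integral_add (intg (by fun_prop)) (intg (by fun_prop)),
      integral_add (integrable_const _) (intg (by fun_prop)), int_re_e1, integral_const_mul]
    simp

variable [SecondCountableTopology E]

theorem mn_pa (h : Av e r ν) (hf : BU f) (x : E) : mn ν (pa K ω f) x = pa K ω (mn ν f) x := by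
  have := h.prob
  obtain ⟨C, hC⟩ := hf.2
  have hc := hf.cont
  simp only [mn, pa]
  rw [integral_integral_swap ((integrable_const C).mono' (Continuous.aestronglyMeasurable
    (by unfold Function.uncurry; fun_prop)) (Eventually.of_forall fun u => hC _))]
  simp only [add_right_comm x]

theorem pot_two {F2 F3 G H : E → ℝ} (b2 : BU F2) (b3 : BU F3) (bG : BU G) {νA νB : Measure E}
    {rA rB ε : ℝ} (hA : Av e rA νA) (hB : Av e rB νB) (hs : Slow G rA ε)
    (h3 : ∀ y, mn νB F3 y ≤ F2 y + G y) (h2 : ∀ y, mn νA F2 y ≤ H y) (y : E) :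
    mn (νA ∗ νB) F3 y ≤ H y + G y + ε := by
  rw [hA.mn_conv hB b3]
  have := hA.le (hB.BU b3) (b2.add bG) (x := y) fun y _ => h3 y
  rw [hA.add b2 bG] at this
  linarith [h2 y, (abs_le.1 (hA.one' bG hs y)).2]

theorem bad_step {δ : ℝ} {a bp bm : TT → ℝ} (hC : Cut δ a bp bm) (η e : E →L[ℝ] ℝ) {v : E}
    (hv : e v = 0) (hv' : η v = 1) {C l : ℝ} (hC1 : 1 ≤ C) (hl : 0 < l) (n : ℕ) {D bad : E → ℝ}
    (bb : BU bad) (D0 : ∀ y, 0 ≤ D y)
    (hb : ∀ y, bad y ≤ 1 / 20 + 2 * C * D y) (hD : Slow D ‖v‖ l) :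
    ∀ᶠ rA in 𝓝[>] (0 : ℝ), ∀ (νA : Measure E) (BA ZA D2 : E → ℝ), Av e rA νA → BU BA → BU ZA →
      BU D2 → (∀ y, 0 ≤ BA y) → (∀ y, 0 ≤ ZA y) → (∀ y, 0 ≤ D2 y) →
      (∀ y, mn νA BA y ≤ n * (1 / 16 + 3 * C * (D y + 7 * l) + 30 * C * n * l)) →
      (∀ y, mn νA ZA y ≤ 201 / 200) → (∀ y, mn νA D2 y ≤ D y + 7 * l) →
      ∀ᶠ rB in 𝓝[>] (0 : ℝ), ∀ (νB : Measure E) (BB : E → ℝ), Av e rB νB → BU BB →
      (∀ y, 0 ≤ BB y) → (∀ y, mn νB BB y ≤ n * (1 / 16 + 3 * C * D2 y + 30 * C * n * l)) →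
      ∀ x, mn (seg v ∗ νA ∗ νB) (nZ a η e (fun y => BA y + bad y * ZA y) BB) x ≤
        (n + 1 : ℕ) * (1 / 16 + 3 * C * D x + 30 * C * (n + 1 : ℕ) * l) := by
  have ca := hC.ca
  have hn0 : (0 : ℝ) ≤ n := Nat.cast_nonneg n
  obtain ⟨ε, hε, hε1, hε2⟩ : ∃ ε : ℝ, 0 < ε ∧ ε ≤ 1 / 300 ∧ ε * n ≤ 1 / 300 := by
    refine ⟨1 / 300 / (n + 1), by positivity, div_le_self (by norm_num) (by linarith), ?_⟩
    rw [div_mul_eq_mul_div, div_le_iff₀ (by positivity)]
    linarith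
  have bα := BU_pj η e (p := fun q => a q.1) (by fun_prop)
  have bβ := BU_pj η e (p := fun q => 1 - a (q.1 - q.2)) (by fun_prop)
  have α0 : ∀ y, 0 ≤ a (pj η e y).1 := fun y => hC.a0 _
  have β0 : ∀ y, 0 ≤ 1 - a ((pj η e y).1 - (pj η e y).2) := fun y => sub_nonneg.2 (hC.a1 _)
  filter_upwards [bα.slow hε, bβ.slow hε, (bα.mul bb).slow hε] with rA s1 s2 s3 νA BA ZA D2 hA
    bBA bZA bD2 BA0 ZA0 D20 h1 h2 h3
  have b1 := bBA.add (bb.mul bZA)
  filter_upwards [(bα.mul b1).slow hε, bβ.slow hε] with rB s4 s5 νB BB hB bBB BB0 h4 x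
  have bN := BU_nZ ca η e b1 bBB
  have c := fun t : ℝ => BU.const (X := E) t
  have bW : BU fun y => (n : ℝ) * (1 / 16 + 3 * C * D2 y + 30 * C * n * l) :=
    (c _).mul (((c _).add ((c _).mul bD2)).add (c _))
  have k1 : ∀ y, mn νB (nZ a η e (fun y => BA y + bad y * ZA y) BB) y ≤
      a (pj η e y).1 * (BA y + bad y * ZA y) + ε + (1 - a ((pj η e y).1 - (pj η e y).2) + ε) *
        (n * (1 / 16 + 3 * C * D2 y + 30 * C * n * l)) := by
    intro y
    have := Av_loc hB bN ((c (a (pj η e y).1 * (BA y + bad y * ZA y) + ε)).add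
      ((c (1 - a ((pj η e y).1 - (pj η e y).2) + ε)).mul bBB)) (x := y) fun u hu => by
        have a1 := (abs_le.1 (s4 y u hu)).2
        have a2 := mul_le_mul_of_nonneg_right (abs_le.1 (s5 y u hu)).2 (BB0 (y + u))
        simp only [nZ] at a1 a2 ⊢
        linarith
    rw [hB.add (c _) ((c _).mul bBB), hB.const, mn_mul] at this
    linarith [mul_le_mul_of_nonneg_left (h4 y) (add_nonneg (β0 y) hε.le)]
  have k2 : ∀ y, mn (νA ∗ νB) (nZ a η e (fun y => BA y + bad y * ZA y) BB) y ≤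
      (a (pj η e y).1 + (1 - a ((pj η e y).1 - (pj η e y).2)) + 3 * ε) *
        (n * (1 / 16 + 3 * C * (D y + 7 * l) + 30 * C * n * l)) +
        (1 / 20 + 2 * C * D y + ε) * (201 / 200) + ε := by
    intro y
    rw [hA.mn_conv hB bN]
    have p1 : a (pj η e y).1 * bad y ≤ 1 / 20 + 2 * C * D y :=
      (mul_le_mul_of_nonneg_left (hb y) (α0 y)).trans (mul_le_of_le_one_left
        (by have := D0 y; positivity) (hC.a1 _))
    have := Av_loc hA (hB.BU bN) (((((c (a (pj η e y).1 + ε)).mul bBA).add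
      ((c (1 / 20 + 2 * C * D y + ε)).mul bZA)).add (c ε)).add
      ((c (1 - a ((pj η e y).1 - (pj η e y).2) + 2 * ε)).mul bW)) (x := y) fun u hu => by
        have a1 := mul_le_mul_of_nonneg_right (abs_le.1 (s1 y u hu)).2 (BA0 (y + u))
        have a2 := mul_le_mul_of_nonneg_right (abs_le.1 (s2 y u hu)).2
          (show 0 ≤ (n : ℝ) * (1 / 16 + 3 * C * D2 (y + u) + 30 * C * n * l) by
            have := D20 (y + u); positivity)
        have a3 := mul_le_mul_of_nonneg_right (abs_le.1 (s3 y u hu)).2 (ZA0 (y + u))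
        have a4 := mul_le_mul_of_nonneg_right p1 (ZA0 (y + u))
        have a5 := k1 (y + u)
        simp only at a1 a2 a3 ⊢
        linarith
    rw [hA.add ((((c _).mul bBA).add ((c _).mul bZA)).add (c _)) ((c _).mul bW),
      hA.add (((c _).mul bBA).add ((c _).mul bZA)) (c _), hA.add ((c _).mul bBA) ((c _).mul bZA),
      hA.const, mn_mul, mn_mul, mn_mul, mn_mul, hA.add ((c _).add ((c _).mul bD2)) (c _),
      hA.add (c _) ((c _).mul bD2), hA.const, hA.const, mn_mul] at this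
    have a1 := mul_le_mul_of_nonneg_left (h1 y) (add_nonneg (α0 y) hε.le)
    have a2 := mul_le_mul_of_nonneg_left (h2 y)
      (show 0 ≤ 1 / 20 + 2 * C * D y + ε by have := D0 y; positivity)
    have a3 := mul_le_mul_of_nonneg_left (h3 y) (show 0 ≤ (1 - a ((pj η e y).1 - (pj η e y).2) +
      2 * ε) * (n * (3 * C)) by have := β0 y; positivity)
    linarith
  rw [(av_seg (e := e) hv).mn_conv (hA.conv hB) bN]
  refine (seg_le ((hA.conv hB).BU bN) (a := η x) (φ := fun u => (a u + (1 - a (u - (e x : ℝ))) +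
    3 * ε) * (n * (1 / 16 + 3 * C * (D x + 8 * l) + 30 * C * n * l)) +
      ((1 / 20 + 2 * C * (D x + l) + ε) * (201 / 200) + ε)) (by fun_prop) fun s hs => ?_).trans ?_
  · have a1 := k2 (x + s • v)
    have a2 := (abs_le.1 (hD x _ (norm_seg hs))).2
    have a3 := add_nonneg (α0 (x + s • v)) (β0 (x + s • v))
    rw [pj_seg hv hv'] at a1 a3
    have a4 := mul_le_mul_of_nonneg_left a2 (show 0 ≤ (a ((η x + s : ℝ) : TT) +
      (1 - a ((η x + s : ℝ) - (e x : ℝ))) + 3 * ε) * (n * (3 * C)) by positivity)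
    have a5 := mul_le_mul_of_nonneg_left a2 (show 0 ≤ C by linarith)
    simp only at a1 a3 ⊢
    linarith
  · rw [integral_add (intg (by fun_prop)) (integrable_const _), integral_mul_const,
      integral_add (intg (by fun_prop)) (integrable_const _),
      integral_add (intg ca) (intg (by fun_prop)), integral_sub_right_eq_self (fun u => 1 - a u),
      integral_sub (integrable_const _) (intg ca)]
    simp only [integral_const, probReal_univ, smul_eq_mul, mul_one, one_mul]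
    have a1 := mul_le_mul_of_nonneg_right hε2
      (show 0 ≤ 1 / 16 + 3 * C * (D x + 8 * l) + 30 * C * n * l by have := D0 x; positivity)
    have a2 : 0 ≤ C * D x := mul_nonneg (by linarith) (D0 x)
    have a3 : 0 ≤ C * l := by positivity
    have a4 : 0 ≤ C * n * l := by positivity
    push_cast
    linarith

/-- The counting part of the invariant. -/
structure Cnt (e : E →L[ℝ] ℝ) (l : ℝ) (n : ℕ) (Y Z : E → ℝ) (ν : Measure E) : Prop where
  bY : BU Y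
  bZ : BU Z
  Y0 : ∀ x, 0 ≤ Y x
  Z0 : ∀ x, 0 ≤ Z x
  YZ : ∀ x, Y x ≤ n * Z x
  iZ1 : ∀ x, mn ν Z x ≤ 1 + 2 * n * l ^ 2
  iZ0 : ∀ x, 1 - 2 * n * l ^ 2 ≤ mn ν Z x
  iY : ∀ x, n / 4 ≤ mn ν Y x
  iZ2 : ∀ x, mn ν (fun x => Z x ^ 2) x ≤ 1 + n * (5 * ‖((e x : ℝ) : TT)‖ + 2 * l)

theorem cnt_step {l : ℝ} (hl0 : 0 < l) {n : ℕ} (hn : (n + 1) * l ≤ 1 / 20) {a bp bm : TT → ℝ}
    (hC : Cut (l / 6) a bp bm) (η e : E →L[ℝ] ℝ) {v : E} (hv : e v = 0) (hv' : η v = 1) :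
    ∀ᶠ rA in 𝓝[>] (0 : ℝ), ∀ (νA : Measure E) (YA ZA : E → ℝ), Av e rA νA → Cnt e l n YA ZA νA →
      ∀ᶠ rB in 𝓝[>] (0 : ℝ), ∀ (νB : Measure E) (YB ZB : E → ℝ), Av e rB νB →
      Cnt e l n YB ZB νB → Cnt e l (n + 1) (nZ a η e (fun x => YA x + ZA x) YB) (nZ a η e ZA ZB)
        (seg v ∗ νA ∗ νB) := by
  have hn0 : (0 : ℝ) ≤ n := Nat.cast_nonneg n
  have hl : l ≤ 1 / 20 := by nlinarith
  have hnl : n * l ≤ 1 / 20 := by nlinarith
  have hnl2 : n * l ^ 2 ≤ l / 20 := by nlinarith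
  have hl2 : 0 < l ^ 2 := by positivity
  have hl3 : l ^ 2 ≤ l / 20 := by nlinarith
  filter_upwards [three_lin hC η e hv hv' (s := 1) (M := 2) (ε := 2 * l ^ 2) (by simp) (by simp)
      (by positivity),
    three_lin hC η e hv hv' (s := -1) (M := 2) (ε := 2 * l ^ 2) (by simp) (by simp)
      (by positivity),
    three_lin hC η e hv hv' (s := -1) (M := 2 * (n + 1)) (by simp) (by positivity) hl2,
    three_lin hC η e hv hv' (s := 1) (M := 1 + 3 * n) (by simp) (by positivity) hl2,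
    three_cross hC η e hv hv' (z := 201 / 200) (by norm_num) hl2] with rA t1 t2 t3 t4 t5 νA YA ZA
    avA hA
  have bYZ := hA.bY.add hA.bZ
  have sq : ∀ {Z : E → ℝ}, BU Z → BU fun x => Z x ^ 2 := fun h =>
    h.comp (φ := fun s => s ^ 2) (by fun_prop)
  filter_upwards [t1 νA avA ZA hA.bZ hA.Z0, t2 νA avA ZA hA.bZ hA.Z0,
    t3 νA avA _ bYZ fun x => add_nonneg (hA.Y0 x) (hA.Z0 x),
    t4 νA avA _ (sq hA.bZ) fun x => sq_nonneg _, t5 νA avA ZA hA.bZ hA.Z0] with rB s1 s2 s3 s4 s5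
    νB YB ZB avB hB
  clear t1 t2 t3 t4 t5
  have hav := (av_seg (e := e) hv).conv (avA.conv avB)
  have ha' : ∀ u, 0 ≤ 1 - a u := fun u => sub_nonneg.2 (hC.a1 u)
  have hα := hC.ia
  have zA : ∀ x, mn νA ZA x ≤ 201 / 200 := fun x => by linarith [hA.iZ1 x]
  have zB : ∀ x, mn νB ZB x ≤ 201 / 200 := fun x => by linarith [hB.iZ1 x]
  have bnZ := BU_nZ hC.ca η e hA.bZ hB.bZ
  refine ⟨BU_nZ hC.ca η e bYZ hB.bY, bnZ, fun x => ?_, fun x => ?_, fun x => ?_,
    fun x => ?_, fun x => ?_, fun x => ?_, fun x => ?_⟩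
  · exact add_nonneg (mul_nonneg (hC.a0 _) (add_nonneg (hA.Y0 _) (hA.Z0 _)))
      (mul_nonneg (ha' _) (hB.Y0 _))
  · exact add_nonneg (mul_nonneg (hC.a0 _) (hA.Z0 _)) (mul_nonneg (ha' _) (hB.Z0 _))
  · have h1 := mul_le_mul_of_nonneg_left (hA.YZ x) (hC.a0 (pj η e x).1)
    have h2 := mul_le_mul_of_nonneg_left (hB.YZ x) (ha' ((pj η e x).1 - (pj η e x).2))
    have h3 := mul_nonneg (ha' ((pj η e x).1 - (pj η e x).2)) (hB.Z0 x)
    simp only [nZ]
    push_cast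
    nlinarith
  · have := s1 νB avB ZB hB.bZ hB.Z0 x (1 + 2 * n * l ^ 2) (1 + 2 * n * l ^ 2) (by positivity)
      (by linarith) fun y _ => ⟨by linarith [zA y], by linarith [zB y], by linarith [hA.iZ1 y],
        by linarith [hB.iZ1 y]⟩
    push_cast
    linarith
  · have := s2 νB avB ZB hB.bZ hB.Z0 x (1 - 2 * n * l ^ 2) (1 - 2 * n * l ^ 2) (by linarith)
      (by nlinarith) fun y _ => ⟨by linarith [zA y], by linarith [zB y], by linarith [hA.iZ0 y],
        by linarith [hB.iZ0 y]⟩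
    push_cast
    linarith
  · have := s3 νB avB YB hB.bY hB.Y0 x (n / 4 + 199 / 200) (n / 4) (by positivity)
      (by linarith) fun y _ => by
        have k1 := avA.le hA.bY ((BU.const (n : ℝ)).mul hA.bZ) (x := y) fun x _ => hA.YZ x
        have k2 := avB.le hB.bY ((BU.const (n : ℝ)).mul hB.bZ) (x := y) fun x _ => hB.YZ x
        rw [mn_mul] at k1 k2
        have k3 := mul_le_mul_of_nonneg_left (zA y) hn0
        have k4 := mul_le_mul_of_nonneg_left (zB y) hn0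
        rw [avA.add hA.bY hA.bZ]
        exact ⟨by linarith [zA y], by linarith, by linarith [hA.iY y, hA.iZ0 y],
          by linarith [hB.iY y]⟩
    push_cast
    linarith
  · have hT : ‖((e x : ℝ) : TT)‖ ≤ 1 / 2 := by
      simpa using AddCircle.norm_le_half_period (1 : ℝ) (x := ((e x : ℝ) : TT)) one_ne_zero
    have hT0 := norm_nonneg ((e x : ℝ) : TT)
    have hM : 1 + n * (5 * ‖((e x : ℝ) : TT)‖ + 2 * l) ≤ 1 + 3 * n := by nlinarith
    have h1 := s4 νB avB _ (sq hB.bZ) (fun x => sq_nonneg _) x _ _ (by positivity) hM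
      fun y hy => by
        have k1 := hA.iZ2 y
        have k2 := hB.iZ2 y
        rw [hy] at k1 k2
        exact ⟨k1.trans hM, k2.trans hM, by rw [one_mul, one_mul]; exact k1,
          by rw [one_mul, one_mul]; exact k2⟩
    have h2 := s5 νB avB ZB hB.bZ hB.Z0 zA zB x
    have bc := ((BU_pj η e (p := fun q => a q.1 * (1 - a (q.1 - q.2)))
      (by have := hC.ca; fun_prop)).mul hA.bZ).mul hB.bZ
    have bq := BU_nZ hC.ca η e (sq hA.bZ) (sq hB.bZ)
    have h4 := hav.le (sq bnZ) (bq.add ((BU.const 2).mul bc)) (x := x) fun y _ => by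
      have k1 := mul_nonneg (mul_nonneg (hC.a0 (pj η e y).1) (ha' (pj η e y).1))
        (sq_nonneg (ZA y))
      have k2 := mul_nonneg (mul_nonneg (hC.a0 ((pj η e y).1 - (pj η e y).2))
        (ha' ((pj η e y).1 - (pj η e y).2))) (sq_nonneg (ZB y))
      simp only [nZ]
      nlinarith
    rw [hav.add bq ((BU.const 2).mul bc), mn_mul] at h4
    push_cast
    nlinarith

end

end Pool.Agent.Lib.MP_730078_an.G.H
end

-- part Pool.Agent.Lib.MP_730078_an.HTree2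
section

open MeasureTheory Set Filter Topology Complex ComplexConjugate
open scoped ENNReal Real

namespace Pool.Agent.Lib.MP_730078_an.G.H

noncomputable section

variable {E : Type*} [NormedAddCommGroup E] [NormedSpace ℝ E]

theorem prod_mem' {Ω : Set E} (hΩ : IsCompact Ω) {ω : E} {χ : E × E → ℂ}
    (hχ : χ ∈ Sp {s : E →L[ℝ] ℝ | -(1 / 10) ≤ s ω}) (A : ℝ) :
    ∃ A' : ℝ, ∀ᶠ ρ in 𝓝[>] (0 : ℝ), ∀ f ∈ Sp (SS Ω ω ρ A' 1), χ * f ∈ Sp (SS Ω ω ρ A (1 / 2)) := by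
  obtain ⟨C, hC, hχ⟩ := Sp_bdd hχ
  obtain ⟨D, hD⟩ := hΩ.exists_bound_of_continuousOn (f := fun y => y - ω) (by fun_prop)
  refine ⟨max A (1 / 2) + C * D + 1, ?_⟩
  filter_upwards [Ioo_mem_nhdsGT (show 0 < 1 / (4 * C) by positivity)] with ρ hρ f hf
  refine Sp_mul (fun s hs t ht y hy => ?_) hχ hf
  have h1 : -(C * ‖y - ω‖) - 1 / 10 ≤ s y := by
    have := s.le_of_opNorm_le hs.2 (y - ω)
    rw [map_sub] at this
    have h0 : -(1 / 10) ≤ s ω := hs.1
    linarith [(abs_le.1 this).1]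
  have h2 : ρ ≤ ‖y - ω‖ → max A (1 / 2) ≤ s y + t y := fun h => by
    linarith [(ht y hy).2 h, mul_le_mul_of_nonneg_left (hD y hy) hC.le]
  rw [_root_.add_apply]
  refine ⟨?_, fun h => (le_max_left _ _).trans (h2 h)⟩
  rcases le_or_gt ρ ‖y - ω‖ with h | h
  · exact (le_max_right _ _).trans (h2 h)
  · have := (lt_div_iff₀ (by positivity)).1 (h.trans hρ.2)
    linarith [(ht y hy).1]

theorem exists_cut' (t : E →L[ℝ] ℝ) {ω : E} (hω : t ω = 0) {b : TT → ℝ} (hb : Continuous b)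
    (b0 : ∀ u, 0 ≤ b u) (b1 : ∀ u, b u ≤ 1) {θ : ℝ} (hθ : 0 < θ) (hθ1 : θ ≤ 1) :
    ∃ χ ∈ Sp {s : E →L[ℝ] ℝ | s ω = 0}, ∀ x, ‖χ (x, 0) - b (t x : ℝ)‖ ≤ θ ∧
      χ (x, ω) = χ (x, 0) ∧ ‖χ (x, 0)‖ ≤ 1 ∧ ‖χ (x, 0)‖ ^ 2 ≤ b (t x : ℝ) + θ := by
  obtain ⟨χ, h1, h2⟩ := exists_cut t hω (b := fun u => (1 - θ / 2) * b u) (by fun_prop)
    (half_pos hθ)
  refine ⟨χ, h1, fun x => ?_⟩
  obtain ⟨h3, h4⟩ := h2 x
  have a0 := b0 (t x : ℝ)
  have a1 := b1 (t x : ℝ)
  generalize b (t x : ℝ) = c at *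
  have h5 := norm_sub_norm_le (χ (x, 0)) ((1 - θ / 2) * c : ℝ)
  rw [Complex.norm_real, Real.norm_of_nonneg (by nlinarith)] at h5
  have h6 : ‖χ (x, 0)‖ ≤ 1 := by nlinarith
  refine ⟨?_, h4, h6, by nlinarith [norm_nonneg (χ (x, 0))]⟩
  have h7 := norm_sub_le_norm_sub_add_norm_sub (χ (x, 0)) ((1 - θ / 2) * c : ℝ) c
  rw [← ofReal_sub, Complex.norm_real, Real.norm_of_nonpos (by nlinarith)] at h7
  nlinarith

theorem root_left' {η e : E →L[ℝ] ℝ} {ω : E} (h1 : e ω = 1) (h2 : η ω = 0) (x : E) (k : ℂ)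
    (h : 1 / 2 ≤ (e1 (pj η e x).1).re) :
    ww / 2 * (1 - 2 * ‖k - 1‖) ≤ (conj (e1 (e x : ℝ)) * (k * ef (e + η) (x, ω))).re := by
  have h3 := root_left h1 h2 x
  have h4 := re_conj_ge (e x : ℝ) ((k - 1) * ef (e + η) (x, ω))
  have h5 : ‖ef (e + η) (x, ω)‖ = ww := by rw [norm_ef, ww]; simp [h1, h2]
  rw [norm_mul, h5, sub_mul, one_mul, mul_sub, sub_re, h3] at h4
  nlinarith [ww_pos]

omit [NormedSpace ℝ E] in
theorem Lt1.step {P D : E × E → ℂ} (h : Lt1 P) {a : ℝ} (ha : 0 ≤ a) (ha' : a < 1 / 2)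
    (hD : ∀ x, ‖D (x, 0)‖ ≤ a * (1 - ‖P (x, 0)‖ ^ 2)) : Lt1 (P + D) := by
  obtain ⟨τ, h1, h2⟩ := h
  refine ⟨1 - (1 - τ) * (1 - 2 * a), by nlinarith, fun x => ?_⟩
  have := norm_step ha (hD x)
  rw [Pi.add_apply]
  nlinarith [h2 x]

theorem exp_le_two : Real.exp (-(2 * π * -(1 / 10))) ≤ 2 := by
  have h1 : Real.exp (-(2 * π * -(1 / 10))) ≤ Real.exp (Real.log 2) :=
    Real.exp_le_exp.2 (by linarith [Real.pi_lt_d2, Real.log_two_gt_d9])
  rwa [Real.exp_log two_pos] at h1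

variable [MeasurableSpace E] [BorelSpace E] [SecondCountableTopology E]

/-- The invariant of the bounded branching construction near the direction `ω`, started from
the past `P` with amplitude `a`. -/
structure Inv (K : Measure ℝ) (C : ℝ) (Ω : Set E) (e : E →L[ℝ] ℝ) (l : ℝ) (n : ℕ) (ω : E)
    (ρ A : ℝ) (P a Φ : E × E → ℂ) (Y B Z : E → ℝ) (ν : Measure E) : Prop where
  mem : Φ ∈ Sp (SS Ω ω ρ A ((1 / 2) ^ n))
  bd : ∀ x, ‖Φ (x, 0)‖ ≤ 5 ^ n
  av : Av e ρ ν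
  cnt : Cnt e l n Y Z ν
  bB : BU B
  B0 : ∀ x, 0 ≤ B x
  BZ : ∀ x, B x ≤ 6 * n * Z x
  iB : ∀ x, mn ν B x ≤
    n * (1 / 16 + 3 * C * pa K ω (fun x => Ps (P (x, 0))) x + 30 * C * n * l)
  lt : Lt1 (P + a * Φ)
  pot : ∀ x, mn ν (fun x => Ps ((P + a * Φ) (x, 0))) x ≤
    Ps (P (x, 0)) + 22 * n * ‖a (x, 0)‖ ^ 2 + ρ
  ht : ∀ j x, 0 < Y x - B x - j * Z x → ∃ σ ∈ Ω, ‖σ - ω‖ ≤ ρ ∧
      ww / 2 * j - 4 * ww ^ 2 * n ≤ (conj (e1 (e x : ℝ)) * Φ (x, σ)).re

omit [SecondCountableTopology E] in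
theorem inv_zero (K : Measure ℝ) (C : ℝ) {Ω : Set E} (e : E →L[ℝ] ℝ) (l : ℝ) {ω : E} (hω : ω ∈ Ω)
    {ρ : ℝ} (hρ : 0 < ρ) (A : ℝ) {P : E × E → ℂ} (hP : Lt1 P) (a : E × E → ℂ) :
    Inv K C Ω e l 0 ω ρ A P a 0 (fun _ => 0) (fun _ => 0) (fun _ => 1) (Measure.dirac 0) where
  mem := Submodule.zero_mem _
  bd := by simp
  av := ⟨inferInstance, by simp [hρ.le]⟩
  cnt := ⟨BU.const _, BU.const _, by simp, by simp, by simp, by simp [mn], by simp [mn],
    by simp [mn], by simp [mn]⟩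
  bB := BU.const _
  B0 := by simp
  BZ := by simp
  iB := by simp [mn]
  lt := by simpa using hP
  pot := by simp [mn, hρ.le]
  ht j x h := ⟨ω, hω, by simp [hρ.le], by have := ww_pos; simp at h ⊢; nlinarith⟩

theorem inv_step {K : Measure ℝ} [IsProbabilityMeasure K] {C : ℝ} (hC1 : 1 ≤ C) (hO : Outer E K C)
    {Ω : Set E} (hΩ : IsCompact Ω) {e : E →L[ℝ] ℝ} (he : ∀ y ∈ Ω, e y = 1) {l : ℝ}
    (hl0 : 0 < l) {n : ℕ} (hn : (n + 1) * l ≤ 1 / 20) {ω : E} (hω : Exp Ω ω) {Q : Set E}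
    (hQ : Q ⊆ Ω) (hacc : ∀ r > 0, ∃ ω' ∈ Q, ω' ≠ ω ∧ ‖ω' - ω‖ ≤ r)
    (ih : ∀ ω' ∈ insert ω Q, ∀ ρ > 0, ∀ A, ∀ P ∈ Sp univ, Lt1 P → ∀ a ∈ Sp univ,
      (∀ x, ‖a (x, 0)‖ ≤ l) → ∃ Φ Y B Z ν, Inv K C Ω e l n ω' ρ A P a Φ Y B Z ν)
    {ρ : ℝ} (hρ : 0 < ρ) (A : ℝ) {P : E × E → ℂ} (hP : P ∈ Sp univ) (lP : Lt1 P) {m : E × E → ℂ}
    (hm : m ∈ Sp univ) (hml : ∀ x, ‖m (x, 0)‖ ≤ l) :
    ∃ Φ Y B Z ν, Inv K C Ω e l (n + 1) ω ρ A P m Φ Y B Z ν := by
  have hn0 : (0 : ℝ) ≤ n := Nat.cast_nonneg n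
  have hl : l ≤ 1 / 20 := by nlinarith
  have hnl : n * l ≤ 1 / 20 := by nlinarith
  have hnl2 : n * l ^ 2 ≤ l / 20 := by nlinarith
  have hw := ww_pos
  have hβ : 0 < ww ^ 2 / 4 := by positivity
  obtain ⟨a, bp, bm, hC⟩ := exists_Cut (δ := l / 6) (by positivity) (by linarith)
  have cp := hC.cp
  have cm := hC.cm
  obtain ⟨κ, hκ, hκ'⟩ := hO P hP lP ω
  have bP := lP.BU hP
  have bD : BU (pa K ω fun x => Ps (P (x, 0))) := pa_BU bP
  have n2 : ∀ {f : E × E → ℂ}, f ∈ Sp univ → BU fun x => ‖f (x, 0)‖ ^ 2 := fun h =>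
    (Sp_BU h 0).comp (φ := fun z => ‖z‖ ^ 2) (by fun_prop)
  have bq : BU fun x => 2 * conj (P (x, 0)) / (1 - ‖P (x, 0)‖ ^ 2 : ℝ) * (m * κ) (x, 0) :=
    (lP.BU_comp hP (φ := fun q => 2 * conj q.1 / (q.2 : ℂ)) (ContinuousOn.div (by fun_prop)
      (by fun_prop) fun q hq => by exact_mod_cast ne_of_gt (mem_prod.1 hq).2)).comp2
      (Sp_BU (Sp_mul_univ hm (Sp_univ hκ)) 0) (φ := fun q => q.1 * q.2) (by fun_prop)
  obtain ⟨ε, hε, hε1⟩ : ∃ ε : ℝ, 0 < ε ∧ ε * (n + 1) = ρ / 100 :=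
    ⟨ρ / 100 / (n + 1), by positivity, by field_simp⟩
  obtain ⟨A', hA'⟩ := prod_mem' hΩ hκ A
  obtain ⟨r, ⟨hr0, hr1⟩, r1, r2, r3, r4, r5⟩ :=
    ((show ∀ᶠ r in 𝓝[>] (0 : ℝ), r ∈ Ioo 0 ρ from Ioo_mem_nhdsGT hρ).and (hA'.and
    ((Sp_near' hκ ω one_pos).and ((pot_seg e bP (n2 hm) bq hε).and ((bD.slow hl0).and
    (pa_near (K := K) (ω := ω) bP hl0)))))).exists
  obtain ⟨ω', hω', η, hne, hd, hη0, hη1, hroot⟩ := exists_partner hΩ he hω hQ hacc hr0 A'
  have hd0 : 0 < ‖ω' - ω‖ := norm_pos_iff.2 (sub_ne_zero.2 hne)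
  have hv : e (ω' - ω) = 0 := by rw [map_sub, he _ hω.1, he _ (hQ hω'), sub_self]
  have hv' : η (ω' - ω) = 1 := by rw [map_sub, hη0, hη1, sub_zero]
  have hr := r1 _ (ef_mem hroot)
  have k1 : ∀ x, ‖κ (x, 0)‖ ≤ 1 := fun x => (hκ' x).1.trans (sub_le_self _ (sq_nonneg _))
  have k2 : ∀ x, ‖κ (x, ω)‖ ≤ 2 := fun x => by
    linarith [Sp_sup hκ (fun t ht => ht) k1 x, exp_le_two]
  have n0 : ∀ x, ‖(κ * ef (e + η)) (x, 0)‖ = ‖κ (x, 0)‖ := fun x => by simp [norm_ef]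
  have hD1 : ∀ x, ‖(m * (κ * ef (e + η))) (x, 0)‖ ≤ ‖m (x, 0)‖ * (1 - ‖P (x, 0)‖ ^ 2) := fun x => by
    rw [Pi.mul_apply, norm_mul, n0]
    exact mul_le_mul_of_nonneg_left (hκ' x).1 (norm_nonneg _)
  have lP1 := lP.step hl0.le (by linarith) fun x =>
    (hD1 x).trans (mul_le_mul_of_nonneg_right (hml x) (one_sub_pos (lP.lt x)).le)
  have hP1 := Submodule.add_mem _ hP (Sp_mul_univ hm (Sp_univ hr))
  have st := fun x => Ps_step (lP.lt x) (norm_nonneg _) ((hml x).trans hl) (hD1 x)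
  set R : ℝ := 5 ^ n with hR
  have hR1 : 1 ≤ R := one_le_pow₀ (by norm_num)
  have hR0 : 0 < R := by linarith
  obtain ⟨θ, hθ, hθ1, hθ2⟩ : ∃ θ > 0, θ * R ≤ ww ^ 2 / 4 ∧ θ * R ≤ l / 2 :=
    ⟨min (ww ^ 2 / 4) (l / 2) / R, by positivity,
      by rw [div_mul_cancel₀ _ hR0.ne']; exact min_le_left _ _,
      by rw [div_mul_cancel₀ _ hR0.ne']; exact min_le_right _ _⟩
  have hθ3 : θ ≤ l / 2 := by nlinarith
  obtain ⟨χp, hp1, hp2⟩ := exists_cut' η hη0 cp hC.p0 hC.p1 hθ (by linarith)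
  obtain ⟨χm, hm1, hm2⟩ := exists_cut' (η - e) (ω := ω') (by simp [hη1, he _ (hQ hω')]) cm hC.m0
    hC.m1 hθ (by linarith)
  replace hp2 : ∀ x, ‖χp (x, 0) - bp (pj η e x).1‖ ≤ θ ∧ χp (x, ω) = χp (x, 0) ∧
    ‖χp (x, 0)‖ ≤ 1 ∧ ‖χp (x, 0)‖ ^ 2 ≤ bp (pj η e x).1 + θ := hp2
  replace hm2 : ∀ x, ‖χm (x, 0) - bm ((pj η e x).1 - (pj η e x).2)‖ ≤ θ ∧
      χm (x, ω') = χm (x, 0) ∧ ‖χm (x, 0)‖ ≤ 1 ∧
      ‖χm (x, 0)‖ ^ 2 ≤ bm ((pj η e x).1 - (pj η e x).2) + θ := by simpa [pj] using hm2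
  have two : ∀ {χ Φ : ℂ} {S : ℝ}, ‖χ‖ ≤ 1 → ‖Φ‖ ≤ S → ‖Φ * χ‖ ≤ S := fun h1 h2 => by
    rw [norm_mul]
    exact (mul_le_of_le_one_right (norm_nonneg _) h1).trans h2
  obtain ⟨A0, hA0, hA1⟩ : ∃ A0, A ≤ A0 ∧ 2 * R * Real.exp (-(2 * π * A0)) ≤ ww ^ 2 / 4 := by
    have h1 : Tendsto (fun s : ℝ => 2 * R * Real.exp (-(2 * π * s))) atTop (𝓝 (2 * R * 0)) :=
      (Real.tendsto_exp_neg_atTop_nhds_zero.comp
        (tendsto_id.const_mul_atTop (by positivity))).const_mul _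
    rw [mul_zero] at h1
    exact ((eventually_ge_atTop A).and (h1.eventually (eventually_le_nhds hβ))).exists
  have hc : (0 : ℝ) < (1 / 2) ^ n := by positivity
  obtain ⟨Ap, hAp⟩ := prod_mem hΩ hp1 hc A0
  obtain ⟨Am, hAm⟩ := prod_mem hΩ hm1 hc A0
  have hmp := Sp_mul_univ hm (Sp_univ hp1)
  have hmm := Sp_mul_univ hm (Sp_univ hm1)
  have bb : BU fun x => 2 * ‖κ (x, ω) - 1‖ :=
    (Sp_BU hκ ω).comp (φ := fun z => 2 * ‖z - 1‖) (by fun_prop)
  have bG : BU fun x => 22 * n * ‖(m * χm) (x, 0)‖ ^ 2 := (BU.const _).mul (n2 hmm)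
  obtain ⟨rA, ⟨hrA0, hrA⟩, ⟨-, hrA'⟩, a1, a2, a3, t1, t2, t3⟩ :=
    ((show ∀ᶠ r in 𝓝[>] (0 : ℝ), r ∈ Ioo 0 (‖ω' - ω‖ / 2) from Ioo_mem_nhdsGT (half_pos hd0)).and
    ((show ∀ᶠ r in 𝓝[>] (0 : ℝ), r ∈ Ioo 0 (l / 2) from Ioo_mem_nhdsGT (half_pos hl0)).and
    (hAp.and ((Sp_near' hr ω hβ).and ((Sp_near' hp1 ω (div_pos hβ hR0)).and
    ((cnt_step hl0 hn hC η e hv hv').and ((bG.slow hε).and
    (bad_step hC η e hv hv' hC1 hl0 n bb (pa_nonneg fun x => Ps_nonneg (lP.lt x))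
      (fun y => by have := (hκ' y).2; unfold pa; linarith)
      fun x u hu => r4 x u (by linarith))))))))).exists
  obtain ⟨ΦA, YA, BA, ZA, νA, hA⟩ := ih ω (mem_insert _ _) rA hrA0 Ap _ hP1 lP1 _ hmp
    fun x => two (hp2 x).2.2.1 (hml x)
  have hP2 := Submodule.add_mem _ hP1 (Sp_mul_univ hmp (Sp_univ hA.mem))
  have bP1 := lP1.BU hP1
  have bP2 := hA.lt.BU hP2
  have zA : ∀ x, mn νA ZA x ≤ 201 / 200 := fun x => by nlinarith [hA.cnt.iZ1 x]
  have d1 : ∀ y, Ps ((P + m * (κ * ef (e + η))) (y, 0)) ≤ Ps (P (y, 0)) + 4 * l := fun y => by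
    have := (st y).2
    rw [Pi.add_apply]
    linarith [hml y]
  obtain ⟨rB, ⟨hrB0, hrB⟩, b1, b2, b3, s1, s2⟩ :=
    ((show ∀ᶠ r in 𝓝[>] (0 : ℝ), r ∈ Ioo 0 (‖ω' - ω‖ / 2) from Ioo_mem_nhdsGT (half_pos hd0)).and
    (hAm.and ((Sp_near' hr ω' hβ).and ((Sp_near' hm1 ω' (div_pos hβ hR0)).and
    ((t1 νA YA ZA hA.av hA.cnt).and (t3 νA BA ZA _ hA.av hA.bB hA.cnt.bZ
      (pa_BU (K := K) (ω := ω') bP2)
      hA.B0 hA.cnt.Z0 (pa_nonneg fun x => Ps_nonneg (hA.lt.lt x))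
      (fun y => (hA.iB y).trans (by
        have := pa_le (K := K) (ω := ω) bP1 bP d1 y
        gcongr
        linarith)) zA
      (fun y => by
        rw [mn_pa hA.av bP2]
        have := pa_le (K := K) (ω := ω') (hA.av.BU bP2) bP (c := 6 * l) (fun x => by
          have h1 := hA.pot x
          have h2 : ‖(m * χp) (x, 0)‖ ^ 2 ≤ l ^ 2 := by
            gcongr; exact two (hp2 x).2.2.1 (hml x)
          nlinarith [d1 x]) y
        linarith [r5 ω' (by linarith) y]))))))).exists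
  obtain ⟨ΦB, YB, BB, ZB, νB, hB⟩ := ih ω' (mem_insert_of_mem _ hω') rB hrB0 Am _ hP2 hA.lt _ hmm
    fun x => two (hm2 x).2.2.1 (hml x)
  clear t1 t3 hAp hAm hA' ih r1
  have mA := a1 _ hA.mem
  have mB := b1 _ hB.mem
  have nA : ∀ x, ‖(χp * ΦA) (x, 0)‖ ≤ 2 * R := fun x => by
    rw [mul_comm χp]; exact (two (hp2 x).2.2.1 (hA.bd x)).trans (by linarith)
  have nB : ∀ x, ‖(χm * ΦB) (x, 0)‖ ≤ 2 * R := fun x => by
    rw [mul_comm χm]; exact (two (hm2 x).2.2.1 (hB.bd x)).trans (by linarith)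
  have hc' : (1 / 2 : ℝ) ^ (n + 1) ≤ (1 / 2) ^ n / 2 := by rw [pow_succ]; linarith
  have hmem : κ * ef (e + η) + χp * ΦA + χm * ΦB ∈ Sp (SS Ω ω ρ A ((1 / 2) ^ (n + 1))) :=
    Submodule.add_mem _ (Submodule.add_mem _
      (Sp_mono (SS_mono (by simp; linarith) le_rfl (hc'.trans (by
        linarith [pow_le_one₀ (n := n) (show (0 : ℝ) ≤ 1 / 2 by norm_num) (by norm_num)]))) hr)
      (Sp_mono (SS_mono (by simp; linarith) hA0 hc') mA))
      (Sp_mono (SS_mono (by linarith) hA0 hc') mB)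
  have hav := ((av_seg (e := e) hv).conv (hA.av.conv hB.av)).mono (show _ ≤ ρ by linarith)
  have ha' : ∀ u, 0 ≤ 1 - a u := fun u => sub_nonneg.2 (hC.a1 u)
  have eq : P + m * (κ * ef (e + η) + χp * ΦA + χm * ΦB) =
      P + m * (κ * ef (e + η)) + m * χp * ΦA + m * χm * ΦB := by ring
  have bP3 := hB.lt.BU (Submodule.add_mem _ hP2 (Sp_mul_univ hmm (Sp_univ hB.mem)))
  refine ⟨_, _, nZ a η e (fun y => BA y + 2 * ‖κ (y, ω) - 1‖ * ZA y) BB, _, _, hmem,
    fun x => ?_, hav, s1 νB YB ZB hB.av hB.cnt, BU_nZ hC.ca η e (hA.bB.add (bb.mul hA.cnt.bZ)) hB.bB,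
    fun x => ?_, fun x => ?_, s2 νB BB hB.av hB.bB hB.B0 hB.iB, eq ▸ hB.lt,
    fun x => ?_, fun j x hx => ?_⟩
  · refine (norm_add_le_of_le (norm_add_le_of_le ((n0 x).trans_le (k1 x)) (nA x)) (nB x)).trans ?_
    rw [pow_succ]
    linarith
  · exact add_nonneg (mul_nonneg (hC.a0 _) (add_nonneg (hA.B0 _) (mul_nonneg (by positivity)
      (hA.cnt.Z0 _)))) (mul_nonneg (ha' _) (hB.B0 _))
  · have h0 : 2 * ‖κ (x, ω) - 1‖ ≤ 6 := by linarith [norm_sub_le_of_le (k2 x) norm_one.le]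
    have h1 := mul_le_mul_of_nonneg_left (add_le_add (hA.BZ x)
      (mul_le_mul_of_nonneg_right h0 (hA.cnt.Z0 x))) (hC.a0 (pj η e x).1)
    have h2 := mul_le_mul_of_nonneg_left (hB.BZ x) (ha' ((pj η e x).1 - (pj η e x).2))
    have h3 := mul_nonneg (ha' ((pj η e x).1 - (pj η e x).2)) (hB.cnt.Z0 x)
    simp only [nZ]
    push_cast
    linarith
  · rw [eq, (av_seg (e := e) hv).mn_conv (hA.av.conv hB.av) bP3]
    have h1 := r3 (ω' - ω) η (by linarith) hv hv' (fun u => 19 + 22 * n * (bp u.1 + θ) +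
      22 * n * (bm (u.1 - u.2) + θ)) (by fun_prop) (fun u => by
        have := hC.p0 u.1; have := hC.m0 (u.1 - u.2); positivity) _
      (((hA.av.conv hB.av).BU bP3).add (BU.const (-(rA + rB + ε)))) (fun y => by
        have h1 := pot_two bP2 bP3 (bG.add (BU.const rB)) hA.av hB.av
          (fun x u hu => by simpa using t2 x u hu) (fun y => by linarith [hB.pot y]) hA.pot y
        have h2 := (st y).1
        have h3 := mul_le_mul_of_nonneg_left (hp2 y).2.2.2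
          (show 0 ≤ 22 * n * ‖m (y, 0)‖ ^ 2 by positivity)
        have h4 := mul_le_mul_of_nonneg_left (hm2 y).2.2.2
          (show 0 ≤ 22 * n * ‖m (y, 0)‖ ^ 2 by positivity)
        have e1 : 2 * conj (P (y, 0)) * (m * (κ * ef (e + η))) (y, 0) / (1 - ‖P (y, 0)‖ ^ 2 : ℝ) =
            2 * conj (P (y, 0)) / (1 - ‖P (y, 0)‖ ^ 2 : ℝ) * (m * κ) (y, 0) *
              e1 ((pj η e y).2 + (pj η e y).1) := by
          simp only [Pi.mul_apply, root_zero]; ring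
        rw [e1] at h2
        simp only [Pi.add_apply, Pi.mul_apply, norm_mul, mul_pow] at h1 h2 ⊢
        linarith) x
    rw [(av_seg (e := e) hv).add ((hA.av.conv hB.av).BU bP3) (BU.const _),
      (av_seg (e := e) hv).const, integral_add (intg (by fun_prop)) (intg (by fun_prop)),
      integral_add (integrable_const _) (intg (by fun_prop)), integral_const_mul,
      integral_const_mul, integral_add (intg cp) (integrable_const _),
      integral_add (intg (by fun_prop)) (integrable_const _),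
      integral_sub_right_eq_self bm] at h1
    simp only [integral_const, probReal_univ, smul_eq_mul, one_mul] at h1
    have h2 : 19 + 22 * n * ((∫ u, bp u) + θ) + 22 * n * ((∫ u, bm u) + θ) ≤ 22 * (n + 1) := by
      linarith [mul_le_mul_of_nonneg_left hC.ib hn0, mul_le_mul_of_nonneg_left hθ3 hn0]
    have h3 := mul_le_mul_of_nonneg_left h2 (show 0 ≤ ‖m (x, 0)‖ ^ 2 + ε by positivity)
    have h4 : ε ≤ ρ / 100 := by nlinarith
    push_cast
    linarith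
  · have e0 : nZ a η e (fun x => YA x + ZA x) YB x -
        nZ a η e (fun y => BA y + 2 * ‖κ (y, ω) - 1‖ * ZA y) BB x - j * nZ a η e ZA ZB x =
        a (pj η e x).1 * (YA x - BA x - (j - 1 + 2 * ‖κ (x, ω) - 1‖) * ZA x) +
          (1 - a ((pj η e x).1 - (pj η e x).2)) * (YB x - BB x - j * ZB x) := by
      simp only [nZ]; ring
    rw [e0] at hx
    push_cast
    by_cases h1 : 0 < a (pj η e x).1 * (YA x - BA x - (j - 1 + 2 * ‖κ (x, ω) - 1‖) * ZA x)
    · obtain ⟨ha, hb⟩ := pos_of_mul h1 (hC.a0 _)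
      obtain ⟨σ, hσ, hσ1, hσ2⟩ := hA.ht _ _ hb
      refine ⟨σ, hσ, by linarith, ?_⟩
      have k1 := ht_branch (e x : ℝ) hσ hc.le hA.mem hR0 hA.bd mB (by
          have := norm_sub_le_norm_sub_add_norm_sub ω' σ ω
          rw [norm_sub_rev ω' σ] at this
          linarith) nB hA1 (a2 σ hσ1 x) (a3 σ hσ1 x)
        (by simpa [(hp2 x).2.1, (hC.ap _ ha).1] using (hp2 x).1) hθ1
      have k5 := root_left' (he _ hω.1) hη0 x (κ (x, ω)) (hC.ap _ ha).2
      simp only [Pi.add_apply, Pi.mul_apply] at k1 ⊢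
      linarith
    · obtain ⟨ha, hb⟩ := pos_of_mul (show 0 < (1 - a ((pj η e x).1 - (pj η e x).2)) *
        (YB x - BB x - j * ZB x) by linarith) (ha' _)
      obtain ⟨σ, hσ, hσ1, hσ2⟩ := hB.ht _ _ hb
      refine ⟨σ, hσ, by linarith [norm_sub_le_norm_sub_add_norm_sub σ ω' ω], ?_⟩
      have k1 := ht_branch (e x : ℝ) hσ hc.le hB.mem hR0 hB.bd mA (by
          have := norm_sub_le_norm_sub_add_norm_sub ω' σ ω
          rw [norm_sub_rev ω' σ] at this
          linarith) nA hA1 (b2 σ hσ1 x) (b3 σ hσ1 x)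
        (by simpa [(hm2 x).2.1, hC.am _ (sub_pos.1 ha)] using (hm2 x).1) hθ1
      have k5 := re_conj_ge (e x : ℝ) ((κ * ef (e + η)) (x, ω'))
      have k6 : ‖κ (x, ω')‖ ≤ 3 := by
        linarith [r2 ω' (by linarith) x, k2 x, norm_sub_norm_le (κ (x, ω')) (κ (x, ω))]
      rw [Pi.mul_apply, norm_mul, root_right (he _ (hQ hω')) hη1] at k5
      have k7 := mul_le_mul_of_nonneg_right k6 (sq_nonneg ww)
      simp only [Pi.add_apply, Pi.mul_apply] at k1 ⊢
      rw [add_right_comm]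
      linarith

theorem exists_inv {K : Measure ℝ} [IsProbabilityMeasure K] {C : ℝ} (hC1 : 1 ≤ C)
    (hO : Outer E K C) {Ω : Set E} (hΩ : IsCompact Ω) {e : E →L[ℝ] ℝ} (he : ∀ y ∈ Ω, e y = 1)
    {Q : ℕ → Set E} (hQ : ∀ k, ∀ ω ∈ Q k, Exp Ω ω)
    (hQ' : ∀ k, ∀ ω ∈ Q (k + 1), ω ∈ Q k ∧ ∀ r > 0, ∃ ω' ∈ Q k, ω' ≠ ω ∧ ‖ω' - ω‖ ≤ r)
    {l : ℝ} (hl0 : 0 < l) (n : ℕ) (hn : n * l ≤ 1 / 20) :
    ∀ ω ∈ Q n, ∀ ρ > 0, ∀ A, ∀ P ∈ Sp univ, Lt1 P → ∀ a ∈ Sp univ,
      (∀ x, ‖a (x, 0)‖ ≤ l) → ∃ Φ Y B Z ν, Inv K C Ω e l n ω ρ A P a Φ Y B Z ν := by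
  induction n with
  | zero => exact fun ω hω ρ hρ A P _ hP a _ _ =>
      ⟨_, _, _, _, _, inv_zero K C e l (hQ _ _ hω).1 hρ A hP a⟩
  | succ n ih =>
    push_cast at hn
    intro ω hω ρ hρ A P hP lP a ha hal
    refine inv_step hC1 hO hΩ he hl0 hn (hQ _ _ hω) (fun y hy => (hQ n y hy).1) (hQ' _ _ hω).2 ?_
      hρ A hP lP ha hal
    rintro ω' (rfl | h)
    · exact ih (by nlinarith) _ (hQ' _ _ hω).1
    · exact ih (by nlinarith) _ h

end

end Pool.Agent.Lib.MP_730078_an.G.H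
end
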