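import Mathlib

-- part Pool.Agent.Lib.MP_730078_an.Basic
section

open MeasureTheory Set Filter Topology Complex
open scoped ENNReal Real

namespace Pool.Agent.Lib.MP_730078_an

noncomputable section

abbrev TT := UnitAddCircle
abbrev T3 := TT × TT × TT
abbrev R3 := ℝ × ℝ × ℝ
abbrev Z3 := ℤ × ℤ × ℤ
abbrev C3 := ℂ × ℂ × ℂ

instance probTT : IsProbabilityMeasure (volume : Measure TT) := ⟨UnitAddCircle.measure_univ⟩

instance probT2 : IsProbabilityMeasure (volume : Measure (TT × TT)) :=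
  inferInstanceAs (IsProbabilityMeasure ((volume : Measure TT).prod (volume : Measure TT)))

instance probT3 : IsProbabilityMeasure (volume : Measure T3) :=
  inferInstanceAs (IsProbabilityMeasure ((volume : Measure TT).prod (volume : Measure (TT × TT))))

instance haarT2 : Measure.IsAddHaarMeasure (volume : Measure (TT × TT)) :=
  inferInstanceAs (Measure.IsAddHaarMeasure ((volume : Measure TT).prod (volume : Measure TT)))

instance haarT3 : Measure.IsAddHaarMeasure (volume : Measure T3) :=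
  @Measure.prod.instIsAddHaarMeasure TT _ _ _ (TT × TT) _ _ _ volume volume _ haarT2 _ _ _ _

/-- The basic character of the circle. -/
def e1 (x : TT) : ℂ := (AddCircle.toCircle x : ℂ)

theorem e1_add (x y : TT) : e1 (x + y) = e1 x * e1 y := by
  simp [e1, AddCircle.toCircle_add]

@[simp] theorem e1_zero : e1 0 = 1 := by simp [e1]

@[simp] theorem norm_e1 (x : TT) : ‖e1 x‖ = 1 := Circle.norm_coe _

theorem e1_coe (x : ℝ) : e1 (x : TT) = cexp (2 * π * I * x) := by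
  have := fourier_coe_apply (T := 1) (n := 1) (x := x)
  simpa [e1] using this

theorem e1_zsmul (n : ℤ) (x : TT) : e1 (n • x) = fourier n x := rfl

@[fun_prop] theorem continuous_e1 : Continuous e1 :=
  continuous_induced_dom.comp AddCircle.continuous_toCircle

def pair (t : Z3) (x : T3) : TT := t.1 • x.1 + t.2.1 • x.2.1 + t.2.2 • x.2.2

def dot (t : Z3) (y : R3) : ℝ := t.1 * y.1 + t.2.1 * y.2.1 + t.2.2 * y.2.2

def mk3 (x : R3) : T3 := ((x.1 : TT), (x.2.1 : TT), (x.2.2 : TT))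

@[simp] theorem mk3_zero : mk3 0 = 0 := by
  ext <;> simp [mk3]

theorem mk3_add (x y : R3) : mk3 (x + y) = mk3 x + mk3 y := by
  ext <;> simp [mk3]

theorem pair_add_left (s t : Z3) (x : T3) : pair (s + t) x = pair s x + pair t x := by
  simp only [pair, Prod.fst_add, Prod.snd_add, add_zsmul]; abel

theorem pair_add_right (t : Z3) (x x' : T3) : pair t (x + x') = pair t x + pair t x' := by
  simp only [pair, Prod.fst_add, Prod.snd_add, zsmul_add]; abel

theorem dot_add_left (s t : Z3) (y : R3) : dot (s + t) y = dot s y + dot t y := by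
  simp only [dot, Prod.fst_add, Prod.snd_add, Int.cast_add]; ring

theorem pair_mk3 (t : Z3) (x : R3) : pair t (mk3 x) = ((dot t x : ℝ) : TT) := by
  simp only [pair, mk3, dot, AddCircle.coe_add, ← AddCircle.coe_zsmul, zsmul_eq_mul]

@[fun_prop] theorem continuous_pair (t : Z3) : Continuous (pair t) := by
  unfold pair; fun_prop

@[fun_prop] theorem continuous_dot (t : Z3) : Continuous (dot t) := by
  unfold dot; fun_prop

@[fun_prop] theorem continuous_mk3 : Continuous mk3 := by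
  unfold mk3
  have : Continuous (fun x : ℝ => (x : TT)) := AddCircle.continuous_mk' 1
  fun_prop

/-- The exponential `exp (2 π i t · (x + i y))`. -/
def ex (t : Z3) (w : T3 × R3) : ℂ := e1 (pair t w.1) * cexp (-(2 * π * dot t w.2))

theorem ex_add (s t : Z3) : ex (s + t) = ex s * ex t := by
  funext w
  simp only [ex, Pi.mul_apply, pair_add_left, dot_add_left, e1_add, ofReal_add, mul_add, neg_add,
    Complex.exp_add]
  ring

theorem ex_zero : ex 0 = 1 := by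
  funext w
  simp [ex, pair, dot]

theorem norm_ex (t : Z3) (w : T3 × R3) : ‖ex t w‖ = Real.exp (-(2 * π * dot t w.2)) := by
  rw [ex, norm_mul, norm_e1, one_mul, Complex.norm_exp]
  congr 1
  simp

@[fun_prop] theorem continuous_ex (t : Z3) : Continuous (ex t) := by
  unfold ex; fun_prop

/-- Trigonometric polynomials with spectrum in `S`. -/
def V (S : Set Z3) : Submodule ℂ (T3 × R3 → ℂ) := Submodule.span ℂ (ex '' S)

theorem ex_mem_V {S : Set Z3} {t : Z3} (ht : t ∈ S) : ex t ∈ V S :=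
  Submodule.subset_span ⟨t, ht, rfl⟩

theorem V_induction {S : Set Z3} {P : (T3 × R3 → ℂ) → Prop} (h1 : ∀ t ∈ S, P (ex t))
    (h0 : P 0) (hadd : ∀ f g, P f → P g → P (f + g)) (hsmul : ∀ (c : ℂ) f, P f → P (c • f))
    {f : T3 × R3 → ℂ} (hf : f ∈ V S) : P f := by
  induction hf using Submodule.span_induction with
  | mem x hx => obtain ⟨t, ht, rfl⟩ := hx; exact h1 t ht
  | zero => exact h0
  | add x y _ _ hx hy => exact hadd x y hx hy
  | smul c x _ hx => exact hsmul c x hx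

theorem V_mul {S S' S'' : Set Z3} (h : ∀ s ∈ S, ∀ t ∈ S', s + t ∈ S'') {f g : T3 × R3 → ℂ}
    (hf : f ∈ V S) (hg : g ∈ V S') : f * g ∈ V S'' := by
  refine V_induction (P := fun f => f * g ∈ V S'') ?_ ?_ ?_ ?_ hf
  · intro s hs
    refine V_induction (P := fun g => ex s * g ∈ V S'') ?_ ?_ ?_ ?_ hg
    · intro t ht
      rw [← ex_add]
      exact ex_mem_V (h s hs t ht)
    · simp
    · intro a b ha hb
      rw [mul_add]
      exact Submodule.add_mem _ ha hb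
    · intro c a ha
      rw [mul_smul_comm]
      exact Submodule.smul_mem _ c ha
  · simp
  · intro a b ha hb
    rw [add_mul]
    exact Submodule.add_mem _ ha hb
  · intro c a ha
    rw [smul_mul_assoc]
    exact Submodule.smul_mem _ c ha

theorem V_mono {S S' : Set Z3} (h : S ⊆ S') : V S ≤ V S' :=
  Submodule.span_mono (image_mono h)

theorem V_continuous {S : Set Z3} {f : T3 × R3 → ℂ} (hf : f ∈ V S) : Continuous f := by
  refine V_induction (P := fun f => Continuous f) (fun t _ => continuous_ex t) continuous_zero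
    (fun f g hf hg => hf.add hg) (fun c f hf => hf.const_smul c) hf

/-- Interior lattice points of the dual cone. -/
def S0 : Set Z3 := {t | 0 < t.1 ∧ t.2.1 ^ 2 < 4 * t.1 * t.2.2}

/-- The points `y` with `y - κ (1, 0, 1)` in the closed cone `y₁ y₃ ≥ y₂²`. -/
def K (κ : ℝ) : Set R3 := {y | κ ≤ y.1 ∧ κ ≤ y.2.2 ∧ y.2.1 ^ 2 ≤ (y.1 - κ) * (y.2.2 - κ)}

theorem K_mono {κ κ' : ℝ} (h : κ' ≤ κ) : K κ ⊆ K κ' := by
  rintro y ⟨h1, h2, h3⟩
  refine ⟨h.trans h1, h.trans h2, h3.trans ?_⟩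
  apply mul_le_mul <;> linarith

theorem smul_mem_K {κ c : ℝ} (hc : 0 ≤ c) {y : R3} (hy : y ∈ K κ) : c • y ∈ K (c * κ) := by
  obtain ⟨h1, h2, h3⟩ := hy
  refine ⟨mul_le_mul_of_nonneg_left h1 hc, mul_le_mul_of_nonneg_left h2 hc, ?_⟩
  simp only [Prod.smul_snd, Prod.smul_fst, smul_eq_mul]
  have := mul_le_mul_of_nonneg_left h3 (mul_nonneg hc hc)
  nlinarith

theorem dot_ge {t : Z3} (ht : t ∈ S0) {κ : ℝ} (hκ : 0 ≤ κ) {y : R3} (hy : y ∈ K κ) :
    κ ≤ dot t y := by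
  obtain ⟨h1, h2⟩ := ht
  obtain ⟨k1, k2, k3⟩ := hy
  have h3 : 0 < t.2.2 := by
    by_contra hh
    push Not at hh
    nlinarith [sq_nonneg t.2.1]
  have h1' : (1 : ℝ) ≤ t.1 := by exact_mod_cast h1
  have h3' : (1 : ℝ) ≤ t.2.2 := by exact_mod_cast h3
  have h2' : (t.2.1 : ℝ) ^ 2 ≤ 4 * t.1 * t.2.2 := by exact_mod_cast h2.le
  set a := y.1 - κ
  set c := y.2.2 - κ
  have ha : 0 ≤ a := by linarith
  have hc : 0 ≤ c := by linarith
  have key : 0 ≤ t.1 * a + t.2.1 * y.2.1 + t.2.2 * c := by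
    have hs : 0 ≤ (t.1 : ℝ) * a + t.2.2 * c := by positivity
    have : ((t.2.1 : ℝ) * y.2.1) ^ 2 ≤ ((t.1 : ℝ) * a + t.2.2 * c) ^ 2 := by
      calc ((t.2.1 : ℝ) * y.2.1) ^ 2 = (t.2.1 : ℝ) ^ 2 * y.2.1 ^ 2 := by ring
        _ ≤ (4 * t.1 * t.2.2) * (a * c) := by
          apply mul_le_mul h2' k3 (sq_nonneg _) (by positivity)
        _ ≤ ((t.1 : ℝ) * a + t.2.2 * c) ^ 2 := by nlinarith [sq_nonneg ((t.1 : ℝ) * a - t.2.2 * c)]
    have := abs_le_of_sq_le_sq' this hs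
    linarith [this.1]
  have e : dot t y = t.1 * a + t.2.1 * y.2.1 + t.2.2 * c + (t.1 + t.2.2) * κ := by
    simp only [dot, a, c]; ring
  rw [e]
  nlinarith

/-- Dilation. -/
def dil (N : ℕ) (f : T3 × R3 → ℂ) : T3 × R3 → ℂ := fun w => f ((N : ℤ) • w.1, (N : ℝ) • w.2)

theorem dil_mem {N : ℕ} (hN : 0 < N) {f : T3 × R3 → ℂ} (hf : f ∈ V S0) : dil N f ∈ V S0 := by
  refine V_induction (P := fun f => dil N f ∈ V S0) ?_ (Submodule.zero_mem _)
    (fun f g hf hg => Submodule.add_mem _ hf hg) (fun c f hf => Submodule.smul_mem _ c hf) hf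
  intro t ht
  have : dil N (ex t) = ex ((N : ℤ) • t) := by
    funext w
    simp only [dil, ex, pair, dot, Prod.smul_fst, Prod.smul_snd, smul_eq_mul, smul_smul,
      Int.cast_mul, Int.cast_natCast]
    congr 2
    · simp only [mul_comm]
    · push_cast; ring
  rw [this]
  apply ex_mem_V
  obtain ⟨h1, h2⟩ := ht
  have hN' : (0 : ℤ) < N := by exact_mod_cast hN
  refine ⟨mul_pos hN' h1, ?_⟩
  simp only [Prod.smul_snd, Prod.smul_fst, smul_eq_mul]
  have := mul_lt_mul_of_pos_left h2 (mul_pos hN' hN')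
  nlinarith

/-- The function of a complex variable attached to a function of `(x, y)`. -/
def lift (f : T3 × R3 → ℂ) (z : C3) : ℂ :=
  f (mk3 (z.1.re, z.2.1.re, z.2.2.re), (z.1.im, z.2.1.im, z.2.2.im))

def im3 (z : C3) : R3 := (z.1.im, z.2.1.im, z.2.2.im)

def lin (t : Z3) : C3 →L[ℂ] ℂ :=
  (2 * π * I : ℂ) • ((t.1 : ℂ) • ContinuousLinearMap.fst ℂ ℂ (ℂ × ℂ) +
    (t.2.1 : ℂ) • (ContinuousLinearMap.fst ℂ ℂ ℂ).comp (ContinuousLinearMap.snd ℂ ℂ (ℂ × ℂ)) +
    (t.2.2 : ℂ) • (ContinuousLinearMap.snd ℂ ℂ ℂ).comp (ContinuousLinearMap.snd ℂ ℂ (ℂ × ℂ)))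

theorem lift_ex (t : Z3) (z : C3) : lift (ex t) z = cexp (lin t z) := by
  simp only [lift, ex, pair_mk3, e1_coe, ← Complex.exp_add]
  congr 1
  simp only [lin, dot, smul_apply, add_apply,
    ContinuousLinearMap.coe_fst', ContinuousLinearMap.comp_apply, ContinuousLinearMap.coe_snd',
    smul_eq_mul]
  conv_rhs => rw [← re_add_im z.1, ← re_add_im z.2.1, ← re_add_im z.2.2]
  push_cast
  linear_combination (-(2 * π * (t.1 * z.1.im + t.2.1 * z.2.1.im + t.2.2 * z.2.2.im)) : ℂ) * I_mul_I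

/-- Exponential decay of a trigonometric polynomial and of its derivative deep in the cone. -/
theorem V_decay {f : T3 × R3 → ℂ} (hf : f ∈ V S0) :
    ∃ A : ℝ, 0 ≤ A ∧ (∀ κ, 0 ≤ κ → ∀ y ∈ K κ, ∀ x, ‖f (x, y)‖ ≤ A * Real.exp (-κ)) ∧
      ∃ f' : C3 → C3 →L[ℂ] ℂ, (∀ z, HasFDerivAt (lift f) (f' z) z) ∧
        ∀ κ, 0 ≤ κ → ∀ z, im3 z ∈ K κ → ‖f' z‖ ≤ A * Real.exp (-κ) := by
  refine V_induction (P := fun f => ∃ A : ℝ, 0 ≤ A ∧
    (∀ κ, 0 ≤ κ → ∀ y ∈ K κ, ∀ x, ‖f (x, y)‖ ≤ A * Real.exp (-κ)) ∧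
      ∃ f' : C3 → C3 →L[ℂ] ℂ, (∀ z, HasFDerivAt (lift f) (f' z) z) ∧
        ∀ κ, 0 ≤ κ → ∀ z, im3 z ∈ K κ → ‖f' z‖ ≤ A * Real.exp (-κ)) ?_ ?_ ?_ ?_ hf
  · intro t ht
    have hb : ∀ κ, 0 ≤ κ → ∀ y ∈ K κ, ∀ x, ‖ex t (x, y)‖ ≤ Real.exp (-κ) := by
      intro κ hκ y hy x
      rw [norm_ex, Real.exp_le_exp]
      have := dot_ge ht hκ hy
      nlinarith [Real.pi_gt_three]
    refine ⟨1 + ‖lin t‖, by positivity, ?_, fun z => cexp (lin t z) • lin t, ?_, ?_⟩
    · intro κ hκ y hy x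
      have := hb κ hκ y hy x
      have h2 : 0 ≤ ‖lin t‖ * Real.exp (-κ) := by positivity
      linarith
    · intro z
      have : lift (ex t) = fun z => cexp (lin t z) := funext (lift_ex t)
      rw [this]
      exact (lin t).hasFDerivAt.cexp
    · intro κ hκ z hz
      rw [norm_smul, ← lift_ex]
      have := hb κ hκ _ hz (mk3 (z.1.re, z.2.1.re, z.2.2.re))
      have h2 : 0 ≤ Real.exp (-κ) := by positivity
      calc ‖lift (ex t) z‖ * ‖lin t‖ ≤ Real.exp (-κ) * ‖lin t‖ :=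
            mul_le_mul_of_nonneg_right this (norm_nonneg _)
        _ ≤ _ := by nlinarith
  · refine ⟨0, le_rfl, by simp, fun _ => 0, fun z => ?_, by simp⟩
    exact hasFDerivAt_const (0 : ℂ) z
  · rintro f g ⟨A, hA, h1, f', h2, h3⟩ ⟨B, hB, k1, g', k2, k3⟩
    refine ⟨A + B, by positivity, ?_, fun z => f' z + g' z, fun z => (h2 z).add (k2 z), ?_⟩
    · intro κ hκ y hy x
      rw [add_mul]
      exact norm_add_le_of_le (h1 κ hκ y hy x) (k1 κ hκ y hy x)
    · intro κ hκ z hz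
      rw [add_mul]
      exact norm_add_le_of_le (h3 κ hκ z hz) (k3 κ hκ z hz)
  · rintro c f ⟨A, hA, h1, f', h2, h3⟩
    refine ⟨‖c‖ * A, by positivity, ?_, fun z => c • f' z, fun z => (h2 z).const_smul c, ?_⟩
    · intro κ hκ y hy x
      rw [Pi.smul_apply, norm_smul, mul_assoc]
      exact mul_le_mul_of_nonneg_left (h1 κ hκ y hy x) (norm_nonneg _)
    · intro κ hκ z hz
      rw [norm_smul, mul_assoc]
      exact mul_le_mul_of_nonneg_left (h3 κ hκ z hz) (norm_nonneg _)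

/-- The `L^p` norm on horizontal tori is at most the boundary norm (`p ≥ 1`). -/
theorem V_eLpNorm_le {f : T3 × R3 → ℂ} (hf : f ∈ V S0) (p : ℝ≥0∞) (hp : 1 ≤ p) {y : R3}
    (hy : y ∈ K 0) :
    eLpNorm (fun x => f (x, y)) p volume ≤ eLpNorm (fun x => f (x, 0)) p volume := by
  have : Fact (1 ≤ p) := ⟨hp⟩
  have hΨ : ∃ Ψ : ℂ → C(T3, ℂ), Differentiable ℂ Ψ ∧ (∃ B, ∀ ζ : ℂ, 0 ≤ ζ.re → ‖Ψ ζ‖ ≤ B) ∧
      ∀ ζ x, Ψ ζ x = f (x + mk3 ((-ζ.im) • y), ζ.re • y) := by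
    refine V_induction (P := fun f => ∃ Ψ : ℂ → C(T3, ℂ), Differentiable ℂ Ψ ∧
      (∃ B, ∀ ζ : ℂ, 0 ≤ ζ.re → ‖Ψ ζ‖ ≤ B) ∧
      ∀ ζ x, Ψ ζ x = f (x + mk3 ((-ζ.im) • y), ζ.re • y)) ?_ ?_ ?_ ?_ hf
    · intro t ht
      let χ : C(T3, ℂ) := ⟨fun x => e1 (pair t x), by fun_prop⟩
      refine ⟨fun ζ => cexp (-(2 * π * dot t y * ζ)) • χ, by fun_prop, ⟨‖χ‖, ?_⟩, ?_⟩
      · intro ζ hζ
        rw [norm_smul, Complex.norm_exp]
        have h0 := dot_ge ht le_rfl hy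
        have : (-(2 * π * dot t y * ζ) : ℂ).re ≤ 0 := by
          simp only [neg_re, mul_re, re_ofNat, ofReal_re, im_ofNat, ofReal_im, mul_zero, sub_zero,
            mul_im, zero_mul, add_zero, Left.neg_nonpos_iff]
          positivity
        exact mul_le_of_le_one_left (norm_nonneg _) (Real.exp_le_one_iff.2 this)
      · intro ζ x
        simp only [ContinuousMap.smul_apply, χ, ContinuousMap.coe_mk, smul_eq_mul, ex,
          pair_add_right, e1_add, pair_mk3, e1_coe]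
        rw [mul_comm, mul_assoc (e1 _), ← Complex.exp_add]
        congr 2
        conv_lhs => rw [← re_add_im ζ]
        simp only [dot, Prod.smul_fst, Prod.smul_snd, smul_eq_mul]
        push_cast
        ring
    · exact ⟨0, differentiable_const _, ⟨0, by simp⟩, by simp⟩
    · rintro f g ⟨Ψ, h1, ⟨B, h2⟩, h3⟩ ⟨Φ, k1, ⟨C, k2⟩, k3⟩
      exact ⟨Ψ + Φ, h1.add k1, ⟨B + C, fun ζ hζ => norm_add_le_of_le (h2 ζ hζ) (k2 ζ hζ)⟩,
        fun ζ x => by simp [h3, k3]⟩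
    · rintro c f ⟨Ψ, h1, ⟨B, h2⟩, h3⟩
      refine ⟨c • Ψ, h1.const_smul c, ⟨‖c‖ * B, fun ζ hζ => ?_⟩, fun ζ x => by simp [h3]⟩
      rw [Pi.smul_apply, norm_smul]
      exact mul_le_mul_of_nonneg_left (h2 ζ hζ) (norm_nonneg _)
  obtain ⟨Ψ, hd, ⟨B, hB⟩, hΨ⟩ := hΨ
  let L := ContinuousMap.toLp (E := ℂ) p (volume : Measure T3) ℂ
  have hnorm : ∀ g : C(T3, ℂ), ‖L g‖ = (eLpNorm g p volume).toReal := by
    intro g
    rw [Lp.norm_def, eLpNorm_congr_ae (ContinuousMap.coeFn_toLp (E := ℂ) (p := p) _ g)]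
  have hfin : ∀ g : C(T3, ℂ), eLpNorm g p volume ≠ ∞ := by
    intro g
    rw [← eLpNorm_congr_ae (ContinuousMap.coeFn_toLp (E := ℂ) (p := p) (𝕜 := ℂ) _ g)]
    exact Lp.eLpNorm_ne_top _
  have hLB : ∀ ζ : ℂ, 0 ≤ ζ.re → ‖L (Ψ ζ)‖ ≤ ‖L‖ * B := fun ζ hζ =>
    (L.le_opNorm _).trans (mul_le_mul_of_nonneg_left (hB ζ hζ) (norm_nonneg _))
  have main : ‖L (Ψ 1)‖ ≤ ‖L (Ψ 0)‖ := by
    refine PhragmenLindelof.right_half_plane_of_bounded_on_real (f := fun ζ => L (Ψ ζ))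
      (L.differentiable.comp hd).diffContOnCl ⟨0, by norm_num, 0, ?_⟩ ?_ ?_ (by simp)
    · refine Asymptotics.IsBigO.of_bound (‖L‖ * B) ?_
      refine (eventually_inf_principal.2 (Eventually.of_forall fun ζ hζ => ?_))
      simpa using hLB ζ (le_of_lt hζ)
    · refine ⟨‖L‖ * B, eventually_map.2 ?_⟩
      filter_upwards [eventually_ge_atTop 0] with x hx
      exact hLB x (by simpa using hx)
    · intro s
      rw [hnorm, hnorm]
      apply le_of_eq
      congr 1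
      have e : (Ψ (s * I) : T3 → ℂ) = (Ψ 0 : T3 → ℂ) ∘ (fun x => x + mk3 ((-s) • y)) := by
        funext x
        simp [hΨ]
      rw [e]
      exact eLpNorm_comp_measurePreserving (Ψ 0).continuous.aestronglyMeasurable
        (measurePreserving_add_right volume _)
  rw [hnorm, hnorm, ENNReal.toReal_le_toReal (hfin _) (hfin _)] at main
  have e1 : (Ψ 1 : T3 → ℂ) = fun x => f (x, y) := by
    funext x; simp [hΨ]
  have e0 : (Ψ 0 : T3 → ℂ) = fun x => f (x, 0) := by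
    funext x; simp [hΨ]
  rwa [e1, e0] at main

/-- Uniform continuity in the imaginary part. -/
theorem unif_near {f : T3 × R3 → ℂ} (hf : Continuous f) (y₀ : R3) {ε : ℝ} (hε : 0 < ε) :
    ∀ᶠ y in 𝓝 y₀, ∀ x, ‖f (x, y) - f (x, y₀)‖ < ε := by
  have h : ∀ᶠ y in 𝓝 y₀, ∀ x ∈ (univ : Set T3), ‖f (x, y) - f (x, y₀)‖ < ε := by
    apply isCompact_univ.eventually_forall_of_forall_eventually
    intro x _
    have hc : Continuous fun z : R3 × T3 => ‖f (z.2, z.1) - f (z.2, y₀)‖ := by fun_prop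
    have := hc.continuousAt (x := (y₀, x))
    apply this.eventually_lt continuousAt_const
    simpa using hε
  filter_upwards [h] with y hy x using hy x (mem_univ x)

end

end Pool.Agent.Lib.MP_730078_an
end

-- part Pool.Agent.Lib.MP_730078_an.Mix
section

open MeasureTheory Set Filter Topology Complex
open scoped ENNReal Real

namespace Pool.Agent.Lib.MP_730078_an

noncomputable section

theorem intg {X : Type*} [TopologicalSpace X] [CompactSpace X] [MeasurableSpace X]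
    [OpensMeasurableSpace X] {μ : Measure X} [IsFiniteMeasure μ] {f : X → ℝ}
    (hf : Continuous f) : Integrable f μ :=
  hf.integrable_of_hasCompactSupport (HasCompactSupport.of_compactSpace f)

theorem abs_int_le {X : Type*} [MeasurableSpace X] {μ : Measure X} [IsProbabilityMeasure μ]
    {f : X → ℝ} {C : ℝ} (h : ∀ x, |f x| ≤ C) : |∫ x, f x ∂μ| ≤ C := by
  simpa using norm_integral_le_of_norm_le_const (C := C) (μ := μ) (f := f) (Eventually.of_forall h)

section mix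

variable {X : Type*} [NormedAddCommGroup X] [CompactSpace X] [MeasurableSpace X] [BorelSpace X]
  (μ : Measure X) [IsProbabilityMeasure μ] [μ.IsAddLeftInvariant]

theorem mix_core (L : X →+ X) (hL : Continuous L) {F G : X → ℝ} (hF : Continuous F)
    (hG : Continuous G) {δ ε R : ℝ} (hs : ∀ u, ∃ s, ‖s‖ ≤ δ ∧ L s = u)
    (hFε : ∀ v s, ‖s‖ ≤ δ → |F (s + v) - F v| ≤ ε) (hR : ∀ v, |G v| ≤ R) (c : X) :
    |∫ v, F v * G (L v + c) ∂μ - (∫ v, F v ∂μ) * ∫ v, G v ∂μ| ≤ ε * R := by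
  have h1 : ∀ u, |∫ v, F v * G (L v + c) ∂μ - ∫ v, F v * G (L v + c + u) ∂μ| ≤ ε * R := by
    intro u
    obtain ⟨s, hs1, hs2⟩ := hs u
    rw [← integral_add_left_eq_self (fun v => F v * G (L v + c)) s,
      ← integral_sub (intg (by fun_prop)) (intg (by fun_prop))]
    refine abs_int_le fun v => ?_
    rw [map_add, hs2, show u + L v + c = L v + c + u by abel, ← sub_mul, abs_mul]
    exact mul_le_mul (hFε v s hs1) (hR _) (abs_nonneg _) ((abs_nonneg _).trans (hFε v s hs1))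
  have hc : Continuous fun q : X × X => F q.2 * G (L q.2 + c + q.1) := by fun_prop
  have h2 : ∫ u, ∫ v, F v * G (L v + c + u) ∂μ ∂μ = (∫ v, F v ∂μ) * ∫ v, G v ∂μ := by
    rw [integral_integral_swap (f := fun u v => F v * G (L v + c + u)) (intg hc),
      ← integral_mul_const]
    refine integral_congr_ae (Eventually.of_forall fun v => ?_)
    simp only
    rw [integral_const_mul, integral_add_left_eq_self]
  have h3 : Integrable (fun u => ∫ v, F v * G (L v + c + u) ∂μ) μ :=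
    (intg hc (μ := μ.prod μ)).integral_prod_left
  rw [← h2]
  have h4 : ∫ v, F v * G (L v + c) ∂μ = ∫ _u : X, ∫ v, F v * G (L v + c) ∂μ ∂μ := by simp
  rw [h4, ← integral_sub (integrable_const _) h3]
  exact abs_int_le h1

/-- Asymptotic independence under expanding endomorphisms, uniformly in a compact parameter. -/
theorem mix {P : Type*} [PseudoMetricSpace P] [CompactSpace P] (L : ℕ → X →+ X)
    (hL : ∀ N, Continuous (L N))
    (hs : ∀ δ > 0, ∀ᶠ N in atTop, ∀ u, ∃ s, ‖s‖ ≤ δ ∧ L N s = u) {F G : P × X → ℝ}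
    (hF : Continuous F) (hG : Continuous G) {ε : ℝ} (hε : 0 < ε) :
    ∀ᶠ N in atTop, ∀ p c, |∫ v, F (p, v) * G (p, L N v + c) ∂μ -
      (∫ v, F (p, v) ∂μ) * ∫ v, G (p, v) ∂μ| ≤ ε := by
  obtain ⟨R, hR⟩ := (isCompact_range hG).isBounded.exists_norm_le
  have hR' : ∀ q, |G q| ≤ |R| + 1 := fun q =>
    (hR _ ⟨q, rfl⟩).trans ((le_abs_self R).trans (by linarith))
  have hR0 : 0 < |R| + 1 := by positivity
  obtain ⟨δ, hδ, hδ'⟩ := Metric.uniformContinuous_iff.1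
    (CompactSpace.uniformContinuous_of_continuous hF) (ε / (|R| + 1)) (by positivity)
  filter_upwards [hs (δ / 2) (by positivity)] with N hN p c
  have := mix_core μ (L N) (hL N) (F := fun v => F (p, v)) (G := fun v => G (p, v))
    (by fun_prop) (by fun_prop) hN (ε := ε / (|R| + 1)) (R := |R| + 1) ?_ (fun v => hR' _) c
  · rwa [div_mul_cancel₀ _ hR0.ne'] at this
  · intro v s hs
    refine (hδ' (a := (p, s + v)) (b := (p, v)) ?_).le
    rw [Prod.dist_eq, dist_self, dist_eq_norm, add_sub_cancel_right]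
    exact max_lt hδ (by linarith)

end mix

theorem exists_div (N : ℕ) (hN : 0 < N) (u : TT) :
    ∃ s : TT, ‖s‖ ≤ 1 / N ∧ (N : ℤ) • s = u := by
  obtain ⟨r, hr, rfl⟩ : ∃ r ∈ Ico (0 : ℝ) (0 + 1), (r : TT) = u :=
    ⟨AddCircle.equivIco 1 0 u, (AddCircle.equivIco 1 0 u).2, AddCircle.coe_equivIco⟩
  have hN' : (0 : ℝ) < N := by exact_mod_cast hN
  refine ⟨((r / N : ℝ) : TT), ?_, ?_⟩
  · refine (QuotientAddGroup.norm_mk_le_norm).trans ?_
    rw [Real.norm_eq_abs, abs_of_nonneg (div_nonneg hr.1 hN'.le)]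
    gcongr
    linarith [hr.2]
  · rw [← AddCircle.coe_zsmul, zsmul_eq_mul]
    congr 1
    push_cast
    field_simp

theorem ev_div (C : ℝ) {δ : ℝ} (hδ : 0 < δ) : ∀ᶠ N : ℕ in atTop, 0 < N ∧ C / N ≤ δ :=
  (eventually_gt_atTop 0).and
    ((tendsto_const_div_atTop_nhds_zero_nat C).eventually (eventually_le_nhds hδ))

/-- Mixing for dilations of the three dimensional torus. -/
theorem mix3 {P : Type*} [PseudoMetricSpace P] [CompactSpace P] {F G : P × T3 → ℝ}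
    (hF : Continuous F) (hG : Continuous G) {ε : ℝ} (hε : 0 < ε) :
    ∀ᶠ N : ℕ in atTop, ∀ p, |(∫ v, F (p, v) * G (p, (N : ℤ) • v)) -
      (∫ v, F (p, v)) * ∫ v, G (p, v)| ≤ ε := by
  have := mix (volume : Measure T3) (fun N : ℕ => zsmulAddGroupHom (α := T3) (N : ℤ))
    (fun N => by change Continuous fun v : T3 => (N : ℤ) • v; fun_prop) ?_ hF hG hε
  · filter_upwards [this] with N hN p
    simpa using hN p 0
  · intro δ hδ
    filter_upwards [ev_div 1 hδ] with N hN u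
    obtain ⟨a, ha, ha'⟩ := exists_div N hN.1 u.1
    obtain ⟨b, hb, hb'⟩ := exists_div N hN.1 u.2.1
    obtain ⟨c, hc, hc'⟩ := exists_div N hN.1 u.2.2
    refine ⟨(a, b, c), ?_, ?_⟩
    · simp only [Prod.norm_def]
      exact max_le (ha.trans hN.2) (max_le (hb.trans hN.2) (hc.trans hN.2))
    · ext <;> simp [ha', hb', hc']

abbrev T2 := TT × TT

/-- The linear part of the parabolic rescaling on a fibre. -/
def Lm (e : ℤ) (N : ℕ) : T2 →+ T2 where
  toFun v := ((N : ℤ) • v.1, ((N * N : ℕ) : ℤ) • (v.2 - (2 * e) • v.1))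
  map_zero' := by simp
  map_add' v w := by
    ext
    · simp
    · simp only [Prod.fst_add, Prod.snd_add, zsmul_add, zsmul_sub]; abel

@[fun_prop] theorem continuous_Lm (e : ℤ) (N : ℕ) : Continuous (Lm e N) := by
  change Continuous fun v : T2 => ((N : ℤ) • v.1, ((N * N : ℕ) : ℤ) • (v.2 - (2 * e) • v.1))
  fun_prop

/-- Mixing on the fibres. -/
theorem mix2 {P : Type*} [PseudoMetricSpace P] [CompactSpace P] (e : ℤ) {F G : P × T2 → ℝ}
    (hF : Continuous F) (hG : Continuous G) {ε : ℝ} (hε : 0 < ε) :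
    ∀ᶠ N : ℕ in atTop, ∀ p c, |(∫ v, F (p, v) * G (p, Lm e N v + c)) -
      (∫ v, F (p, v)) * ∫ v, G (p, v)| ≤ ε := by
  refine mix (volume : Measure T2) (Lm e) (continuous_Lm e) ?_ hF hG hε
  intro δ hδ
  filter_upwards [ev_div (1 + ‖2 * e‖) hδ] with N hN u
  obtain ⟨a, ha, ha'⟩ := exists_div N hN.1 u.1
  obtain ⟨b, hb, hb'⟩ := exists_div (N * N) (Nat.mul_pos hN.1 hN.1) u.2
  have hN1 : (1 : ℝ) ≤ N := by exact_mod_cast hN.1
  have h0 : 0 ≤ ‖2 * e‖ / N := by positivity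
  have h1 : 1 / N + ‖2 * e‖ / N ≤ δ := by rw [← add_div]; exact hN.2
  refine ⟨(a, b + (2 * e) • a), ?_, ?_⟩
  · simp only [Prod.norm_def]
    refine max_le (by linarith) ((norm_add_le _ _).trans (le_trans (add_le_add ?_ ?_) h1))
    · refine hb.trans ?_
      push_cast
      gcongr
      nlinarith
    · refine (norm_zsmul_le _ _).trans ?_
      rw [div_eq_mul_one_div]
      gcongr
  · change ((N : ℤ) • a, ((N * N : ℕ) : ℤ) • (b + (2 * e) • a - (2 * e) • a)) = u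
    rw [add_sub_cancel_right, ha', hb']

end

end Pool.Agent.Lib.MP_730078_an
end

-- part Pool.Agent.Lib.MP_730078_an.Shear
section

open MeasureTheory Set Filter Topology Complex
open scoped ENNReal Real

namespace Pool.Agent.Lib.MP_730078_an

noncomputable section

def cs (e : ℤ) (N : ℕ) (T : TT) : T2 := ((-(N * e) : ℤ) • T, ((N * N * (e * e) : ℤ)) • T)

/-- Parabolic rescaling around the direction `(1, e, e²)`, on the torus. -/
def At (e : ℤ) (N : ℕ) (x : T3) : T3 := (x.1, Lm e N x.2 + cs e N x.1)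

/-- Parabolic rescaling around the direction `(1, e, e²)`, on the imaginary parts. -/
def Ar (e : ℤ) (N : ℕ) (y : R3) : R3 :=
  (y.1, N * (y.2.1 - e * y.1), N * N * (y.2.2 - 2 * e * y.2.1 + e * e * y.1))

def sh (e : ℤ) (N : ℕ) (f : T3 × R3 → ℂ) : T3 × R3 → ℂ := fun w => f (At e N w.1, Ar e N w.2)

def tr (e : ℤ) (N : ℕ) (t : Z3) : Z3 :=
  (t.1 - e * N * t.2.1 + e * e * N * N * t.2.2, N * t.2.1 - 2 * e * N * N * t.2.2, N * N * t.2.2)

def om (σ : ℝ) : R3 := (1, σ, σ ^ 2)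

@[fun_prop] theorem continuous_cs (e : ℤ) (N : ℕ) : Continuous (cs e N) := by
  unfold cs; fun_prop

@[fun_prop] theorem continuous_At (e : ℤ) (N : ℕ) : Continuous (At e N) := by
  unfold At; fun_prop

@[fun_prop] theorem continuous_om : Continuous om := by
  unfold om; fun_prop

theorem Ar_zero (e : ℤ) (N : ℕ) : Ar e N 0 = 0 := by simp [Ar]

theorem Ar_om (e : ℤ) (N : ℕ) (σ : ℝ) : Ar e N (om σ) = om (N * (σ - e)) := by
  simp only [Ar, om, Prod.mk.injEq, true_and]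
  constructor <;> ring

theorem sh_ex (e : ℤ) (N : ℕ) (t : Z3) : sh e N (ex t) = ex (tr e N t) := by
  funext w
  have h1 : pair t (At e N w.1) = pair (tr e N t) w.1 := by
    change t.1 • w.1.1 + t.2.1 • ((N : ℤ) • w.1.2.1 + (-(N * e) : ℤ) • w.1.1) +
      t.2.2 • (((N * N : ℕ) : ℤ) • (w.1.2.2 - (2 * e) • w.1.2.1) + (N * N * (e * e) : ℤ) • w.1.1) = _
    simp only [pair, tr]
    push_cast
    module
  have h2 : dot t (Ar e N w.2) = dot (tr e N t) w.2 := by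
    simp only [dot, Ar, tr]
    push_cast
    ring
  simp only [sh, ex, h1, h2]

/-- Frequencies of the functions of `x₃ - e² x₁`. -/
def Ce (e : ℤ) : Set Z3 := range fun j : ℤ => (-(e * e * j), 0, j)

theorem ev_quad {a : ℤ} (ha : 0 < a) (b c : ℤ) :
    ∀ᶠ N : ℕ in atTop, 0 < a * (N * N) + b * N + c := by
  filter_upwards [eventually_gt_atTop (b.natAbs + c.natAbs)] with N hN
  have h1 : |b| + |c| < (N : ℤ) := by
    rw [← Int.natCast_natAbs, ← Int.natCast_natAbs]; exact_mod_cast hN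
  have h2 := neg_abs_le b
  have h3 := neg_abs_le c
  have h4 := abs_nonneg b
  have h5 := abs_nonneg c
  have h6 : (N : ℤ) * N ≤ a * (N * N) := le_mul_of_one_le_left (by positivity) ha
  nlinarith

theorem S0_pos {t : Z3} (ht : t ∈ S0) : 0 < t.2.2 := by
  obtain ⟨h1, h2⟩ := ht
  by_contra hh
  push Not at hh
  nlinarith [sq_nonneg t.2.1]

theorem ev_mul_sh_mem (e : ℤ) {χ f : T3 × R3 → ℂ} (hχ : χ ∈ V (Ce e)) (hf : f ∈ V S0) :
    ∀ᶠ N : ℕ in atTop, χ * sh e N f ∈ V S0 := by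
  refine V_induction (P := fun f => ∀ᶠ N : ℕ in atTop, χ * sh e N f ∈ V S0) ?_ ?_ ?_ ?_ hf
  · intro t ht
    refine V_induction (P := fun χ => ∀ᶠ N : ℕ in atTop, χ * sh e N (ex t) ∈ V S0) ?_ ?_ ?_ ?_ hχ
    · rintro _ ⟨j, rfl⟩
      filter_upwards [ev_quad (S0_pos ht) 0 j,
        ev_quad (sub_pos.2 ht.2) (-(4 * j * e * t.2.1)) (4 * j * t.1 - 4 * e * e * j * j)]
        with N h1 h2
      rw [sh_ex, ← ex_add]
      apply ex_mem_V
      have h3 : ((-(e * e * j), 0, j) + tr e N t : Z3).2.1 ^ 2 <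
          4 * ((-(e * e * j), 0, j) + tr e N t : Z3).1 *
            ((-(e * e * j), 0, j) + tr e N t : Z3).2.2 := by
        simp only [tr, Prod.mk_add_mk]
        nlinarith
      refine ⟨?_, h3⟩
      have h4 : 0 < ((-(e * e * j), 0, j) + tr e N t : Z3).2.2 := by
        simp only [tr, Prod.mk_add_mk]
        linarith
      by_contra hh
      push Not at hh
      nlinarith [sq_nonneg ((-(e * e * j), 0, j) + tr e N t : Z3).2.1]
    · simp
    · intro a b ha hb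
      filter_upwards [ha, hb] with N h1 h2
      rw [add_mul]
      exact Submodule.add_mem _ h1 h2
    · intro c a ha
      filter_upwards [ha] with N h1
      rw [smul_mul_assoc]
      exact Submodule.smul_mem _ c h1
  · refine Eventually.of_forall fun N => ?_
    rw [show sh e N 0 = 0 from rfl, mul_zero]
    exact Submodule.zero_mem _
  · intro a b ha hb
    filter_upwards [ha, hb] with N h1 h2
    rw [show sh e N (a + b) = sh e N a + sh e N b from rfl, mul_add]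
    exact Submodule.add_mem _ h1 h2
  · intro c a ha
    filter_upwards [ha] with N h1
    rw [show sh e N (c • a) = c • sh e N a from rfl, mul_smul_comm]
    exact Submodule.smul_mem _ c h1

/-- A polynomial with interior spectrum is invisible from far away boundary directions. -/
theorem far_small {f : T3 × R3 → ℂ} (hf : f ∈ V S0) {ε : ℝ} (hε : 0 < ε) :
    ∃ R : ℝ, ∀ ρ, R ≤ |ρ| → ∀ x, ‖f (x, om ρ)‖ ≤ ε := by
  have h : ∃ A R : ℝ, 0 ≤ A ∧ ∀ ρ, R ≤ |ρ| → ∀ x, ‖f (x, om ρ)‖ ≤ A * Real.exp (-|ρ|) := by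
    refine V_induction (P := fun f => ∃ A R : ℝ, 0 ≤ A ∧ ∀ ρ, R ≤ |ρ| → ∀ x,
      ‖f (x, om ρ)‖ ≤ A * Real.exp (-|ρ|)) ?_ ?_ ?_ ?_ hf
    · intro t ht
      refine ⟨1, |(t.2.1 : ℝ)| + 1, zero_le_one, fun ρ hρ x => ?_⟩
      rw [norm_ex, one_mul, Real.exp_le_exp]
      have h1 : (1 : ℝ) ≤ t.1 := by exact_mod_cast ht.1
      have h3 : (1 : ℝ) ≤ t.2.2 := by exact_mod_cast S0_pos ht
      have h4 : -(|(t.2.1 : ℝ)| * |ρ|) ≤ t.2.1 * ρ := by rw [← abs_mul]; exact neg_abs_le _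
      have h5 : |ρ| ≤ dot t (om ρ) := by
        simp only [dot, om]
        rw [← sq_abs ρ]
        nlinarith [abs_nonneg ρ, abs_nonneg (t.2.1 : ℝ)]
      nlinarith [Real.pi_gt_three, abs_nonneg ρ]
    · exact ⟨0, 0, le_rfl, by simp⟩
    · rintro f g ⟨A, R, hA, h1⟩ ⟨B, S, hB, h2⟩
      refine ⟨A + B, max R S, by positivity, fun ρ hρ x => ?_⟩
      rw [add_mul]
      exact norm_add_le_of_le (h1 ρ (le_of_max_le_left hρ) x) (h2 ρ (le_of_max_le_right hρ) x)
    · rintro c f ⟨A, R, hA, h1⟩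
      refine ⟨‖c‖ * A, R, by positivity, fun ρ hρ x => ?_⟩
      rw [Pi.smul_apply, norm_smul, mul_assoc]
      exact mul_le_mul_of_nonneg_left (h1 ρ hρ x) (norm_nonneg _)
  obtain ⟨A, R, hA, h⟩ := h
  have h1 : Tendsto (fun r : ℝ => A * Real.exp (-r)) atTop (𝓝 (A * 0)) :=
    Real.tendsto_exp_neg_atTop_nhds_zero.const_mul A
  rw [mul_zero] at h1
  obtain ⟨S, hS⟩ := eventually_atTop.1 (h1.eventually (eventually_le_nhds hε))
  exact ⟨max R S, fun ρ hρ x => (h ρ (le_of_max_le_left hρ) x).trans (hS _ (le_of_max_le_right hρ))⟩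

theorem near_om {f : T3 × R3 → ℂ} (hf : Continuous f) (e : ℝ) {ε : ℝ} (hε : 0 < ε) :
    ∀ᶠ N : ℕ in atTop, ∀ ρ : ℝ, |ρ| ≤ 2 → ∀ x, ‖f (x, om (e + ρ / N)) - f (x, om e)‖ ≤ ε := by
  obtain ⟨δ, hδ, h⟩ := Metric.eventually_nhds_iff.1
    (continuous_om.continuousAt.eventually (unif_near hf (om e) hε))
  filter_upwards [ev_div 2 (half_pos hδ)] with N hN ρ hρ x
  refine (h ?_ x).le
  have : (0 : ℝ) < N := by exact_mod_cast hN.1
  rw [Real.dist_eq, add_sub_cancel_left, abs_div, Nat.abs_cast]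
  calc |ρ| / N ≤ 2 / N := by gcongr
    _ < δ := by linarith [hN.2]

theorem bdd_om {f : T3 × R3 → ℂ} (hf : Continuous f) :
    ∃ R : ℝ, 0 < R ∧ (∀ x, ‖f (x, 0)‖ ≤ R) ∧ ∀ σ, |σ| ≤ 2 → ∀ x, ‖f (x, om σ)‖ ≤ R := by
  obtain ⟨R, hR⟩ := (isCompact_univ.prod (isCompact_closedBall (0 : R3) 4)).exists_bound_of_continuousOn
    hf.continuousOn
  refine ⟨|R| + 1, by positivity, fun x => ?_, fun σ hσ x => ?_⟩
  · exact (hR _ ⟨mem_univ _, by simp⟩).trans ((le_abs_self R).trans (by linarith))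
  · refine (hR _ ⟨mem_univ _, ?_⟩).trans ((le_abs_self R).trans (by linarith))
    simp only [om, mem_closedBall_zero_iff, Prod.norm_def, Real.norm_eq_abs, abs_one, abs_pow]
    refine max_le (by norm_num) (max_le (by linarith) ?_)
    nlinarith [abs_nonneg σ]

/-- Approximation of a continuous function of `x₃ - e² x₁`. -/
theorem exists_cut (e : ℤ) {b : TT → ℝ} (hb : Continuous b) {η : ℝ} (hη : 0 < η) :
    ∃ χ ∈ V (Ce e), ∀ x, ‖χ (x, 0) - b (x.2.2 - (e * e) • x.1)‖ ≤ η ∧ χ (x, om e) = χ (x, 0) := by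
  let g : C(TT, ℂ) := ⟨fun u => (b u : ℂ), by fun_prop⟩
  have hg : g ∈ (Submodule.span ℂ (range (fourier (T := 1)))).topologicalClosure := by
    rw [span_fourier_closure_eq_top]; trivial
  obtain ⟨q, hq, hq'⟩ := Metric.mem_closure_iff.1 hg η hη
  have h : ∃ χ ∈ V (Ce e), ∀ x, χ (x, 0) = q (x.2.2 - (e * e) • x.1) ∧ χ (x, om e) = χ (x, 0) := by
    clear hq'
    induction hq using Submodule.span_induction with
    | mem q hq =>
      obtain ⟨j, rfl⟩ := hq
      refine ⟨_, ex_mem_V ⟨j, rfl⟩, fun x => ⟨?_, ?_⟩⟩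
      · rw [← e1_zsmul]
        simp only [ex, dot, pair, Prod.fst_zero, Prod.snd_zero, mul_zero, add_zero, ofReal_zero,
          neg_zero, Complex.exp_zero, mul_one]
        congr 1
        module
      · simp only [ex, dot, om, Prod.fst_zero, Prod.snd_zero]
        congr 4
        push_cast
        ring
    | zero => exact ⟨0, Submodule.zero_mem _, by simp⟩
    | add a b _ _ ha hb =>
      obtain ⟨χ, h1, h2⟩ := ha
      obtain ⟨ψ, h3, h4⟩ := hb
      exact ⟨χ + ψ, Submodule.add_mem _ h1 h3, fun x => by simp [h2 x, h4 x]⟩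
    | smul c a _ ha =>
      obtain ⟨χ, h1, h2⟩ := ha
      exact ⟨c • χ, Submodule.smul_mem _ c h1, fun x => by simp [h2 x]⟩
  obtain ⟨χ, h1, h2⟩ := h
  refine ⟨χ, h1, fun x => ⟨?_, (h2 x).2⟩⟩
  rw [(h2 x).1, ← dist_eq_norm, dist_comm]
  exact ((ContinuousMap.dist_apply_le_dist (f := g) (g := q) _).trans hq'.le)

end

end Pool.Agent.Lib.MP_730078_an
end

-- part Pool.Agent.Lib.MP_730078_an.Cut
section

open MeasureTheory Set Filter Topology Complex
open scoped ENNReal Real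

namespace Pool.Agent.Lib.MP_730078_an

noncomputable section

/-- A smooth splitting of the circle in two arcs. -/
structure Cut (δ : ℝ) (a bp bm : TT → ℝ) : Prop where
  ca : Continuous a
  cp : Continuous bp
  cm : Continuous bm
  a0 : ∀ u, 0 ≤ a u
  a1 : ∀ u, a u ≤ 1
  p0 : ∀ u, 0 ≤ bp u
  p1 : ∀ u, bp u ≤ 1
  m0 : ∀ u, 0 ≤ bm u
  m1 : ∀ u, bm u ≤ 1
  ap : ∀ u, 0 < a u → bp u = 1 ∧ 1 / 2 ≤ (e1 u).re
  am : ∀ u, a u < 1 → bm u = 1
  ia : 1 / 3 - 2 * δ ≤ ∫ u, a u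
  ib : (∫ u, bp u) + ∫ u, bm u ≤ 1 + 6 * δ
  io : ∀ T, ∫ u, a u * (1 - a (u - T)) ≤ 2 * ‖T‖ + 2 * δ

def clamp (t : ℝ) : ℝ := max 0 (min 1 t)

@[fun_prop] theorem continuous_clamp : Continuous clamp := by unfold clamp; fun_prop

theorem clamp0 (t : ℝ) : 0 ≤ clamp t := le_max_left _ _
theorem clamp1 (t : ℝ) : clamp t ≤ 1 := max_le zero_le_one (min_le_left _ _)
theorem clamp_one {t : ℝ} (h : 1 ≤ t) : clamp t = 1 := by simp [clamp, h]
theorem clamp_zero {t : ℝ} (h : t ≤ 0) : clamp t = 0 := by simp [clamp, h]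

def ib (r : ℝ) (u : TT) : ℝ := (Metric.closedBall (0 : TT) r).indicator 1 u

theorem ib_int (r : ℝ) : Integrable (ib r) :=
  (integrable_const (1 : ℝ)).indicator measurableSet_closedBall

theorem ib_eq (r : ℝ) : ∫ u, ib r u = max (min 1 (2 * r)) 0 := by
  unfold ib
  rw [integral_indicator_one measurableSet_closedBall, Measure.real, AddCircle.volume_closedBall,
    ENNReal.toReal_ofReal']

theorem ib_le {r : ℝ} (hr : 0 ≤ r) : ∫ u, ib r u ≤ 2 * r := by
  rw [ib_eq]; exact max_le (min_le_right _ _) (by linarith)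

theorem ib_ge {r : ℝ} (hr : r ≤ 1 / 2) : 2 * r ≤ ∫ u, ib r u := by
  rw [ib_eq]; exact le_max_of_le_left (le_min (by linarith) le_rfl)

theorem ib_one {r : ℝ} {u : TT} (h : ‖u‖ ≤ r) : ib r u = 1 := by simp [ib, h]
theorem ib_zero {r : ℝ} {u : TT} (h : r < ‖u‖) : ib r u = 0 := by simp [ib, h]

theorem re_e1_ge {u : TT} (h : ‖u‖ < 1 / 6) : 1 / 2 ≤ (e1 u).re := by
  obtain ⟨r, rfl, hr⟩ := QuotientAddGroup.norm_lt_iff.1 h
  have : e1 (r : TT) = cexp (((2 * π * r : ℝ) : ℂ) * I) := by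
    rw [e1_coe]; congr 1; push_cast; ring
  rw [this, Complex.exp_ofReal_mul_I_re, ← Real.cos_abs, ← Real.cos_pi_div_three]
  rw [Real.norm_eq_abs] at hr
  apply Real.cos_le_cos_of_nonneg_of_le_pi (abs_nonneg _) (by linarith [Real.pi_pos])
  rw [abs_mul, abs_of_pos (by positivity : 0 < 2 * π)]
  nlinarith [Real.pi_pos]

theorem exists_Cut {δ : ℝ} (hδ : 0 < δ) (hδ' : δ ≤ 1 / 12) : ∃ a bp bm, Cut δ a bp bm := by
  let a : TT → ℝ := fun u => clamp ((1 / 6 - ‖u‖) / δ)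
  let bp : TT → ℝ := fun u => clamp ((1 / 6 + δ - ‖u‖) / δ)
  let bm : TT → ℝ := fun u => clamp ((‖u‖ - 1 / 6 + 2 * δ) / δ)
  have ca : Continuous a := by fun_prop
  have cp : Continuous bp := by fun_prop
  have cm : Continuous bm := by fun_prop
  have ha1 : ∀ u, ‖u‖ ≤ 1 / 6 - δ → a u = 1 := fun u hu =>
    clamp_one (by rw [le_div_iff₀ hδ]; linarith)
  have ha0 : ∀ u, 1 / 6 ≤ ‖u‖ → a u = 0 := fun u hu =>
    clamp_zero (div_nonpos_of_nonpos_of_nonneg (by linarith) hδ.le)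
  refine ⟨a, bp, bm, ca, cp, cm, fun _ => clamp0 _, fun _ => clamp1 _, fun _ => clamp0 _,
    fun _ => clamp1 _, fun _ => clamp0 _, fun _ => clamp1 _, fun u hu => ?_, fun u hu => ?_,
    ?_, ?_, fun T => ?_⟩
  · have : ‖u‖ < 1 / 6 := lt_of_not_ge fun h => hu.ne' (ha0 u h)
    exact ⟨clamp_one (by rw [le_div_iff₀ hδ]; linarith), re_e1_ge this⟩
  · have : 1 / 6 - δ < ‖u‖ := lt_of_not_ge fun h => hu.ne (ha1 u h)
    exact clamp_one (by rw [le_div_iff₀ hδ]; linarith)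
  · refine le_trans (by linarith [ib_ge (r := 1 / 6 - δ) (by linarith)])
      (integral_mono (ib_int (1 / 6 - δ)) (intg ca) fun u => ?_)
    rcases le_or_gt ‖u‖ (1 / 6 - δ) with h | h
    · rw [ib_one h, ha1 u h]
    · rw [ib_zero h]; exact clamp0 _
  · have h1 : ∫ u, bp u ≤ ∫ u, ib (1 / 6 + δ) u := by
      refine integral_mono (intg cp) (ib_int _) fun u => ?_
      rcases le_or_gt ‖u‖ (1 / 6 + δ) with h | h
      · rw [ib_one h]; exact clamp1 _
      · rw [ib_zero h]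
        exact (clamp_zero (div_nonpos_of_nonpos_of_nonneg (by linarith) hδ.le)).le
    have h2 : ∫ u, bm u ≤ ∫ u, (1 - ib (1 / 6 - 2 * δ) u) := by
      refine integral_mono (intg cm) ((integrable_const _).sub (ib_int _)) fun u => ?_
      rcases le_or_gt ‖u‖ (1 / 6 - 2 * δ) with h | h
      · simp only [ib_one h, sub_self]
        exact (clamp_zero (div_nonpos_of_nonpos_of_nonneg (by linarith) hδ.le)).le
      · simp only [ib_zero h, sub_zero]; exact clamp1 _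
    rw [integral_sub (integrable_const _) (ib_int _)] at h2
    simp only [integral_const, probReal_univ, smul_eq_mul, mul_one] at h2
    linarith [ib_le (r := 1 / 6 + δ) (by linarith), ib_ge (r := 1 / 6 - 2 * δ) (by linarith)]
  · have h1 : ∫ u, a u * (1 - a (u - T)) ≤ ∫ u, (ib (1 / 6) u - ib (1 / 6 - δ - ‖T‖) u) := by
      refine integral_mono (intg (by fun_prop)) ((ib_int _).sub (ib_int _)) fun u => ?_
      rcases le_or_gt ‖u‖ (1 / 6 - δ - ‖T‖) with h | h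
      · simp only [ib_one h, ib_one (show ‖u‖ ≤ 1 / 6 by linarith [norm_nonneg T]),
          ha1 (u - T) (by linarith [norm_sub_le u T]), sub_self, mul_zero, le_refl]
      · simp only [ib_zero h, sub_zero]
        rcases le_or_gt ‖u‖ (1 / 6) with h' | h'
        · rw [ib_one h']
          exact mul_le_one₀ (clamp1 _) (sub_nonneg.2 (clamp1 _)) (sub_le_self _ (clamp0 _))
        · rw [ib_zero h', ha0 u h'.le, zero_mul]
    rw [integral_sub (ib_int _) (ib_int _)] at h1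
    linarith [ib_le (r := 1 / 6) (by norm_num),
      ib_ge (r := 1 / 6 - δ - ‖T‖) (by linarith [norm_nonneg T])]

theorem int_snd (f : TT → ℝ) (T : TT) : ∫ v : T2, f (v.2 - T) = ∫ u, f u := by
  have := integral_fun_snd (μ := (volume : Measure TT)) (ν := (volume : Measure TT))
    (fun u => f (u - T))
  rw [probReal_univ, one_smul, integral_sub_right_eq_self] at this
  exact this

theorem int_re_e1 (c : ℂ) : ∫ u : TT, (c * e1 u).re = 0 := by
  refine integral_eq_zero_of_add_right_eq_neg (g := ((1 / 2 : ℝ) : TT)) fun u => ?_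
  rw [e1_add, e1_coe, show (2 * π * I * ((1 / 2 : ℝ) : ℂ) : ℂ) = π * I by push_cast; ring,
    Complex.exp_pi_mul_I]
  simp

end

end Pool.Agent.Lib.MP_730078_an
end

-- part Pool.Agent.Lib.MP_730078_an.Tree1
section

open MeasureTheory Set Filter Topology Complex
open scoped ENNReal Real

namespace Pool.Agent.Lib.MP_730078_an

noncomputable section

/-- Average over the fibre `x₁ = T`. -/
def fi (f : T3 → ℝ) (T : TT) : ℝ := ∫ v : T2, f (T, v)

theorem fi_add {f g : T3 → ℝ} (hf : Continuous f) (hg : Continuous g) (T : TT) :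
    fi (fun x => f x + g x) T = fi f T + fi g T :=
  integral_add (intg (by fun_prop)) (intg (by fun_prop))

theorem fi_mono {f g : T3 → ℝ} (hf : Continuous f) (hg : Continuous g) (h : ∀ x, f x ≤ g x)
    (T : TT) : fi f T ≤ fi g T :=
  integral_mono (intg (by fun_prop)) (intg (by fun_prop)) fun _ => h _

theorem fi_nonneg {f : T3 → ℝ} (h : ∀ x, 0 ≤ f x) (T : TT) : 0 ≤ fi f T :=
  integral_nonneg fun _ => h _

theorem fi_const_mul (c : ℝ) (f : T3 → ℝ) (T : TT) : fi (fun x => c * f x) T = c * fi f T :=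
  integral_const_mul _ _

theorem fi_const (c : ℝ) (T : TT) : fi (fun _ => c) T = c := by simp [fi]

theorem fi_snd (f : TT → ℝ) (T : TT) : fi (fun x => f x.2.2) T = ∫ u, f u := by
  simpa [fi] using int_snd f 0

theorem fi_sub (f : TT → ℝ) (T : TT) : fi (fun x => f (x.2.2 - x.1)) T = ∫ u, f u := int_snd f T

theorem mixA (e : ℤ) {F G : T3 → ℝ} (hF : Continuous F) (hG : Continuous G) {ε : ℝ}
    (hε : 0 < ε) :
    ∀ᶠ N : ℕ in atTop, ∀ T, |fi (fun x => F x * G (At e N x)) T - fi F T * fi G T| ≤ ε := by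
  filter_upwards [mix2 e hF hG hε] with N hN T using hN T (cs e N T)

theorem two_lin {a : TT → ℝ} (ca : Continuous a) {G H : T3 → ℝ} (hG : Continuous G)
    (hH : Continuous H) {ε : ℝ} (hε : 0 < ε) :
    ∀ᶠ N : ℕ in atTop, ∀ᶠ M : ℕ in atTop, ∀ T,
      |fi (fun x => a x.2.2 * G (At 0 N x) + (1 - a (x.2.2 - x.1)) * H (At 1 M x)) T -
        ((∫ u, a u) * fi G T + (1 - ∫ u, a u) * fi H T)| ≤ 2 * ε := by
  filter_upwards [mixA 0 (F := fun x => a x.2.2) (by fun_prop) hG hε] with N hN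
  filter_upwards [mixA 1 (F := fun x => 1 - a (x.2.2 - x.1)) (by fun_prop) hH hε] with M hM T
  have h1 := abs_le.1 (hN T)
  have h2 := abs_le.1 (hM T)
  rw [fi_snd] at h1
  rw [fi_sub (fun u => 1 - a u), integral_sub (integrable_const _) (intg ca)] at h2
  simp only [integral_const, probReal_univ, smul_eq_mul, mul_one] at h2
  rw [fi_add (by fun_prop) (by fun_prop), abs_le]
  constructor <;> linarith [h1.1, h1.2, h2.1, h2.2]

theorem cross {δ : ℝ} {a bp bm : TT → ℝ} (hC : Cut δ a bp bm) {Z : T3 → ℝ} (hZ : Continuous Z)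
    (hZ0 : ∀ x, 0 ≤ Z x) {z : ℝ} (hz : ∀ T, fi Z T ≤ z) {ε : ℝ} (hε : 0 < ε) :
    ∀ᶠ N : ℕ in atTop, ∀ᶠ M : ℕ in atTop, ∀ T,
      fi (fun x => a x.2.2 * (1 - a (x.2.2 - x.1)) * Z (At 0 N x) * Z (At 1 M x)) T ≤
        ((2 * ‖T‖ + 2 * δ) * z + ε) * z + ε := by
  have ca := hC.ca
  filter_upwards [mixA 0 (F := fun x => a x.2.2 * (1 - a (x.2.2 - x.1))) (by fun_prop) hZ hε]
    with N hN
  filter_upwards [mixA 1 (F := fun x => a x.2.2 * (1 - a (x.2.2 - x.1)) * Z (At 0 N x))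
    (by fun_prop) hZ hε] with M hM T
  have h1 := (abs_le.1 (hN T)).2
  have h2 := (abs_le.1 (hM T)).2
  have h3 : fi (fun x => a x.2.2 * (1 - a (x.2.2 - x.1))) T ≤ 2 * ‖T‖ + 2 * δ := by
    refine le_trans (le_of_eq ?_) (hC.io T)
    simpa [fi] using int_snd (fun u => a u * (1 - a (u - T))) 0
  have h0 : ∀ x : T3, 0 ≤ a x.2.2 * (1 - a (x.2.2 - x.1)) := fun x =>
    mul_nonneg (hC.a0 _) (sub_nonneg.2 (hC.a1 _))
  have h4 := fi_nonneg h0 T
  have h5 := fi_nonneg hZ0 T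
  have h6 := fi_nonneg (fun x => mul_nonneg (h0 x) (hZ0 (At 0 N x))) T
  have h7 := mul_le_mul h3 (hz T) h5 (h4.trans h3)
  have h9 : fi (fun x => a x.2.2 * (1 - a (x.2.2 - x.1)) * Z (At 0 N x)) T ≤
    (2 * ‖T‖ + 2 * δ) * z + ε := by linarith
  have h8 := mul_le_mul h9 (hz T) h5 (h6.trans h9)
  linarith

abbrev DD := Metric.closedBall (0 : ℂ) 1

theorem exp_mul_le {θ a : ℝ} (h0 : 0 ≤ θ) (h1 : θ ≤ 1) :
    Real.exp (θ * a) ≤ 1 + θ * (Real.exp a - 1) := by
  have := convexOn_exp.2 (mem_univ 0) (mem_univ a) (sub_nonneg.2 h1) h0 (by ring)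
  simp only [smul_eq_mul, mul_zero, zero_add, Real.exp_zero, mul_one] at this
  linarith

theorem one_add_nonneg {θ a : ℝ} (h0 : 0 ≤ θ) (h1 : θ ≤ 1) :
    0 ≤ 1 + θ * (Real.exp a - 1) := (Real.exp_pos _).le.trans (exp_mul_le h0 h1)

theorem abs_re_DD (c : DD) (u : TT) : |((c : ℂ) * e1 u).re| ≤ 1 := by
  refine (Complex.abs_re_le_norm _).trans ?_
  rw [norm_mul, norm_e1, mul_one]
  exact mem_closedBall_zero_iff.1 c.2

theorem fi_E {l : ℝ} (hl0 : 0 ≤ l) (hl : l ≤ 1) (c : DD) (T : TT) :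
    fi (fun x => Real.exp (l * ((c : ℂ) * e1 (x.1 + x.2.2)).re)) T ≤ 1 + l ^ 2 := by
  have h1 : fi (fun x => (1 + l ^ 2) + l * ((c : ℂ) * e1 (x.1 + x.2.2)).re) T = 1 + l ^ 2 := by
    rw [fi_add (by fun_prop) (by fun_prop), fi_const, fi_const_mul]
    have : fi (fun x => ((c : ℂ) * e1 (x.1 + x.2.2)).re) T = 0 := by
      have h := int_snd (fun u => ((c : ℂ) * e1 T * e1 u).re) 0
      rw [int_re_e1] at h
      simpa only [fi, e1_add, mul_assoc, sub_zero] using h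
    rw [this, mul_zero, add_zero]
  rw [← h1]
  refine fi_mono (by fun_prop) (by fun_prop) (fun x => ?_) T
  have h2 := abs_re_DD c (x.1 + x.2.2)
  set r := ((c : ℂ) * e1 (x.1 + x.2.2)).re
  have h3 : |l * r| ≤ l := by
    rw [abs_mul, abs_of_nonneg hl0]; exact mul_le_of_le_one_right hl0 h2
  have h4 := (abs_le.1 (Real.abs_exp_sub_one_sub_id_le (h3.trans hl))).2
  have h5 : (l * r) ^ 2 ≤ l ^ 2 := sq_le_sq' (abs_le.1 h3).1 (abs_le.1 h3).2
  linarith

theorem E_le {l : ℝ} (hl0 : 0 ≤ l) (hl : l ≤ 1) (c : DD) (u : TT) :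
    Real.exp (l * ((c : ℂ) * e1 u).re) ≤ 1 + 2 * l := by
  have h2 := abs_re_DD c u
  set r := ((c : ℂ) * e1 u).re
  have h3 : |l * r| ≤ l := by
    rw [abs_mul, abs_of_nonneg hl0]; exact mul_le_of_le_one_right hl0 h2
  have h4 := (abs_le.1 (Real.abs_exp_sub_one_le (h3.trans hl))).2
  linarith

/-- The recursion for exponential moments. -/
theorem exp_step {l : ℝ} (hl0 : 0 < l) (hl : l ≤ 1 / 20) {a bp bm : TT → ℝ}
    (hC : Cut (l / 6) a bp bm) {f : T3 → ℂ} (hf : Continuous f) {u : ℝ} (hu0 : 0 ≤ u)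
    (hu : u ≤ l / 2)
    (h : ∀ (c : DD) T, fi (fun x => Real.exp (l * ((c : ℂ) * f x).re)) T ≤ 1 + u) :
    ∀ᶠ N : ℕ in atTop, ∀ᶠ M : ℕ in atTop, ∀ (c : DD) T,
      fi (fun x => Real.exp (l * ((c : ℂ) * e1 (x.1 + x.2.2)).re) *
        (1 + bp x.2.2 * (Real.exp (l * ((c : ℂ) * f (At 0 N x)).re) - 1)) *
        (1 + bm (x.2.2 - x.1) * (Real.exp (l * ((c : ℂ) * f (At 1 M x)).re) - 1))) T ≤
        1 + u + 5 * l ^ 2 := by
  have cp := hC.cp
  have cm := hC.cm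
  let E : DD → T3 → ℝ := fun c x => Real.exp (l * ((c : ℂ) * e1 (x.1 + x.2.2)).re)
  let g : DD → T3 → ℝ := fun c x => Real.exp (l * ((c : ℂ) * f x).re) - 1
  have cE : Continuous fun q : DD × T3 => E q.1 q.2 := by simp only [E]; fun_prop
  have cg : Continuous fun q : DD × T3 => g q.1 q.2 := by simp only [g]; fun_prop
  have hg : ∀ c T, fi (g c) T ≤ u := by
    intro c T
    have := fi_add (f := g c) (g := fun _ => 1) (by fun_prop) (by fun_prop) T
    rw [fi_const] at this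
    have h2 := h c T
    simp only [g, sub_add_cancel] at this
    linarith
  have key : ∀ (e : ℤ) (F : DD → T3 → ℝ), (Continuous fun q : DD × T3 => F q.1 q.2) →
      (∀ c x, 0 ≤ F c x) → ∀ᶠ N : ℕ in atTop, ∀ c T,
        fi (fun x => F c x * g c (At e N x)) T ≤ fi (F c) T * u + l ^ 2 := by
    intro e F hF hF0
    filter_upwards [mix2 (P := DD × TT) e (F := fun q => F q.1.1 (q.1.2, q.2))
      (G := fun q => g q.1.1 (q.1.2, q.2)) (by fun_prop) (by fun_prop) (pow_pos hl0 2)]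
      with N hN c T
    have h1 := (abs_le.1 (hN (c, T) (cs e N T))).2
    have h2 := mul_le_mul_of_nonneg_left (hg c T) (fi_nonneg (hF0 c) T)
    change fi (fun x => F c x * g c (At e N x)) T - fi (F c) T * fi (g c) T ≤ _ at h1
    linarith
  have hE0 : ∀ c x, 0 ≤ E c x := fun c x => (Real.exp_pos _).le
  have hE1 : ∀ c x, E c x ≤ 1 + 2 * l := fun c x => E_le hl0.le (by linarith) c _
  filter_upwards [key 0 (fun c x => E c x * bp x.2.2) (by fun_prop)
      (fun c x => mul_nonneg (hE0 c x) (hC.p0 _)),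
    key 0 (fun c x => E c x * bm (x.2.2 - x.1) * bp x.2.2) (by fun_prop)
      (fun c x => mul_nonneg (mul_nonneg (hE0 c x) (hC.m0 _)) (hC.p0 _))] with N h1 h2
  filter_upwards [key 1 (fun c x => E c x * bm (x.2.2 - x.1) * (1 + bp x.2.2 * g c (At 0 N x)))
      (by fun_prop) (fun c x => mul_nonneg (mul_nonneg (hE0 c x) (hC.m0 _))
        (one_add_nonneg (hC.p0 _) (hC.p1 _)))] with M h3 c T
  have cE' : Continuous (E c) := by fun_prop
  have cg' : Continuous (g c) := by fun_prop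
  have e1 : (fun x : T3 => E c x * (1 + bp x.2.2 * g c (At 0 N x)) *
      (1 + bm (x.2.2 - x.1) * g c (At 1 M x))) = fun x => (E c x + E c x * bp x.2.2 * g c (At 0 N x)) +
        E c x * bm (x.2.2 - x.1) * (1 + bp x.2.2 * g c (At 0 N x)) * g c (At 1 M x) := by
    funext x; ring
  have e2 : (fun x : T3 => E c x * bm (x.2.2 - x.1) * (1 + bp x.2.2 * g c (At 0 N x))) =
      fun x => E c x * bm (x.2.2 - x.1) + E c x * bm (x.2.2 - x.1) * bp x.2.2 * g c (At 0 N x) := by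
    funext x; ring
  have k1 := h1 c T
  have k2 := h2 c T
  have k3 := h3 c T
  rw [e2, fi_add (by fun_prop) (by fun_prop)] at k3
  have k4 : fi (E c) T ≤ 1 + l ^ 2 := fi_E hl0.le (by linarith) c T
  have k5 : fi (fun x => E c x * bp x.2.2) T ≤ (1 + 2 * l) * ∫ u, bp u := by
    rw [← fi_snd bp T, ← fi_const_mul]
    exact fi_mono (by fun_prop) (by fun_prop)
      (fun x => mul_le_mul_of_nonneg_right (hE1 c x) (hC.p0 _)) T
  have k6 : fi (fun x => E c x * bm (x.2.2 - x.1)) T ≤ (1 + 2 * l) * ∫ u, bm u := by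
    rw [← fi_sub bm T, ← fi_const_mul]
    exact fi_mono (by fun_prop) (by fun_prop)
      (fun x => mul_le_mul_of_nonneg_right (hE1 c x) (hC.m0 _)) T
  have k7 : fi (fun x => E c x * bm (x.2.2 - x.1) * bp x.2.2) T ≤ 1 + 2 * l := by
    rw [← fi_const (1 + 2 * l) T]
    refine fi_mono (by fun_prop) (by fun_prop) (fun x => ?_) T
    rw [mul_assoc]
    exact (mul_le_of_le_one_right (hE0 c x) (mul_le_one₀ (hC.m1 _) (hC.p0 _) (hC.p1 _))).trans
      (hE1 c x)
  have k8 := hC.ib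
  change fi (fun x : T3 => E c x * (1 + bp x.2.2 * g c (At 0 N x)) *
      (1 + bm (x.2.2 - x.1) * g c (At 1 M x))) T ≤ _
  rw [e1, fi_add (by fun_prop) (by fun_prop), fi_add (by fun_prop) (by fun_prop)]
  have k9 := mul_le_mul_of_nonneg_right k5 hu0
  have k10 := mul_le_mul_of_nonneg_right (add_le_add k6 (k2.trans
    (add_le_add_left (mul_le_mul_of_nonneg_right k7 hu0) _))) hu0
  have k11 := mul_le_mul_of_nonneg_left k8 (show 0 ≤ (1 + 2 * l) * u by positivity)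
  have k12 : l * u ≤ l ^ 2 / 2 := by nlinarith
  have k13 : u * u ≤ l ^ 2 / 4 := by nlinarith
  have k14 : l * (l * u) ≤ l ^ 2 / 40 := by nlinarith
  have k15 : l * (u * u) ≤ l ^ 2 / 80 := by nlinarith
  nlinarith

end

end Pool.Agent.Lib.MP_730078_an
end

-- part Pool.Agent.Lib.MP_730078_an.Tree2
section

open MeasureTheory Set Filter Topology Complex ComplexConjugate
open scoped ENNReal Real

namespace Pool.Agent.Lib.MP_730078_an

noncomputable section

def ww : ℝ := Real.exp (-(2 * π))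

theorem ww_pos : 0 < ww := Real.exp_pos _

theorem ww_le : ww ≤ 1 / 64 := by
  have h1 : Real.exp 6 = Real.exp 1 ^ 6 := by rw [← Real.exp_nat_mul]; norm_num
  have h2 : (2 : ℝ) ^ 6 ≤ Real.exp 1 ^ 6 := by
    gcongr; linarith [Real.add_one_le_exp 1]
  have h3 : Real.exp 6 ≤ Real.exp (2 * π) := Real.exp_le_exp.2 (by linarith [Real.pi_gt_three])
  rw [ww, Real.exp_neg, ← one_div]
  apply one_div_le_one_div_of_le (by norm_num)
  linarith

def nZ (a : TT → ℝ) (G H : T3 → ℝ) (N M : ℕ) (x : T3) : ℝ :=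
  a x.2.2 * G (At 0 N x) + (1 - a (x.2.2 - x.1)) * H (At 1 M x)

def nP (χp χm Φ : T3 × R3 → ℂ) (N M : ℕ) : T3 × R3 → ℂ :=
  ex (1, 0, 1) + χp * sh 0 N Φ + χm * sh 1 M Φ

theorem re_conj_ge (u : TT) (z : ℂ) : -‖z‖ ≤ (conj (e1 u) * z).re := by
  refine le_trans (le_of_eq ?_) (abs_le.1 (Complex.abs_re_le_norm (conj (e1 u) * z))).1
  rw [norm_mul, Complex.norm_conj, norm_e1, one_mul]

theorem re_est (u : TT) (r r' χ P Q : ℂ) :
    (conj (e1 u) * r').re + (conj (e1 u) * P).re - ‖r - r'‖ - ‖χ - 1‖ * ‖P‖ - ‖Q‖ ≤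
      (conj (e1 u) * (r + χ * P + Q)).re := by
  have e : conj (e1 u) * (r + χ * P + Q) = conj (e1 u) * r' + conj (e1 u) * P +
      conj (e1 u) * (r - r') + conj (e1 u) * ((χ - 1) * P) + conj (e1 u) * Q := by ring
  have h1 := re_conj_ge u (r - r')
  have h2 := re_conj_ge u ((χ - 1) * P)
  have h3 := re_conj_ge u Q
  rw [norm_mul] at h2
  simp only [e, add_re]
  linarith

theorem root_zero (x : T3) : ex (1, 0, 1) (x, 0) = e1 (x.1 + x.2.2) := by
  simp [ex, pair, dot]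

theorem root_om0 (x : T3) :
    (conj (e1 x.1) * ex (1, 0, 1) (x, om 0)).re = ww * (e1 x.2.2).re := by
  have h1 : conj (e1 x.1) * e1 x.1 = 1 := by
    rw [mul_comm, Complex.mul_conj, Complex.normSq_eq_norm_sq, norm_e1]; simp
  have h2 : ex (1, 0, 1) (x, om 0) = e1 x.1 * (ww * e1 x.2.2) := by
    simp [ex, pair, dot, om, ww, e1_add]; ring
  rw [h2, ← mul_assoc, h1, one_mul, re_ofReal_mul]

theorem root_om1 (x : T3) : ‖ex (1, 0, 1) (x, om 1)‖ = ww ^ 2 := by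
  rw [norm_ex, ww, ← Real.exp_nat_mul]
  congr 1
  simp [dot, om]; ring

theorem pos_of_mul {a b : ℝ} (h : 0 < a * b) (ha : 0 ≤ a) : 0 < a ∧ 0 < b :=
  (mul_pos_iff.1 h).resolve_right fun h' => h'.1.not_ge ha

/-- The recursion for the height of the maximal function. -/
theorem ht_step {δ : ℝ} {a bp bm : TT → ℝ} (hC : Cut δ a bp bm) {Φ χp χm : T3 × R3 → ℂ}
    (hΦ : Φ ∈ V S0) (cp : Continuous χp) (cm : Continuous χm) {η R : ℝ} (hR0 : 0 < R)
    (hR : ∀ σ, |σ| ≤ 2 → ∀ x, ‖Φ (x, om σ)‖ ≤ R) (hη : η * R ≤ ww ^ 2 / 4)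
    (hp : ∀ x, ‖χp (x, om 0) - bp x.2.2‖ ≤ η) (hm : ∀ x, ‖χm (x, om 1) - bm (x.2.2 - x.1)‖ ≤ η)
    {Y Z : T3 → ℝ} {n : ℝ}
    (h : ∀ j x, 0 < Y x - j * Z x → ∃ σ, |σ| ≤ 2 ∧
      ww / 2 * j - 2 * ww ^ 2 * n ≤ (conj (e1 x.1) * Φ (x, om σ)).re) :
    ∀ᶠ N : ℕ in atTop, ∀ᶠ M : ℕ in atTop, ∀ j x,
      0 < nZ a (fun x => Y x + Z x) Y N M x - j * nZ a Z Z N M x → ∃ σ, |σ| ≤ 2 ∧
        ww / 2 * j - 2 * ww ^ 2 * (n + 1) ≤ (conj (e1 x.1) * nP χp χm Φ N M (x, om σ)).re := by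
  have hw := ww_pos
  have hβ : 0 < ww ^ 2 / 4 := by positivity
  obtain ⟨Rp, hRp0, -, hRp⟩ := bdd_om cp
  obtain ⟨Rm, hRm0, -, hRm⟩ := bdd_om cm
  obtain ⟨Sp, hSp⟩ := far_small hΦ (div_pos hβ hRp0)
  obtain ⟨Sm, hSm⟩ := far_small hΦ (div_pos hβ hRm0)
  have big : ∀ S : ℝ, ∀ᶠ N : ℕ in atTop, 4 ≤ (N : ℝ) ∧ 2 * S ≤ N := fun S =>
    (tendsto_natCast_atTop_atTop.eventually_ge_atTop _).and
      (tendsto_natCast_atTop_atTop.eventually_ge_atTop _)
  have sm : ∀ {N : ℕ} {ρ : ℝ}, 4 ≤ (N : ℝ) → |ρ| ≤ 2 → |ρ / N| ≤ 1 / 2 := by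
    intro N ρ h1 h2
    rw [abs_div, Nat.abs_cast, div_le_iff₀ (by linarith)]
    linarith
  have mul : ∀ {χ P : ℂ} {A : ℝ}, 0 < A → ‖χ‖ ≤ A → ‖P‖ ≤ ww ^ 2 / 4 / A → ‖χ * P‖ ≤ ww ^ 2 / 4 := by
    intro χ P A hA h1 h2
    rw [norm_mul]
    refine (mul_le_mul h1 h2 (norm_nonneg _) hA.le).trans (le_of_eq ?_)
    field_simp
  have mul' : ∀ {χ χ' P : ℂ}, ‖χ - χ'‖ ≤ ww ^ 2 / 4 / R → ‖χ' - 1‖ ≤ η → ‖P‖ ≤ R →
      ‖χ - 1‖ * ‖P‖ ≤ ww ^ 2 / 2 := by
    intro χ χ' P h1 h2 h3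
    have h4 : ‖χ - 1‖ ≤ ww ^ 2 / 4 / R + η := (norm_sub_le_norm_sub_add_norm_sub _ χ' _).trans
      (add_le_add h1 h2)
    refine (mul_le_mul h4 h3 (norm_nonneg _) ((norm_nonneg _).trans h4)).trans ?_
    rw [add_mul, div_mul_cancel₀ _ hR0.ne']
    linarith
  filter_upwards [big Sp, near_om (continuous_ex (1, 0, 1)) 0 hβ, near_om cp 0 (div_pos hβ hR0)]
    with N hN1 hN2 hN3
  filter_upwards [big Sm, near_om (continuous_ex (1, 0, 1)) 1 hβ, near_om cm 1 (div_pos hβ hR0)]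
    with M hM1 hM2 hM3 j x hx
  have hN0 : (N : ℝ) ≠ 0 := by linarith [hN1.1]
  have hM0 : (M : ℝ) ≠ 0 := by linarith [hM1.1]
  have e : nZ a (fun x => Y x + Z x) Y N M x - j * nZ a Z Z N M x =
      a x.2.2 * (Y (At 0 N x) - (j - 1) * Z (At 0 N x)) +
        (1 - a (x.2.2 - x.1)) * (Y (At 1 M x) - j * Z (At 1 M x)) := by
    simp only [nZ]; ring
  rw [e] at hx
  by_cases h1 : 0 < a x.2.2 * (Y (At 0 N x) - (j - 1) * Z (At 0 N x))
  · obtain ⟨ha, hb⟩ := (pos_of_mul h1 (hC.a0 _))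
    obtain ⟨ρ, hρ, hρ'⟩ := h _ _ hb
    have hσ := abs_le.1 (sm hN1.1 hρ)
    have hσ2 : |0 + ρ / N| ≤ 2 := by rw [abs_le]; constructor <;> linarith [hσ.1, hσ.2]
    refine ⟨0 + ρ / N, hσ2, ?_⟩
    have e1' : Ar 0 N (om (0 + ρ / N)) = om ρ := by
      rw [Ar_om]; congr 1; push_cast; field_simp; ring
    have k1 := re_est x.1 (ex (1, 0, 1) (x, om (0 + ρ / N))) (ex (1, 0, 1) (x, om 0))
      (χp (x, om (0 + ρ / N))) (Φ (At 0 N x, om ρ))
      (χm (x, om (0 + ρ / N)) * Φ (At 1 M x, om (M * (0 + ρ / N - (1 : ℤ)))))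
    have k2 := mul hRm0 (hRm _ hσ2 x) (hSm (M * (0 + ρ / N - (1 : ℤ))) (by
      rw [abs_mul, Nat.abs_cast, abs_of_nonpos (by push_cast; linarith [hσ.2])]
      push_cast
      nlinarith [hσ.2, hM1.1, hM1.2]) (At 1 M x))
    have k3 := mul' (hN3 ρ hρ x) (by simpa [(hC.ap _ ha).1] using hp x) (hR ρ hρ (At 0 N x))
    have k4 := hN2 ρ hρ x
    have k5 := mul_le_mul_of_nonneg_left (hC.ap _ ha).2 hw.le
    rw [root_om0] at k1
    simp only [nP, Pi.add_apply, Pi.mul_apply, sh, e1', Ar_om 1]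
    change _ ≤ (conj (e1 x.1) * _).re at hρ'
    nlinarith
  · obtain ⟨ha, hb⟩ := (pos_of_mul (show 0 < (1 - a (x.2.2 - x.1)) *
      (Y (At 1 M x) - j * Z (At 1 M x)) by linarith) (sub_nonneg.2 (hC.a1 _)))
    obtain ⟨ρ, hρ, hρ'⟩ := h _ _ hb
    have hσ := abs_le.1 (sm hM1.1 hρ)
    have hσ2 : |1 + ρ / M| ≤ 2 := by rw [abs_le]; constructor <;> linarith [hσ.1, hσ.2]
    refine ⟨1 + ρ / M, hσ2, ?_⟩
    have e1' : Ar 1 M (om (1 + ρ / M)) = om ρ := by
      rw [Ar_om]; congr 1; push_cast; field_simp; ring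
    have k1 := re_est x.1 (ex (1, 0, 1) (x, om (1 + ρ / M))) (ex (1, 0, 1) (x, om 1))
      (χm (x, om (1 + ρ / M))) (Φ (At 1 M x, om ρ))
      (χp (x, om (1 + ρ / M)) * Φ (At 0 N x, om (N * (1 + ρ / M - (0 : ℤ)))))
    have k2 := mul hRp0 (hRp _ hσ2 x) (hSp (N * (1 + ρ / M - (0 : ℤ))) (by
      rw [abs_mul, Nat.abs_cast, abs_of_nonneg (by push_cast; linarith [hσ.1])]
      push_cast
      nlinarith [hσ.1, hN1.1, hN1.2]) (At 0 N x))
    have k3 := mul' (hM3 ρ hρ x) (by simpa [hC.am _ (sub_pos.1 ha)] using hm x)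
      (hR ρ hρ (At 1 M x))
    have k4 := hM2 ρ hρ x
    have k5 := re_conj_ge x.1 (ex (1, 0, 1) (x, om 1))
    rw [root_om1] at k5
    simp only [nP, Pi.add_apply, Pi.mul_apply, sh, e1', Ar_om 0]
    change _ ≤ (conj (e1 x.1) * _).re at hρ'
    rw [add_right_comm]
    nlinarith

end

end Pool.Agent.Lib.MP_730078_an
end
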